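import Pool.Agent.Helper94.MDS.DVRCrit

/-!
# Alternating forms and local frames
-/

noncomputable section

open KaehlerDifferential Polynomial

namespace Pool.Agent.Helper94.LCY

variable {K : Type} [Field K] [Algebra ℂ K]

/-! ### Logarithmic differentials -/

/-- The logarithmic differential `dg / g`. -/
def dlog (g : K) : Ω[K⁄ℂ] := g⁻¹ • D ℂ K g

theorem D_eq_smul_dlog {g : K} (hg : g ≠ 0) : D ℂ K g = g • dlog g := by
  rw [dlog, smul_smul, mul_inv_cancel₀ hg, one_smul]

theorem dlog_mul {f g : K} (hf : f ≠ 0) (hg : g ≠ 0) : dlog (f * g) = dlog f + dlog g := by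
  rw [dlog, dlog, dlog, Derivation.leibniz, smul_add, smul_smul, smul_smul, add_comm]
  congr 2
  · field_simp
  · field_simp

theorem dlog_one : dlog (1 : K) = 0 := by
  rw [dlog, Derivation.map_one_eq_zero, smul_zero]

theorem dlog_zero : dlog (0 : K) = 0 := by
  rw [dlog, map_zero, smul_zero]

theorem dlog_inv {f : K} (hf : f ≠ 0) : dlog f⁻¹ = - dlog f := by
  have h := dlog_mul hf (inv_ne_zero hf)
  rw [mul_inv_cancel₀ hf, dlog_one] at h
  exact (neg_eq_of_add_eq_zero_right h.symm).symm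

theorem dlog_pow (f : K) (n : ℕ) : dlog (f ^ n) = (n : K) • dlog f := by
  by_cases hf : f = 0
  · subst hf
    rw [dlog_zero, smul_zero]
    rcases n with _ | n
    · rw [pow_zero, dlog_one]
    · rw [zero_pow (by omega), dlog_zero]
  · induction n with
    | zero => rw [pow_zero, dlog_one, Nat.cast_zero, zero_smul]
    | succ n ih =>
      rw [pow_succ, dlog_mul (pow_ne_zero n hf) hf, ih, Nat.cast_add, Nat.cast_one, add_smul,
        one_smul]

theorem dlog_zpow {f : K} (hf : f ≠ 0) (n : ℤ) : dlog (f ^ n) = (n : K) • dlog f := by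
  obtain ⟨m, rfl | rfl⟩ := n.eq_nat_or_neg
  · rw [zpow_natCast, dlog_pow, Int.cast_natCast]
  · rw [zpow_neg, zpow_natCast, dlog_inv (pow_ne_zero m hf), dlog_pow, Int.cast_neg,
      Int.cast_natCast, neg_smul]

theorem dlog_prod {ι : Type*} {s : Finset ι} {f : ι → K} (h : ∀ i ∈ s, f i ≠ 0) :
    dlog (∏ i ∈ s, f i) = ∑ i ∈ s, dlog (f i) := by
  classical
  induction s using Finset.induction_on with
  | empty => rw [Finset.prod_empty, Finset.sum_empty, dlog_one]
  | insert a s ha ih =>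
    rw [Finset.prod_insert ha, Finset.sum_insert ha, dlog_mul (h a (Finset.mem_insert_self _ _))
      (Finset.prod_ne_zero_iff.2 fun i hi => h i (Finset.mem_insert_of_mem hi)),
      ih fun i hi => h i (Finset.mem_insert_of_mem hi)]

theorem dlog_algebraMap (z : ℂ) : dlog (algebraMap ℂ K z) = 0 := by
  rw [dlog, Derivation.map_algebraMap, smul_zero]

/-! ### Alternating maps and bases -/

section

omit [Algebra ℂ K]

variable {M : Type} [AddCommGroup M] [Module K M] {n : ℕ}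

theorem alt_eq_det (A : M [⋀^Fin n]→ₗ[K] K) (b : Module.Basis (Fin n) K M) (ξ : Fin n → M) :
    A ξ = (Matrix.of fun i j => b.repr (ξ i) j).det * A b := by
  rw [← smul_eq_mul, ← alt_det]
  congr 1
  funext i
  exact (b.sum_repr (ξ i)).symm

theorem alt_update (A : M [⋀^Fin n]→ₗ[K] K) (b : Module.Basis (Fin n) K M) (i : Fin n) (ζ : M) :
    A (Function.update b i ζ) = b.repr ζ i * A b := by
  conv_lhs => rw [← b.sum_repr ζ]
  rw [AlternatingMap.map_update_sum, Finset.sum_eq_single i]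
  · rw [AlternatingMap.map_update_smul, Function.update_eq_self, smul_eq_mul]
  · intro j _ hj
    rw [AlternatingMap.map_update_smul]
    have : A (Function.update b i (b j)) = 0 := by
      refine A.map_eq_zero_of_eq _ (i := i) (j := j) ?_ hj.symm
      rw [Function.update_self, Function.update_of_ne hj]
    rw [this, smul_zero]
  · intro h
    exact absurd (Finset.mem_univ i) h

theorem alt_ne_zero {A : M [⋀^Fin n]→ₗ[K] K} (hA : A ≠ 0) (b : Module.Basis (Fin n) K M) :
    A b ≠ 0 := by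
  intro h0
  apply hA
  ext ξ
  rw [alt_eq_det A b ξ, h0, mul_zero]
  rfl

/-- An alternating map which does not vanish gives a basis. -/
theorem exists_basis_of_alt {A : M [⋀^Fin n]→ₗ[K] K} (b : Module.Basis (Fin n) K M)
    {ξ : Fin n → M} (h : A ξ ≠ 0) : ∃ b' : Module.Basis (Fin n) K M, ∀ i, b' i = ξ i := by
  have h1 : (Matrix.of fun i j => b.repr (ξ i) j).det ≠ 0 := by
    intro h0
    rw [alt_eq_det A b ξ, h0, zero_mul] at h
    exact h rfl
  have h2 : b.det ξ ≠ 0 := by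
    rw [Module.Basis.det_apply, ← Matrix.det_transpose]
    exact h1
  have h3 : IsUnit (b.det ξ) := isUnit_iff_ne_zero.2 h2
  rw [← Module.Basis.is_basis_iff_det] at h3
  exact ⟨Module.Basis.mk h3.1 h3.2.ge, fun i => Module.Basis.mk_apply _ _ _⟩

end

/-! ### Frames -/

/-- A frame of the regular differentials along the discrete valuation ring `v`: a uniformizer
and elements whose residues are a transcendence basis. -/
structure Frame (v : ValuationSubring K) (m : ℕ) where
  t : v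
  irr : Irreducible t
  y : Fin m → K
  res : ResIndep v y
  b : Module.Basis (Fin (m + 1)) K (Ω[K⁄ℂ])
  b_zero : b 0 = D ℂ K (t : K)
  b_succ : ∀ i : Fin m, b i.succ = D ℂ K (y i)
  int : ∀ x ∈ v, ∀ j, b.repr (D ℂ K x) j ∈ v

theorem nonempty_frame {m : ℕ} (hfg : (⊤ : IntermediateField ℂ K).FG)
    (htr : Algebra.trdeg ℂ K = (m + 1 : ℕ)) {v : ValuationSubring K} [IsDiscreteValuationRing v]
    {y : Fin m → K} (hy : ResIndep v y) {t : v} (ht : Irreducible t) :
    ∃ F : Frame v m, F.t = t ∧ F.y = y := by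
  obtain ⟨b, h0, hs, hi⟩ := exists_frame hfg htr hy ht
  exact ⟨⟨t, ht, y, hy, b, h0, hs, hi⟩, rfl, rfl⟩

namespace Frame

variable {m : ℕ} {v : ValuationSubring K} (F : Frame v m)

/-- The derivations dual to a frame. -/
def δ (j : Fin (m + 1)) : Derivation ℂ K K := (F.b.coord j).compDer (D ℂ K)

theorem δ_apply (j : Fin (m + 1)) (x : K) : F.δ j x = F.b.repr (D ℂ K x) j := rfl

theorem δ_mem (j : Fin (m + 1)) {x : K} (hx : x ∈ v) : F.δ j x ∈ v := F.int x hx j

theorem t_ne : (F.t : K) ≠ 0 := irr_ne_zero F.irr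

theorem δ_zero_t : F.δ 0 (F.t : K) = 1 := by
  rw [δ_apply, ← F.b_zero, Module.Basis.repr_self, Finsupp.single_eq_same]

theorem δ_succ_t (j : Fin m) : F.δ j.succ (F.t : K) = 0 := by
  rw [δ_apply, ← F.b_zero, Module.Basis.repr_self, Finsupp.single_eq_of_ne]
  exact Fin.succ_ne_zero j

theorem δ_zero_y (i : Fin m) : F.δ 0 (F.y i) = 0 := by
  rw [δ_apply, ← F.b_succ, Module.Basis.repr_self, Finsupp.single_eq_of_ne]
  exact (Fin.succ_ne_zero i).symm

theorem δ_succ_y (i j : Fin m) : F.δ j.succ (F.y i) = if i = j then 1 else 0 := by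
  rw [δ_apply, ← F.b_succ, Module.Basis.repr_self, Finsupp.single_apply]
  simp

theorem ord_t [IsDiscreteValuationRing v] : ord v (F.t : K) = 1 := ord_irr F.irr

/-- The coordinates of a logarithmic differential. -/
theorem repr_dlog [IsDiscreteValuationRing v] {g : K} (hg : g ≠ 0) (j : Fin (m + 1)) :
    ∃ s ∈ v, F.b.repr (dlog g) j = (if j = 0 then ((ord v g : ℤ) : K) / F.t else 0) + s := by
  have ht0 := F.t_ne
  set k := ord v g with hk
  set u := g * (F.t : K) ^ (-k) with hu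
  have hu0 : u ≠ 0 := mul_ne_zero hg (zpow_ne_zero _ ht0)
  have hou : ord v u = 0 := by
    rw [hu, ord_mul hg (zpow_ne_zero _ ht0), ord_zpow ht0, F.ord_t, ← hk]
    omega
  have hg' : g = u * (F.t : K) ^ k := by
    rw [hu, mul_assoc, ← zpow_add₀ ht0]
    simp
  refine ⟨u⁻¹ * F.δ j u, v.mul_mem _ _ (inv_mem_of_ord_zero hu0 hou)
    (F.δ_mem j (mem_of_ord_zero hu0 hou)), ?_⟩
  have hdu : F.b.repr (dlog u) j = u⁻¹ * F.δ j u := by
    rw [dlog, map_smul, Finsupp.smul_apply]
    rfl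
  rw [hg', dlog_mul hu0 (zpow_ne_zero _ ht0), dlog_zpow ht0, map_add, map_smul, Finsupp.add_apply,
    Finsupp.smul_apply, add_comm, hdu]
  congr 1
  · rw [dlog, map_smul, Finsupp.smul_apply, ← F.b_zero, Module.Basis.repr_self,
      Finsupp.single_apply, smul_eq_mul, smul_eq_mul]
    by_cases hj : j = 0
    · subst hj
      rw [if_pos rfl, if_pos rfl, mul_one, div_eq_mul_inv]
    · rw [if_neg hj, if_neg (Ne.symm hj), mul_zero, mul_zero]

theorem repr_dlog_mem [IsDiscreteValuationRing v] {g : K} (hg : g ≠ 0) (h : ord v g = 0)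
    (j : Fin (m + 1)) : F.b.repr (dlog g) j ∈ v := by
  obtain ⟨s, hs, h1⟩ := F.repr_dlog hg j
  rw [h1, h]
  simpa using hs

theorem repr_dlog_zero [IsDiscreteValuationRing v] {g : K} (hg : g ≠ 0) (h : ord v g ≠ 0) :
    F.b.repr (dlog g) 0 ≠ 0 ∧ ord v (F.b.repr (dlog g) 0) = -1 := by
  obtain ⟨s, hs, h1⟩ := F.repr_dlog hg 0
  rw [if_pos rfl] at h1
  have hchar : CharZero K := charZero_of_injective_algebraMap (algebraMap ℂ K).injective
  have h2 : ((ord v g : ℤ) : K) ≠ 0 := Int.cast_ne_zero.2 h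
  have h3 : ord v (((ord v g : ℤ) : K) / F.t) = -1 := by
    rw [ord_div h2 F.t_ne, F.ord_t]
    have : ((ord v g : ℤ) : K) = algebraMap ℂ K ((ord v g : ℤ) : ℂ) := by simp
    rw [this, ord_C]
    omega
  have h4 := ord_add_of_lt (v := v) (f := ((ord v g : ℤ) : K) / F.t) (g := s)
    (div_ne_zero h2 F.t_ne) (by
      rw [h3]
      exact (vge_zero_iff.2 hs).mono (by omega))
  rw [h1]
  exact ⟨h4.1, h4.2.trans h3⟩

variable (A : Ω[K⁄ℂ] [⋀^Fin (m + 1)]→ₗ[K] K)

/-- The value on regular differentials. -/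
theorem alt_mem {ξ : Fin (m + 1) → Ω[K⁄ℂ]} (h : ∀ i j, F.b.repr (ξ i) j ∈ v) :
    ∃ a ∈ v, A ξ = a * A F.b := by
  refine ⟨_, ?_, alt_eq_det A F.b ξ⟩
  exact det_mem fun i j => h i j

/-- The value on logarithmic differentials. -/
theorem alt_log_mem {ξ : Fin (m + 1) → Ω[K⁄ℂ]} (h0 : ∀ i, (F.t : K) * F.b.repr (ξ i) 0 ∈ v)
    (h1 : ∀ i (j : Fin m), F.b.repr (ξ i) j.succ ∈ v) :
    ∃ a ∈ v, (F.t : K) * A ξ = a * A F.b := by
  set C : Matrix (Fin (m + 1)) (Fin (m + 1)) K := Matrix.of fun i j => F.b.repr (ξ i) j with hC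
  refine ⟨(F.t : K) * C.det, ?_, ?_⟩
  · have h2 : (F.t : K) * C.det = (C.updateCol 0 ((F.t : K) • fun i => C i 0)).det := by
      rw [Matrix.det_updateCol_smul]
      congr 2
      ext i j
      by_cases hj : j = 0
      · subst hj
        rw [Matrix.updateCol_self]
      · rw [Matrix.updateCol_ne hj]
    rw [h2]
    refine det_mem fun i j => ?_
    refine Fin.cases ?_ (fun j => ?_) j
    · rw [Matrix.updateCol_self]
      exact h0 i
    · rw [Matrix.updateCol_ne (Fin.succ_ne_zero j)]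
      exact h1 i j
  · rw [alt_eq_det A F.b ξ, mul_assoc]

theorem vge_alt [IsDiscreteValuationRing v] {ξ : Fin (m + 1) → Ω[K⁄ℂ]}
    (h : ∀ i j, F.b.repr (ξ i) j ∈ v) : vge v (ord v (A F.b)) (A ξ) := by
  obtain ⟨a, ha, h1⟩ := F.alt_mem A h
  rw [h1]
  exact vge.mem_mul ha (vge_ord _)

theorem vge_alt_log [IsDiscreteValuationRing v] {g : Fin (m + 1) → K}
    (hg : ∀ i, g i ≠ 0) : vge v (ord v (A F.b) - 1) (A fun i => dlog (g i)) := by
  have hC : ∀ n : ℤ, (n : K) ∈ v := fun n => by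
    have : (n : K) = algebraMap ℂ K (n : ℂ) := by simp
    rw [this]
    exact C_mem v _
  obtain ⟨a, ha, h1⟩ := F.alt_log_mem A (ξ := fun i => dlog (g i)) (by
      intro i
      obtain ⟨s, hs, h1⟩ := F.repr_dlog (hg i) 0
      rw [h1, if_pos rfl, mul_add]
      refine v.add_mem _ _ ?_ (v.mul_mem _ _ F.t.2 hs)
      rw [mul_div_cancel₀ _ F.t_ne]
      exact hC _) (by
      intro i j
      obtain ⟨s, hs, h1⟩ := F.repr_dlog (hg i) j.succ
      rw [h1, if_neg (Fin.succ_ne_zero j), zero_add]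
      exact hs)
  have h2 : vge v (ord v (A F.b)) ((F.t : K) * A fun i => dlog (g i)) := by
    rw [h1]
    exact vge.mem_mul ha (vge_ord _)
  rcases h2 with h2 | h2
  · left
    exact (mul_eq_zero.1 h2).resolve_left F.t_ne
  · by_cases h0 : (A fun i => dlog (g i)) = 0
    · left; exact h0
    right
    rw [ord_mul F.t_ne h0, F.ord_t] at h2
    omega

/-- The value on a form `dlog g ∧ dlog y_1 ∧ ... ∧ dlog y_m`. -/
theorem alt_cons (ζ : Ω[K⁄ℂ]) : A (Fin.cons ζ fun i => dlog (F.y i)) =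
    (∏ i, (F.y i)⁻¹) * (F.b.repr ζ 0 * A F.b) := by
  rw [← alt_update, ← smul_eq_mul]
  have h1 : (∏ i, (F.y i)⁻¹) = ∏ i, (Fin.cons 1 (fun i => (F.y i)⁻¹) : Fin (m + 1) → K) i := by
    rw [Fin.prod_univ_succ]
    simp
  rw [h1, ← AlternatingMap.map_smul_univ]
  congr 1
  funext i
  refine Fin.cases ?_ (fun i => ?_) i
  · rw [Fin.cons_zero, Fin.cons_zero, one_smul, Function.update_self]
  · rw [Fin.cons_succ, Fin.cons_succ, Function.update_of_ne (Fin.succ_ne_zero i), F.b_succ]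
    rfl

theorem ord_alt_cons [IsDiscreteValuationRing v] (hA : A ≠ 0) {g : K} (hg : g ≠ 0)
    (h : ord v g ≠ 0) : A (Fin.cons (dlog g) fun i => dlog (F.y i)) ≠ 0 ∧
      ord v (A (Fin.cons (dlog g) fun i => dlog (F.y i))) = ord v (A F.b) - 1 := by
  obtain ⟨h1, h2⟩ := F.repr_dlog_zero hg h
  have h3 := alt_ne_zero hA F.b
  have h4 : (∏ i, (F.y i)⁻¹) ≠ 0 :=
    Finset.prod_ne_zero_iff.2 fun i _ => inv_ne_zero (F.res.ne_zero i)
  rw [F.alt_cons]
  refine ⟨mul_ne_zero h4 (mul_ne_zero h1 h3), ?_⟩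
  rw [ord_mul h4 (mul_ne_zero h1 h3), ord_mul h1 h3, h2,
    ord_prod fun i _ => inv_ne_zero (F.res.ne_zero i), Finset.sum_eq_zero]
  · omega
  · intro i _
    rw [ord_inv (F.res.ne_zero i), (ord_eq_zero_iff (F.res.ne_zero i)).2 (F.res.val_eq_one i),
      neg_zero]

end Frame

end Pool.Agent.Helper94.LCY
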