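import Pool.Agent.Helper94.MDS.Gen

/-!
# Log Calabi-Yau data in terms of valuations

`CYData K m`: the function field `K` of transcendence degree `m + 1`, the prime divisors `Pr`,
the boundary `Bd`, and the canonical form, given by the alternating form `A` dual to it.
-/

noncomputable section

open KaehlerDifferential

namespace Pool.Agent.Helper94.LCY

/-- A log Calabi-Yau pair of index one, in terms of the valuations of its prime divisors. -/
structure CYData (K : Type) [Field K] [Algebra ℂ K] (m : ℕ) where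
  fg : (⊤ : IntermediateField ℂ K).FG
  tr : Algebra.trdeg ℂ K = (m + 1 : ℕ)
  Pr : Set (ValuationSubring K)
  Bd : Set (ValuationSubring K)
  Bd_sub : Bd ⊆ Pr
  Bd_fin : Bd.Finite
  dvr : ∀ v ∈ Pr, IsDiscreteValuationRing v
  fin : ∀ f : K, f ≠ 0 → {v ∈ Pr | ord v f ≠ 0}.Finite
  res : ∀ v ∈ Pr, ∃ y : Fin m → K, ResIndep v y
  A : Ω[K⁄ℂ] [⋀^Fin (m + 1)]→ₗ[K] K
  A_ne : A ≠ 0
  ordA_U : ∀ v ∈ Pr, v ∉ Bd → ∀ F : Frame v m, ord v (A F.b) = 0
  ordA_B : ∀ v ∈ Bd, ∀ F : Frame v m, ord v (A F.b) = 1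
  lc : ∀ v : ValuationSubring K, IsDiscreteValuationRing v → ∀ F : Frame v m,
    ord v (A F.b) ≤ 1
  const : ∀ g : K, (∀ v ∈ Pr, g ∈ v) → ∃ c : ℂ, g = algebraMap ℂ K c

namespace CYData

variable {K : Type} [Field K] [Algebra ℂ K] {m : ℕ} (X : CYData K m)

/-- The prime divisors which are not in the boundary. -/
def U : Set (ValuationSubring K) := {v ∈ X.Pr | v ∉ X.Bd}

variable {X}

theorem dvr_U {v : ValuationSubring K} (hv : v ∈ X.U) : IsDiscreteValuationRing v :=
  X.dvr v hv.1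

theorem dvr_B {v : ValuationSubring K} (hv : v ∈ X.Bd) : IsDiscreteValuationRing v :=
  X.dvr v (X.Bd_sub hv)

theorem mem_U_or_Bd {v : ValuationSubring K} (hv : v ∈ X.Pr) : v ∈ X.U ∨ v ∈ X.Bd := by
  by_cases h : v ∈ X.Bd
  · exact Or.inr h
  · exact Or.inl ⟨hv, h⟩

variable (X)

/-- Sections of the divisor `E`. -/
def sections (E : ValuationSubring K → ℤ) : Submodule ℂ K where
  carrier := {g | ∀ v ∈ X.Pr, vge v (-(E v)) g}
  zero_mem' := fun _ _ => vge.zero
  add_mem' := by
    intro f g hf hg v hv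
    have := X.dvr v hv
    exact (hf v hv).add (hg v hv)
  smul_mem' := by
    intro c g hg v hv
    have := X.dvr v hv
    exact (hg v hv).smulC c

theorem mem_sections {E : ValuationSubring K → ℤ} {g : K} :
    g ∈ X.sections E ↔ ∀ v ∈ X.Pr, vge v (-(E v)) g := Iff.rfl

/-- The functions which are regular outside of the boundary. -/
def Q : Subring K where
  carrier := {g | ∀ v ∈ X.U, g ∈ v}
  zero_mem' := fun v _ => v.zero_mem
  one_mem' := fun v _ => v.one_mem
  add_mem' := fun hf hg v hv => v.add_mem _ _ (hf v hv) (hg v hv)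
  mul_mem' := fun hf hg v hv => v.mul_mem _ _ (hf v hv) (hg v hv)
  neg_mem' := fun hf v hv => v.neg_mem _ (hf v hv)

theorem mem_Q {g : K} : g ∈ X.Q ↔ ∀ v ∈ X.U, g ∈ v := Iff.rfl

theorem C_mem_Q (z : ℂ) : algebraMap ℂ K z ∈ X.Q := fun v hv => by
  have := dvr_U hv
  exact C_mem v z

/-- A divisor supported on the boundary. -/
def BdDiv (E : ValuationSubring K → ℤ) : Prop := ∀ v ∈ X.U, E v = 0

/-- The polar divisor of a function. -/
def pol (g : K) : ValuationSubring K → ℤ := fun v => max 0 (-(ord v g))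

omit [Algebra ℂ K] in
theorem pol_nonneg (g : K) (v : ValuationSubring K) : 0 ≤ pol g v := le_max_left _ _

theorem mem_sections_pol (g : K) : g ∈ X.sections (pol g) := fun v _ => by
  right
  unfold pol
  omega

theorem bdDiv_pol {g : K} (hg : g ∈ X.Q) : X.BdDiv (pol g) := by
  intro v hv
  have := dvr_U hv
  unfold pol
  by_cases h0 : g = 0
  · rw [h0, ord_zero]
    simp
  · have := (ord_nonneg_iff h0).2 (hg v hv)
    omega

theorem sections_le_Q {E : ValuationSubring K → ℤ} (hE : X.BdDiv E) {g : K}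
    (hg : g ∈ X.sections E) : g ∈ X.Q := by
  intro v hv
  have := dvr_U hv
  have h := hg v hv.1
  rw [hE v hv, neg_zero] at h
  exact h.mem

theorem sections_mul {E E' : ValuationSubring K → ℤ} {f g : K} (hf : f ∈ X.sections E)
    (hg : g ∈ X.sections E') : f * g ∈ X.sections (E + E') := by
  intro v hv
  have := X.dvr v hv
  have := (hf v hv).mul (hg v hv)
  refine this.mono ?_
  simp only [Pi.add_apply]
  omega

/-- A frame at a prime divisor. -/
theorem exists_frame {v : ValuationSubring K} (hv : v ∈ X.Pr) : Nonempty (Frame v m) := by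
  have := X.dvr v hv
  obtain ⟨y, hy⟩ := X.res v hv
  obtain ⟨t, ht⟩ := exists_irr v
  obtain ⟨F, -, -⟩ := nonempty_frame X.fg X.tr hy ht
  exact ⟨F⟩

include X in
theorem exists_frame_of {v : ValuationSubring K} [IsDiscreteValuationRing v] {y : Fin m → K}
    (hy : ResIndep v y) : ∃ F : Frame v m, F.y = y := by
  obtain ⟨t, ht⟩ := exists_irr v
  obtain ⟨F, -, h⟩ := nonempty_frame X.fg X.tr hy ht
  exact ⟨F, h⟩

/-- Values of `A` on regular forms outside of the boundary. -/
theorem A_mem_U {v : ValuationSubring K} (hv : v ∈ X.U) (F : Frame v m)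
    {ξ : Fin (m + 1) → Ω[K⁄ℂ]} (h : ∀ i j, F.b.repr (ξ i) j ∈ v) : X.A ξ ∈ v := by
  have := dvr_U hv
  have h1 := F.vge_alt X.A h
  rw [X.ordA_U v hv.1 hv.2 F] at h1
  exact h1.mem

/-- Values of `A` on logarithmic forms along the boundary. -/
theorem A_mem_B {v : ValuationSubring K} (hv : v ∈ X.Bd) {g : Fin (m + 1) → K}
    (hg : ∀ i, g i ≠ 0) : (X.A fun i => dlog (g i)) ∈ v := by
  have := dvr_B hv
  obtain ⟨F⟩ := X.exists_frame (X.Bd_sub hv)
  have h1 := F.vge_alt_log X.A hg
  rw [X.ordA_B v hv F, sub_self] at h1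
  exact h1.mem

/-- The center of a valuation ring containing `Q`. -/
theorem exists_center {V : ValuationSubring K} [IsDiscreteValuationRing V]
    (hQ : X.Q ≤ V.toSubring) {q : K} (hqV : V.valuation q < 1) (hq0 : q ≠ 0) :
    ∃ P ∈ X.U, 0 < ord P q ∧ ∀ x ∈ X.Q, vge P 1 x → vge V 1 x := by
  classical
  have hfin : {v ∈ X.Pr | ord v q ≠ 0}.Finite := X.fin q hq0
  have hqV' : 0 < ord V q := (ord_pos_iff hq0).2 hqV
  by_contra hcon
  push Not at hcon
  -- choose bad elements
  have h1 : ∀ P : ValuationSubring K, ∃ x : K, x ∈ X.Q ∧ (P ∈ X.U → 0 < ord P q → vge P 1 x) ∧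
      ¬ vge V 1 x := by
    intro P
    by_cases hP : P ∈ X.U ∧ 0 < ord P q
    · obtain ⟨x, hx, hx1, hx2⟩ := hcon P hP.1 hP.2
      exact ⟨x, hx, fun _ _ => hx1, hx2⟩
    · refine ⟨1, X.Q.one_mem, fun h2 h3 => absurd ⟨h2, h3⟩ hP, ?_⟩
      intro h
      have := h.le one_ne_zero
      rw [ord_one] at this
      omega
  choose x hx hx1 hx2 using h1
  have hx0 : ∀ P, x P ≠ 0 := fun P h => hx2 P (by rw [h]; exact vge.zero)
  have hxV : ∀ P, ord V (x P) = 0 := by
    intro P
    have h2 := (ord_nonneg_iff (hx0 P)).2 (hQ (hx P))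
    have h3 : ¬ 1 ≤ ord V (x P) := fun h => hx2 P (Or.inr h)
    omega
  set S := hfin.toFinset with hS
  set y := ∏ P ∈ S, x P with hy
  have hy0 : y ≠ 0 := Finset.prod_ne_zero_iff.2 fun P _ => hx0 P
  set N := (∑ P ∈ S, |ord P q|).toNat with hN
  have hmem : y ^ N / q ∈ X.Q := by
    intro P hP
    have := dvr_U hP
    rw [← ord_nonneg_iff (div_ne_zero (pow_ne_zero _ hy0) hq0),
      ord_div (pow_ne_zero _ hy0) hq0, ord_pow hy0]
    have hyP : 0 ≤ ord P y := by
      rw [hy, ord_prod fun P _ => hx0 P]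
      exact Finset.sum_nonneg fun P' _ => (ord_nonneg_iff (hx0 P')).2 (hx P' P hP)
    by_cases h2 : 0 < ord P q
    · have hPS : P ∈ S := by
        rw [hS, Set.Finite.mem_toFinset]
        exact ⟨hP.1, h2.ne'⟩
      have h3 : 1 ≤ ord P y := by
        rw [hy, ord_prod fun P _ => hx0 P, ← Finset.add_sum_erase _ _ hPS]
        have h4 : 1 ≤ ord P (x P) := (hx1 P hP h2).le (hx0 P)
        have h5 : 0 ≤ ∑ P' ∈ S.erase P, ord P (x P') :=
          Finset.sum_nonneg fun P' _ => (ord_nonneg_iff (hx0 P')).2 (hx P' P hP)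
        omega
      have h4 : ord P q ≤ N := by
        rw [hN, Int.toNat_of_nonneg (Finset.sum_nonneg fun _ _ => abs_nonneg _)]
        refine le_trans (le_abs_self _) ?_
        exact Finset.single_le_sum (f := fun P => |ord P q|) (fun _ _ => abs_nonneg _) hPS
      nlinarith
    · nlinarith
  have h5 := (ord_nonneg_iff (div_ne_zero (pow_ne_zero _ hy0) hq0)).2 (hQ hmem)
  rw [ord_div (pow_ne_zero _ hy0) hq0, ord_pow hy0, hy, ord_prod fun P _ => hx0 P,
    Finset.sum_eq_zero fun P _ => hxV P, mul_zero] at h5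
  omega

end CYData

end Pool.Agent.Helper94.LCY
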