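import Pool.Agent.Helper94.MDS.CY

/-!
# Semisimplicity of logarithmic derivations
-/

noncomputable section

open KaehlerDifferential

namespace Pool.Agent.Helper94.LCY

variable {K : Type} [Field K] [Algebra ℂ K]

/-! ### Derivations and algebraic elements -/

theorem deriv_adjoin_eq_zero {ι : Type} {y : ι → K} (δ : Derivation ℂ K K)
    (h : ∀ i, δ (y i) = 0) {z : K} (hz : z ∈ IntermediateField.adjoin ℂ (Set.range y)) :
    δ z = 0 := by
  induction hz using IntermediateField.adjoin_induction with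
  | mem y hy =>
    obtain ⟨i, rfl⟩ := hy
    exact h i
  | algebraMap z => exact Derivation.map_algebraMap _ _
  | add x y _ _ hx hy => rw [map_add, hx, hy, add_zero]
  | inv x _ hx => rw [Derivation.leibniz_inv, hx, smul_zero]
  | mul x y _ _ hx hy => rw [Derivation.leibniz, hx, hy, smul_zero, smul_zero, add_zero]

theorem deriv_eq_zero_of_algebraic (δ : Derivation ℂ K K) {L : IntermediateField ℂ K}
    (hδ : ∀ z ∈ L, δ z = 0) {x : K} (hx : IsAlgebraic L x) : δ x = 0 := by
  have h1 : ∀ P : Polynomial L, δ (Polynomial.aeval x P) =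
      Polynomial.aeval x (Polynomial.derivative P) * δ x := by
    intro P
    induction P using Polynomial.induction_on' with
    | add p q hp hq => rw [map_add, map_add, hp, hq, Polynomial.derivative_add, map_add, add_mul]
    | monomial n a =>
      rw [Polynomial.derivative_monomial, Polynomial.aeval_monomial, Polynomial.aeval_monomial,
        Derivation.leibniz, Derivation.leibniz_pow, map_mul, map_natCast]
      have : δ (algebraMap L K a) = 0 := hδ a a.2
      rw [this]
      simp only [smul_eq_mul, nsmul_eq_mul]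
      ring
  have hint : IsIntegral L x := hx.isIntegral
  have h2 := h1 (minpoly L x)
  rw [minpoly.aeval, map_zero] at h2
  have h3 : (minpoly L x).Separable := (minpoly.irreducible hint).separable
  have h4 : Polynomial.aeval x (Polynomial.derivative (minpoly L x)) ≠ 0 :=
    h3.aeval_derivative_ne_zero (minpoly.aeval L x)
  rcases mul_eq_zero.1 h2.symm with h5 | h5
  · exact absurd h5 h4
  · exact h5

open scoped IntermediateField.algebraAdjoinAdjoin in
theorem cons_of_transcendental {m : ℕ} {y : Fin m → K} (hy : AlgebraicIndependent ℂ y) {g : K}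
    (hg : Transcendental (IntermediateField.adjoin ℂ (Set.range y)) g) :
    AlgebraicIndependent ℂ (Fin.cons g y : Fin (m + 1) → K) := by
  have hg' : Transcendental (Algebra.adjoin ℂ (Set.range y)) g := by
    intro halg
    exact hg ((IsFractionRing.isAlgebraic_iff (Algebra.adjoin ℂ (Set.range y))
      (IntermediateField.adjoin ℂ (Set.range y)) K).1 halg)
  have h1 : AlgebraicIndependent ℂ (fun o : Option (Fin m) => o.elim g y) :=
    AlgebraicIndependent.option_iff.2 ⟨hy, hg'⟩
  have h2 := h1.comp (finSuccEquiv m) (finSuccEquiv m).injective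
  convert h2 using 1
  funext i
  refine Fin.cases ?_ (fun i => ?_) i
  · simp
  · simp

theorem cons_of_deriv {m : ℕ} {y : Fin m → K} (hy : AlgebraicIndependent ℂ y)
    (δ : Derivation ℂ K K) (h : ∀ i, δ (y i) = 0) {g : K} (hg : δ g ≠ 0) :
    AlgebraicIndependent ℂ (Fin.cons g y : Fin (m + 1) → K) := by
  refine cons_of_transcendental hy fun halg => hg ?_
  exact deriv_eq_zero_of_algebraic δ (fun z hz => deriv_adjoin_eq_zero δ h hz) halg

theorem cons_inv {m : ℕ} {y : Fin m → K} {g : K}
    (h : AlgebraicIndependent ℂ (Fin.cons g y : Fin (m + 1) → K)) :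
    AlgebraicIndependent ℂ (Fin.cons g⁻¹ y : Fin (m + 1) → K) := by
  have h1 : AlgebraicIndependent ℂ y := by
    have := h.comp Fin.succ (Fin.succ_injective m)
    exact this
  refine cons_of_transcendental h1 fun halg => ?_
  apply transcendental_of_cons h
  have := halg.inv
  rwa [inv_inv] at this

/-! ### Non-semisimple derivations give poles -/

/-- The key consequence of log canonicity: `dw ∧ dlog x_1 ∧ ... ∧ dlog x_m` is never a constant
multiple of the canonical form. -/
theorem CYData.nil {m : ℕ} (X : CYData K m) (j : Fin (m + 1)) {x : Fin m → K} {w : K}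
    (hind : AlgebraicIndependent ℂ (Fin.cons w x : Fin (m + 1) → K)) {c : ℂ} (hc : c ≠ 0)
    (h : X.A (j.insertNth (D ℂ K w) (fun i => dlog (x i))) = algebraMap ℂ K c) : False := by
  obtain ⟨V, hV, hres, hlt⟩ := exists_dvr X.fg X.tr (cons_inv hind)
  have hw0 : w ≠ 0 := by
    have := hind.ne_zero 0
    simpa using this
  have hw : ord V w < 0 := by
    have h1 := (ord_pos_iff (inv_ne_zero hw0)).2 hlt
    rw [ord_inv hw0] at h1
    omega
  obtain ⟨F, hF⟩ := X.exists_frame_of hres
  have h1 := F.ord_alt_cons X.A X.A_ne hw0 hw.ne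
  rw [hF] at h1
  have h2 : X.A (j.insertNth (D ℂ K w) (fun i => dlog (x i))) =
      (-1) ^ (j : ℕ) * (w * X.A (Fin.cons (dlog w) fun i => dlog (x i))) := by
    rw [AlternatingMap.map_insertNth, D_eq_smul_dlog hw0]
    have h3 : X.A (Matrix.vecCons (w • dlog w) fun i => dlog (x i)) =
        w * X.A (Fin.cons (dlog w) fun i => dlog (x i)) := by
      have h4 := (X.A.curryLeft).map_smul w (dlog w)
      have h5 := congrArg (fun f => f fun i => dlog (x i)) h4
      simp only [AlternatingMap.curryLeft_apply_apply, AlternatingMap.smul_apply] at h5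
      exact h5
    rw [h3]
    simp
  have h3 : algebraMap ℂ K c ≠ 0 := by
    rw [Ne, map_eq_zero]
    exact hc
  have h4 : ord V (X.A (j.insertNth (D ℂ K w) (fun i => dlog (x i)))) =
      ord V w + (ord V (X.A F.b) - 1) := by
    rw [h2, ord_mul (pow_ne_zero _ (neg_ne_zero.2 one_ne_zero)) (mul_ne_zero hw0 h1.1),
      ord_mul hw0 h1.1, h1.2, ord_pow (neg_ne_zero.2 one_ne_zero), ord_neg, ord_one]
    ring
  rw [h, ord_C] at h4
  have h5 := X.lc V hV F
  omega

/-! ### Diagonalisation -/

/-- A linear endomorphism without nontrivial Jordan blocks. -/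
def SemiS (δ : K →ₗ[ℂ] K) : Prop :=
  ∀ (g₀ g₁ : K) (lam : ℂ), g₀ ≠ 0 → δ g₀ = lam • g₀ → δ g₁ = lam • g₁ + g₀ → False

theorem maxGen_eq {W : Submodule ℂ K} {δ : K →ₗ[ℂ] K} (hss : SemiS δ) (hW : ∀ x ∈ W, δ x ∈ W)
    (lam : ℂ) (x : W) (hx : x ∈ Module.End.maxGenEigenspace (δ.restrict hW) lam) :
    δ (x : K) = lam • (x : K) := by
  rw [Module.End.mem_maxGenEigenspace] at hx
  obtain ⟨k, hk⟩ := hx
  set N := δ.restrict hW - lam • (1 : Module.End ℂ W) with hN
  have hNx : ∀ y : W, ((N y : W) : K) = δ y - lam • (y : K) := fun y => rfl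
  have key : ∀ y : W, N (N y) = 0 → N y = 0 := by
    intro y hy
    by_contra hne
    refine hss (N y : W) y lam (fun h => hne (Subtype.ext h)) ?_ ?_
    · have := congrArg Subtype.val hy
      rw [hNx] at this
      exact sub_eq_zero.1 this
    · rw [hNx]
      abel
  have key2 : ∀ k : ℕ, ∀ y : W, (N ^ (k + 1)) y = 0 → N y = 0 := by
    intro k
    induction k with
    | zero => intro y hy; rwa [zero_add, pow_one] at hy
    | succ k ih =>
      intro y hy
      have h1 : (N ^ (k + 1)) (N y) = 0 := by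
        rw [pow_succ] at hy
        exact hy
      exact key y (ih _ h1)
  have h1 : N x = 0 := by
    rcases k with _ | k
    · rw [pow_zero] at hk
      change x = 0 at hk
      rw [hk, map_zero]
    · exact key2 k x hk
  have h2 := congrArg Subtype.val h1
  rw [hNx] at h2
  exact sub_eq_zero.1 h2

/-- Simultaneous diagonalisation. -/
theorem mem_span_joint {ι : Type} {D : ι → K →ₗ[ℂ] K} (hss : ∀ i, SemiS (D i))
    (hcomm : ∀ i j x, D i (D j x) = D j (D i x)) (W : Submodule ℂ K) [FiniteDimensional ℂ W]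
    (hW : ∀ i, ∀ x ∈ W, D i x ∈ W) {x : K} (hx : x ∈ W) :
    x ∈ Submodule.span ℂ {g | g ∈ W ∧ ∃ χ : ι → ℂ, ∀ i, D i g = χ i • g} := by
  have h1 := Module.End.iSup_iInf_maxGenEigenspace_eq_top_of_iSup_maxGenEigenspace_eq_top_of_commute
    (fun i => (D i).restrict (hW i)) (by
      intro i j _
      apply LinearMap.ext
      intro y
      exact Subtype.ext (hcomm i j y)) (fun i => Module.End.iSup_maxGenEigenspace_eq_top _)
  have h2 : (⟨x, hx⟩ : W) ∈ ⨆ χ : ι → ℂ, ⨅ i, Module.End.maxGenEigenspace ((D i).restrict (hW i)) (χ i) := by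
    rw [h1]; trivial
  have h3 : ∀ y : W, y ∈ (⨆ χ : ι → ℂ, ⨅ i, Module.End.maxGenEigenspace ((D i).restrict (hW i)) (χ i)) →
      (y : K) ∈ Submodule.span ℂ {g | g ∈ W ∧ ∃ χ : ι → ℂ, ∀ i, D i g = χ i • g} := by
    intro y hy
    refine Submodule.iSup_induction _ (motive := fun y : W => (y : K) ∈
      Submodule.span ℂ {g | g ∈ W ∧ ∃ χ : ι → ℂ, ∀ i, D i g = χ i • g}) hy ?_ ?_ ?_
    · intro χ z hz
      refine Submodule.subset_span ⟨z.2, χ, fun i => ?_⟩
      exact maxGen_eq (hss i) (hW i) _ _ ((Submodule.mem_iInf _).1 hz i)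
    · exact Submodule.zero_mem _
    · intro a b ha hb
      exact Submodule.add_mem _ ha hb
  exact h3 _ h2

theorem mem_span_eigen {δ : K →ₗ[ℂ] K} (hss : SemiS δ) (W : Submodule ℂ K)
    [FiniteDimensional ℂ W] (hW : ∀ x ∈ W, δ x ∈ W) {x : K} (hx : x ∈ W) :
    x ∈ Submodule.span ℂ {g | g ∈ W ∧ ∃ lam : ℂ, δ g = lam • g} := by
  have h := mem_span_joint (ι := Unit) (D := fun _ => δ) (fun _ => hss) (fun _ _ _ => rfl) W
    (fun _ => hW) hx
  refine Submodule.span_mono ?_ h
  rintro g ⟨hg, χ, hχ⟩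
  exact ⟨hg, χ (), hχ ()⟩

/-- Existence of an eigenvector. -/
theorem exists_eigen (δ : K →ₗ[ℂ] K) (W : Submodule ℂ K) [FiniteDimensional ℂ W]
    (hW : ∀ x ∈ W, δ x ∈ W) {x : K} (hx : x ∈ W) (hx0 : x ≠ 0) :
    ∃ g ∈ W, g ≠ 0 ∧ ∃ lam : ℂ, δ g = lam • g := by
  have : Nontrivial W := ⟨⟨⟨x, hx⟩, 0, fun h => hx0 (congrArg Subtype.val h)⟩⟩
  obtain ⟨lam, hlam⟩ := Module.End.exists_eigenvalue (δ.restrict hW)
  obtain ⟨g, hg⟩ := hlam.exists_hasEigenvector
  refine ⟨g, g.2, fun h => hg.2 (Subtype.ext h), lam, ?_⟩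
  exact congrArg Subtype.val hg.apply_eq_smul

/-- A derivation admitting an appropriate alternating expression is semisimple. -/
theorem CYData.semiS {m : ℕ} (X : CYData K m) (j : Fin (m + 1)) {x : Fin m → K}
    (hx : AlgebraicIndependent ℂ x) (δ : Derivation ℂ K K) (h0 : ∀ i, δ (x i) = 0) {c : ℂ}
    (hc : c ≠ 0)
    (h : ∀ g, X.A (j.insertNth (D ℂ K g) (fun i => dlog (x i))) = algebraMap ℂ K c * δ g) :
    SemiS (δ : K →ₗ[ℂ] K) := by
  intro g₀ g₁ lam hg₀ h1 h2
  change δ g₀ = lam • g₀ at h1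
  change δ g₁ = lam • g₁ + g₀ at h2
  have h3 : δ (g₁ / g₀) = 1 := by
    rw [Derivation.leibniz_div, h1, h2]
    simp only [smul_eq_mul, Algebra.smul_def]
    field_simp
    ring
  refine X.nil j (cons_of_deriv hx δ h0 (g := g₁ / g₀) ?_) hc ?_
  · rw [h3]; exact one_ne_zero
  · rw [h, h3, mul_one]

end Pool.Agent.Helper94.LCY
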