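import Pool.Agent.Helper94.MDS.Cox
import Pool.Agent.Helper94.MDS.Semi

/-!
# Log canonicity and intersections of boundary divisors
-/

noncomputable section

open KaehlerDifferential

namespace Pool.Agent.Helper94.LCY

variable {K : Type} [Field K] [Algebra ℂ K] {m : ℕ}

/-! ### Restriction of valuation rings -/

omit [Algebra ℂ K] in
theorem comap_val_lt {L : Type} [Field L] [Algebra K L] {V : ValuationSubring L} {x : K} :
    (V.comap (algebraMap K L)).valuation x < 1 ↔ V.valuation (algebraMap K L x) < 1 := by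
  by_cases hx : x = 0
  · rw [hx, map_zero, map_zero, map_zero]
    exact ⟨fun _ => zero_lt_one, fun _ => zero_lt_one⟩
  have hx' : algebraMap K L x ≠ 0 := by
    rw [Ne, map_eq_zero]; exact hx
  have h1 : ∀ {F : Type} [Field F] (W : ValuationSubring F) (y : F), y ≠ 0 →
      (W.valuation y < 1 ↔ y⁻¹ ∉ W) := by
    intro F _ W y hy
    rw [← W.valuation_le_one_iff, map_inv₀, not_le,
      one_lt_inv₀ (zero_lt_iff.2 ((Valuation.ne_zero_iff _).2 hy))]
  rw [h1 _ _ hx, h1 _ _ hx', ← map_inv₀]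
  rfl

omit [Algebra ℂ K] in
theorem comap_val_eq_one {L : Type} [Field L] [Algebra K L] {V : ValuationSubring L} {x : K} :
    (V.comap (algebraMap K L)).valuation x = 1 ↔ V.valuation (algebraMap K L x) = 1 := by
  have h1 : (V.comap (algebraMap K L)).valuation x ≤ 1 ↔ V.valuation (algebraMap K L x) ≤ 1 := by
    rw [ValuationSubring.valuation_le_one_iff, ValuationSubring.valuation_le_one_iff]
    rfl
  have h2 := comap_val_lt (V := V) (x := x)
  constructor
  · intro h
    refine le_antisymm (h1.1 h.le) (not_lt.1 fun h3 => ?_)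
    exact (h2.2 h3).ne h
  · intro h
    refine le_antisymm (h1.2 h.le) (not_lt.1 fun h3 => ?_)
    exact (h2.1 h3).ne h

theorem ResIndep.comap {L : Type} [Field L] [Algebra ℂ L] [Algebra K L] [IsScalarTower ℂ K L]
    {V : ValuationSubring L} {ι : Type} {y : ι → K}
    (h : ResIndep V fun i => algebraMap K L (y i)) : ResIndep (V.comap (algebraMap K L)) y := by
  intro p hp
  rw [comap_val_eq_one]
  have h1 := h p hp
  have h2 : MvPolynomial.aeval (fun i => algebraMap K L (y i)) p =
      algebraMap K L (MvPolynomial.aeval y p) := by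
    have h3 : MvPolynomial.aeval (fun i => algebraMap K L (y i)) =
        (IsScalarTower.toAlgHom ℂ K L).comp (MvPolynomial.aeval y) := by
      apply MvPolynomial.algHom_ext
      intro i
      rw [AlgHom.comp_apply, MvPolynomial.aeval_X, MvPolynomial.aeval_X]
      rfl
    rw [h3]
    rfl
  rwa [h2] at h1

/-! ### The values of the canonical form on independent functions -/

theorem CYData.A_dlog_ne (X : CYData K m) {y : Fin (m + 1) → K}
    (hy : AlgebraicIndependent ℂ y) : X.A (fun l => dlog (y l)) ≠ 0 := by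
  have h0 : y = Fin.cons (y 0) (fun l : Fin m => y l.succ) := by
    funext l
    refine Fin.cases ?_ (fun l => ?_) l <;> rfl
  rw [h0] at hy
  obtain ⟨W, hW, hres, hlt⟩ := exists_dvr X.fg X.tr hy
  have hy0 : y 0 ≠ 0 := by
    have := hy.ne_zero 0
    simpa using this
  obtain ⟨F, hF⟩ := X.exists_frame_of hres
  have h1 := (F.ord_alt_cons X.A X.A_ne hy0 ((ord_pos_iff hy0).2 hlt).ne').1
  rw [hF] at h1
  convert h1 using 2
  funext l
  refine Fin.cases ?_ (fun l => ?_) l <;> rfl

/-- Log canonicity in terms of independent functions: `V` nontrivial. -/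
theorem CYData.val_A_ge (X : CYData K m) {v : ValuationSubring K} {y : Fin (m + 1) → K}
    (hres : ResIndep v fun l : Fin m => y l.succ) (hy : AlgebraicIndependent ℂ y)
    (h0 : v.valuation (y 0) ≠ 1) : ¬ v.valuation (X.A fun l => dlog (y l)) < 1 := by
  intro hlt
  have hy0 : y 0 ≠ 0 := hy.ne_zero 0
  -- choose the sign
  obtain ⟨g, hg, hgne, hgo⟩ : ∃ g : K, g ∈ v ∧ g ≠ 0 ∧
      AlgebraicIndependent ℂ (Fin.cons g (fun l : Fin m => y l.succ) : Fin (m + 1) → K) := by
    have hy' : AlgebraicIndependent ℂ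
        (Fin.cons (y 0) (fun l : Fin m => y l.succ) : Fin (m + 1) → K) := by
      convert hy using 1
      funext l
      refine Fin.cases ?_ (fun l => ?_) l <;> rfl
    rcases v.mem_or_inv_mem (y 0) with h | h
    · exact ⟨y 0, h, hy0, hy'⟩
    · exact ⟨(y 0)⁻¹, h, inv_ne_zero hy0, cons_inv hy'⟩
  have hvtop : v ≠ ⊤ := by
    rintro rfl
    apply h0
    have h1 : (⊤ : ValuationSubring K).valuation (y 0) ≤ 1 :=
      (ValuationSubring.valuation_le_one_iff _ _).2 trivial
    have h2 : (⊤ : ValuationSubring K).valuation (y 0)⁻¹ ≤ 1 :=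
      (ValuationSubring.valuation_le_one_iff _ _).2 trivial
    rw [map_inv₀, inv_le_one₀ (zero_lt_iff.2 ((Valuation.ne_zero_iff _).2 hy0))] at h2
    exact le_antisymm h1 h2
  have hv : IsDiscreteValuationRing v := dvr_of_resIndep X.fg X.tr hres hvtop hg hgo
  obtain ⟨F, hF⟩ := X.exists_frame_of hres
  have hord : ord v (y 0) ≠ 0 := by
    rw [Ne, ord_eq_zero_iff hy0]
    exact h0
  have h1 := F.ord_alt_cons X.A X.A_ne hy0 hord
  rw [hF] at h1
  have h2 : (Fin.cons (dlog (y 0)) fun l : Fin m => dlog (y l.succ) : Fin (m + 1) → Ω[K⁄ℂ]) =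
      fun l => dlog (y l) := by
    funext l
    refine Fin.cases ?_ (fun l => ?_) l <;> rfl
  rw [h2] at h1
  have h3 := X.lc v hv F
  have h4 := (ord_pos_iff h1.1).2 hlt
  omega

namespace CoxData

variable {X : CYData K m} {r : ℕ} (C : CoxData X r)

/-- The key consequence of log canonicity. -/
theorem contra {V : ValuationSubring (LF K r)} (hRV : ∀ x ∈ C.R, x ∈ V) {c k : ℕ}
    (hk : k + c + 1 = m + 1 + r) (b : Fin (c + 1) → ValuationSubring K) (hb : ∀ j, b j ∈ X.Bd)
    (i : Fin (c + 1)) {β : ValuationSubring K} (hβ : β ∈ X.Bd) (hβb : ∀ j, β ≠ b j)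
    (hVβ : V.valuation (C.F β) < 1) (hVi : V.valuation (C.F (b i)) < 1)
    (γh : Fin k → Fin r → ℤ) (gh : Fin k → K) (hgh : ∀ a, gh a ≠ 0)
    (hmem : ∀ a, hm (γh a) (gh a) ∈ C.R)
    (hres : ResIndep V (Sum.elim (fun j : Fin c => C.F (b (i.succAbove j)) / C.F (b i))
      (fun a : Fin k => hm (γh a) (gh a)))) : False := by
  classical
  set γz : Option (Fin c ⊕ Fin k) → Fin r → ℤ := fun o => o.elim (C.γ (b i))
    (Sum.elim (fun j => C.γ (b (i.succAbove j)) - C.γ (b i)) γh) with hγz
  set gz : Option (Fin c ⊕ Fin k) → K := fun o => o.elim (C.g (b i))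
    (Sum.elim (fun j => C.g (b (i.succAbove j)) / C.g (b i)) gh) with hgz
  have hgz0 : ∀ o, gz o ≠ 0 := by
    rintro (_ | j | a)
    · exact C.g_ne _
    · exact div_ne_zero (C.g_ne _) (C.g_ne _)
    · exact hgh a
  set z : Option (Fin c ⊕ Fin k) → LF K r := fun o => hm (γz o) (gz o) with hz
  have hzres : ResIndep V fun s => z (some s) := by
    convert hres using 1
    funext s
    rcases s with j | a
    · change hm _ _ = C.F _ / C.F _
      rw [F, F, hm_div _ _ _ (C.g_ne _)]
      rfl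
    · rfl
  have hzopt : AlgebraicIndependent ℂ z := by
    have h1 := hzres.option (x := z none) (hm_ne _ (hgz0 none)) hVi
    have h2 : (fun o : Option (Fin c ⊕ Fin k) => o.elim (z none) fun s => z (some s)) = z := by
      funext o
      cases o <;> rfl
    rw [h2] at h1
    exact h1
  obtain ⟨κ, hκ1, hκ2, hκ3⟩ := exists_kernel (m := m) γz none (by
    rw [Fintype.card_option, Fintype.card_sum, Fintype.card_fin, Fintype.card_fin]
    omega)
  set y : Fin (m + 1) → K := fun l => ∏ o, gz o ^ κ l o with hy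
  have hy0 : ∀ l, y l ≠ 0 := fun l => Finset.prod_ne_zero_iff.2 fun o _ =>
    zpow_ne_zero _ (hgz0 o)
  have hdeg : ∀ l, ∑ o, κ l o • γz o = 0 := by
    intro l
    funext i
    rw [Finset.sum_apply]
    exact hκ1 l i
  have hyz : ∀ l, algebraMap K (LF K r) (y l) = ∏ o, z o ^ κ l o := by
    intro l
    rw [← hm_K, ← hdeg l, hy, ← hm_prod]
    exact Finset.prod_congr rfl fun o _ => by rw [hz, hm_zpow _ (hgz0 o)]
  have hyind : AlgebraicIndependent ℂ y := by
    have h1 := algIndep_monomials hzopt κ hκ3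
    have h2 : (fun l => ∏ j, z j ^ κ l j) = (IsScalarTower.toAlgHom ℂ K (LF K r)) ∘ y := by
      funext l
      exact (hyz l).symm
    rw [h2] at h1
    exact AlgebraicIndependent.of_comp (IsScalarTower.toAlgHom ℂ K (LF K r)) h1
  have hκ3' : ∀ c' : Fin m → ℤ, (∀ s : Fin c ⊕ Fin k, ∑ l, c' l * κ l.succ (some s) = 0) →
      c' = 0 := by
    intro c' h
    have h1 := hκ3 (Fin.cons 0 c') (fun o => by
      rw [Fin.sum_univ_succ, Fin.cons_zero, zero_mul, zero_add]
      simp only [Fin.cons_succ]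
      rcases o with _ | s
      · exact Finset.sum_eq_zero fun l _ => by rw [hκ2 l, mul_zero]
      · exact h s)
    funext l
    have := congrFun h1 l.succ
    simpa using this
  have hyres : ResIndep V fun l : Fin m => algebraMap K (LF K r) (y l.succ) := by
    have h1 := resIndep_monomials hzres (fun (l : Fin m) s => κ l.succ (some s)) hκ3'
    convert h1 using 1
    funext l
    rw [hyz, Fintype.prod_option, hκ2 l, zpow_zero, one_mul]
  -- the section
  set κ₀ := X.A fun l => dlog (y l) with hκ₀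
  have hκ₀0 : κ₀ ≠ 0 := X.A_dlog_ne hyind
  have hvth : ∀ a, ∀ v ∈ X.Pr, 0 ≤ C.vt v (γh a) (gh a) := fun a v hv =>
    C.vt_of_mem (hgh a) (hmem a) hv
  have hvtz : ∀ v ∈ X.Pr, (∀ j, v ≠ b j) → (∀ a, C.vt v (γh a) (gh a) = 0) →
      ∀ o, C.vt v (γz o) (gz o) = 0 := by
    intro v hv h1 h2 o
    rcases o with _ | j | a
    · exact C.vt_g_ne (X.Bd_sub (hb i)) hv (h1 i)
    · change C.vt v (C.γ (b (i.succAbove j)) - C.γ (b i))
        (C.g (b (i.succAbove j)) / C.g (b i)) = 0
      rw [sub_eq_add_neg, div_eq_mul_inv, C.vt_mul hv (C.g_ne _) (inv_ne_zero (C.g_ne _)),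
        C.vt_inv hv (C.g_ne _), C.vt_g_ne (X.Bd_sub (hb _)) hv (h1 _),
        C.vt_g_ne (X.Bd_sub (hb _)) hv (h1 _)]
      rfl
    · exact h2 a
  have hordy : ∀ v ∈ X.Pr, (∀ j, v ≠ b j) → (∀ a, C.vt v (γh a) (gh a) = 0) →
      ∀ l, ord v (y l) = 0 := by
    intro v hv h1 h2 l
    have h3 : C.vt v (∑ o, κ l o • γz o) (y l) = 0 := by
      rw [hy, C.vt_prod hv _ fun o _ => zpow_ne_zero _ (hgz0 o)]
      refine Finset.sum_eq_zero fun o _ => ?_
      rw [C.vt_zpow hv (hgz0 o), hvtz v hv h1 h2 o, mul_zero]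
    rw [hdeg l, vt, comb_zero] at h3
    simpa using h3
  have hBdy : ∀ v ∈ X.Bd, 0 ≤ ord v κ₀ := by
    intro v hv
    have := CYData.dvr_B hv
    exact (ord_nonneg_iff hκ₀0).2 (X.A_mem_B hv hy0)
  have hvtsum : ∀ v ∈ X.Pr, (¬ ∀ a, C.vt v (γh a) (gh a) = 0) →
      1 ≤ ∑ a, C.vt v (γh a) (gh a) := by
    intro v hv h
    push Not at h
    obtain ⟨a, ha⟩ := h
    have h1 := Finset.single_le_sum (f := fun a => C.vt v (γh a) (gh a))
      (fun a _ => hvth a v hv) (Finset.mem_univ a)
    have h2 := hvth a v hv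
    change C.vt v (γh a) (gh a) ≤ _ at h1
    omega
  have hvtsum0 : ∀ v ∈ X.Pr, 0 ≤ ∑ a, C.vt v (γh a) (gh a) := fun v hv =>
    Finset.sum_nonneg fun a _ => hvth a v hv
  have hsec : ∀ v ∈ X.Pr, 0 ≤ ord v κ₀ + ∑ a, C.vt v (γh a) (gh a) := by
    intro v hv
    have hvd := X.dvr v hv
    rcases X.mem_U_or_Bd hv with h | h
    · obtain ⟨F⟩ := X.exists_frame hv
      by_cases h1 : ∀ a, C.vt v (γh a) (gh a) = 0
      · have h2 := hordy v hv (fun j h3 => h.2 (h3 ▸ hb j)) h1
        have h3 : κ₀ ∈ v := X.A_mem_U h F fun l j => F.repr_dlog_mem (hy0 l) (h2 l) j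
        have h4 := (ord_nonneg_iff hκ₀0).2 h3
        have := hvtsum0 v hv
        omega
      · have h2 := hvtsum v hv h1
        have h3 : ord v (X.A F.b) - 1 ≤ ord v κ₀ := (F.vge_alt_log X.A hy0).le hκ₀0
        rw [X.ordA_U v hv h.2 F] at h3
        omega
    · have := hBdy v h
      have := hvtsum0 v hv
      omega
  have hβPr := X.Bd_sub hβ
  have hsecβ : 1 ≤ ord β κ₀ + ∑ a, C.vt β (γh a) (gh a) := by
    have hβd := X.dvr β hβPr
    by_cases h1 : ∀ a, C.vt β (γh a) (gh a) = 0
    · obtain ⟨F⟩ := X.exists_frame hβPr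
      have h2 := hordy β hβPr hβb h1
      have h3 : ord β (X.A F.b) ≤ ord β κ₀ := (F.vge_alt X.A (ξ := fun l => dlog (y l))
        fun l j => F.repr_dlog_mem (hy0 l) (h2 l) j).le hκ₀0
      rw [X.ordA_B β hβ F] at h3
      have := hvtsum0 β hβPr
      omega
    · have := hBdy β hβ
      have := hvtsum β hβPr h1
      omega
  set ga := κ₀ * ∏ a, gh a with hga
  set γa := (0 : Fin r → ℤ) + ∑ a, γh a with hγa
  have hprod0 : ∏ a, gh a ≠ 0 := Finset.prod_ne_zero_iff.2 fun a _ => hgh a
  have hga0 : ga ≠ 0 := mul_ne_zero hκ₀0 hprod0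
  have hvta : ∀ v ∈ X.Pr, C.vt v γa ga = ord v κ₀ + ∑ a, C.vt v (γh a) (gh a) := by
    intro v hv
    rw [hγa, hga, C.vt_mul hv hκ₀0 hprod0, C.vt_prod hv _ fun a _ => hgh a, vt, comb_zero]
    simp
  -- a power is divisible by `F β`
  have hq : hm ((C.e β : ℤ) • γa - C.γ β) (ga ^ (C.e β : ℤ) / C.g β) ∈ C.R := by
    refine C.hm_mem fun v hv => ?_
    rw [sub_eq_add_neg, div_eq_mul_inv, C.vt_mul hv (zpow_ne_zero _ hga0)
      (inv_ne_zero (C.g_ne _)), C.vt_inv hv (C.g_ne _), C.vt_zpow hv hga0, hvta v hv]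
    by_cases hvβ : v = β
    · subst hvβ
      rw [C.vt_g_self hv]
      have h1 : (0 : ℤ) < C.e v := by exact_mod_cast C.e_pos v
      nlinarith
    · rw [C.vt_g_ne hβPr hv hvβ, neg_zero, add_zero]
      exact mul_nonneg (by positivity) (hsec v hv)
  have hVa : V.valuation (hm γa ga) < 1 := by
    by_contra hcon
    have h1 : hm γa ga ^ (C.e β) = C.F β *
        hm ((C.e β : ℤ) • γa - C.γ β) (ga ^ (C.e β : ℤ) / C.g β) := by
      rw [F, hm_mul, hm_pow, add_sub_cancel, mul_div_cancel₀ _ (C.g_ne _), natCast_zsmul,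
        zpow_natCast]
    have h2 := (V.valuation_le_one_iff _).2 (hRV _ hq)
    have h3 : V.valuation (hm γa ga ^ (C.e β)) < 1 := by
      rw [h1, map_mul]
      exact lt_of_le_of_lt (mul_le_of_le_one_right zero_le h2) hVβ
    rw [map_pow] at h3
    rw [not_lt] at hcon
    exact absurd h3 (not_lt.2 (one_le_pow₀ hcon))
  have hVκ : V.valuation (algebraMap K (LF K r) κ₀) < 1 := by
    have h1 : hm γa ga = algebraMap K (LF K r) κ₀ * ∏ a, hm (γh a) (gh a) := by
      rw [← hm_K, hm_prod, hm_mul]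
    rw [h1, map_mul, map_prod, Finset.prod_eq_one, mul_one] at hVa
    · exact hVa
    · intro a _
      exact hres.val_eq_one (Sum.inr a)
  -- conclusion
  set v := V.comap (algebraMap K (LF K r)) with hv
  have hyres' : ResIndep v fun l : Fin m => y l.succ := hyres.comap
  have hκv : v.valuation κ₀ < 1 := comap_val_lt.2 hVκ
  by_cases h0 : κ 0 none = 0
  · have h1 : ResIndep V fun l => algebraMap K (LF K r) (y l) := by
      have h1 := resIndep_monomials hzres (fun (l : Fin (m + 1)) s => κ l (some s)) (by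
        intro c' h
        refine hκ3 c' fun o => ?_
        rcases o with _ | s
        · refine Finset.sum_eq_zero fun l _ => ?_
          refine Fin.cases ?_ (fun l => ?_) l
          · rw [h0, mul_zero]
          · rw [hκ2 l, mul_zero]
        · exact h s)
      convert h1 using 1
      funext l
      have h2 : κ l none = 0 := by
        refine Fin.cases ?_ (fun l => ?_) l
        · exact h0
        · exact hκ2 l
      rw [hyz, Fintype.prod_option, h2, zpow_zero, one_mul]
    have h2 := h1.comap.cons' hκ₀0 hκv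
    have h3 := card_le_of_indep X.tr h2
    omega
  · refine X.val_A_ge hyres' hyind ?_ hκv
    rw [hv, Ne, comap_val_eq_one, hyz, Fintype.prod_option, map_mul, map_prod,
      Finset.prod_eq_one, mul_one, map_zpow₀]
    · intro h1
      have h2 : V.valuation (z none) < 1 := hVi
      have h3 : (0 : V.ValueGroup) < V.valuation (z none) :=
        zero_lt_iff.2 ((Valuation.ne_zero_iff _).2 (hm_ne _ (hgz0 none)))
      have h4 : V.valuation (z none) ^ κ 0 none = V.valuation (z none) ^ (0 : ℤ) := by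
        rw [h1, zpow_zero]
      exact h0 (zpow_right_injective₀ h3 h2.ne h4)
    · intro s _
      rw [map_zpow₀, hzres.val_eq_one, one_zpow]

end CoxData

end Pool.Agent.Helper94.LCY
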