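import Pool.Agent.Helper94.MDS.Hm

/-!
# The Cox ring
-/

noncomputable section

open KaehlerDifferential

namespace Pool.Agent.Helper94.LCY

variable {K : Type} [Field K] [Algebra ℂ K] {m : ℕ}

/-- The integral combination `∑ γ_i D_i`. -/
def comb {r : ℕ} (D : Fin r → ValuationSubring K → ℤ) (γ : Fin r → ℤ) :
    ValuationSubring K → ℤ := fun v => ∑ i, γ i * D i v

omit [Algebra ℂ K] in
theorem comb_add {r : ℕ} (D : Fin r → ValuationSubring K → ℤ) (γ γ' : Fin r → ℤ) :
    comb D (γ + γ') = comb D γ + comb D γ' := by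
  funext v
  simp only [comb, Pi.add_apply, add_mul, Finset.sum_add_distrib]

omit [Algebra ℂ K] in
theorem comb_zero {r : ℕ} (D : Fin r → ValuationSubring K → ℤ) : comb D 0 = 0 := by
  funext v
  simp [comb]

omit [Algebra ℂ K] in
theorem comb_zsmul {r : ℕ} (D : Fin r → ValuationSubring K → ℤ) (n : ℤ) (γ : Fin r → ℤ)
    (v : ValuationSubring K) : comb D (n • γ) v = n * comb D γ v := by
  simp only [comb, Pi.smul_apply, smul_eq_mul, Finset.mul_sum, mul_assoc]

omit [Algebra ℂ K] in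
theorem comb_neg {r : ℕ} (D : Fin r → ValuationSubring K → ℤ) (γ : Fin r → ℤ)
    (v : ValuationSubring K) : comb D (-γ) v = - comb D γ v := by
  simp [comb]

omit [Algebra ℂ K] in
theorem comb_sum {r : ℕ} (D : Fin r → ValuationSubring K → ℤ) {ι : Type} (s : Finset ι)
    (γ : ι → Fin r → ℤ) (v : ValuationSubring K) :
    comb D (∑ a ∈ s, γ a) v = ∑ a ∈ s, comb D (γ a) v := by
  classical
  induction s using Finset.induction_on with
  | empty => rw [Finset.sum_empty, Finset.sum_empty, comb_zero]; rfl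
  | insert a s ha ih => rw [Finset.sum_insert ha, comb_add, Pi.add_apply, ih,
      Finset.sum_insert ha]

/-- The multisection ring of the divisors `D_i`. -/
def CYData.cox (X : CYData K m) {r : ℕ} (D : Fin r → ValuationSubring K → ℤ) :
    Subalgebra ℂ (GR K r) where
  carrier := {x | ∀ γ, x.coeff γ ∈ X.sections (comb D γ)}
  zero_mem' := fun γ => by
    rw [AddMonoidAlgebra.coeff_zero]
    exact Submodule.zero_mem _
  add_mem' := by
    intro x y hx hy γ
    rw [AddMonoidAlgebra.coeff_add]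
    exact Submodule.add_mem _ (hx γ) (hy γ)
  one_mem' := by
    intro γ v hv
    have := X.dvr v hv
    rw [AddMonoidAlgebra.one_def, AddMonoidAlgebra.coeff_single, Finsupp.single_apply]
    split_ifs with h
    · right
      rw [← h, comb_zero, ord_one]
      simp
    · exact vge.zero
  mul_mem' := by
    classical
    intro x y hx hy γ
    rw [AddMonoidAlgebra.coeff_mul]
    refine Submodule.sum_mem _ fun a _ => Submodule.sum_mem _ fun b _ => ?_
    change (if a + b = γ then x.coeff a * y.coeff b else 0) ∈ _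
    split_ifs with h
    · rw [← h, comb_add]
      exact X.sections_mul (hx a) (hy b)
    · exact Submodule.zero_mem _
  algebraMap_mem' := by
    intro c γ v hv
    have := X.dvr v hv
    rw [AddMonoidAlgebra.coe_algebraMap, Function.comp_apply, AddMonoidAlgebra.coeff_single,
      Finsupp.single_apply]
    split_ifs with h
    · right
      rw [← h, comb_zero, ord_C]
      simp
    · exact vge.zero

theorem CYData.mem_cox {X : CYData K m} {r : ℕ} {D : Fin r → ValuationSubring K → ℤ}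
    {x : GR K r} : x ∈ X.cox D ↔ ∀ γ, x.coeff γ ∈ X.sections (comb D γ) := Iff.rfl

theorem CYData.single_mem_cox {X : CYData K m} {r : ℕ} {D : Fin r → ValuationSubring K → ℤ}
    {γ : Fin r → ℤ} {g : K} (hg : g ∈ X.sections (comb D γ)) :
    AddMonoidAlgebra.single γ g ∈ X.cox D := by
  intro γ'
  rw [AddMonoidAlgebra.coeff_single, Finsupp.single_apply]
  split_ifs with h
  · rw [← h]; exact hg
  · exact Submodule.zero_mem _

/-- Divisors `D_1, ..., D_r` which are a basis of the rational divisor class group. -/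
structure CoxData (X : CYData K m) (r : ℕ) where
  D : Fin r → ValuationSubring K → ℤ
  gen : ∀ v ∈ X.Pr, ∃ (e : ℕ) (g : K) (γ : Fin r → ℤ), 0 < e ∧ g ≠ 0 ∧
    ∀ v' ∈ X.Pr, ord v' g + comb D γ v' = open Classical in if v' = v then (e : ℤ) else 0
  indep : ∀ (γ : Fin r → ℤ) (g : K), g ≠ 0 → (∀ v ∈ X.Pr, ord v g + comb D γ v = 0) → γ = 0
  Dfin : ∀ i, {v ∈ X.Pr | D i v ≠ 0}.Finite
  card : X.Bd.ncard = m + r

namespace CoxData

variable {X : CYData K m} {r : ℕ} (C : CoxData X r)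

/-- The order of the section `g` of the divisor `∑ γ_i D_i`. -/
def vt (v : ValuationSubring K) (γ : Fin r → ℤ) (g : K) : ℤ := ord v g + comb C.D γ v

theorem vt_mul {v : ValuationSubring K} (hv : v ∈ X.Pr) {γ γ' : Fin r → ℤ} {g g' : K}
    (hg : g ≠ 0) (hg' : g' ≠ 0) :
    C.vt v (γ + γ') (g * g') = C.vt v γ g + C.vt v γ' g' := by
  have := X.dvr v hv
  rw [vt, vt, vt, ord_mul hg hg', comb_add, Pi.add_apply]
  ring

theorem vt_zpow {v : ValuationSubring K} (hv : v ∈ X.Pr) {γ : Fin r → ℤ} {g : K}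
    (hg : g ≠ 0) (n : ℤ) : C.vt v (n • γ) (g ^ n) = n * C.vt v γ g := by
  have := X.dvr v hv
  rw [vt, vt, ord_zpow hg, comb_zsmul]
  ring

theorem vt_inv {v : ValuationSubring K} (hv : v ∈ X.Pr) {γ : Fin r → ℤ} {g : K}
    (hg : g ≠ 0) : C.vt v (-γ) g⁻¹ = - C.vt v γ g := by
  have := X.dvr v hv
  rw [vt, vt, ord_inv hg, comb_neg]
  ring

theorem vt_prod {v : ValuationSubring K} (hv : v ∈ X.Pr) {ι : Type} (s : Finset ι)
    {γ : ι → Fin r → ℤ} {g : ι → K} (hg : ∀ i ∈ s, g i ≠ 0) :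
    C.vt v (∑ i ∈ s, γ i) (∏ i ∈ s, g i) = ∑ i ∈ s, C.vt v (γ i) (g i) := by
  have := X.dvr v hv
  rw [vt, ord_prod hg, comb_sum, ← Finset.sum_add_distrib]
  rfl

theorem gen' (v : ValuationSubring K) : ∃ (e : ℕ) (g : K) (γ : Fin r → ℤ), 0 < e ∧ g ≠ 0 ∧
    (v ∈ X.Pr → ∀ v' ∈ X.Pr, ord v' g + comb C.D γ v' =
      open Classical in if v' = v then (e : ℤ) else 0) := by
  by_cases hv : v ∈ X.Pr
  · obtain ⟨e, g, γ, h1, h2, h3⟩ := C.gen v hv
    exact ⟨e, g, γ, h1, h2, fun _ => h3⟩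
  · exact ⟨1, 1, 0, one_pos, one_ne_zero, fun h => absurd h hv⟩

/-- A multiple of `v` is the divisor of the section `g v` of `γ v`. -/
def e (v : ValuationSubring K) : ℕ := (C.gen' v).choose

/-- The canonical section. -/
def g (v : ValuationSubring K) : K := (C.gen' v).choose_spec.choose

/-- Its degree. -/
def γ (v : ValuationSubring K) : Fin r → ℤ := (C.gen' v).choose_spec.choose_spec.choose

theorem e_pos (v : ValuationSubring K) : 0 < C.e v :=
  (C.gen' v).choose_spec.choose_spec.choose_spec.1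

theorem g_ne (v : ValuationSubring K) : C.g v ≠ 0 :=
  (C.gen' v).choose_spec.choose_spec.choose_spec.2.1

theorem vt_g {v : ValuationSubring K} (hv : v ∈ X.Pr) {v' : ValuationSubring K} (hv' : v' ∈ X.Pr) :
    C.vt v' (C.γ v) (C.g v) = open Classical in if v' = v then (C.e v : ℤ) else 0 :=
  (C.gen' v).choose_spec.choose_spec.choose_spec.2.2 hv v' hv'

theorem vt_g_self {v : ValuationSubring K} (hv : v ∈ X.Pr) :
    C.vt v (C.γ v) (C.g v) = C.e v := by
  rw [C.vt_g hv hv, if_pos rfl]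

theorem vt_g_ne {v : ValuationSubring K} (hv : v ∈ X.Pr) {v' : ValuationSubring K}
    (hv' : v' ∈ X.Pr) (h : v' ≠ v) : C.vt v' (C.γ v) (C.g v) = 0 := by
  rw [C.vt_g hv hv', if_neg h]

theorem vt_g_nonneg {v : ValuationSubring K} (hv : v ∈ X.Pr) {v' : ValuationSubring K}
    (hv' : v' ∈ X.Pr) : 0 ≤ C.vt v' (C.γ v) (C.g v) := by
  rw [C.vt_g hv hv']
  split_ifs
  · positivity
  · exact le_rfl

/-- The Cox ring, as a subring of the field of fractions of `K[t^±]`. -/
def R : Subalgebra ℂ (LF K r) := (X.cox C.D).map (IsScalarTower.toAlgHom ℂ (GR K r) (LF K r))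

theorem R_fg (hfg : (X.cox C.D).FG) : C.R.FG := hfg.map _

theorem mem_R {x : LF K r} : x ∈ C.R ↔ ∃ y ∈ X.cox C.D, algebraMap (GR K r) (LF K r) y = x :=
  Iff.rfl

theorem hm_mem {γ : Fin r → ℤ} {g : K} (h : ∀ v ∈ X.Pr, 0 ≤ C.vt v γ g) : hm γ g ∈ C.R := by
  refine C.mem_R.2 ⟨_, CYData.single_mem_cox fun v hv => Or.inr ?_, rfl⟩
  have := h v hv
  rw [vt] at this
  omega

theorem vt_of_mem {γ : Fin r → ℤ} {g : K} (hg : g ≠ 0) (h : hm γ g ∈ C.R) {v}
    (hv : v ∈ X.Pr) : 0 ≤ C.vt v γ g := by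
  obtain ⟨y, hy, h1⟩ := C.mem_R.1 h
  have h2 := GR_injective h1
  have h3 := hy γ v hv
  rw [h2, AddMonoidAlgebra.coeff_single, Finsupp.single_eq_same] at h3
  have := h3.le hg
  rw [vt]
  omega

/-- The element of the Cox ring defining a multiple of `v`. -/
def F (v : ValuationSubring K) : LF K r := hm (C.γ v) (C.g v)

theorem F_mem {v : ValuationSubring K} (hv : v ∈ X.Pr) : C.F v ∈ C.R :=
  C.hm_mem fun _ hv' => C.vt_g_nonneg hv hv'

theorem F_ne (v : ValuationSubring K) : C.F v ≠ 0 := hm_ne _ (C.g_ne v)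

/-- A homogeneous element whose divisor is trivial is constant. -/
theorem const {γ : Fin r → ℤ} {g : K} (hg : g ≠ 0) (h : ∀ v ∈ X.Pr, C.vt v γ g = 0) :
    γ = 0 ∧ ∃ c : ℂ, c ≠ 0 ∧ g = algebraMap ℂ K c := by
  have h1 := C.indep γ g hg h
  refine ⟨h1, ?_⟩
  obtain ⟨c, hc⟩ := X.const g fun v hv => by
    have := X.dvr v hv
    have h2 := h v hv
    rw [h1, vt, comb_zero, Pi.zero_apply, add_zero] at h2
    exact mem_of_ord_zero hg h2
  refine ⟨c, ?_, hc⟩
  rintro rfl
  rw [map_zero] at hc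
  exact hg hc

theorem finite_vt (γ : Fin r → ℤ) {g : K} (hg : g ≠ 0) :
    {v ∈ X.Pr | C.vt v γ g ≠ 0}.Finite := by
  have h1 : (⋃ i, {v ∈ X.Pr | C.D i v ≠ 0}).Finite := Set.finite_iUnion C.Dfin
  refine ((X.fin g hg).union h1).subset ?_
  rintro v ⟨hv, hne⟩
  by_contra hcon
  rw [Set.mem_union, not_or, Set.mem_iUnion, not_exists] at hcon
  apply hne
  have h2 : ord v g = 0 := by
    by_contra h3
    exact hcon.1 ⟨hv, h3⟩
  rw [vt, h2, comb, Finset.sum_eq_zero, add_zero]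
  intro i _
  have h3 : C.D i v = 0 := by
    by_contra h4
    exact hcon.2 i ⟨hv, h4⟩
  rw [h3, mul_zero]

/-- A power of every homogeneous element is a monomial in the `F v`. -/
theorem exists_pow (γ : Fin r → ℤ) {g : K} (hg : g ≠ 0) : ∃ (e : ℕ)
    (k : ValuationSubring K → ℤ) (s : Finset (ValuationSubring K)) (c : ℂ), 0 < e ∧ c ≠ 0 ∧
      (∀ v ∈ s, v ∈ X.Pr) ∧ (∀ v ∈ X.Pr, v ∉ s → C.vt v γ g = 0) ∧
      (∀ v ∈ s, k v * C.e v = e * C.vt v γ g) ∧
      hm γ g ^ e = algebraMap ℂ (LF K r) c * ∏ v ∈ s, C.F v ^ k v := by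
  classical
  set s := (C.finite_vt γ hg).toFinset with hs
  have hmem : ∀ v, v ∈ s ↔ v ∈ X.Pr ∧ C.vt v γ g ≠ 0 := fun v => by
    rw [hs, Set.Finite.mem_toFinset]; rfl
  set E := ∏ v ∈ s, C.e v with hE
  have hE0 : 0 < E := Finset.prod_pos fun v _ => C.e_pos v
  have hdvd : ∀ v ∈ s, (C.e v : ℤ) ∣ E * C.vt v γ g := by
    intro v hv
    exact Dvd.dvd.mul_right (Int.natCast_dvd_natCast.2 (Finset.dvd_prod_of_mem _ hv)) _
  set k : ValuationSubring K → ℤ := fun v => (E * C.vt v γ g) / C.e v with hk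
  have hke : ∀ v ∈ s, k v * C.e v = E * C.vt v γ g := fun v hv =>
    Int.ediv_mul_cancel (hdvd v hv)
  -- the quotient
  set g' := g ^ (E : ℤ) * ∏ v ∈ s, (C.g v) ^ (-(k v)) with hg'
  set γ' := (E : ℤ) • γ + ∑ v ∈ s, (-(k v)) • C.γ v with hγ'
  have hgk : ∀ v ∈ s, (C.g v) ^ (-(k v)) ≠ 0 := fun v _ => zpow_ne_zero _ (C.g_ne v)
  have hg'0 : g' ≠ 0 := mul_ne_zero (zpow_ne_zero _ hg) (Finset.prod_ne_zero_iff.2 hgk)
  have hvt : ∀ v ∈ X.Pr, C.vt v γ' g' = 0 := by
    intro v hv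
    rw [hγ', hg', C.vt_mul hv (zpow_ne_zero _ hg) (Finset.prod_ne_zero_iff.2 hgk),
      C.vt_zpow hv hg, C.vt_prod hv s hgk]
    have h1 : ∀ v' ∈ s, v' ≠ v → C.vt v ((-(k v')) • C.γ v') ((C.g v') ^ (-(k v'))) = 0 := by
      intro v' hv' hne
      rw [C.vt_zpow hv (C.g_ne v'), C.vt_g_ne ((hmem v').1 hv').1 hv hne.symm, mul_zero]
    by_cases hvs : v ∈ s
    · rw [Finset.sum_eq_single v h1 (fun h => absurd hvs h), C.vt_zpow hv (C.g_ne v),
        C.vt_g_self hv, neg_mul, hke v hvs]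
      ring
    · rw [Finset.sum_eq_zero fun v' hv' => h1 v' hv' (fun h => hvs (h ▸ hv'))]
      have h2 : C.vt v γ g = 0 := by
        by_contra h3
        exact hvs ((hmem v).2 ⟨hv, h3⟩)
      rw [h2, mul_zero, add_zero]
  obtain ⟨hγ0, c, hc, hgc⟩ := C.const hg'0 hvt
  refine ⟨E, k, s, c, hE0, hc, fun v hv => ((hmem v).1 hv).1, fun v hv hvs => ?_, hke, ?_⟩
  · by_contra h3
    exact hvs ((hmem v).2 ⟨hv, h3⟩)
  · have h1 : hm γ g ^ (E : ℤ) * ∏ v ∈ s, C.F v ^ (-(k v)) = algebraMap ℂ (LF K r) c := by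
      rw [← hm_C, ← hgc, ← hγ0, hγ', hg', ← hm_mul, hm_zpow γ hg, ← hm_prod]
      congr 1
      refine Finset.prod_congr rfl fun v _ => ?_
      rw [F, hm_zpow _ (C.g_ne v)]
    have h2 : (∏ v ∈ s, C.F v ^ (-(k v))) * ∏ v ∈ s, C.F v ^ k v = 1 := by
      rw [← Finset.prod_mul_distrib]
      refine Finset.prod_eq_one fun v _ => ?_
      rw [← zpow_add₀ (C.F_ne v), neg_add_cancel, zpow_zero]
    rw [← h1, mul_assoc, h2, mul_one, zpow_natCast]

/-- `K(t)` is algebraic over the Cox ring. -/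
theorem trdeg_R : ((m + 1 + r : ℕ) : Cardinal) ≤ Algebra.trdeg ℂ C.R := by
  have hF : ∀ v ∈ X.Pr, ∀ n : ℤ, IsAlgebraic C.R (C.F v ^ n) := by
    intro v hv n
    have h1 : IsAlgebraic C.R (C.F v) := isAlgebraic_algebraMap (⟨C.F v, C.F_mem hv⟩ : C.R)
    obtain ⟨m, rfl | rfl⟩ := n.eq_nat_or_neg
    · rw [zpow_natCast]; exact h1.pow m
    · rw [zpow_neg, zpow_natCast]; exact (h1.pow m).inv
  have hprod : ∀ (s : Finset (ValuationSubring K)) (k : ValuationSubring K → ℤ),
      (∀ v ∈ s, v ∈ X.Pr) → IsAlgebraic C.R (∏ v ∈ s, C.F v ^ k v) := by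
    classical
    intro s k hs
    induction s using Finset.induction_on with
    | empty => rw [Finset.prod_empty]; exact isAlgebraic_one
    | insert a s ha ih =>
      rw [Finset.prod_insert ha]
      exact (hF a (hs a (Finset.mem_insert_self _ _)) _).mul
        (ih fun v hv => hs v (Finset.mem_insert_of_mem hv))
  have hhm : ∀ (γ : Fin r → ℤ) (g : K), IsAlgebraic C.R (hm γ g) := by
    intro γ g
    by_cases hg : g = 0
    · rw [hg, hm_zero]; exact isAlgebraic_zero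
    obtain ⟨e, k, s, c, he, -, hs, -, -, h⟩ := C.exists_pow γ hg
    have h1 : IsAlgebraic C.R (hm γ g ^ e) := by
      rw [h]
      refine IsAlgebraic.mul ?_ (hprod s k hs)
      exact isAlgebraic_algebraMap (⟨algebraMap ℂ _ c, C.R.algebraMap_mem c⟩ : C.R)
    exact h1.of_pow he
  have halg : Algebra.IsAlgebraic C.R (LF K r) := by
    refine ⟨fun y => ?_⟩
    have h5 : ∀ x : GR K r, IsAlgebraic C.R (algebraMap (GR K r) (LF K r) x) := by
      classical
      intro x
      rw [algebraMap_GR]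
      have : ∀ s : Finset (Fin r → ℤ), IsAlgebraic C.R (∑ γ ∈ s, hm γ (x.coeff γ)) := by
        intro s
        induction s using Finset.induction_on with
        | empty => rw [Finset.sum_empty]; exact isAlgebraic_zero
        | insert a s ha ih => rw [Finset.sum_insert ha]; exact (hhm _ _).add ih
      exact this _
    obtain ⟨a, b, hb, rfl⟩ := IsFractionRing.div_surjective (A := GR K r) y
    rw [div_eq_mul_inv]
    exact (h5 a).mul (h5 b).inv
  have h1 : Algebra.trdeg ℂ (LF K r) = ((m + 1 + r : ℕ) : Cardinal) := trdeg_LF X.tr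
  rw [← h1, ← trdeg_add_eq ℂ C.R (A := LF K r)]
  have h2 : Algebra.trdeg C.R (LF K r) = 0 := by
    exact trdeg_eq_zero
  rw [h2, add_zero]

end CoxData

end Pool.Agent.Helper94.LCY
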