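import Pool.Agent.Helper94.MDS.Struct

/-!
# Criteria for discrete valuation rings and existence of divisorial valuation rings
-/

noncomputable section

open KaehlerDifferential Polynomial

namespace Pool.Agent.Helper94.LCY

/-- A nontrivial valuation ring containing a Dedekind domain is discrete. -/
theorem dvr_of_dedekind {F : Type} [Field F] (B : Subring F) [IsDedekindDomain B]
    (hfrac : ∀ f : F, ∃ g ∈ B, ∃ h ∈ B, h ≠ 0 ∧ f = g / h) {v : ValuationSubring F}
    (hv : v ≠ ⊤) (hB : B ≤ v.toSubring) : IsDiscreteValuationRing v := by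
  let q : Ideal B := (IsLocalRing.maximalIdeal v).comap (Subring.inclusion hB)
  have hq : q.IsPrime := Ideal.comap_isPrime _ _
  have hmem : ∀ x : B, x ∈ q ↔ v.valuation (x : F) < 1 := fun x =>
    v.valuation_lt_one_iff ⟨x, hB x.2⟩
  have hq0 : q ≠ ⊥ := by
    intro h0
    apply hv
    rw [eq_top_iff]
    intro f _
    obtain ⟨g, hg, h, hh, hh0, rfl⟩ := hfrac f
    have h1 : v.valuation h = 1 := by
      refine le_antisymm ((v.valuation_le_one_iff _).2 (hB hh)) (not_lt.1 fun hlt => ?_)
      have : (⟨h, hh⟩ : B) ∈ q := (hmem _).2 hlt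
      rw [h0, Ideal.mem_bot] at this
      exact hh0 (congrArg Subtype.val this)
    rw [← v.valuation_le_one_iff, map_div₀, h1, div_one]
    exact (v.valuation_le_one_iff _).2 (hB hg)
  have hle : LocalSubring.ofPrime B q ≤ v.toLocalSubring := (ofPrime_le_iff B q v).2 ⟨hB, hmem⟩
  set R := LocalSubring.ofPrime B q with hR
  have hdvr : IsDiscreteValuationRing R.toSubring :=
    IsLocalization.AtPrime.isDiscreteValuationRing_of_dedekind_domain B hq0 R.toSubring
  obtain ⟨ϖ, hϖ⟩ := IsDiscreteValuationRing.exists_irreducible R.toSubring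
  have hunit : ∀ u : R.toSubring, IsUnit u → v.valuation (u : F) = 1 := by
    intro u hu
    exact (v.valuation_eq_one_iff ⟨u, hle.1 u.2⟩).1 (hu.map (Subring.inclusion hle.1))
  have hϖ1 : v.valuation (ϖ : F) < 1 := by
    refine lt_of_le_of_ne ((v.valuation_le_one_iff _).2 (hle.1 ϖ.2)) fun h => hϖ.not_isUnit ?_
    have h1 : IsUnit ((Subring.inclusion hle.1) ϖ) :=
      (v.valuation_eq_one_iff ⟨ϖ, hle.1 ϖ.2⟩).2 h
    exact hle.2.map_nonunit _ h1
  have hϖ0 : (ϖ : F) ≠ 0 := fun h => hϖ.ne_zero (Subtype.ext h)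
  have hfR : ∀ f ∈ v, f ∈ R.toSubring := by
    intro f hf
    by_cases hf0 : f = 0
    · rw [hf0]; exact zero_mem _
    obtain ⟨g, hg, h, hh, hh0, rfl⟩ := hfrac f
    have hg0 : g ≠ 0 := by
      rintro rfl
      simp at hf0
    have hgR : g ∈ R.toSubring := le_ofPrime' B q hg
    have hhR : h ∈ R.toSubring := le_ofPrime' B q hh
    obtain ⟨i, u, hu⟩ := IsDiscreteValuationRing.eq_unit_mul_pow_irreducible
      (x := (⟨g, hgR⟩ : R.toSubring)) (fun h => hg0 (congrArg Subtype.val h)) hϖ
    obtain ⟨j, w, hw⟩ := IsDiscreteValuationRing.eq_unit_mul_pow_irreducible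
      (x := (⟨h, hhR⟩ : R.toSubring)) (fun h => hh0 (congrArg Subtype.val h)) hϖ
    have hu' : g = (u : R.toSubring) * (ϖ : F) ^ i := congrArg Subtype.val hu
    have hw' : h = (w : R.toSubring) * (ϖ : F) ^ j := congrArg Subtype.val hw
    have hw0 : ((w : R.toSubring) : F) ≠ 0 := by
      intro h0
      rw [h0, zero_mul] at hw'
      exact hh0 hw'
    have hij : j ≤ i := by
      by_contra hlt
      rw [not_le] at hlt
      rw [← v.valuation_le_one_iff, hu', hw', map_div₀, map_mul, map_mul, hunit _ u.isUnit,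
        hunit _ w.isUnit, one_mul, one_mul, map_pow, map_pow] at hf
      have hpos : 0 < v.valuation (ϖ : F) := by
        rw [zero_lt_iff]
        exact (Valuation.ne_zero_iff _).2 hϖ0
      rw [div_le_one₀ (pow_pos hpos _)] at hf
      exact absurd (pow_lt_pow_right_of_lt_one₀ hpos hϖ1 hlt) (not_lt.2 hf)
    obtain ⟨m, rfl⟩ := Nat.exists_eq_add_of_le hij
    have h1 : g / h = ((u : R.toSubring) : F) * (((w⁻¹ : (R.toSubring)ˣ) : R.toSubring) : F) *
        (ϖ : F) ^ m := by
      have h2 : ((w : R.toSubring) : F) * (((w⁻¹ : (R.toSubring)ˣ) : R.toSubring) : F) = 1 :=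
        congrArg Subtype.val w.mul_inv
      rw [div_eq_iff hh0, hu', hw', pow_add]
      linear_combination (-(((u : R.toSubring) : F) * (ϖ : F) ^ j * (ϖ : F) ^ m)) * h2
    rw [h1]
    exact mul_mem (mul_mem (SetLike.coe_mem _) (SetLike.coe_mem _)) (pow_mem ϖ.2 m)
  have heq : R.toSubring = v.toSubring := le_antisymm hle.1 (fun f hf => hfR f hf)
  have h2 : IsDiscreteValuationRing v.toSubring := heq ▸ hdvr
  exact h2

variable {K : Type} [Field K] [Algebra ℂ K]

/-- The field generated by elements with algebraically independent residues. -/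
theorem ResIndep.adjoin_unit {ι : Type} {v : ValuationSubring K} {y : ι → K} (h : ResIndep v y)
    {z : K} (hz : z ∈ IntermediateField.adjoin ℂ (Set.range y)) (hz0 : z ≠ 0) :
    v.valuation z = 1 := by
  have hS : ∀ s ∈ Algebra.adjoin ℂ (Set.range y), s ≠ 0 → v.valuation s = 1 := by
    intro s hs hs0
    rw [Algebra.adjoin_range_eq_range_aeval] at hs
    obtain ⟨p, rfl⟩ := hs
    exact h p (by rintro rfl; exact hs0 (map_zero _))
  obtain ⟨r, hr, s, hs, rfl⟩ := IntermediateField.mem_adjoin_iff_div.1 hz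
  have hr0 : r ≠ 0 := by
    rintro rfl
    simp at hz0
  have hs0 : s ≠ 0 := by
    rintro rfl
    simp at hz0
  rw [map_div₀, hS r hr hr0, hS s hs hs0, div_one]

theorem ResIndep.adjoin_mem {ι : Type} {v : ValuationSubring K} {y : ι → K} (h : ResIndep v y)
    {z : K} (hz : z ∈ IntermediateField.adjoin ℂ (Set.range y)) : z ∈ v := by
  by_cases hz0 : z = 0
  · rw [hz0]; exact v.zero_mem
  · exact (v.valuation_le_one_iff _).1 (h.adjoin_unit hz hz0).le

open scoped IntermediateField.algebraAdjoinAdjoin in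
theorem transcendental_of_cons {m : ℕ} {y : Fin m → K} {g : K}
    (hind : AlgebraicIndependent ℂ (Fin.cons g y : Fin (m + 1) → K)) :
    Transcendental (IntermediateField.adjoin ℂ (Set.range y)) g := by
  have h1 : AlgebraicIndependent ℂ (fun o : Option (Fin m) => o.elim g y) := by
    have h2 := hind.comp (finSuccEquiv m).symm (finSuccEquiv m).symm.injective
    convert h2 using 1
    funext o
    cases o with
    | none => simp
    | some i => simp
  have h3 := (AlgebraicIndependent.option_iff.1 h1).2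
  intro halg
  apply h3
  -- clear denominators
  exact (IsFractionRing.isAlgebraic_iff (Algebra.adjoin ℂ (Set.range y))
    (IntermediateField.adjoin ℂ (Set.range y)) K).2 halg

/-- A Dedekind domain contained in all valuation rings which are trivial on `ℂ(y)` and
contain `g`. -/
theorem exists_dedekind {m : ℕ} (hfg : (⊤ : IntermediateField ℂ K).FG)
    (htr : Algebra.trdeg ℂ K = (m + 1 : ℕ)) {y : Fin m → K} {g : K}
    (hind : AlgebraicIndependent ℂ (Fin.cons g y : Fin (m + 1) → K)) :
    ∃ B : Subring K, IsDedekindDomain B ∧ (∀ f : K, ∃ a ∈ B, ∃ b ∈ B, b ≠ 0 ∧ f = a / b) ∧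
      ∀ v : ValuationSubring K, ResIndep v y → g ∈ v → B ≤ v.toSubring := by
  set w : Fin (m + 1) → K := Fin.cons g y with hw
  have hwb : IsTranscendenceBasis ℂ w := by
    refine hind.isTranscendenceBasis_of_trdeg_le ?_ ?_
    · rw [htr]
      exact Cardinal.natCast_lt_aleph0
    · rw [htr]
      simp
  set L := IntermediateField.adjoin ℂ (Set.range y) with hLdef
  set F := IntermediateField.adjoin ℂ (Set.range w) with hFdef
  have hwF : ∀ i, w i ∈ F := fun i => IntermediateField.subset_adjoin _ _ ⟨i, rfl⟩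
  have htF : g ∈ F := hwF 0
  have hLF : L ≤ F := by
    rw [hLdef, IntermediateField.adjoin_le_iff]
    rintro _ ⟨i, rfl⟩
    exact hwF i.succ
  have hAF : ∀ P : L[X], aeval g P ∈ F := by
    intro P
    rw [aeval_eq_sum_range]
    refine sum_mem fun i _ => ?_
    rw [Algebra.smul_def]
    exact mul_mem (hLF (P.coeff i).2) (pow_mem htF i)
  let φ : L[X] →+* F :=
    { toFun := fun P => ⟨aeval g P, hAF P⟩
      map_one' := Subtype.ext (map_one _)
      map_zero' := Subtype.ext (map_zero _)
      map_add' := fun P Q => Subtype.ext (map_add _ P Q)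
      map_mul' := fun P Q => Subtype.ext (map_mul _ P Q) }
  let _ : Algebra L[X] F := φ.toAlgebra
  let _ : Algebra L[X] K := (aeval (R := L) g).toRingHom.toAlgebra
  have hAK : ∀ P : L[X], algebraMap L[X] K P = aeval g P := fun _ => rfl
  have : IsScalarTower L[X] F K := IsScalarTower.of_algebraMap_eq fun _ => rfl
  have htL : Transcendental L g := transcendental_of_cons hind
  have hinj : Function.Injective (algebraMap L[X] F) := by
    rw [injective_iff_map_eq_zero]
    intro P hP
    exact transcendental_iff.1 htL P (congrArg (fun z : F => (z : K)) hP)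
  have : FaithfulSMul L[X] F := (faithfulSMul_iff_algebraMap_injective L[X] F).2 hinj
  have hSadj : ∀ x ∈ Algebra.adjoin ℂ (Set.range w), ∃ P : L[X], aeval g P = x := by
    intro x hx
    induction hx using Algebra.adjoin_induction with
    | mem x hx =>
      obtain ⟨i, rfl⟩ := hx
      refine Fin.cases ?_ (fun i => ?_) i
      · exact ⟨X, by rw [aeval_X]; rfl⟩
      · exact ⟨C ⟨y i, IntermediateField.subset_adjoin _ _ ⟨i, rfl⟩⟩, by rw [aeval_C]; rfl⟩
    | algebraMap z => exact ⟨C (algebraMap ℂ L z), by rw [aeval_C]; rfl⟩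
    | add y z _ _ h1 h2 =>
      obtain ⟨P, hP⟩ := h1
      obtain ⟨Q, hQ⟩ := h2
      exact ⟨P + Q, by rw [map_add, hP, hQ]⟩
    | mul y z _ _ h1 h2 =>
      obtain ⟨P, hP⟩ := h1
      obtain ⟨Q, hQ⟩ := h2
      exact ⟨P * Q, by rw [map_mul, hP, hQ]⟩
  have : IsFractionRing L[X] F := by
    refine IsFractionRing.of_field L[X] F fun z => ?_
    obtain ⟨r, hr, s, hs, e⟩ := IntermediateField.mem_adjoin_iff_div.1 z.2
    obtain ⟨P, hP⟩ := hSadj r hr
    obtain ⟨Q, hQ⟩ := hSadj s hs
    refine ⟨P, Q, Subtype.ext ?_⟩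
    rw [e, ← hP, ← hQ]
    rfl
  have hess : Algebra.EssFiniteType ℂ K := IntermediateField.fg_top_iff.1 hfg
  have hess' : Algebra.EssFiniteType F K := Algebra.EssFiniteType.of_comp ℂ F K
  have halg : Algebra.IsAlgebraic F K := hwb.isAlgebraic_field
  have hfin : Module.Finite F K := Algebra.finite_of_essFiniteType_of_isAlgebraic
  have hsep : Algebra.IsSeparable F K := Algebra.IsAlgebraic.isSeparable_of_perfectField
  set B := integralClosure L[X] K with hB
  have hBfin : Module.Finite L[X] B := IsIntegralClosure.finite L[X] F K B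
  have hBded : IsDedekindDomain B := integralClosure.isDedekindDomain L[X] F K
  have hBfrac : IsFractionRing B K := IsIntegralClosure.isFractionRing_of_finite_extension L[X] F K B
  refine ⟨B.toSubring, hBded, ?_, ?_⟩
  · intro f
    obtain ⟨y, z, hz, rfl⟩ := IsFractionRing.div_surjective B f
    refine ⟨y, y.2, z, z.2, ?_, rfl⟩
    intro h0
    have : z = 0 := Subtype.ext h0
    rw [this] at hz
    exact zero_notMem_nonZeroDivisors hz
  · intro v hy hg x hx
    have hLv : ∀ P : L[X], aeval g P ∈ v := by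
      intro P
      rw [aeval_eq_sum_range]
      refine sum_mem fun i _ => ?_
      rw [Algebra.smul_def]
      exact mul_mem (hy.adjoin_mem (P.coeff i).2) (pow_mem hg i)
    let ψ : L[X] →+* v :=
      { toFun := fun P => ⟨aeval g P, hLv P⟩
        map_one' := Subtype.ext (map_one _)
        map_zero' := Subtype.ext (map_zero _)
        map_add' := fun P Q => Subtype.ext (map_add _ P Q)
        map_mul' := fun P Q => Subtype.ext (map_mul _ P Q) }
    let _ : Algebra L[X] v := ψ.toAlgebra
    have : IsScalarTower L[X] v K := IsScalarTower.of_algebraMap_eq fun _ => rfl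
    have h1 : IsIntegral L[X] x := hx
    have h2 : IsIntegral v x := h1.tower_top
    obtain ⟨y, hy⟩ := IsIntegrallyClosed.isIntegral_iff.1 h2
    rw [← hy]
    exact y.2

/-- A nontrivial valuation ring with many independent residues is discrete. -/
theorem dvr_of_resIndep {m : ℕ} (hfg : (⊤ : IntermediateField ℂ K).FG)
    (htr : Algebra.trdeg ℂ K = (m + 1 : ℕ)) {y : Fin m → K} {v : ValuationSubring K}
    (hy : ResIndep v y) (hv : v ≠ ⊤) {g : K} (hg : g ∈ v)
    (hind : AlgebraicIndependent ℂ (Fin.cons g y : Fin (m + 1) → K)) :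
    IsDiscreteValuationRing v := by
  obtain ⟨B, hB, hfrac, hBv⟩ := exists_dedekind hfg htr hind
  exact dvr_of_dedekind B hfrac hv (hBv v hy hg)

/-- Existence of divisorial valuation rings. -/
theorem exists_dvr {m : ℕ} (hfg : (⊤ : IntermediateField ℂ K).FG)
    (htr : Algebra.trdeg ℂ K = (m + 1 : ℕ)) {y : Fin m → K} {g : K}
    (hind : AlgebraicIndependent ℂ (Fin.cons g y : Fin (m + 1) → K)) :
    ∃ v : ValuationSubring K, IsDiscreteValuationRing v ∧ ResIndep v y ∧
      v.valuation g < 1 := by
  set L := IntermediateField.adjoin ℂ (Set.range y) with hLdef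
  have htL : Transcendental L g := transcendental_of_cons hind
  let A : Subring K := (aeval (R := L) g).range.toSubring
  have hmemA : ∀ x : K, x ∈ A ↔ ∃ P : L[X], aeval g P = x := fun x => Iff.rfl
  have hgA : g ∈ A := (hmemA g).2 ⟨X, aeval_X g⟩
  let I : Ideal A := Ideal.span {⟨g, hgA⟩}
  have hI : I ≠ ⊤ := by
    intro h
    rw [Ideal.eq_top_iff_one] at h
    obtain ⟨a, ha⟩ := Ideal.mem_span_singleton'.1 h
    obtain ⟨P, hP⟩ := (hmemA a).1 a.2
    have h1 : aeval g (P * X - 1) = 0 := by
      rw [map_sub, map_mul, aeval_X, map_one, hP]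
      have := congrArg Subtype.val ha
      change (a : K) * g = 1 at this
      rw [this, sub_self]
    have h2 := transcendental_iff.1 htL _ h1
    have h3 := congrArg (fun Q : L[X] => Q.coeff 0) h2
    simp at h3
  obtain ⟨v, hAv, hIv⟩ := Ideal.image_subset_nonunits_valuationSubring I hI
  have hgv : v.valuation g < 1 := by
    have h1 : g ∈ v.nonunits := hIv ⟨⟨g, hgA⟩, Ideal.subset_span rfl, rfl⟩
    exact h1
  have hLv : ∀ z ∈ L, z ∈ v := by
    intro z hz
    exact hAv ((hmemA z).2 ⟨C ⟨z, hz⟩, aeval_C _ _⟩)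
  have hy : ResIndep v y := by
    intro p hp
    have h1 : MvPolynomial.aeval y p ∈ L := by
      have : MvPolynomial.aeval y p ∈ Algebra.adjoin ℂ (Set.range y) := by
        rw [Algebra.adjoin_range_eq_range_aeval]
        exact ⟨p, rfl⟩
      exact IntermediateField.algebra_adjoin_le_adjoin _ _ this
    have hind' : AlgebraicIndependent ℂ y := by
      have := hind.comp Fin.succ (Fin.succ_injective m)
      exact this
    have h0 : MvPolynomial.aeval y p ≠ 0 := by
      intro h0
      exact hp (algebraicIndependent_iff.1 hind' p h0)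
    have h2 := (v.valuation_le_one_iff _).2 (hLv _ h1)
    have h3 := (v.valuation_le_one_iff _).2 (hLv _ (L.inv_mem h1))
    rw [map_inv₀] at h3
    have h4 : v.valuation (MvPolynomial.aeval y p) ≠ 0 := (Valuation.ne_zero_iff _).2 h0
    refine le_antisymm h2 ?_
    exact (one_le_inv₀ (zero_lt_iff.2 h4)).1 |> fun h => by
      rwa [inv_le_one₀ (zero_lt_iff.2 h4)] at h3
  refine ⟨v, ?_, hy, hgv⟩
  refine dvr_of_resIndep hfg htr hy ?_ ((v.valuation_le_one_iff _).1 hgv.le) hind
  rintro rfl
  have hg0 : g ≠ 0 := by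
    have := hind.ne_zero 0
    simpa using this
  have h1 : g⁻¹ ∈ (⊤ : ValuationSubring K) := trivial
  rw [← ValuationSubring.valuation_le_one_iff, map_inv₀] at h1
  have h4 : (0 : (⊤ : ValuationSubring K).ValueGroup) < (⊤ : ValuationSubring K).valuation g :=
    zero_lt_iff.2 ((Valuation.ne_zero_iff _).2 hg0)
  rw [inv_le_one₀ h4] at h1
  exact absurd hgv (not_lt.2 h1)

end Pool.Agent.Helper94.LCY
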