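import Pool.Agent.Helper94.MDS.Gen

/-!
# Dimension theory of finitely generated domains over the complex numbers
-/

noncomputable section

open Polynomial

namespace Pool.Agent.Helper94.LCY

/-! ### Transcendence degree of the quotient by a nonzero prime -/

theorem indep_of_quot {S : Type} [CommRing S] [Algebra ℂ S]
    (Q : Ideal S) {ι : Type} {z : ι → S}
    (hz : AlgebraicIndependent ℂ fun i => Ideal.Quotient.mk Q (z i)) :
    AlgebraicIndependent ℂ z :=
  AlgebraicIndependent.of_comp (Ideal.Quotient.mkₐ ℂ Q) hz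

theorem exists_aeval_of_mem_adjoin {S : Type} [CommRing S] [Algebra ℂ S] {ι : Type} {z : ι → S}
    {x : S} (hx : x ∈ Algebra.adjoin ℂ (Set.range z)) :
    ∃ p : MvPolynomial ι ℂ, MvPolynomial.aeval z p = x := by
  rw [Algebra.adjoin_range_eq_range_aeval] at hx
  exact hx

theorem aeval_mk {S : Type} [CommRing S] [Algebra ℂ S] (Q : Ideal S) {ι : Type} (z : ι → S)
    (p : MvPolynomial ι ℂ) : MvPolynomial.aeval (fun i => Ideal.Quotient.mk Q (z i)) p =
      Ideal.Quotient.mk Q (MvPolynomial.aeval z p) := by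
  have h : MvPolynomial.aeval (fun i => Ideal.Quotient.mk Q (z i)) =
      (Ideal.Quotient.mkₐ ℂ Q).comp (MvPolynomial.aeval z) := by
    apply MvPolynomial.algHom_ext
    intro i
    rw [AlgHom.comp_apply, MvPolynomial.aeval_X, MvPolynomial.aeval_X]
    rfl
  rw [h]
  rfl

theorem exists_option_indep {S : Type} [CommRing S] [IsDomain S] [Algebra ℂ S]
    (Q : Ideal S) (hQ : Q ≠ ⊥) {ι : Type} {z : ι → S}
    (hz : AlgebraicIndependent ℂ fun i => Ideal.Quotient.mk Q (z i)) :
    ∃ x ∈ Q, AlgebraicIndependent ℂ (fun o : Option ι => o.elim x z) := by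
  obtain ⟨x, hxQ, hx0⟩ := Submodule.exists_mem_ne_zero_of_ne_bot hQ
  have hz' := indep_of_quot Q hz
  refine ⟨x, hxQ, AlgebraicIndependent.option_iff.2 ⟨hz', fun halg => ?_⟩⟩
  obtain ⟨P, hP0, hP⟩ := halg.exists_nonzero_coeff_and_aeval_eq_zero
    (mem_nonZeroDivisors_of_ne_zero hx0)
  apply hP0
  have h1 : (P.coeff 0 : S) ∈ Q := by
    have h2 := hP
    rw [← Polynomial.divX_mul_X_add P, map_add, map_mul, aeval_X, aeval_C] at h2
    have h3 : algebraMap (Algebra.adjoin ℂ (Set.range z)) S (P.coeff 0) =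
        -(aeval x P.divX * x) := by
      linear_combination h2
    change algebraMap (Algebra.adjoin ℂ (Set.range z)) S (P.coeff 0) ∈ Q
    rw [h3]
    exact Q.neg_mem (Q.mul_mem_left _ hxQ)
  obtain ⟨p, hp⟩ := exists_aeval_of_mem_adjoin (P.coeff 0).2
  have h2 : MvPolynomial.aeval (fun i => Ideal.Quotient.mk Q (z i)) p = 0 := by
    rw [aeval_mk, hp]
    exact Ideal.Quotient.eq_zero_iff_mem.2 h1
  have h3 := algebraicIndependent_iff.1 hz p h2
  rw [h3, map_zero] at hp
  exact Subtype.ext hp.symm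

theorem trdeg_quot_le {S : Type} [CommRing S] [IsDomain S] [Algebra ℂ S]
    (Q : Ideal S) [Q.IsPrime] (hQ : Q ≠ ⊥) {M : ℕ}
    (hM : Algebra.trdeg ℂ S ≤ ((M + 1 : ℕ) : Cardinal)) :
    Algebra.trdeg ℂ (S ⧸ Q) ≤ (M : Cardinal) := by
  obtain ⟨s, hs⟩ := exists_isTranscendenceBasis ℂ (S ⧸ Q)
  rw [← hs.cardinalMk_eq_trdeg]
  have h1 : ∀ a : s, ∃ z : S, Ideal.Quotient.mk Q z = a := fun a =>
    Ideal.Quotient.mk_surjective (a : S ⧸ Q)
  choose z hz using h1
  have h2 : AlgebraicIndependent ℂ fun i => Ideal.Quotient.mk Q (z i) := by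
    convert hs.1 using 1
    funext i
    exact hz i
  obtain ⟨x, -, h3⟩ := exists_option_indep Q hQ h2
  have h4 := h3.cardinalMk_le_trdeg.trans hM
  rw [Cardinal.mk_option, Nat.cast_add, Nat.cast_one] at h4
  have h5 : Cardinal.mk s < Cardinal.aleph0 := by
    refine lt_of_le_of_lt ?_ (Cardinal.natCast_lt_aleph0 (n := M + 1))
    push_cast
    exact le_self_add.trans h4
  obtain ⟨k, hk⟩ := Cardinal.lt_aleph0.1 h5
  rw [hk] at h4 ⊢
  have h6 : k + 1 ≤ M + 1 := by exact_mod_cast h4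
  exact_mod_cast (by omega : k ≤ M)

theorem trdeg_quot_le' {S : Type} [CommRing S] [Algebra ℂ S]
    (P Q : Ideal S) [P.IsPrime] [Q.IsPrime] (h : P < Q) {M : ℕ}
    (hM : Algebra.trdeg ℂ (S ⧸ P) ≤ ((M + 1 : ℕ) : Cardinal)) :
    Algebra.trdeg ℂ (S ⧸ Q) ≤ (M : Cardinal) := by
  have hQ : (Q.map (Ideal.Quotient.mk P)).IsPrime :=
    Ideal.map_isPrime_of_surjective Ideal.Quotient.mk_surjective (by rw [Ideal.mk_ker]; exact h.le)
  have h0 : Q.map (Ideal.Quotient.mk P) ≠ ⊥ := by
    intro h0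
    rw [Ideal.map_eq_bot_iff_le_ker, Ideal.mk_ker] at h0
    exact absurd h0 (not_le_of_gt h)
  have h1 := trdeg_quot_le (Q.map (Ideal.Quotient.mk P)) h0 hM
  have e : ((S ⧸ P) ⧸ Q.map (Ideal.Quotient.mk P)) ≃ₐ[ℂ] S ⧸ Q :=
    DoubleQuot.quotQuotEquivQuotOfLEₐ ℂ h.le
  rwa [e.trdeg_eq] at h1

theorem trdeg_quot_comap {S : Type} [CommRing S] [Algebra ℂ S] (P : Ideal S)
    (Q : Ideal (S ⧸ P)) :
    Algebra.trdeg ℂ ((S ⧸ P) ⧸ Q) ≤ Algebra.trdeg ℂ (S ⧸ Q.comap (Ideal.Quotient.mk P)) := by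
  let φ : ((S ⧸ P) ⧸ Q) →ₐ[ℂ] (S ⧸ Q.comap (Ideal.Quotient.mk P)) :=
    Ideal.Quotient.liftₐ Q (Ideal.Quotient.liftₐ P
      (Ideal.Quotient.mkₐ ℂ (Q.comap (Ideal.Quotient.mk P))) (by
        intro x hx
        refine Ideal.Quotient.eq_zero_iff_mem.2 ?_
        rw [Ideal.mem_comap, Ideal.Quotient.eq_zero_iff_mem.2 hx]
        exact Q.zero_mem)) (by
      intro y hy
      obtain ⟨x, rfl⟩ := Ideal.Quotient.mk_surjective y
      exact Ideal.Quotient.eq_zero_iff_mem.2 hy)
  refine trdeg_le_of_injective φ ?_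
  rw [injective_iff_map_eq_zero]
  intro z hz
  obtain ⟨y, rfl⟩ := Ideal.Quotient.mk_surjective z
  obtain ⟨x, rfl⟩ := Ideal.Quotient.mk_surjective y
  have h2 : Ideal.Quotient.mk (Q.comap (Ideal.Quotient.mk P)) x = 0 := hz
  have h3 : x ∈ Q.comap (Ideal.Quotient.mk P) := Ideal.Quotient.eq_zero_iff_mem.1 h2
  exact Ideal.Quotient.eq_zero_iff_mem.2 (Ideal.mem_comap.1 h3)

/-! ### The principal ideal theorem -/

theorem sepVar_C {m : ℕ} (i : Fin (m + 1)) (a : ℂ) :
    sepVar i (MvPolynomial.C a) = C (MvPolynomial.C a) := by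
  change MvPolynomial.optionEquivLeft ℂ (Fin m)
    (MvPolynomial.rename (finSuccEquiv' i) (MvPolynomial.C a)) = _
  rw [MvPolynomial.rename_C, MvPolynomial.optionEquivLeft_C]

theorem sepVar_X_succAbove {m : ℕ} (i : Fin (m + 1)) (j : Fin m) :
    sepVar i (MvPolynomial.X (i.succAbove j)) = C (MvPolynomial.X j) := by
  change MvPolynomial.optionEquivLeft ℂ (Fin m)
    (MvPolynomial.rename (finSuccEquiv' i) (MvPolynomial.X (i.succAbove j))) = _
  rw [MvPolynomial.rename_X, finSuccEquiv'_succAbove, MvPolynomial.optionEquivLeft_X_some]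

theorem sepVar_rename {m : ℕ} (i : Fin (m + 1)) (q : MvPolynomial (Fin m) ℂ) :
    sepVar i (MvPolynomial.rename i.succAbove q) = C q := by
  induction q using MvPolynomial.induction_on with
  | C a => rw [MvPolynomial.rename_C, sepVar_C]
  | add p q hp hq => rw [map_add, map_add, map_add, hp, hq]
  | mul_X p j hp =>
    rw [map_mul, map_mul, map_mul, hp, MvPolynomial.rename_X, sepVar_X_succAbove]

theorem exists_rename_of_dvd' {m : ℕ} {i : Fin (m + 1)} {π : MvPolynomial (Fin (m + 1)) ℂ}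
    {p : MvPolynomial (Fin m) ℂ} (hp : p ≠ 0) (h : π ∣ MvPolynomial.rename i.succAbove p) :
    ∃ π' : MvPolynomial (Fin m) ℂ, π = MvPolynomial.rename i.succAbove π' := by
  have h1 : sepVar i π ∣ C p := by
    rw [← sepVar_rename i]
    exact (map_dvd_iff (sepVar i)).2 h
  have h2 : (sepVar i π).natDegree = 0 := by
    have h3 := Polynomial.natDegree_le_of_dvd h1 (by rwa [Ne, Polynomial.C_eq_zero])
    rw [Polynomial.natDegree_C] at h3
    omega
  obtain ⟨π', hπ'⟩ := Polynomial.natDegree_eq_zero.1 h2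
  refine ⟨π', ?_⟩
  apply (sepVar i).injective
  rw [sepVar_rename, hπ']

theorem pderiv_rename_succAbove {m : ℕ} (i : Fin (m + 1)) (p : MvPolynomial (Fin m) ℂ) :
    MvPolynomial.pderiv i (MvPolynomial.rename i.succAbove p) = 0 := by
  induction p using MvPolynomial.induction_on with
  | C a => rw [MvPolynomial.rename_C, MvPolynomial.pderiv_C]
  | add p q hp hq => rw [map_add, map_add, hp, hq, add_zero]
  | mul_X p j hp =>
    rw [map_mul, Derivation.leibniz, hp, smul_zero, add_zero, MvPolynomial.rename_X,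
      MvPolynomial.pderiv_X_of_ne (Fin.succAbove_ne i j), smul_zero]

theorem trdeg_quot_ge {S : Type} [CommRing S] [IsDomain S] [Algebra ℂ S]
    [Algebra.FiniteType ℂ S] {f : S} (hf : f ≠ 0) {Q : Ideal S}
    (hQ : Q ∈ (Ideal.span {f}).minimalPrimes) {M : ℕ}
    (hM : ((M + 1 : ℕ) : Cardinal) ≤ Algebra.trdeg ℂ S) :
    (M : Cardinal) ≤ Algebra.trdeg ℂ (S ⧸ Q) := by
  have hQp : Q.IsPrime := hQ.1.1
  have hfQ : f ∈ Q := hQ.1.2 (Ideal.subset_span rfl)
  obtain ⟨s, g, hg, hgf⟩ := exists_finite_inj_algHom_of_fg ℂ S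
  let _ : Algebra (MvPolynomial (Fin s) ℂ) S := g.toRingHom.toAlgebra
  have hfin : Module.Finite (MvPolynomial (Fin s) ℂ) S := hgf
  have htower : IsScalarTower ℂ (MvPolynomial (Fin s) ℂ) S :=
    IsScalarTower.of_algebraMap_eq fun x => (g.commutes x).symm
  have hinj : Function.Injective (algebraMap (MvPolynomial (Fin s) ℂ) S) := hg
  have hfaith : FaithfulSMul (MvPolynomial (Fin s) ℂ) S :=
    (faithfulSMul_iff_algebraMap_injective _ _).2 hinj
  -- transcendence degree
  have htr : Algebra.trdeg ℂ S = s := by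
    have h1 := IsTranscendenceBasis.mvPolynomial (Fin s) ℂ
    have h2 := h1.algebraMap_comp (A := S)
    rw [← h2.cardinalMk_eq_trdeg, Cardinal.mk_fin]
  rw [htr] at hM
  have hMs : M + 1 ≤ s := by exact_mod_cast hM
  obtain ⟨k, rfl⟩ : ∃ k, s = k + 1 := ⟨s - 1, by omega⟩
  -- the contraction of `Q`
  have hS : IsNoetherianRing S := Algebra.FiniteType.isNoetherianRing ℂ S
  set q := Q.comap (algebraMap (MvPolynomial (Fin (k + 1)) ℂ) S) with hq
  have hqp : q.IsPrime := Ideal.comap_isPrime _ _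
  have hq0 : q ≠ ⊥ := Ideal.comap_ne_bot_of_integral_mem hf hfQ
    (Algebra.IsIntegral.isIntegral f)
  obtain ⟨π, hπq, hπ⟩ := hqp.exists_mem_prime_of_ne_bot hq0
  have hπp : (Ideal.span {π}).IsPrime := (Ideal.span_singleton_prime hπ.ne_zero).2 hπ
  have hover : Q.LiesOver q := ⟨rfl⟩
  obtain ⟨P, hPQ, hPp, hPo⟩ := Ideal.exists_ideal_le_liesOver_of_le (p := Ideal.span {π})
    (q := q) Q ((Ideal.span_singleton_le_iff_mem q).2 hπq)
  have hP0 : P ≠ ⊥ := by
    rintro rfl
    have h1 := hPo.over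
    have h2 : π ∈ Ideal.under (MvPolynomial (Fin (k + 1)) ℂ) (⊥ : Ideal S) := by
      rw [← h1]
      exact Ideal.mem_span_singleton_self π
    have h3 : algebraMap _ S π = 0 := h2
    rw [map_eq_zero_iff _ hinj] at h3
    exact hπ.ne_zero h3
  have hPQ' : P = Q := by
    by_contra hne
    have h1 := Ideal.height_le_one_of_isPrincipal_of_mem_minimalPrimes (Ideal.span {f}) Q hQ
    have h2 : P < Q := lt_of_le_of_ne hPQ hne
    have h3 := Ideal.height_add_one_le_of_lt_of_isPrime h2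
    have h4 : P.height ≠ 0 := by
      rw [Ne, Ideal.height_eq_zero_iff_eq_bot]
      exact hP0
    have h5 : (1 : ℕ∞) ≤ P.height := Order.one_le_iff_ne_zero.2 h4
    have h6 : (1 : ℕ∞) + 1 ≤ 1 := (add_le_add_left h5 1).trans (h3.trans h1)
    exact absurd h6 (by decide +revert)
  have hqπ : q = Ideal.span {π} := by
    rw [hPo.over, hPQ']
  -- the variable which is involved in `π`
  obtain ⟨i, hi⟩ : ∃ i, MvPolynomial.pderiv i π ≠ 0 := by
    by_contra hcon
    push Not at hcon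
    have h1 := eq_C_of_pderiv π hcon
    apply hπ.not_isUnit
    rw [h1]
    refine IsUnit.map MvPolynomial.C (isUnit_iff_ne_zero.2 ?_)
    intro h0
    rw [h0, map_zero] at h1
    exact hπ.ne_zero h1
  have hind : AlgebraicIndependent ℂ
      (fun j : Fin k => Ideal.Quotient.mk Q (algebraMap (MvPolynomial (Fin (k + 1)) ℂ) S
        (MvPolynomial.X (i.succAbove j)))) := by
    rw [algebraicIndependent_iff]
    intro p hp
    by_contra hp0
    have h1 : MvPolynomial.aeval
        (fun j : Fin k => Ideal.Quotient.mk Q (algebraMap (MvPolynomial (Fin (k + 1)) ℂ) S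
          (MvPolynomial.X (i.succAbove j)))) p =
        Ideal.Quotient.mk Q (algebraMap _ S (MvPolynomial.rename i.succAbove p)) := by
      have h2 : (Ideal.Quotient.mk Q).comp (algebraMap (MvPolynomial (Fin (k + 1)) ℂ) S) =
          ((Ideal.Quotient.mkₐ ℂ Q).comp g).toRingHom := rfl
      rw [← RingHom.comp_apply, h2]
      change _ = ((Ideal.Quotient.mkₐ ℂ Q).comp g) (MvPolynomial.rename i.succAbove p)
      rw [← AlgHom.comp_apply]
      congr 1
      apply MvPolynomial.algHom_ext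
      intro j
      rw [MvPolynomial.aeval_X, AlgHom.comp_apply, AlgHom.comp_apply, MvPolynomial.rename_X]
      rfl
    rw [h1] at hp
    have h2 : MvPolynomial.rename i.succAbove p ∈ q :=
      (Ideal.Quotient.eq_zero_iff_mem (I := Q)).1 hp
    rw [hqπ, Ideal.mem_span_singleton] at h2
    obtain ⟨π', hπ'⟩ := exists_rename_of_dvd' hp0 h2
    apply hi
    rw [hπ', pderiv_rename_succAbove]
  have h1 := hind.cardinalMk_le_trdeg
  rw [Cardinal.mk_fin] at h1
  refine le_trans ?_ h1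
  exact_mod_cast (by omega : M ≤ k)

/-! ### Divisorial valuations over a parameter ideal -/

/-- The centre of a valuation ring on a subring. -/
def centre {L : Type} [Field L] [Algebra ℂ L] (V : ValuationSubring L) (T : Subalgebra ℂ L)
    (h : ∀ x ∈ T, x ∈ V) : Ideal T :=
  (IsLocalRing.maximalIdeal V).comap
    (Subring.inclusion (S := T.toSubring) (T := V.toSubring) h : T →+* V)

theorem mem_centre {L : Type} [Field L] [Algebra ℂ L] {V : ValuationSubring L}
    {T : Subalgebra ℂ L} {h : ∀ x ∈ T, x ∈ V} {x : T} :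
    x ∈ centre V T h ↔ V.valuation (x : L) < 1 :=
  V.valuation_lt_one_iff ⟨x, h x x.2⟩

instance {L : Type} [Field L] [Algebra ℂ L] (V : ValuationSubring L)
    (T : Subalgebra ℂ L) (h : ∀ x ∈ T, x ∈ V) : (centre V T h).IsPrime :=
  Ideal.comap_isPrime _ _

theorem exists_valuation_of_prime {L : Type} [Field L] [Algebra ℂ L] (T : Subalgebra ℂ L)
    (Q : Ideal T) [hQ : Q.IsPrime] : ∃ V : ValuationSubring L, (∀ x ∈ T, x ∈ V) ∧
      ∀ x : T, x ∈ Q ↔ V.valuation (x : L) < 1 := by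
  let Q' : Ideal T.toSubring := Q
  have hQ' : Q'.IsPrime := hQ
  obtain ⟨V, hV⟩ := LocalSubring.exists_le_valuationSubring (LocalSubring.ofPrime T.toSubring Q')
  have h := (ofPrime_le_iff T.toSubring Q' V).1 hV
  exact ⟨V, fun x hx => h.1 hx, h.2⟩

theorem exists_valuation {L : Type} [Field L] [Algebra ℂ L] (R : Subalgebra ℂ L) (hR : R.FG)
    {M c k : ℕ} (hM : (M : Cardinal) ≤ Algebra.trdeg ℂ R) (hk : k + c + 1 = M)
    (f : Fin (c + 1) → R) (hf : ∀ i, f i ≠ 0) {P : Ideal R}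
    (hP : P ∈ (Ideal.span (Set.range f)).minimalPrimes) (h : Fin k → R)
    (hh : IsTranscendenceBasis ℂ fun a => Ideal.Quotient.mk P (h a)) :
    ∃ (V : ValuationSubring L) (i : Fin (c + 1)), (∀ x ∈ R, x ∈ V) ∧
      (∀ x : R, x ∈ P ↔ V.valuation (x : L) < 1) ∧
      ResIndep V (Sum.elim (fun j : Fin c => (f (i.succAbove j) : L) / f i)
        (fun a : Fin k => (h a : L))) := by
  have hPp : P.IsPrime := hP.1.1
  obtain ⟨V₀, hRV₀, hV₀⟩ := exists_valuation_of_prime R P
  obtain ⟨i, hi⟩ := Finite.exists_max (fun i => V₀.valuation (f i : L))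
  have hfi : (f i : L) ≠ 0 := fun h0 => hf i (Subtype.ext h0)
  set q : Fin c → L := fun j => (f (i.succAbove j) : L) / f i with hq
  set T : Subalgebra ℂ L := Algebra.adjoin ℂ ((R : Set L) ∪ Set.range q) with hT
  have hRT : R ≤ T := fun x hx => Algebra.subset_adjoin (Or.inl hx)
  have hqT : ∀ j, q j ∈ T := fun j => Algebra.subset_adjoin (Or.inr ⟨j, rfl⟩)
  have hTV₀ : ∀ x ∈ T, x ∈ V₀ := by
    intro x hx
    induction hx using Algebra.adjoin_induction with
    | mem x hx =>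
      rcases hx with hx | ⟨j, rfl⟩
      · exact hRV₀ x hx
      · rw [← V₀.valuation_le_one_iff, hq]
        change V₀.valuation ((f (i.succAbove j) : L) / f i) ≤ 1
        rw [map_div₀]
        exact div_le_one_of_le₀ (hi _) zero_le
    | algebraMap r => exact hRV₀ _ (R.algebraMap_mem r)
    | add x y _ _ hx hy => exact V₀.add_mem _ _ hx hy
    | mul x y _ _ hx hy => exact V₀.mul_mem _ _ hx hy
  have hTfg : T.FG := by
    rw [hT, Algebra.adjoin_union, Algebra.adjoin_eq]
    exact hR.sup (Subalgebra.fg_adjoin_finset (Set.finite_range q).toFinset |> fun h => by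
      rwa [Set.Finite.coe_toFinset] at h)
  have hTft : Algebra.FiniteType ℂ T := (Subalgebra.fg_iff_finiteType T).1 hTfg
  set fi : T := ⟨f i, hRT (f i).2⟩ with hfidef
  have hfi0 : fi ≠ 0 := fun h0 => hfi (congrArg Subtype.val h0)
  have hfi1 : V₀.valuation (f i : L) < 1 := by
    rw [← hV₀]
    exact hP.1.2 (Ideal.subset_span ⟨i, rfl⟩)
  obtain ⟨Q, hQ, hQ₀⟩ := Ideal.exists_minimalPrimes_le
    (I := Ideal.span {fi}) (J := centre V₀ T hTV₀) (by
      rw [Ideal.span_singleton_le_iff_mem, mem_centre]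
      exact hfi1)
  have hQp : Q.IsPrime := hQ.1.1
  have hfiQ : fi ∈ Q := hQ.1.2 (Ideal.subset_span rfl)
  -- the contraction of `Q`
  have hQP : ∀ x : R, (⟨x, hRT x.2⟩ : T) ∈ Q ↔ x ∈ P := by
    have h1 : Q.comap (Subalgebra.inclusion hRT).toRingHom ≤ P := by
      intro x hx
      rw [hV₀]
      have h2 : (⟨x, hRT x.2⟩ : T) ∈ centre V₀ T hTV₀ := hQ₀ hx
      exact (mem_centre (T := T) (h := hTV₀) (x := ⟨x, hRT x.2⟩)).1 h2
    have h2 : Ideal.span (Set.range f) ≤ Q.comap (Subalgebra.inclusion hRT).toRingHom := by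
      rw [Ideal.span_le]
      rintro _ ⟨j, rfl⟩
      change (⟨f j, hRT (f j).2⟩ : T) ∈ Q
      by_cases hj : j = i
      · subst hj; exact hfiQ
      · obtain ⟨j', rfl⟩ := Fin.exists_succAbove_eq hj
        have h3 : (⟨f (i.succAbove j'), hRT (f (i.succAbove j')).2⟩ : T) =
            ⟨q j', hqT j'⟩ * fi := by
          apply Subtype.ext
          change (f (i.succAbove j') : L) = (f (i.succAbove j') : L) / f i * f i
          rw [div_mul_cancel₀ _ hfi]
        rw [h3]
        exact Q.mul_mem_left _ hfiQ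
    have h3 := hP.2 ⟨Ideal.comap_isPrime _ Q, h2⟩ h1
    intro x
    exact ⟨fun hx => h1 hx, fun hx => h3 hx⟩
  -- dimension count
  have htrT : ((k + c + 1 : ℕ) : Cardinal) ≤ Algebra.trdeg ℂ T := by
    rw [hk]
    exact hM.trans (trdeg_le_of_injective (Subalgebra.inclusion hRT)
      (Subalgebra.inclusion_injective hRT))
  have htrQ := trdeg_quot_ge hfi0 hQ htrT
  set w : Fin c ⊕ Fin k → T := Sum.elim (fun j => ⟨q j, hqT j⟩) (fun a => ⟨h a, hRT (h a).2⟩)
    with hw
  set wb : Fin c ⊕ Fin k → T ⧸ Q := fun a => Ideal.Quotient.mk Q (w a) with hwb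
  have hinjR : Function.Injective (algebraMap ℂ (T ⧸ Q)) := (algebraMap ℂ (T ⧸ Q)).injective
  set Aw := Algebra.adjoin ℂ (Set.range wb) with hAw
  -- the map of the quotients
  let φ : (R ⧸ P) →ₐ[ℂ] (T ⧸ Q) := Ideal.Quotient.liftₐ P
    ((Ideal.Quotient.mkₐ ℂ Q).comp (Subalgebra.inclusion hRT)) (by
      intro x hx
      exact Ideal.Quotient.eq_zero_iff_mem.2 ((hQP x).2 hx))
  have hφ : ∀ x : R, φ (Ideal.Quotient.mk P x) = Ideal.Quotient.mk Q ⟨x, hRT x.2⟩ := fun x => rfl
  have hφinj : Function.Injective φ := by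
    rw [injective_iff_map_eq_zero]
    intro y hy
    obtain ⟨x, rfl⟩ := Ideal.Quotient.mk_surjective y
    rw [hφ] at hy
    exact Ideal.Quotient.eq_zero_iff_mem.2
      ((hQP x).1 (Ideal.Quotient.eq_zero_iff_mem.1 hy))
  have hhalg := hh.isAlgebraic
  have hRalg : ∀ x : R, IsAlgebraic Aw (Ideal.Quotient.mk Q ⟨x, hRT x.2⟩) := by
    intro x
    have h1 := hhalg.isAlgebraic (Ideal.Quotient.mk P x)
    have hle : ∀ y ∈ Algebra.adjoin ℂ (Set.range fun a => Ideal.Quotient.mk P (h a)),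
        φ y ∈ Aw := by
      intro y hy
      have h2 : φ y ∈ (Algebra.adjoin ℂ (Set.range fun a => Ideal.Quotient.mk P (h a))).map φ :=
        ⟨y, hy, rfl⟩
      rw [AlgHom.map_adjoin] at h2
      refine Algebra.adjoin_mono ?_ h2
      rintro _ ⟨_, ⟨a, rfl⟩, rfl⟩
      exact ⟨Sum.inr a, rfl⟩
    let g : Algebra.adjoin ℂ (Set.range fun a => Ideal.Quotient.mk P (h a)) →ₐ[ℂ] Aw :=
      (φ.comp (Subalgebra.val _)).codRestrict Aw fun y => hle y y.2
    have hg : Function.Injective g := by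
      intro y z hyz
      have h2 := congrArg Subtype.val hyz
      exact Subtype.ext (hφinj h2)
    exact h1.ringHom_of_comp_eq g.toRingHom φ.toRingHom hg rfl
  have halg : Algebra.IsAlgebraic Aw (T ⧸ Q) := by
    refine ⟨fun y => ?_⟩
    obtain ⟨⟨x, hx⟩, rfl⟩ := Ideal.Quotient.mk_surjective y
    induction hx using Algebra.adjoin_induction with
    | mem x hx =>
      rcases hx with hx | ⟨j, rfl⟩
      · exact hRalg ⟨x, hx⟩
      · have h1 : Ideal.Quotient.mk Q ⟨q j, hqT j⟩ ∈ Aw :=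
          Algebra.subset_adjoin ⟨Sum.inl j, rfl⟩
        exact isAlgebraic_algebraMap (⟨_, h1⟩ : Aw)
    | algebraMap r => exact hRalg ⟨_, R.algebraMap_mem r⟩
    | add x y hx' hy' hx hy => exact hx.add hy
    | mul x y hx' hy' hx hy => exact hx.mul hy
  have hfaith : FaithfulSMul ℂ (T ⧸ Q) := (faithfulSMul_iff_algebraMap_injective _ _).2 hinjR
  have hwind : AlgebraicIndependent ℂ wb :=
    (Algebra.IsAlgebraic.isTranscendenceBasis_of_le_trdeg_of_finite ℂ wb (by
      refine le_trans ?_ htrQ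
      rw [Cardinal.mk_sum, Cardinal.mk_fin, Cardinal.mk_fin]
      simp [add_comm])).1
  obtain ⟨V, hTV, hVQ⟩ := exists_valuation_of_prime T Q
  refine ⟨V, i, fun x hx => hTV x (hRT hx), fun x => ?_, ?_⟩
  · rw [← hQP, hVQ]
  · intro p hp
    have h1 : MvPolynomial.aeval (Sum.elim (fun j : Fin c => (f (i.succAbove j) : L) / f i)
        (fun a : Fin k => (h a : L))) p = ((MvPolynomial.aeval w p : T) : L) := by
      have h2 : MvPolynomial.aeval (Sum.elim (fun j : Fin c => (f (i.succAbove j) : L) / f i)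
          (fun a : Fin k => (h a : L))) = (Subalgebra.val T).comp (MvPolynomial.aeval w) := by
        apply MvPolynomial.algHom_ext
        rintro (j | a)
        · rw [AlgHom.comp_apply, MvPolynomial.aeval_X, MvPolynomial.aeval_X]
          rfl
        · rw [AlgHom.comp_apply, MvPolynomial.aeval_X, MvPolynomial.aeval_X]
          rfl
      rw [h2]
      rfl
    rw [h1]
    refine le_antisymm ((V.valuation_le_one_iff _).2 (hTV _ (SetLike.coe_mem _)))
      (not_lt.1 fun h2 => hp ?_)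
    rw [← hVQ] at h2
    apply algebraicIndependent_iff.1 hwind p
    rw [hwb, aeval_mk]
    exact Ideal.Quotient.eq_zero_iff_mem.2 h2

end Pool.Agent.Helper94.LCY
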