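import Pool.Agent.Helper94.MDS.Fld

/-!
# The fibration given by the units
-/

noncomputable section

open KaehlerDifferential

namespace Pool.Agent.Helper94.LCY

variable {K : Type} [Field K] [Algebra ℂ K] {m : ℕ}

theorem finSuccEquiv_rename_succ (p : MvPolynomial (Fin m) ℂ) :
    MvPolynomial.finSuccEquiv ℂ m (MvPolynomial.rename Fin.succ p) = Polynomial.C p := by
  induction p using MvPolynomial.induction_on with
  | C a => simp [MvPolynomial.finSuccEquiv_apply]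
  | add p q hp hq => rw [map_add, map_add, map_add, hp, hq]
  | mul_X p i hp =>
    rw [map_mul, map_mul, map_mul, hp, MvPolynomial.rename_X, MvPolynomial.finSuccEquiv_X_succ]

theorem exists_rename_of_dvd {π : MvPolynomial (Fin (m + 1)) ℂ} {p : MvPolynomial (Fin m) ℂ}
    (hp : p ≠ 0) (h : π ∣ MvPolynomial.rename Fin.succ p) :
    ∃ π' : MvPolynomial (Fin m) ℂ, π = MvPolynomial.rename Fin.succ π' := by
  have h1 : MvPolynomial.finSuccEquiv ℂ m π ∣ Polynomial.C p := by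
    rw [← finSuccEquiv_rename_succ]
    exact map_dvd _ h
  have h2 : (MvPolynomial.finSuccEquiv ℂ m π).natDegree = 0 := by
    have h3 := Polynomial.natDegree_le_of_dvd h1 (by rwa [Ne, Polynomial.C_eq_zero])
    rw [Polynomial.natDegree_C] at h3
    omega
  obtain ⟨π', hπ'⟩ := Polynomial.natDegree_eq_zero.1 h2
  refine ⟨π', ?_⟩
  apply (MvPolynomial.finSuccEquiv ℂ m).injective
  rw [finSuccEquiv_rename_succ, hπ']

theorem rename_dvd_iff {p q : MvPolynomial (Fin m) ℂ} :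
    MvPolynomial.rename (Fin.succ : Fin m → Fin (m + 1)) p ∣ MvPolynomial.rename Fin.succ q ↔
      p ∣ q := by
  constructor
  · intro h
    have h1 := map_dvd (MvPolynomial.finSuccEquiv ℂ m) h
    rw [finSuccEquiv_rename_succ, finSuccEquiv_rename_succ] at h1
    have h2 := (Polynomial.C_dvd_iff_dvd_coeff p _).1 h1 0
    rwa [Polynomial.coeff_C_zero] at h2
  · intro h
    exact map_dvd _ h

theorem irreducible_of_rename {p : MvPolynomial (Fin m) ℂ}
    (h : Irreducible (MvPolynomial.rename (Fin.succ : Fin m → Fin (m + 1)) p)) :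
    Irreducible p := by
  have hu : ∀ q : MvPolynomial (Fin m) ℂ,
      IsUnit (MvPolynomial.rename (Fin.succ : Fin m → Fin (m + 1)) q) → IsUnit q := by
    intro q hq
    have := hq.map (MvPolynomial.finSuccEquiv ℂ m)
    rwa [finSuccEquiv_rename_succ, Polynomial.isUnit_C] at this
  refine ⟨fun h0 => h.not_isUnit (h0.map _), fun a b hab => ?_⟩
  rw [hab, map_mul] at h
  rcases h.isUnit_or_isUnit rfl with h1 | h1
  · exact Or.inl (hu a h1)
  · exact Or.inr (hu b h1)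

namespace CYUnits

variable {X : CYData K m} (S : CYUnits X)

/-- The value on `dx_0 ∧ ... ∧ dx_m`. -/
theorem A_D {x : Fin (m + 1) → K} (hx : ∀ i, x i ≠ 0) :
    X.A (fun i => D ℂ K (x i)) = (∏ i, x i) * X.A fun i => dlog (x i) := by
  rw [← smul_eq_mul, ← AlternatingMap.map_smul_univ]
  congr 1
  funext i
  rw [D_eq_smul_dlog (hx i)]

/-- `π` defines the image of the prime divisor `v`. -/
def IsPi (v : ValuationSubring K) (π : MvPolynomial (Fin m) ℂ) : Prop :=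
  Irreducible π ∧ (∀ p, vge v 1 (MvPolynomial.aeval S.u p) ↔ π ∣ p) ∧
    ord v (MvPolynomial.aeval S.u π) = 1

theorem δ_aeval (p : MvPolynomial (Fin m) ℂ) : S.δ (MvPolynomial.aeval S.u p) = 0 := by
  rw [deriv_aeval]
  exact Finset.sum_eq_zero fun i _ => by rw [S.δ_u, mul_zero]

theorem isEig_aeval {p : MvPolynomial (Fin m) ℂ} (hp : p ≠ 0) :
    S.IsEig (MvPolynomial.aeval S.u p) 0 := (S.isEig_zero_iff (S.aeval_ne hp)).2 (S.δ_aeval p)

theorem exists_pi (W : WData S) {v : ValuationSubring K} (hv : v ∈ X.U)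
    (h : ¬ ResIndep v S.u) : ∃ π, S.IsPi v π := by
  have hvd := CYData.dvr_U hv
  unfold ResIndep at h
  push Not at h
  obtain ⟨p, hp0, hp⟩ := h
  set s := MvPolynomial.aeval S.u p with hs
  have hse : S.IsEig s 0 := S.isEig_aeval hp0
  have hsv : s ∈ v := S.aeval_mem_Q p v hv
  have hso : ord v s ≠ 0 := by
    rw [Ne, ord_eq_zero_iff hse.1]
    exact hp
  have hs1 : vge v 1 s := by
    right
    have := (ord_nonneg_iff hse.1).2 hsv
    omega
  set a := W.w ^ (ord v s) / s ^ (ord v W.w) with ha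
  have hae : S.IsEig a ((ord v s : ℂ) * W.c - (ord v W.w : ℂ) * 0) :=
    (W.eig.zpow _).div (hse.zpow _)
  have hao : ord v a = 0 := by
    rw [ha, ord_div (zpow_ne_zero _ W.eig.1) (zpow_ne_zero _ hse.1), ord_zpow W.eig.1,
      ord_zpow hse.1]
    ring
  have hae0 : (ord v s : ℂ) * W.c - (ord v W.w : ℂ) * 0 ≠ 0 := by
    rw [mul_zero, sub_zero]
    exact mul_ne_zero (by exact_mod_cast hso) W.c_ne
  obtain ⟨F⟩ := X.exists_frame hv.1
  set x : Fin (m + 1) → K := Fin.cons a S.u with hx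
  have hx0 : ∀ i, x i ≠ 0 := by
    intro i
    refine Fin.cases ?_ (fun i => ?_) i
    · exact hae.1
    · exact S.u_ne i
  have hxo : ∀ i, ord v (x i) = 0 := by
    intro i
    refine Fin.cases ?_ (fun i => ?_) i
    · exact hao
    · exact S.ordu v hv i
  have hxv : ∀ i, x i ∈ v := fun i => mem_of_ord_zero (hx0 i) (hxo i)
  have hAdl : X.A (fun i => dlog (x i)) =
      algebraMap ℂ K ((ord v s : ℂ) * W.c - (ord v W.w : ℂ) * 0) := by
    rw [← hae.lin, S.lin_apply]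
    congr 1
    funext i
    refine Fin.cases ?_ (fun i => ?_) i <;> rfl
  have hAne : X.A (fun i => D ℂ K (x i)) ≠ 0 ∧ ord v (X.A (fun i => D ℂ K (x i))) = 0 := by
    have h1 : (∏ i, x i) ≠ 0 := Finset.prod_ne_zero_iff.2 fun i _ => hx0 i
    have h2 : algebraMap ℂ K ((ord v s : ℂ) * W.c - (ord v W.w : ℂ) * 0) ≠ 0 := by
      rw [Ne, map_eq_zero]
      exact hae0
    rw [A_D hx0, hAdl]
    refine ⟨mul_ne_zero h1 h2, ?_⟩
    rw [ord_mul h1 h2, ord_prod fun i _ => hx0 i, ord_C,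
      Finset.sum_eq_zero fun i _ => hxo i, add_zero]
  have hdet : v.valuation (Matrix.of fun i j => F.δ j (x i)).det = 1 := by
    have h1 := alt_eq_det X.A F.b fun i => D ℂ K (x i)
    have h2 : (Matrix.of fun i j => F.δ j (x i)) =
        Matrix.of fun i j => F.b.repr (D ℂ K (x i)) j := rfl
    rw [← h2] at h1
    have h3 : (Matrix.of fun i j => F.δ j (x i)).det ≠ 0 := by
      intro h0
      rw [h0, zero_mul] at h1
      exact hAne.1 h1
    rw [← ord_eq_zero_iff h3]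
    have h4 := hAne.2
    rw [h1, ord_mul h3 (alt_ne_zero X.A_ne F.b), X.ordA_U v hv.1 hv.2 F] at h4
    omega
  obtain ⟨π, hπ1, hπ2, hπ3⟩ := F.exists_uniformizer X.tr hxv hdet
  have hxu : ∀ q : MvPolynomial (Fin m) ℂ,
      MvPolynomial.aeval x (MvPolynomial.rename Fin.succ q) = MvPolynomial.aeval S.u q := by
    intro q
    rw [MvPolynomial.aeval_rename]
    rfl
  obtain ⟨π', rfl⟩ := exists_rename_of_dvd hp0 ((hπ2 _).1 (by rw [hxu]; exact hs1))
  refine ⟨π', irreducible_of_rename hπ1, fun q => ?_, ?_⟩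
  · rw [← hxu q, hπ2, rename_dvd_iff]
  · rw [← hxu]
    exact hπ3

/-- Two prime divisors with the same image. -/
def Same (v v' : ValuationSubring K) : Prop := ∃ π, S.IsPi v π ∧ S.IsPi v' π

theorem Same.symm {S : CYUnits X} {v v' : ValuationSubring K} (h : S.Same v v') : S.Same v' v := by
  obtain ⟨π, h1, h2⟩ := h
  exact ⟨π, h2, h1⟩

theorem ord_unit {v : ValuationSubring K} (hv : v ∈ X.U) {q : MvPolynomial (Fin m) ℂ}
    (hq : IsUnit q) : ord v (MvPolynomial.aeval S.u q) = 0 := by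
  have := CYData.dvr_U hv
  obtain ⟨r, hr⟩ := hq.exists_right_inv
  apply ord_eq_zero_of_mem (S.aeval_mem_Q q v hv)
  have h1 : MvPolynomial.aeval S.u q * MvPolynomial.aeval S.u r = 1 := by
    rw [← map_mul, hr, map_one]
  have h2 : (MvPolynomial.aeval S.u q)⁻¹ = MvPolynomial.aeval S.u r := by
    exact inv_eq_of_mul_eq_one_right h1
  rw [h2]
  exact S.aeval_mem_Q r v hv

theorem IsPi.of_associated {S : CYUnits X} {v : ValuationSubring K} (hv : v ∈ X.U)
    {π π' : MvPolynomial (Fin m) ℂ} (h : S.IsPi v π) (h' : Associated π π') : S.IsPi v π' := by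
  have := CYData.dvr_U hv
  refine ⟨h'.irreducible h.1, fun p => ?_, ?_⟩
  · rw [h.2.1]
    exact h'.dvd_iff_dvd_left
  · obtain ⟨e, rfl⟩ := h'
    rw [map_mul, ord_mul (S.aeval_ne h.1.ne_zero) (S.aeval_ne e.ne_zero), h.2.2,
      S.ord_unit hv e.isUnit, add_zero]

theorem same_of_ord (W : WData S) {v v' : ValuationSubring K} (hv' : v' ∈ X.U)
    {π : MvPolynomial (Fin m) ℂ} (h : S.IsPi v π)
    (h' : ord v' (MvPolynomial.aeval S.u π) ≠ 0) : S.IsPi v' π := by
  have := CYData.dvr_U hv'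
  have hπ0 := S.aeval_ne h.1.ne_zero
  obtain ⟨π', hπ'⟩ := S.exists_pi W hv' (fun hres => by
    apply h'
    rw [ord_eq_zero_iff hπ0]
    exact hres π h.1.ne_zero)
  have h1 : vge v' 1 (MvPolynomial.aeval S.u π) := by
    right
    have := (ord_nonneg_iff hπ0).2 (S.aeval_mem_Q π v' hv')
    omega
  have h2 := (hπ'.2.1 π).1 h1
  exact hπ'.of_associated hv' (hπ'.1.associated_of_dvd h.1 h2)

theorem ord_aeval {v : ValuationSubring K} (hv : v ∈ X.U) {π : MvPolynomial (Fin m) ℂ}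
    (h : S.IsPi v π) {p : MvPolynomial (Fin m) ℂ} (hp : p ≠ 0) :
    ord v (MvPolynomial.aeval S.u p) = multiplicity π p := by
  have := CYData.dvr_U hv
  have hfin : FiniteMultiplicity π p := FiniteMultiplicity.of_prime_left h.1.prime hp
  obtain ⟨q, hq1, hq2⟩ := hfin.exists_eq_pow_mul_and_not_dvd
  have hq0 : q ≠ 0 := by
    rintro rfl
    exact hq2 (dvd_zero _)
  have h1 : ord v (MvPolynomial.aeval S.u q) = 0 := by
    have h2 := (ord_nonneg_iff (S.aeval_ne hq0)).2 (S.aeval_mem_Q q v hv)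
    have h3 : ¬ 1 ≤ ord v (MvPolynomial.aeval S.u q) := fun h4 =>
      hq2 ((h.2.1 q).1 (Or.inr h4))
    omega
  conv_lhs => rw [hq1]
  rw [map_mul, map_pow, ord_mul (pow_ne_zero _ (S.aeval_ne h.1.ne_zero)) (S.aeval_ne hq0),
    ord_pow (S.aeval_ne h.1.ne_zero), h.2.2, h1]
  ring

end CYUnits

namespace WData

variable {X : CYData K m} {S : CYUnits X} (W : WData S)

include W in
theorem inv_Q_poly {z : K} (hz : z ∈ X.Q) (hδ : S.δ z = 0) :
    ∃ (p : MvPolynomial (Fin m) ℂ) (N : ℕ),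
      z * MvPolynomial.aeval S.u ((∏ i : Fin m, MvPolynomial.X i : MvPolynomial (Fin m) ℂ) ^ N) =
        MvPolynomial.aeval S.u p := by
  have hM : ∀ N : ℕ, MvPolynomial.aeval S.u
      ((∏ i : Fin m, MvPolynomial.X i : MvPolynomial (Fin m) ℂ) ^ N) = ∏ i, S.u i ^ N := by
    intro N
    rw [map_pow, map_prod, Finset.prod_pow]
    congr 1
    exact Finset.prod_congr rfl fun i _ => MvPolynomial.aeval_X _ _
  refine Submodule.span_induction (p := fun z _ => ∃ (p : MvPolynomial (Fin m) ℂ) (N : ℕ),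
      z * MvPolynomial.aeval S.u ((∏ i : Fin m, MvPolynomial.X i : MvPolynomial (Fin m) ℂ) ^ N) =
        MvPolynomial.aeval S.u p) ?_ ?_ ?_ ?_ (W.inv_Q hz hδ)
  · rintro _ ⟨k, rfl⟩
    set N := ∑ i, (k i).natAbs with hN
    have hNk : ∀ i, 0 ≤ k i + N := by
      intro i
      have h1 : (k i).natAbs ≤ N := Finset.single_le_sum (f := fun i => (k i).natAbs)
        (fun _ _ => Nat.zero_le _) (Finset.mem_univ i)
      omega
    refine ⟨∏ i, MvPolynomial.X i ^ (k i + N).toNat, N, ?_⟩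
    rw [hM, map_prod, ← Finset.prod_mul_distrib]
    refine Finset.prod_congr rfl fun i _ => ?_
    rw [map_pow, MvPolynomial.aeval_X, ← zpow_natCast, ← zpow_natCast, ← zpow_add₀ (S.u_ne i),
      Int.toNat_of_nonneg (hNk i)]
  · exact ⟨0, 0, by simp⟩
  · rintro x y _ _ ⟨p, N, hp⟩ ⟨q, M, hq⟩
    refine ⟨p * (∏ i, MvPolynomial.X i) ^ M + q * (∏ i, MvPolynomial.X i) ^ N, N + M, ?_⟩
    rw [map_add, map_mul, map_mul, ← hp, ← hq, pow_add, map_mul]
    ring
  · rintro a x _ ⟨p, N, hp⟩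
    refine ⟨MvPolynomial.C a * p, N, ?_⟩
    rw [map_mul, ← hp, MvPolynomial.aeval_C, Algebra.smul_def]
    ring

include W in
/-- Eigenvectors in `Q` of opposite weight. -/
theorem exists_opp {x : K} {lam : ℂ} (hx : x ∈ X.Q) (he : S.IsEig x lam) :
    ∃ s ∈ X.Q, S.IsEig (x * s) 0 := by
  obtain ⟨k, rfl⟩ := W.div x lam he
  obtain ⟨g₁, k₁, hg₁, he₁, hk₁⟩ := W.pos
  obtain ⟨g₂, k₂, hg₂, he₂, hk₂⟩ := W.neg
  rcases le_or_gt 0 k with hk | hk
  · obtain ⟨a, ha⟩ : ∃ a : ℕ, (a : ℤ) = -k₂ - 1 := ⟨(-k₂ - 1).toNat, by omega⟩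
    obtain ⟨b, hb⟩ : ∃ b : ℕ, (b : ℤ) = k := ⟨k.toNat, by omega⟩
    refine ⟨x ^ a * g₂ ^ b, X.Q.mul_mem (X.Q.pow_mem hx a) (X.Q.pow_mem hg₂ b), ?_⟩
    have h := he.mul ((he.pow a).mul (he₂.pow b))
    convert h using 1
    have ha' : (a : ℂ) = -(k₂ : ℂ) - 1 := by exact_mod_cast ha
    have hb' : (b : ℂ) = (k : ℂ) := by exact_mod_cast hb
    rw [ha', hb']
    ring
  · obtain ⟨a, ha⟩ : ∃ a : ℕ, (a : ℤ) = k₁ - 1 := ⟨(k₁ - 1).toNat, by omega⟩
    obtain ⟨b, hb⟩ : ∃ b : ℕ, (b : ℤ) = -k := ⟨(-k).toNat, by omega⟩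
    refine ⟨x ^ a * g₁ ^ b, X.Q.mul_mem (X.Q.pow_mem hx a) (X.Q.pow_mem hg₁ b), ?_⟩
    have h := he.mul ((he.pow a).mul (he₁.pow b))
    convert h using 1
    have ha' : (a : ℂ) = (k₁ : ℂ) - 1 := by exact_mod_cast ha
    have hb' : (b : ℂ) = -(k : ℂ) := by exact_mod_cast hb
    rw [ha', hb']
    ring

include W in
/-- The invariant field is `ℂ(u)`. -/
theorem inv_field {z : K} (hδ : S.δ z = 0) :
    ∃ p q : MvPolynomial (Fin m) ℂ, q ≠ 0 ∧
      z = MvPolynomial.aeval S.u p / MvPolynomial.aeval S.u q := by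
  obtain ⟨a, b, ha, hb, hb0, hab⟩ := S.exists_div_Q z
  set E := CYData.pol a + CYData.pol b with hE
  have hEB : X.BdDiv E := fun v hv => by
    rw [hE, Pi.add_apply, X.bdDiv_pol ha v hv, X.bdDiv_pol hb v hv, add_zero]
  have hfd := S.finDim _ hEB
  have haE : a ∈ X.sections E := fun v hv => by
    refine (X.mem_sections_pol a v hv).mono ?_
    rw [hE, Pi.add_apply]
    have := CYData.pol_nonneg b v
    omega
  have hbE : b ∈ X.sections E := fun v hv => by
    refine (X.mem_sections_pol b v hv).mono ?_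
    rw [hE, Pi.add_apply]
    have := CYData.pol_nonneg a v
    omega
  let N : Submodule ℂ K := X.sections E ⊓ (X.sections E).comap (LinearMap.mulLeft ℂ z)
  have hNfd : FiniteDimensional ℂ N :=
    Module.Finite.of_injective (Submodule.inclusion (inf_le_left : N ≤ X.sections E))
      (Submodule.inclusion_injective _)
  have hmemN : ∀ x, x ∈ N ↔ x ∈ X.sections E ∧ z * x ∈ X.sections E := fun x => Iff.rfl
  have hstab : ∀ x ∈ N, (S.δ : K →ₗ[ℂ] K) x ∈ N := by
    intro x hx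
    rw [hmemN] at hx ⊢
    refine ⟨S.δ_sections hEB hx.1, ?_⟩
    have h1 := S.δ_sections hEB hx.2
    rw [Derivation.leibniz, hδ, smul_zero, add_zero] at h1
    exact h1
  obtain ⟨x, hxN, hx0, lam, hlam⟩ := exists_eigen (S.δ : K →ₗ[ℂ] K) N hstab
    ((hmemN b).2 ⟨hbE, by rw [hab, div_mul_cancel₀ _ hb0]; exact haE⟩) hb0
  rw [hmemN] at hxN
  have hxQ := X.sections_le_Q hEB hxN.1
  have hzxQ := X.sections_le_Q hEB hxN.2
  obtain ⟨s, hs, hse⟩ := W.exists_opp hxQ ⟨hx0, hlam⟩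
  obtain ⟨p, N₁, hp⟩ := W.inv_Q_poly (X.Q.mul_mem hxQ hs)
    ((S.isEig_zero_iff hse.1).1 hse)
  obtain ⟨q, N₂, hq⟩ := W.inv_Q_poly (z := z * x * s) (X.Q.mul_mem hzxQ hs) (by
    rw [mul_assoc, Derivation.leibniz, hδ, (S.isEig_zero_iff hse.1).1 hse, smul_zero, smul_zero,
      add_zero])
  have hM : ∀ N : ℕ, ((∏ i : Fin m, MvPolynomial.X i) ^ N : MvPolynomial (Fin m) ℂ) ≠ 0 :=
    fun N => pow_ne_zero _ (Finset.prod_ne_zero_iff.2 fun i _ => MvPolynomial.X_ne_zero i)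
  have hp0 : p ≠ 0 := by
    rintro rfl
    rw [map_zero] at hp
    rcases mul_eq_zero.1 hp with h | h
    · exact hse.1 h
    · exact S.aeval_ne (hM _) h
  refine ⟨q * (∏ i : Fin m, MvPolynomial.X i) ^ N₁, p * (∏ i : Fin m, MvPolynomial.X i) ^ N₂,
    mul_ne_zero hp0 (hM _), ?_⟩
  rw [eq_div_iff (S.aeval_ne (mul_ne_zero hp0 (hM _))), map_mul, map_mul, ← hp, ← hq]
  ring

include W in
theorem ord_same {v v' : ValuationSubring K} (hv : v ∈ X.U) (hv' : v' ∈ X.U)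
    (h : S.Same v v') {z : K} (hδ : S.δ z = 0) : ord v z = ord v' z := by
  have := CYData.dvr_U hv
  have := CYData.dvr_U hv'
  obtain ⟨π, h1, h2⟩ := h
  obtain ⟨p, q, hq, rfl⟩ := W.inv_field hδ
  by_cases hp : p = 0
  · rw [hp, map_zero, zero_div, ord_zero, ord_zero]
  · rw [ord_div (S.aeval_ne hp) (S.aeval_ne hq), ord_div (S.aeval_ne hp) (S.aeval_ne hq),
      S.ord_aeval hv h1 hp, S.ord_aeval hv h1 hq, S.ord_aeval hv' h2 hp, S.ord_aeval hv' h2 hq]

omit W in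
/-- The equation of a vertical prime divisor is an eigenvector. -/
theorem isEig_tors {v : ValuationSubring K} (hv : v ∈ X.U) {π : MvPolynomial (Fin m) ℂ}
    (h : S.IsPi v π) {g : K} (hg : g ≠ 0) (h' : ∀ v' ∈ X.U, v' ≠ v → ord v' g = 0) :
    ∃ lam, S.IsEig g lam := by
  have hvd := CYData.dvr_U hv
  have hc : ∀ v' ∈ X.Pr, S.lin (dlog g) ∈ v' := by
    intro v' hv'
    rcases X.mem_U_or_Bd hv' with h1 | h1
    · by_cases h2 : v' = v
      · subst h2
        set ρ := MvPolynomial.aeval S.u π with hρ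
        have hρ0 : ρ ≠ 0 := S.aeval_ne h.1.ne_zero
        set y := g * ρ ^ (-(ord v' g)) with hy
        have hy0 : y ≠ 0 := mul_ne_zero hg (zpow_ne_zero _ hρ0)
        have hyo : ord v' y = 0 := by
          rw [hy, ord_mul hg (zpow_ne_zero _ hρ0), ord_zpow hρ0, h.2.2]
          ring
        have h3 : S.lin (dlog g) = S.lin (dlog y) := by
          rw [hy, dlog_mul hg (zpow_ne_zero _ hρ0), dlog_zpow hρ0, map_add, map_smul,
            (S.isEig_aeval h.1.ne_zero).lin, map_zero, smul_zero, add_zero]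
        rw [h3]
        exact S.lin_dlog_mem_U hv hy0 hyo
      · exact S.lin_dlog_mem_U h1 hg (h' v' h1 h2)
    · exact S.lin_dlog_mem_B h1 hg
  obtain ⟨lam, hlam⟩ := X.const _ hc
  exact ⟨lam, (S.isEig_iff hg).2 hlam⟩

theorem exists_z {g : K} {lam : ℂ} (hg : S.IsEig g lam) :
    ∃ (z : K) (k : ℤ), S.IsEig z 0 ∧ g = z * W.w ^ k := by
  obtain ⟨k, rfl⟩ := W.div g lam hg
  refine ⟨g / W.w ^ k, k, ?_, ?_⟩
  · have := hg.div (W.eig.zpow k)
    rwa [sub_self] at this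
  · rw [div_mul_cancel₀]
    exact zpow_ne_zero _ W.eig.1

theorem tors_pair {v v' : ValuationSubring K} (hv : v ∈ X.U) (hv' : v' ∈ X.U)
    (h : S.Same v v') (hne : v ≠ v') : ∃ (z : K) (k : ℤ), S.IsEig z 0 ∧ k ≠ 0 ∧
      ord v W.w ≠ ord v' W.w ∧ ∀ v₁ ∈ X.U, v₁ ≠ v → ord v₁ z + k * ord v₁ W.w = 0 := by
  have hvd := CYData.dvr_U hv
  have hvd' := CYData.dvr_U hv'
  obtain ⟨g, hg0, hg1, hg2⟩ := S.tors v hv
  have hs := h
  obtain ⟨π, hπ, -⟩ := h
  obtain ⟨lam, hlam⟩ := isEig_tors hv hπ hg0 hg2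
  obtain ⟨z, k, hz, hgz⟩ := W.exists_z hlam
  have hord : ∀ v₁ ∈ X.U, ord v₁ g = ord v₁ z + k * ord v₁ W.w := by
    intro v₁ hv₁
    have := CYData.dvr_U hv₁
    rw [hgz, ord_mul hz.1 (zpow_ne_zero _ W.eig.1), ord_zpow W.eig.1]
  have h1 := hord v hv
  have h2 := hord v' hv'
  have h3 := hg2 v' hv' hne.symm
  have h4 := W.ord_same hv hv' hs ((S.isEig_zero_iff hz.1).1 hz)
  have h5 : k * (ord v W.w - ord v' W.w) = ord v g := by
    rw [mul_sub]
    linarith
  refine ⟨z, k, hz, ?_, ?_, fun v₁ hv₁ hne₁ => ?_⟩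
  · rintro rfl
    rw [zero_mul] at h5
    omega
  · intro h6
    rw [h6, sub_self, mul_zero] at h5
    omega
  · rw [← hord v₁ hv₁, hg2 v₁ hv₁ hne₁]

include W in
/-- There is at most one pair of prime divisors with the same image. -/
theorem pairs {v₁ v₁' v₂ v₂' : ValuationSubring K} (h₁ : v₁ ∈ X.U) (h₁' : v₁' ∈ X.U)
    (h₂ : v₂ ∈ X.U) (h₂' : v₂' ∈ X.U) (hs₁ : S.Same v₁ v₁') (hn₁ : v₁ ≠ v₁')
    (hs₂ : S.Same v₂ v₂') (hn₂ : v₂ ≠ v₂') : v₁ = v₂ ∨ v₁ = v₂' := by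
  by_contra hcon
  push Not at hcon
  obtain ⟨z, k, hz, hk, -, h⟩ := W.tors_pair h₁ h₁' hs₁ hn₁
  obtain ⟨-, -, -, -, h3, -⟩ := W.tors_pair h₂ h₂' hs₂ hn₂
  have h4 := h v₂ h₂ hcon.1.symm
  have h5 := h v₂' h₂' hcon.2.symm
  have h6 := W.ord_same h₂ h₂' hs₂ ((S.isEig_zero_iff hz.1).1 hz)
  have h7 : k * (ord v₂ W.w - ord v₂' W.w) = 0 := by
    rw [mul_sub]
    linarith
  rcases mul_eq_zero.1 h7 with h8 | h8
  · exact hk h8
  · exact h3 (by omega)

include W in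
/-- The coordinate of the fibers. -/
theorem exists_w' : ∃ (w' : K) (c : ℂ) (P₀ P₁ : ValuationSubring K), c ≠ 0 ∧ S.IsEig w' c ∧
    P₀ ∈ X.U ∧ P₁ ∈ X.U ∧ S.Same P₀ P₁ ∧ P₀ ≠ P₁ ∧ (∀ v ∈ X.U, v ≠ P₁ → ord v w' = 0) ∧
    0 < ord P₁ w' ∧ ∀ g lam, S.IsEig g lam → ∃ k : ℤ, lam = k * c := by
  classical
  have hfin : {v ∈ X.Pr | ord v W.w ≠ 0}.Finite := X.fin W.w W.eig.1
  have hpi : ∀ v : ValuationSubring K, ∃ π, π ≠ 0 ∧
      (v ∈ X.U → ord v W.w ≠ 0 → S.IsPi v π) := by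
    intro v
    by_cases h : v ∈ X.U ∧ ord v W.w ≠ 0
    · obtain ⟨π, hπ⟩ := S.exists_pi W h.1 (S.not_resIndep h.1 W.eig h.2)
      exact ⟨π, hπ.1.ne_zero, fun _ _ => hπ⟩
    · exact ⟨1, one_ne_zero, fun h1 h2 => absurd ⟨h1, h2⟩ h⟩
  choose π hπ0 hπ using hpi
  have key : ∀ P : Set (ValuationSubring K), (∀ v ∈ X.U, ∀ v' ∈ X.U, v ∉ P → v' ∉ P →
      S.Same v v' → v = v') → ∃ w' : K, S.IsEig w' W.c ∧ ∀ v ∈ X.U, v ∉ P → ord v w' = 0 := by
    intro P hP
    set T := hfin.toFinset.filter (fun v => v ∈ X.U ∧ v ∉ P) with hT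
    have hmemT : ∀ v, v ∈ T ↔ (v ∈ X.U ∧ ord v W.w ≠ 0) ∧ v ∉ P := by
      intro v
      rw [hT, Finset.mem_filter, Set.Finite.mem_toFinset]
      constructor
      · rintro ⟨⟨_, h2⟩, h3, h4⟩
        exact ⟨⟨h3, h2⟩, h4⟩
      · rintro ⟨⟨h3, h2⟩, h4⟩
        exact ⟨⟨h3.1, h2⟩, h3, h4⟩
    set r := ∏ v ∈ T, MvPolynomial.aeval S.u (π v) ^ (-(ord v W.w)) with hr
    have hr0 : ∀ v ∈ T, MvPolynomial.aeval S.u (π v) ^ (-(ord v W.w)) ≠ 0 := fun v _ =>
      zpow_ne_zero _ (S.aeval_ne (hπ0 v))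
    have hre : S.IsEig r 0 := by
      have hr0' : r ≠ 0 := Finset.prod_ne_zero_iff.2 hr0
      rw [S.isEig_iff hr0', hr, dlog_prod hr0, map_sum, map_zero]
      refine Finset.sum_eq_zero fun v _ => ?_
      rw [dlog_zpow (S.aeval_ne (hπ0 v)), map_smul, (S.isEig_aeval (hπ0 v)).lin, map_zero,
        smul_zero]
    refine ⟨W.w * r, by simpa using W.eig.mul hre, fun v hv hvP => ?_⟩
    have hvd := CYData.dvr_U hv
    have h1 : ord v r = ∑ v' ∈ T, -(ord v' W.w) * ord v (MvPolynomial.aeval S.u (π v')) := by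
      rw [hr, ord_prod hr0]
      exact Finset.sum_congr rfl fun v' _ => ord_zpow (S.aeval_ne (hπ0 v')) _
    have h2 : ∀ v' ∈ T, v' ≠ v →
        -(ord v' W.w) * ord v (MvPolynomial.aeval S.u (π v')) = 0 := by
      intro v' hv' hne
      rw [hmemT] at hv'
      have h3 : ord v (MvPolynomial.aeval S.u (π v')) = 0 := by
        by_contra h4
        have h5 := hπ v' hv'.1.1 hv'.1.2
        have h6 := S.same_of_ord W hv h5 h4
        exact hne (hP v' hv'.1.1 v hv hv'.2 hvP ⟨_, h5, h6⟩)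
      rw [h3, mul_zero]
    rw [ord_mul W.eig.1 hre.1, h1]
    by_cases hvT : v ∈ T
    · rw [Finset.sum_eq_single v h2 (fun h => absurd hvT h)]
      rw [hmemT] at hvT
      rw [(hπ v hvT.1.1 hvT.1.2).2.2]
      ring
    · have h3 : ord v W.w = 0 := by
        by_contra h4
        exact hvT ((hmemT v).2 ⟨⟨hv, h4⟩, hvP⟩)
      rw [h3, Finset.sum_eq_zero, add_zero]
      intro v' hv'
      exact h2 v' hv' (fun h => hvT (h ▸ hv'))
  have hnounit : ∀ w' : K, S.IsEig w' W.c → ¬ ∀ v ∈ X.U, ord v w' = 0 := by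
    intro w' hw' h
    obtain ⟨c, k, hck⟩ := S.unit w' hw'.1 h
    have hc0 : algebraMap ℂ K c ≠ 0 := by
      intro h0
      rw [h0, zero_mul] at hck
      exact hw'.1 hck
    have h1 := hw'.lin
    rw [hck, dlog_mul hc0 (Finset.prod_ne_zero_iff.2 fun i _ => zpow_ne_zero _ (S.u_ne i)),
      dlog_algebraMap, zero_add, dlog_prod fun i _ => zpow_ne_zero _ (S.u_ne i), map_sum,
      Finset.sum_eq_zero] at h1
    · exact W.Cc_ne h1.symm
    · intro i _
      rw [dlog_zpow (S.u_ne i), map_smul, S.lin_dlog_u, smul_zero]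
  -- there is a pair
  obtain ⟨P₀, hP₀, P₁, hP₁, hs, hne⟩ : ∃ P₀ ∈ X.U, ∃ P₁ ∈ X.U, S.Same P₀ P₁ ∧ P₀ ≠ P₁ := by
    by_contra hcon
    push Not at hcon
    obtain ⟨w', hw', h⟩ := key ∅ (fun v hv v' hv' _ _ h => hcon v hv v' hv' h)
    exact hnounit w' hw' fun v hv => h v hv (Set.notMem_empty v)
  obtain ⟨w', hw', h⟩ := key {P₁} (fun v hv v' hv' h1 h2 h3 => by
    by_contra h4
    rw [Set.mem_singleton_iff] at h1 h2
    rcases W.pairs hv hv' hP₀ hP₁ h3 h4 hs hne with h5 | h5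
    · rcases W.pairs hv' hv hP₀ hP₁ h3.symm (Ne.symm h4) hs hne with h6 | h6
      · exact h4 (h5.trans h6.symm)
      · exact h2 h6
    · exact h1 h5)
  have hP₁d := CYData.dvr_U hP₁
  have h1 : ord P₁ w' ≠ 0 := by
    intro h0
    apply hnounit w' hw'
    intro v hv
    by_cases hv1 : v = P₁
    · rw [hv1, h0]
    · exact h v hv hv1
  rcases lt_or_gt_of_ne h1 with h2 | h2
  · refine ⟨w'⁻¹, -W.c, P₀, P₁, neg_ne_zero.2 W.c_ne, hw'.inv, hP₀, hP₁, hs, hne, ?_, ?_, ?_⟩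
    · intro v hv hv1
      have := CYData.dvr_U hv
      rw [ord_inv hw'.1, h v hv hv1, neg_zero]
    · rw [ord_inv hw'.1]
      omega
    · intro g lam hg
      obtain ⟨k, hk⟩ := W.div g lam hg
      exact ⟨-k, by rw [hk]; push_cast; ring⟩
  · exact ⟨w', W.c, P₀, P₁, W.c_ne, hw', hP₀, hP₁, hs, hne, fun v hv hv1 => h v hv hv1, h2,
      W.div⟩

end WData

/-- The structure theorem: toric coordinates. -/
theorem CYUnits.exists_coord {X : CYData K m} (S : CYUnits X) :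
    ∃ x : Fin (m + 1) → K, AlgebraicIndependent ℂ x ∧
      IntermediateField.adjoin ℂ (Set.range x) = ⊤ ∧
      (∃ c : ℂ, c ≠ 0 ∧ X.A (fun i => dlog (x i)) = algebraMap ℂ K c) ∧
      ∀ V : ValuationSubring K, IsDiscreteValuationRing V → (∀ i, ord V (x i) = 0) →
        IsLocOf (MvPolynomial.aeval (R := ℂ) x).range.toSubring V → V ∈ X.U := by
  obtain ⟨W⟩ := S.nonempty_wData
  obtain ⟨w, c, P₀, P₁, hc, hw, hP₀, hP₁, hs, hne, h0, h1, hdiv⟩ := W.exists_w'
  set x : Fin (m + 1) → K := Fin.cons w S.u with hx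
  have hx0 : ∀ i, x i ≠ 0 := by
    intro i
    refine Fin.cases ?_ (fun i => ?_) i
    · exact hw.1
    · exact S.u_ne i
  have hwQ : w ∈ X.Q := by
    intro v hv
    have := CYData.dvr_U hv
    rw [← ord_nonneg_iff hw.1]
    by_cases hv1 : v = P₁
    · rw [hv1]; exact h1.le
    · rw [h0 v hv hv1]
  have hxQ : ∀ i, x i ∈ X.Q := by
    intro i
    refine Fin.cases ?_ (fun i => ?_) i
    · exact hwQ
    · exact S.u_mem_Q i
  have hQ : ∀ g ∈ X.Q,
      g ∈ Submodule.span ℂ (Set.range fun k : Fin (m + 1) → ℤ => ∏ i, x i ^ k i) := by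
    intro g hg
    refine Submodule.span_le.2 ?_ (S.mem_span_eigen hg)
    rintro y ⟨hyQ, lam, hlam⟩
    by_cases hy0 : y = 0
    · rw [hy0]; exact Submodule.zero_mem _
    have hye : S.IsEig y lam := ⟨hy0, hlam⟩
    obtain ⟨k, hk⟩ := hdiv y lam hye
    set z := y / w ^ k with hz
    have hze : S.IsEig z 0 := by
      have := hye.div (hw.zpow k)
      rwa [hk, sub_self] at this
    have hyz : y = z * w ^ k := by
      rw [hz, div_mul_cancel₀]
      exact zpow_ne_zero _ hw.1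
    have hzQ : z ∈ X.Q := by
      have hv0 : ∀ v ∈ X.U, v ≠ P₁ → 0 ≤ ord v z := by
        intro v hv hv1
        have := CYData.dvr_U hv
        have h2 := (ord_nonneg_iff hy0).2 (hyQ v hv)
        rw [hyz, ord_mul hze.1 (zpow_ne_zero _ hw.1), ord_zpow hw.1, h0 v hv hv1] at h2
        omega
      intro v hv
      have := CYData.dvr_U hv
      rw [← ord_nonneg_iff hze.1]
      by_cases hv1 : v = P₁
      · rw [hv1, ← W.ord_same hP₀ hP₁ hs ((S.isEig_zero_iff hze.1).1 hze)]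
        exact hv0 P₀ hP₀ hne
      · exact hv0 v hv hv1
    have h2 := W.inv_Q hzQ ((S.isEig_zero_iff hze.1).1 hze)
    have h3 := Submodule.mem_map_of_mem (f := LinearMap.mulRight ℂ (w ^ k)) h2
    rw [Submodule.map_span] at h3
    have h4 : LinearMap.mulRight ℂ (w ^ k) z = y := hyz.symm
    rw [h4] at h3
    refine Submodule.span_mono ?_ h3
    rintro _ ⟨_, ⟨l, rfl⟩, rfl⟩
    refine ⟨Fin.cons k l, ?_⟩
    change ∏ i, x i ^ (Fin.cons k l : Fin (m + 1) → ℤ) i = (∏ i, S.u i ^ l i) * w ^ k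
    rw [Fin.prod_univ_succ]
    simp only [Fin.cons_zero, Fin.cons_succ, hx]
    ring
  have hadj : IntermediateField.adjoin ℂ (Set.range x) = ⊤ := by
    rw [eq_top_iff]
    rintro f -
    have h2 : ∀ g ∈ X.Q, g ∈ IntermediateField.adjoin ℂ (Set.range x) := by
      intro g hg
      have h3 : Submodule.span ℂ (Set.range fun k : Fin (m + 1) → ℤ => ∏ i, x i ^ k i) ≤
          (IntermediateField.adjoin ℂ (Set.range x)).toSubalgebra.toSubmodule := by
        rw [Submodule.span_le]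
        rintro _ ⟨k, rfl⟩
        change ∏ i, x i ^ k i ∈ IntermediateField.adjoin ℂ (Set.range x)
        have hxi : ∀ i, x i ∈ IntermediateField.adjoin ℂ (Set.range x) := fun i =>
          IntermediateField.subset_adjoin _ _ ⟨i, rfl⟩
        exact prod_mem fun i _ => zpow_mem (hxi i) _
      exact h3 (hQ g hg)
    obtain ⟨a, b, ha, hb, -, rfl⟩ := S.exists_div_Q f
    exact div_mem (h2 a ha) (h2 b hb)
  refine ⟨x, ?_, hadj, ⟨c, hc, ?_⟩, ?_⟩
  · refine cons_of_deriv S.ind S.δ S.δ_u ?_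
    rw [hw.2]
    exact smul_ne_zero hc hw.1
  · rw [← hw.lin, S.lin_apply]
    congr 1
    funext i
    refine Fin.cases ?_ (fun i => ?_) i <;> rfl
  · intro V hV hxV hloc
    have hQV : X.Q ≤ V.toSubring := by
      intro g hg
      have h2 := hQ g hg
      refine Submodule.span_induction (p := fun x _ => x ∈ V) ?_ V.zero_mem ?_ ?_ h2
      · rintro _ ⟨k, rfl⟩
        refine prod_mem (S := V.toSubring) fun i _ => ?_
        change x i ^ k i ∈ V
        refine mem_of_ord_zero (zpow_ne_zero _ (hx0 i)) ?_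
        rw [ord_zpow (hx0 i), hxV i, mul_zero]
      · intro x y _ _ hx hy
        exact V.add_mem _ _ hx hy
      · intro a x _ hx
        rw [Algebra.smul_def]
        exact V.mul_mem _ _ (C_mem V a) hx
    have hle : (MvPolynomial.aeval (R := ℂ) x).range.toSubring ≤ X.Q := by
      rintro _ ⟨p, rfl⟩ v hv
      have := CYData.dvr_U hv
      exact aeval_mem (C_mem v) (fun i => hxQ i v hv) p
    have hloc' : IsLocOf X.Q V := ⟨hQV, fun f hf => by
      obtain ⟨g, hg, h, hh, h2, h3⟩ := hloc.2 f hf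
      exact ⟨g, hle hg, h, hle hh, h2, h3⟩⟩
    obtain ⟨t, ht⟩ := exists_irr V
    obtain ⟨q, hqQ, h, hhQ, hh1, hqt⟩ := hloc'.2 t t.2
    have hh0 : h ≠ 0 := by
      rintro rfl
      rw [map_zero] at hh1
      exact zero_ne_one hh1
    have hq0 : q ≠ 0 := by
      rintro rfl
      rw [zero_div] at hqt
      exact irr_ne_zero ht hqt
    have hqV : V.valuation q < 1 := by
      have h2 := irr_lt_one ht
      rw [hqt, map_div₀, hh1, div_one] at h2
      exact h2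
    obtain ⟨P, hP, -, hPV⟩ := X.exists_center hQV hqV hq0
    have := CYData.dvr_U hP
    have h2 : V = P := hloc'.eq_of_centre (fun g hg => hg P hP) fun y hy hlt =>
      val_lt_one_iff.2 (hPV y hy (val_lt_one_iff.1 hlt))
    rw [h2]
    exact hP

end Pool.Agent.Helper94.LCY
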