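import Pool.Agent.Helper94.MDS.Tor

/-!
# The field of invariants
-/

noncomputable section

open KaehlerDifferential

namespace Pool.Agent.Helper94.LCY

variable {K : Type} [Field K] [Algebra ℂ K] {m : ℕ}

/-- An eigenvector generating all the weights. -/
structure WData {X : CYData K m} (S : CYUnits X) where
  w : K
  c : ℂ
  c_ne : c ≠ 0
  eig : S.IsEig w c
  div : ∀ g lam, S.IsEig g lam → ∃ k : ℤ, lam = k * c
  pos : ∃ g, ∃ k : ℤ, g ∈ X.Q ∧ S.IsEig g (k * c) ∧ 0 < k
  neg : ∃ g, ∃ k : ℤ, g ∈ X.Q ∧ S.IsEig g (k * c) ∧ k < 0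

theorem CYUnits.nonempty_wData {X : CYData K m} (S : CYUnits X) : Nonempty (WData S) := by
  obtain ⟨w, c, h1, h2, h3, h4, h5⟩ := S.exists_w
  exact ⟨⟨w, c, h1, h2, h3, h4, h5⟩⟩

namespace WData

variable {X : CYData K m} {S : CYUnits X} (W : WData S)

/-- The coordinates. -/
def x : Fin (m + 1) → K := Fin.cons W.w S.u

theorem x_zero : W.x 0 = W.w := rfl

theorem x_succ (i : Fin m) : W.x i.succ = S.u i := rfl

theorem x_ne (i : Fin (m + 1)) : W.x i ≠ 0 := by
  refine Fin.cases ?_ (fun i => ?_) i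
  · exact W.eig.1
  · exact S.u_ne i

theorem A_x : X.A (fun i => dlog (W.x i)) = algebraMap ℂ K W.c := by
  rw [← W.eig.lin, S.lin_apply]
  congr 1
  funext i
  refine Fin.cases ?_ (fun i => ?_) i <;> rfl

theorem Cc_ne : algebraMap ℂ K W.c ≠ 0 := by
  rw [Ne, map_eq_zero]
  exact W.c_ne

theorem exists_b : ∃ b : Module.Basis (Fin (m + 1)) K (Ω[K⁄ℂ]), ∀ i, b i = dlog (W.x i) := by
  obtain ⟨g, hg⟩ := S.exists_cons
  obtain ⟨V, hV, hres, hlt⟩ := exists_dvr X.fg X.tr hg
  obtain ⟨F, hF⟩ := X.exists_frame_of hres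
  exact exists_basis_of_alt (A := X.A) F.b (by
    rw [W.A_x]
    exact W.Cc_ne)

/-- The basis of the differentials. -/
def b : Module.Basis (Fin (m + 1)) K (Ω[K⁄ℂ]) := W.exists_b.choose

theorem b_apply (i : Fin (m + 1)) : W.b i = dlog (W.x i) := W.exists_b.choose_spec i

theorem A_b : X.A W.b = algebraMap ℂ K W.c := by
  rw [← W.A_x]
  congr 1
  funext i
  exact W.b_apply i

/-- The dual derivations. -/
def D (j : Fin (m + 1)) : Derivation ℂ K K := (W.b.coord j).compDer (KaehlerDifferential.D ℂ K)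

theorem D_apply (j : Fin (m + 1)) (g : K) :
    W.D j g = W.b.repr (KaehlerDifferential.D ℂ K g) j := rfl

theorem D_eq (j : Fin (m + 1)) {g : K} (hg : g ≠ 0) : W.D j g = g * W.b.repr (dlog g) j := by
  rw [D_apply, D_eq_smul_dlog hg, map_smul, Finsupp.smul_apply, smul_eq_mul]

theorem D_x (i j : Fin (m + 1)) : W.D j (W.x i) = if i = j then W.x i else 0 := by
  rw [W.D_eq j (W.x_ne i), ← W.b_apply, Module.Basis.repr_self, Finsupp.single_apply]
  split_ifs
  · rw [mul_one]
  · rw [mul_zero]

/-- The value of the alternating form in terms of the dual derivations. -/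
theorem A_update (j : Fin (m + 1)) (ζ : Ω[K⁄ℂ]) :
    X.A (Function.update W.b j ζ) = W.b.repr ζ j * algebraMap ℂ K W.c := by
  rw [alt_update, W.A_b]

theorem repr_eq (j : Fin (m + 1)) (ζ : Ω[K⁄ℂ]) :
    W.b.repr ζ j = X.A (Function.update W.b j ζ) * algebraMap ℂ K W.c⁻¹ := by
  rw [W.A_update, mul_assoc, ← map_mul, mul_inv_cancel₀ W.c_ne, map_one, mul_one]

theorem lin_eq (ζ : Ω[K⁄ℂ]) : S.lin ζ = W.b.repr ζ 0 * algebraMap ℂ K W.c := by
  rw [← W.A_update, S.lin_apply]
  congr 1
  funext i
  refine Fin.cases ?_ (fun i => ?_) i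
  · rw [Function.update_self, Fin.cons_zero]
  · rw [Function.update_of_ne (Fin.succ_ne_zero i), W.b_apply, W.x_succ, Fin.cons_succ]

theorem δ_eq_D (g : K) : S.δ g = W.D 0 g * algebraMap ℂ K W.c := by
  rw [S.δ_apply, W.lin_eq, W.D_apply]

theorem δ_zero_iff (g : K) : S.δ g = 0 ↔ W.D 0 g = 0 := by
  rw [W.δ_eq_D, mul_eq_zero]
  simp [W.Cc_ne]

theorem D_mem_B {v : ValuationSubring K} (hv : v ∈ X.Bd) {g : K} (hg : g ≠ 0)
    (j : Fin (m + 1)) : W.b.repr (dlog g) j ∈ v := by
  have := CYData.dvr_B hv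
  rw [W.repr_eq]
  refine v.mul_mem _ _ ?_ (C_mem v _)
  have h := X.A_mem_B hv (g := Function.update W.x j g) (fun i => by
    by_cases hi : i = j
    · subst hi
      rwa [Function.update_self]
    · rw [Function.update_of_ne hi]
      exact W.x_ne i)
  convert h using 2
  funext i
  by_cases hi : i = j
  · subst hi
    rw [Function.update_self, Function.update_self]
  · rw [Function.update_of_ne hi, Function.update_of_ne hi, W.b_apply]

theorem D_vge_B {v : ValuationSubring K} (hv : v ∈ X.Bd) {k : ℤ} {g : K} (hg : vge v k g)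
    (j : Fin (m + 1)) : vge v k (W.D j g) := by
  have := CYData.dvr_B hv
  by_cases h0 : g = 0
  · rw [h0, map_zero]; exact vge.zero
  · rw [W.D_eq j h0, mul_comm]
    exact vge.mem_mul (W.D_mem_B hv h0 j) hg

/-- A determinant with a zero column. -/
theorem A_zero {ξ : Fin (m + 1) → Ω[K⁄ℂ]} (h : ∀ i, W.b.repr (ξ i) 0 = 0) : X.A ξ = 0 := by
  have h1 : (Matrix.of fun i j => W.b.repr (ξ i) j).det = 0 :=
    Matrix.det_eq_zero_of_column_eq_zero 0 fun i => h i
  rw [alt_eq_det X.A W.b, h1, zero_mul]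

theorem D_mem_U {v : ValuationSubring K} (hv : v ∈ X.U) {z : K} (hz : S.δ z = 0) (hzv : z ∈ v)
    (j : Fin (m + 1)) : W.D j z ∈ v := by
  have := CYData.dvr_U hv
  obtain ⟨F⟩ := X.exists_frame hv.1
  refine Fin.cases ?_ (fun j => ?_) j
  · rw [(W.δ_zero_iff z).1 hz]; exact v.zero_mem
  rw [W.D_apply, W.repr_eq]
  refine v.mul_mem _ _ ?_ (C_mem v _)
  by_cases hw : ord v W.w = 0
  · refine X.A_mem_U hv F fun i k => ?_
    by_cases hi : i = j.succ
    · subst hi
      rw [Function.update_self]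
      exact F.int z hzv k
    · rw [Function.update_of_ne hi, W.b_apply]
      refine Fin.cases ?_ (fun i => ?_) i
      · exact F.repr_dlog_mem W.eig.1 hw k
      · exact F.repr_dlog_mem (S.u_ne i) (S.ordu v hv i) k
  · have hres := S.not_resIndep hv W.eig hw
    unfold ResIndep at hres
    push Not at hres
    obtain ⟨p, hp0, hp⟩ := hres
    set s := MvPolynomial.aeval S.u p with hs
    have hs0 : s ≠ 0 := S.aeval_ne hp0
    have hsv : s ∈ v := S.aeval_mem_Q p v hv
    have hso : ord v s ≠ 0 := by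
      rw [Ne, ord_eq_zero_iff hs0]
      exact hp
    have hδs : S.δ s = 0 := by
      rw [hs, deriv_aeval]
      exact Finset.sum_eq_zero fun i _ => by rw [S.δ_u, mul_zero]
    set a := W.w ^ (ord v s) / s ^ (ord v W.w) with ha
    have ha0 : a ≠ 0 := div_ne_zero (zpow_ne_zero _ W.eig.1) (zpow_ne_zero _ hs0)
    have hao : ord v a = 0 := by
      rw [ha, ord_div (zpow_ne_zero _ W.eig.1) (zpow_ne_zero _ hs0), ord_zpow W.eig.1,
        ord_zpow hs0]
      ring
    have hda : (ord v s : K) • dlog W.w = dlog a + (ord v W.w : K) • dlog s := by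
      rw [ha, div_eq_mul_inv, dlog_mul (zpow_ne_zero _ W.eig.1)
        (inv_ne_zero (zpow_ne_zero _ hs0)), dlog_inv (zpow_ne_zero _ hs0), dlog_zpow W.eig.1,
        dlog_zpow hs0]
      abel
    -- the family with the first vector replaced
    set ξ := Function.update (W.b : Fin (m + 1) → Ω[K⁄ℂ]) j.succ
      (KaehlerDifferential.D ℂ K z) with hξ
    have hξ0 : ξ 0 = dlog W.w := by
      rw [hξ, Function.update_of_ne (Fin.succ_ne_zero j).symm, W.b_apply, W.x_zero]
    have h1 : (ord v s : K) * X.A ξ = X.A (Function.update ξ 0 (dlog a)) := by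
      have h2 : X.A (Function.update ξ 0 ((ord v s : K) • dlog W.w)) =
          (ord v s : K) * X.A ξ := by
        rw [AlternatingMap.map_update_smul, ← hξ0, Function.update_eq_self, smul_eq_mul]
      rw [← h2, hda, AlternatingMap.map_update_add, AlternatingMap.map_update_smul]
      have h3 : X.A (Function.update ξ 0 (dlog s)) = 0 := by
        apply W.A_zero
        intro i
        by_cases hi : i = 0
        · subst hi
          rw [Function.update_self, dlog, map_smul, Finsupp.smul_apply, ← W.D_apply,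
            (W.δ_zero_iff s).1 hδs, smul_zero]
        · rw [Function.update_of_ne hi, hξ]
          by_cases hi' : i = j.succ
          · subst hi'
            rw [Function.update_self, ← W.D_apply]
            exact (W.δ_zero_iff z).1 hz
          · rw [Function.update_of_ne hi', Module.Basis.repr_self, Finsupp.single_eq_of_ne (Ne.symm hi)]
      rw [h3, smul_zero, add_zero]
    have h4 : X.A (Function.update ξ 0 (dlog a)) ∈ v := by
      refine X.A_mem_U hv F fun i k => ?_
      by_cases hi : i = 0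
      · subst hi
        rw [Function.update_self]
        exact F.repr_dlog_mem ha0 hao k
      · rw [Function.update_of_ne hi, hξ]
        by_cases hi' : i = j.succ
        · subst hi'
          rw [Function.update_self]
          exact F.int z hzv k
        · rw [Function.update_of_ne hi', W.b_apply]
          obtain ⟨i', rfl⟩ := Fin.exists_succ_eq.2 hi
          exact F.repr_dlog_mem (S.u_ne i') (S.ordu v hv i') k
    have h5 : X.A ξ = algebraMap ℂ K (ord v s : ℂ)⁻¹ * X.A (Function.update ξ 0 (dlog a)) := by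
      rw [← h1, ← mul_assoc]
      have h6 : algebraMap ℂ K (ord v s : ℂ)⁻¹ * (ord v s : K) = 1 := by
        have h7 : (ord v s : K) = algebraMap ℂ K (ord v s : ℂ) := by simp
        rw [h7, ← map_mul, inv_mul_cancel₀ (by exact_mod_cast hso), map_one]
      rw [h6, one_mul]
    rw [h5]
    exact v.mul_mem _ _ (C_mem v _) h4

/-- Two derivations which agree on the coordinates are equal. -/
theorem deriv_ext (E : Derivation ℂ K K) (h : ∀ i, E (W.x i) = 0) (g : K) : E g = 0 := by
  have h1 : ∀ ζ : Ω[K⁄ℂ], E.liftKaehlerDifferential ζ = 0 := by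
    intro ζ
    rw [← W.b.sum_repr ζ, map_sum]
    refine Finset.sum_eq_zero fun i _ => ?_
    rw [map_smul, W.b_apply, dlog, map_smul, Derivation.liftKaehlerDifferential_comp_D, h i,
      smul_zero, smul_zero]
  rw [← E.liftKaehlerDifferential_comp_D, h1]

theorem D_comm (i j : Fin (m + 1)) (g : K) : W.D i (W.D j g) = W.D j (W.D i g) := by
  have h := W.deriv_ext ⁅W.D i, W.D j⁆ (fun k => by
    rw [Derivation.commutator_apply, W.D_x, W.D_x]
    by_cases h1 : k = j
    · by_cases h2 : k = i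
      · rw [if_pos h1, if_pos h2, W.D_x, W.D_x, if_pos h1, if_pos h2, sub_self]
      · rw [if_pos h1, if_neg h2, W.D_x, if_neg h2, map_zero, sub_self]
    · by_cases h2 : k = i
      · rw [if_neg h1, if_pos h2, W.D_x, if_neg h1, map_zero, sub_self]
      · rw [if_neg h1, if_neg h2, map_zero, map_zero, sub_self]) g
  rw [Derivation.commutator_apply] at h
  exact sub_eq_zero.1 h

theorem D_semiS (j : Fin (m + 1)) : SemiS (W.D j : K →ₗ[ℂ] K) := by
  refine X.semiS j (x := fun i => W.x (j.succAbove i)) ?_ (W.D j) (fun i => ?_) W.c_ne fun g => ?_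
  · have h1 : AlgebraicIndependent ℂ W.x := by
      refine cons_of_deriv S.ind S.δ S.δ_u ?_
      rw [W.eig.2]
      exact smul_ne_zero W.c_ne W.eig.1
    exact h1.comp j.succAbove Fin.succAbove_right_injective
  · rw [W.D_x, if_neg (Fin.succAbove_ne j i)]
  · rw [W.D_apply, mul_comm, ← W.A_update]
    congr 1
    have h : (fun i => dlog (W.x (j.succAbove i))) =
        j.removeNth (W.b : Fin (m + 1) → Ω[K⁄ℂ]) := by
      funext i
      rw [Fin.removeNth_apply, W.b_apply]
    rw [h, Fin.insertNth_removeNth]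

include W in
/-- The invariant elements of `Q` are Laurent polynomials in the units. -/
theorem inv_Q {z : K} (hz : z ∈ X.Q) (hδ : S.δ z = 0) :
    z ∈ Submodule.span ℂ (Set.range fun k : Fin m → ℤ => ∏ i, S.u i ^ k i) := by
  have hE := X.bdDiv_pol hz
  set E := CYData.pol z with hEdef
  have hfd := S.finDim _ hE
  let N : Submodule ℂ K := X.sections E ⊓ LinearMap.ker (S.δ : K →ₗ[ℂ] K)
  have hNfd : FiniteDimensional ℂ N :=
    Module.Finite.of_injective (Submodule.inclusion (inf_le_left : N ≤ X.sections E))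
      (Submodule.inclusion_injective _)
  have hmemN : ∀ x, x ∈ N ↔ x ∈ X.sections E ∧ S.δ x = 0 := fun x => by
    rw [Submodule.mem_inf, LinearMap.mem_ker]
    rfl
  have hstab : ∀ j, ∀ x ∈ N, (W.D j : K →ₗ[ℂ] K) x ∈ N := by
    intro j x hx
    rw [hmemN] at hx ⊢
    refine ⟨fun v hv => ?_, ?_⟩
    · rcases X.mem_U_or_Bd hv with h | h
      · have := CYData.dvr_U h
        have h1 := hx.1 v hv
        rw [hE v h, neg_zero] at h1 ⊢
        exact vge_zero_iff.2 (W.D_mem_U h hx.2 h1.mem j)
      · exact W.D_vge_B h (hx.1 v hv) j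
    · rw [W.δ_zero_iff]
      change W.D 0 (W.D j x) = 0
      rw [W.D_comm, (W.δ_zero_iff x).1 hx.2, map_zero]
  have h1 := mem_span_joint (D := fun j => (W.D j : K →ₗ[ℂ] K)) W.D_semiS
    (fun i j x => W.D_comm i j x) N hstab ((hmemN z).2 ⟨X.mem_sections_pol z, hδ⟩)
  refine Submodule.span_le.2 ?_ h1
  rintro g ⟨hgN, χ, hχ⟩
  rw [hmemN] at hgN
  by_cases hg0 : g = 0
  · rw [hg0]; exact Submodule.zero_mem _
  have hgQ := X.sections_le_Q hE hgN.1
  have hdl : dlog g = ∑ i : Fin (m + 1), algebraMap ℂ K (χ i) • dlog (W.x i) := by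
    rw [← W.b.sum_repr (dlog g)]
    refine Finset.sum_congr rfl fun i _ => ?_
    rw [W.b_apply]
    congr 1
    have h2 := hχ i
    change W.D i g = χ i • g at h2
    rw [W.D_eq i hg0, Algebra.smul_def, mul_comm] at h2
    exact mul_right_cancel₀ hg0 h2
  have hχ0 : χ 0 = 0 := by
    have h2 := hχ 0
    change W.D 0 g = χ 0 • g at h2
    rw [(W.δ_zero_iff g).1 hgN.2] at h2
    exact (smul_eq_zero.1 h2.symm).resolve_right hg0
  have hunit : ∀ v ∈ X.U, ord v g = 0 := by
    intro v hv
    have := CYData.dvr_U hv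
    obtain ⟨F⟩ := X.exists_frame hv.1
    by_contra hne
    obtain ⟨h2, h3⟩ := F.repr_dlog_zero hg0 hne
    have h4 : F.b.repr (dlog g) 0 ∈ v := by
      rw [hdl, map_sum, Finsupp.finsetSum_apply]
      refine sum_mem (S := v.toSubring) fun i _ => ?_
      change _ ∈ v
      rw [map_smul, Finsupp.smul_apply, smul_eq_mul]
      refine Fin.cases ?_ (fun i => ?_) i
      · rw [hχ0, map_zero, zero_mul]; exact v.zero_mem
      · exact v.mul_mem _ _ (C_mem v _) (F.repr_dlog_mem (S.u_ne i) (S.ordu v hv i) 0)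
    have h5 := (ord_nonneg_iff h2).2 h4
    omega
  obtain ⟨c, k, hck⟩ := S.unit g hg0 hunit
  rw [hck, ← Algebra.smul_def]
  exact Submodule.smul_mem _ _ (Submodule.subset_span ⟨k, rfl⟩)

end WData

end Pool.Agent.Helper94.LCY
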