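import Pool.Agent.Helper94.MDS.Contra

/-!
# The case of too many units
-/

noncomputable section

open KaehlerDifferential

namespace Pool.Agent.Helper94.LCY

variable {K : Type} [Field K] [Algebra ℂ K] {m : ℕ}

/-- As many independent units as the dimension. -/
structure FullUnits (X : CYData K m) where
  u : Fin (m + 1) → K
  ind : AlgebraicIndependent ℂ u
  ordu : ∀ v ∈ X.U, ∀ i, ord v (u i) = 0
  unit : ∀ g : K, g ≠ 0 → (∀ v ∈ X.U, ord v g = 0) →
    ∃ (c : ℂ) (k : Fin (m + 1) → ℤ), g = algebraMap ℂ K c * ∏ i, u i ^ k i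
  finDim : ∀ E, X.BdDiv E → FiniteDimensional ℂ (X.sections E)

namespace FullUnits

variable {X : CYData K m} (S : FullUnits X)

theorem u_ne (i : Fin (m + 1)) : S.u i ≠ 0 := S.ind.ne_zero i

theorem u_mem {v : ValuationSubring K} (hv : v ∈ X.U) (i : Fin (m + 1)) : S.u i ∈ v := by
  have := CYData.dvr_U hv
  exact mem_of_ord_zero (S.u_ne i) (S.ordu v hv i)

theorem aeval_mem_v {v : ValuationSubring K} (hv : v ∈ X.U) (p : MvPolynomial (Fin (m + 1)) ℂ) :
    MvPolynomial.aeval S.u p ∈ v := by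
  have := CYData.dvr_U hv
  exact aeval_mem (C_mem v) (S.u_mem hv) p

theorem aeval_ne {p : MvPolynomial (Fin (m + 1)) ℂ} (hp : p ≠ 0) : MvPolynomial.aeval S.u p ≠ 0 :=
  fun h => hp (algebraicIndependent_iff.1 S.ind p h)

theorem exists_c : ∃ c : ℂ, c ≠ 0 ∧ X.A (fun i => dlog (S.u i)) = algebraMap ℂ K c := by
  obtain ⟨c, hc⟩ := X.const (X.A fun i => dlog (S.u i)) fun v hv => by
    rcases X.mem_U_or_Bd hv with h | h
    · have := CYData.dvr_U h
      obtain ⟨F⟩ := X.exists_frame hv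
      exact X.A_mem_U h F fun i j => F.repr_dlog_mem (S.u_ne i) (S.ordu v h i) j
    · exact X.A_mem_B h S.u_ne
  refine ⟨c, ?_, hc⟩
  rintro rfl
  rw [map_zero] at hc
  exact X.A_dlog_ne S.ind hc

/-- the constant -/
def c : ℂ := S.exists_c.choose

theorem c_ne : S.c ≠ 0 := S.exists_c.choose_spec.1

theorem A_u : X.A (fun i => dlog (S.u i)) = algebraMap ℂ K S.c := S.exists_c.choose_spec.2

theorem Cc_ne : algebraMap ℂ K S.c ≠ 0 := by
  rw [Ne, map_eq_zero]
  exact S.c_ne

theorem exists_b : ∃ b : Module.Basis (Fin (m + 1)) K (Ω[K⁄ℂ]), ∀ i, b i = dlog (S.u i) := by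
  have h0 : S.u = Fin.cons (S.u 0) (fun l : Fin m => S.u l.succ) := by
    funext l
    refine Fin.cases ?_ (fun l => ?_) l <;> rfl
  have hy := S.ind
  rw [h0] at hy
  obtain ⟨V, hV, hres, hlt⟩ := exists_dvr X.fg X.tr hy
  obtain ⟨F, hF⟩ := X.exists_frame_of hres
  exact exists_basis_of_alt (A := X.A) F.b (by
    rw [S.A_u]
    exact S.Cc_ne)

/-- The basis of the differentials. -/
def b : Module.Basis (Fin (m + 1)) K (Ω[K⁄ℂ]) := S.exists_b.choose

theorem b_apply (i : Fin (m + 1)) : S.b i = dlog (S.u i) := S.exists_b.choose_spec i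

theorem A_b : X.A S.b = algebraMap ℂ K S.c := by
  rw [← S.A_u]
  congr 1
  funext i
  exact S.b_apply i

/-- The dual derivations. -/
def D (j : Fin (m + 1)) : Derivation ℂ K K := (S.b.coord j).compDer (KaehlerDifferential.D ℂ K)

theorem D_apply (j : Fin (m + 1)) (g : K) :
    S.D j g = S.b.repr (KaehlerDifferential.D ℂ K g) j := rfl

theorem D_eq (j : Fin (m + 1)) {g : K} (hg : g ≠ 0) : S.D j g = g * S.b.repr (dlog g) j := by
  rw [D_apply, D_eq_smul_dlog hg, map_smul, Finsupp.smul_apply, smul_eq_mul]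

theorem D_u (i j : Fin (m + 1)) : S.D j (S.u i) = if i = j then S.u i else 0 := by
  rw [S.D_eq j (S.u_ne i), ← S.b_apply, Module.Basis.repr_self, Finsupp.single_apply]
  split_ifs
  · rw [mul_one]
  · rw [mul_zero]

theorem A_update (j : Fin (m + 1)) (ζ : Ω[K⁄ℂ]) :
    X.A (Function.update S.b j ζ) = S.b.repr ζ j * algebraMap ℂ K S.c := by
  rw [alt_update, S.A_b]

theorem repr_eq (j : Fin (m + 1)) (ζ : Ω[K⁄ℂ]) :
    S.b.repr ζ j = X.A (Function.update S.b j ζ) * algebraMap ℂ K S.c⁻¹ := by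
  rw [S.A_update, mul_assoc, ← map_mul, mul_inv_cancel₀ S.c_ne, map_one, mul_one]

theorem D_mem_B {v : ValuationSubring K} (hv : v ∈ X.Bd) {g : K} (hg : g ≠ 0)
    (j : Fin (m + 1)) : S.b.repr (dlog g) j ∈ v := by
  have := CYData.dvr_B hv
  rw [S.repr_eq]
  refine v.mul_mem _ _ ?_ (C_mem v _)
  have h := X.A_mem_B hv (g := Function.update S.u j g) (fun i => by
    by_cases hi : i = j
    · subst hi
      rwa [Function.update_self]
    · rw [Function.update_of_ne hi]
      exact S.u_ne i)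
  convert h using 2
  funext i
  by_cases hi : i = j
  · subst hi
    rw [Function.update_self, Function.update_self]
  · rw [Function.update_of_ne hi, Function.update_of_ne hi, S.b_apply]

theorem D_vge_B {v : ValuationSubring K} (hv : v ∈ X.Bd) {k : ℤ} {g : K} (hg : vge v k g)
    (j : Fin (m + 1)) : vge v k (S.D j g) := by
  have := CYData.dvr_B hv
  by_cases h0 : g = 0
  · rw [h0, map_zero]; exact vge.zero
  · rw [S.D_eq j h0, mul_comm]
    exact vge.mem_mul (S.D_mem_B hv h0 j) hg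

theorem D_mem_U {v : ValuationSubring K} (hv : v ∈ X.U) {g : K} (hg : g ∈ v)
    (j : Fin (m + 1)) : S.D j g ∈ v := by
  have := CYData.dvr_U hv
  obtain ⟨F⟩ := X.exists_frame hv.1
  rw [S.D_apply, S.repr_eq]
  refine v.mul_mem _ _ (X.A_mem_U hv F fun i k => ?_) (C_mem v _)
  by_cases hi : i = j
  · subst hi
    rw [Function.update_self]
    exact F.int g hg k
  · rw [Function.update_of_ne hi, S.b_apply]
    exact F.repr_dlog_mem (S.u_ne i) (S.ordu v hv i) k

theorem deriv_ext (E : Derivation ℂ K K) (h : ∀ i, E (S.u i) = 0) (g : K) : E g = 0 := by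
  have h1 : ∀ ζ : Ω[K⁄ℂ], E.liftKaehlerDifferential ζ = 0 := by
    intro ζ
    rw [← S.b.sum_repr ζ, map_sum]
    refine Finset.sum_eq_zero fun i _ => ?_
    rw [map_smul, S.b_apply, dlog, map_smul, Derivation.liftKaehlerDifferential_comp_D, h i,
      smul_zero, smul_zero]
  rw [← E.liftKaehlerDifferential_comp_D, h1]

theorem D_comm (i j : Fin (m + 1)) (g : K) : S.D i (S.D j g) = S.D j (S.D i g) := by
  have h := S.deriv_ext ⁅S.D i, S.D j⁆ (fun k => by
    rw [Derivation.commutator_apply, S.D_u, S.D_u]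
    by_cases h1 : k = j
    · by_cases h2 : k = i
      · rw [if_pos h1, if_pos h2, S.D_u, S.D_u, if_pos h1, if_pos h2, sub_self]
      · rw [if_pos h1, if_neg h2, S.D_u, if_neg h2, map_zero, sub_self]
    · by_cases h2 : k = i
      · rw [if_neg h1, if_pos h2, S.D_u, if_neg h1, map_zero, sub_self]
      · rw [if_neg h1, if_neg h2, map_zero, map_zero, sub_self]) g
  rw [Derivation.commutator_apply] at h
  exact sub_eq_zero.1 h

theorem D_semiS (j : Fin (m + 1)) : SemiS (S.D j : K →ₗ[ℂ] K) := by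
  refine X.semiS j (x := fun i => S.u (j.succAbove i)) ?_ (S.D j) (fun i => ?_) S.c_ne fun g => ?_
  · exact S.ind.comp j.succAbove Fin.succAbove_right_injective
  · rw [S.D_u, if_neg (Fin.succAbove_ne j i)]
  · rw [S.D_apply, mul_comm, ← S.A_update]
    congr 1
    have h : (fun i => dlog (S.u (j.succAbove i))) =
        j.removeNth (S.b : Fin (m + 1) → Ω[K⁄ℂ]) := by
      funext i
      rw [Fin.removeNth_apply, S.b_apply]
    rw [h, Fin.insertNth_removeNth]

theorem mem_span {z : K} (hz : z ∈ X.Q) :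
    z ∈ Submodule.span ℂ (Set.range fun k : Fin (m + 1) → ℤ => ∏ i, S.u i ^ k i) := by
  have hE := X.bdDiv_pol hz
  set E := CYData.pol z with hEdef
  have hfd := S.finDim _ hE
  have hstab : ∀ j, ∀ x ∈ X.sections E, (S.D j : K →ₗ[ℂ] K) x ∈ X.sections E := by
    intro j x hx v hv
    rcases X.mem_U_or_Bd hv with h | h
    · have := CYData.dvr_U h
      have h1 := hx v hv
      rw [hE v h, neg_zero] at h1 ⊢
      exact vge_zero_iff.2 (S.D_mem_U h h1.mem j)
    · exact S.D_vge_B h (hx v hv) j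
  have h1 := mem_span_joint (D := fun j => (S.D j : K →ₗ[ℂ] K)) S.D_semiS
    (fun i j x => S.D_comm i j x) (X.sections E) hstab (X.mem_sections_pol z)
  refine Submodule.span_le.2 ?_ h1
  rintro g ⟨hgN, χ, hχ⟩
  by_cases hg0 : g = 0
  · rw [hg0]; exact Submodule.zero_mem _
  have hdl : dlog g = ∑ i : Fin (m + 1), algebraMap ℂ K (χ i) • dlog (S.u i) := by
    rw [← S.b.sum_repr (dlog g)]
    refine Finset.sum_congr rfl fun i _ => ?_
    rw [S.b_apply]
    congr 1
    have h2 := hχ i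
    change S.D i g = χ i • g at h2
    rw [S.D_eq i hg0, Algebra.smul_def, mul_comm] at h2
    exact mul_right_cancel₀ hg0 h2
  have hunit : ∀ v ∈ X.U, ord v g = 0 := by
    intro v hv
    have := CYData.dvr_U hv
    obtain ⟨F⟩ := X.exists_frame hv.1
    by_contra hne
    obtain ⟨h2, h3⟩ := F.repr_dlog_zero hg0 hne
    have h4 : F.b.repr (dlog g) 0 ∈ v := by
      rw [hdl, map_sum, Finsupp.finsetSum_apply]
      refine sum_mem (S := v.toSubring) fun i _ => ?_
      change _ ∈ v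
      rw [map_smul, Finsupp.smul_apply, smul_eq_mul]
      exact v.mul_mem _ _ (C_mem v _) (F.repr_dlog_mem (S.u_ne i) (S.ordu v hv i) 0)
    have h5 := (ord_nonneg_iff h2).2 h4
    omega
  obtain ⟨c, k, hck⟩ := S.unit g hg0 hunit
  rw [hck, ← Algebra.smul_def]
  exact Submodule.smul_mem _ _ (Submodule.subset_span ⟨k, rfl⟩)

theorem mem_poly {z : K} (hz : z ∈ X.Q) :
    ∃ (p : MvPolynomial (Fin (m + 1)) ℂ) (N : ℕ),
      z * MvPolynomial.aeval S.u
        ((∏ i : Fin (m + 1), MvPolynomial.X i : MvPolynomial (Fin (m + 1)) ℂ) ^ N) =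
        MvPolynomial.aeval S.u p := by
  have hM : ∀ N : ℕ, MvPolynomial.aeval S.u
      ((∏ i : Fin (m + 1), MvPolynomial.X i : MvPolynomial (Fin (m + 1)) ℂ) ^ N) =
        ∏ i, S.u i ^ N := by
    intro N
    rw [map_pow, map_prod, Finset.prod_pow]
    congr 1
    exact Finset.prod_congr rfl fun i _ => MvPolynomial.aeval_X _ _
  refine Submodule.span_induction (p := fun z _ => ∃ (p : MvPolynomial (Fin (m + 1)) ℂ) (N : ℕ),
      z * MvPolynomial.aeval S.u
        ((∏ i : Fin (m + 1), MvPolynomial.X i : MvPolynomial (Fin (m + 1)) ℂ) ^ N) =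
        MvPolynomial.aeval S.u p) ?_ ?_ ?_ ?_ (S.mem_span hz)
  · rintro _ ⟨k, rfl⟩
    set N := ∑ i, (k i).natAbs with hN
    have hNk : ∀ i, 0 ≤ k i + N := by
      intro i
      have h1 : (k i).natAbs ≤ N := Finset.single_le_sum (f := fun i => (k i).natAbs)
        (fun _ _ => Nat.zero_le _) (Finset.mem_univ i)
      omega
    refine ⟨∏ i, MvPolynomial.X i ^ (k i + N).toNat, N, ?_⟩
    rw [hM, map_prod, ← Finset.prod_mul_distrib]
    refine Finset.prod_congr rfl fun i _ => ?_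
    rw [map_pow, MvPolynomial.aeval_X, ← zpow_natCast, ← zpow_natCast, ← zpow_add₀ (S.u_ne i),
      Int.toNat_of_nonneg (hNk i)]
  · exact ⟨0, 0, by simp⟩
  · rintro x y _ _ ⟨p, N, hp⟩ ⟨q, M, hq⟩
    refine ⟨p * (∏ i, MvPolynomial.X i) ^ M + q * (∏ i, MvPolynomial.X i) ^ N, N + M, ?_⟩
    rw [map_add, map_mul, map_mul, ← hp, ← hq, pow_add, map_mul]
    ring
  · rintro a x _ ⟨p, N, hp⟩
    refine ⟨MvPolynomial.C a * p, N, ?_⟩
    rw [map_mul, ← hp, MvPolynomial.aeval_C, Algebra.smul_def]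
    ring

/-- The units generate the function field. -/
theorem exists_frac (f : K) : ∃ p q : MvPolynomial (Fin (m + 1)) ℂ, q ≠ 0 ∧
    f = MvPolynomial.aeval S.u p / MvPolynomial.aeval S.u q := by
  have hbas : IsTranscendenceBasis ℂ S.u :=
    S.ind.isTranscendenceBasis_of_trdeg_le_of_finite (by
      rw [X.tr, Cardinal.mk_fin])
  have halg := hbas.isAlgebraic
  obtain ⟨y, hy0, hy⟩ := (halg.isAlgebraic f).exists_integral_multiple
  have hyQ : (y : K) * f ∈ X.Q := by
    intro v hv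
    have hle : ∀ a : Algebra.adjoin ℂ (Set.range S.u), (a : K) ∈ v := by
      intro a
      obtain ⟨p, hp⟩ := exists_aeval_of_mem_adjoin a.2
      rw [← hp]
      exact S.aeval_mem_v hv p
    let φ : Algebra.adjoin ℂ (Set.range S.u) →+* v :=
      { toFun := fun a => ⟨a, hle a⟩
        map_one' := rfl
        map_zero' := rfl
        map_add' := fun _ _ => rfl
        map_mul' := fun _ _ => rfl }
    have h1 : IsIntegral v ((y : K) * f) := by
      have h2 : y • f = (y : K) * f := rfl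
      rw [h2] at hy
      obtain ⟨P, hP, hP'⟩ := hy
      refine ⟨P.map φ, hP.map φ, ?_⟩
      rw [Polynomial.eval₂_map]
      exact hP'
    obtain ⟨z, hz⟩ := IsIntegrallyClosed.isIntegral_iff.1 h1
    rw [← hz]
    exact z.2
  obtain ⟨p, N, hp⟩ := S.mem_poly hyQ
  obtain ⟨y', hy'⟩ := exists_aeval_of_mem_adjoin y.2
  have hy'0 : y' ≠ 0 := by
    rintro rfl
    rw [map_zero] at hy'
    exact hy0 (Subtype.ext hy'.symm)
  have hM : ((∏ i : Fin (m + 1), MvPolynomial.X i : MvPolynomial (Fin (m + 1)) ℂ) ^ N) ≠ 0 :=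
    pow_ne_zero _ (Finset.prod_ne_zero_iff.2 fun i _ => MvPolynomial.X_ne_zero i)
  refine ⟨p, y' * (∏ i : Fin (m + 1), MvPolynomial.X i) ^ N, mul_ne_zero hy'0 hM, ?_⟩
  rw [eq_div_iff (S.aeval_ne (mul_ne_zero hy'0 hM)), map_mul, hy', ← hp]
  ring

include S in
/-- The prime divisors are principal. -/
theorem exists_rho {v : ValuationSubring K} (hv : v ∈ X.U) :
    ∃ ρ : K, ρ ≠ 0 ∧ ord v ρ = 1 ∧ ∀ v' ∈ X.U, v' ≠ v → ord v' ρ = 0 := by
  have key : ∀ v ∈ X.U, ∃ π : MvPolynomial (Fin (m + 1)) ℂ, Irreducible π ∧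
      (∀ p, vge v 1 (MvPolynomial.aeval S.u p) ↔ π ∣ p) ∧
        ord v (MvPolynomial.aeval S.u π) = 1 := by
    intro v hv
    have hvd := CYData.dvr_U hv
    obtain ⟨F⟩ := X.exists_frame hv.1
    have h1 : (∏ i, S.u i) ≠ 0 := Finset.prod_ne_zero_iff.2 fun i _ => S.u_ne i
    have hAD : X.A (fun i => KaehlerDifferential.D ℂ K (S.u i)) =
        (∏ i, S.u i) * algebraMap ℂ K S.c := by
      rw [← S.A_u, ← smul_eq_mul, ← AlternatingMap.map_smul_univ]
      congr 1
      funext i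
      rw [D_eq_smul_dlog (S.u_ne i)]
    have hdet : v.valuation (Matrix.of fun i j => F.δ j (S.u i)).det = 1 := by
      have h2 := alt_eq_det X.A F.b fun i => KaehlerDifferential.D ℂ K (S.u i)
      have h3 : (Matrix.of fun i j => F.δ j (S.u i)) =
          Matrix.of fun i j => F.b.repr (KaehlerDifferential.D ℂ K (S.u i)) j := rfl
      rw [← h3, hAD] at h2
      have h4 : (∏ i, S.u i) * algebraMap ℂ K S.c ≠ 0 := mul_ne_zero h1 S.Cc_ne
      have h5 : (Matrix.of fun i j => F.δ j (S.u i)).det ≠ 0 := by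
        intro h0
        rw [h0, zero_mul] at h2
        exact h4 h2
      have h6 : ord v ((∏ i, S.u i) * algebraMap ℂ K S.c) = 0 := by
        rw [ord_mul h1 S.Cc_ne, ord_C, ord_prod fun i _ => S.u_ne i,
          Finset.sum_eq_zero fun i _ => S.ordu v hv i, add_zero]
      rw [← ord_eq_zero_iff h5]
      rw [h2, ord_mul h5 (alt_ne_zero X.A_ne F.b), X.ordA_U v hv.1 hv.2 F] at h6
      omega
    exact F.exists_uniformizer X.tr (S.u_mem hv) hdet
  have hvd := CYData.dvr_U hv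
  obtain ⟨π, hπ, hπ2, hπ3⟩ := key v hv
  have hρ0 := S.aeval_ne hπ.ne_zero
  refine ⟨MvPolynomial.aeval S.u π, hρ0, hπ3, fun v' hv' hne => ?_⟩
  have hvd' := CYData.dvr_U hv'
  by_contra hord
  have hpos : 0 < ord v' (MvPolynomial.aeval S.u π) := by
    have := (ord_nonneg_iff hρ0).2 (S.aeval_mem_v hv' π)
    omega
  obtain ⟨π', hπ', hπ2', -⟩ := key v' hv'
  have hassoc : Associated π' π :=
    hπ'.associated_of_dvd hπ ((hπ2' π).1 (Or.inr hpos))
  have hdvd : ∀ p : MvPolynomial (Fin (m + 1)) ℂ, ¬ π ∣ p → p ≠ 0 → ord v (MvPolynomial.aeval S.u p) = 0 ∧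
      ord v' (MvPolynomial.aeval S.u p) = 0 := by
    intro p hp hp0
    constructor
    · have h1 := (ord_nonneg_iff (S.aeval_ne hp0)).2 (S.aeval_mem_v hv p)
      have h2 : ¬ 1 ≤ ord v (MvPolynomial.aeval S.u p) := fun h3 => hp ((hπ2 p).1 (Or.inr h3))
      omega
    · have h1 := (ord_nonneg_iff (S.aeval_ne hp0)).2 (S.aeval_mem_v hv' p)
      have h2 : ¬ 1 ≤ ord v' (MvPolynomial.aeval S.u p) := fun h3 =>
        hp (hassoc.dvd_iff_dvd_left.1 ((hπ2' p).1 (Or.inr h3)))
      omega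
  have hordp : ∀ p : MvPolynomial (Fin (m + 1)) ℂ, p ≠ 0 → ∃ a : ℕ, ord v (MvPolynomial.aeval S.u p) = a ∧
      ord v' (MvPolynomial.aeval S.u p) = a * ord v' (MvPolynomial.aeval S.u π) := by
    intro p hp0
    have hfin : FiniteMultiplicity π p := FiniteMultiplicity.of_prime_left hπ.prime hp0
    obtain ⟨q, hq1, hq2⟩ := hfin.exists_eq_pow_mul_and_not_dvd
    have hq0 : q ≠ 0 := by
      rintro rfl
      exact hq2 (dvd_zero _)
    obtain ⟨h1, h2⟩ := hdvd q hq2 hq0
    refine ⟨multiplicity π p, ?_, ?_⟩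
    · conv_lhs => rw [hq1]
      rw [map_mul, map_pow, ord_mul (pow_ne_zero _ hρ0) (S.aeval_ne hq0), ord_pow hρ0, h1, hπ3]
      ring
    · conv_lhs => rw [hq1]
      rw [map_mul, map_pow, ord_mul (pow_ne_zero _ hρ0) (S.aeval_ne hq0), ord_pow hρ0, h2]
      ring
  apply hne
  symm
  apply dvr_eq_of_le
  intro f hf
  by_cases hf0 : f = 0
  · rw [hf0]; exact v'.zero_mem
  obtain ⟨p, q, hq, rfl⟩ := S.exists_frac f
  have hp : p ≠ 0 := by
    rintro rfl
    rw [map_zero, zero_div] at hf0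
    exact hf0 rfl
  obtain ⟨a, ha, ha'⟩ := hordp p hp
  obtain ⟨a₁, ha₁, ha₁'⟩ := hordp q hq
  have hne' := div_ne_zero (S.aeval_ne hp) (S.aeval_ne hq)
  rw [← ord_nonneg_iff hne', ord_div (S.aeval_ne hp) (S.aeval_ne hq)] at hf ⊢
  rw [ha, ha₁] at hf
  rw [ha', ha₁', ← sub_mul]
  exact mul_nonneg hf hpos.le

end FullUnits

end Pool.Agent.Helper94.LCY
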