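import Pool.Agent.Helper94.MDS.Alt

/-!
# Generators of the differentials of a divisorial valuation ring
-/

noncomputable section

open KaehlerDifferential Polynomial

namespace Pool.Agent.Helper94.LCY

variable {K : Type} [Field K] [Algebra ℂ K]

theorem totalDegree_pderiv_lt {ι : Type} (p : MvPolynomial ι ℂ) (i : ι)
    (h : MvPolynomial.pderiv i p ≠ 0) :
    (MvPolynomial.pderiv i p).totalDegree < p.totalDegree := by
  classical
  have key : ∀ s ∈ (MvPolynomial.pderiv i p).support, (s.sum fun _ e => e) + 1 ≤ p.totalDegree := by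
    intro s hs
    rw [MvPolynomial.mem_support_iff, MvPolynomial.coeff_pderiv] at hs
    have h1 : MvPolynomial.coeff (s + Finsupp.single i 1) p ≠ 0 := left_ne_zero_of_mul hs
    have h2 := MvPolynomial.le_totalDegree (MvPolynomial.mem_support_iff.2 h1)
    rw [Finsupp.sum_add_index' (fun _ => rfl) (fun _ _ _ => rfl),
      Finsupp.sum_single_index rfl] at h2
    exact h2
  have hne : (MvPolynomial.pderiv i p).support.Nonempty := MvPolynomial.support_nonempty.2 h
  obtain ⟨s, hs⟩ := hne
  have h1 := key s hs
  have h2 : (MvPolynomial.pderiv i p).totalDegree ≤ p.totalDegree - 1 := by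
    refine Finset.sup_le fun s hs => ?_
    have := key s hs
    omega
  omega

theorem eq_C_of_pderiv {ι : Type} (p : MvPolynomial ι ℂ)
    (h : ∀ i, MvPolynomial.pderiv i p = 0) : p = MvPolynomial.C (MvPolynomial.coeff 0 p) := by
  classical
  ext s
  rw [MvPolynomial.coeff_C]
  split_ifs with hs
  · rw [← hs]
  · by_contra hne
    obtain ⟨i, hi⟩ : ∃ i, s i ≠ 0 := by
      by_contra hall
      push Not at hall
      exact hs (Finsupp.ext hall).symm
    have h1 := MvPolynomial.coeff_pderiv (i := i) p (s - Finsupp.single i 1)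
    rw [h i, MvPolynomial.coeff_zero] at h1
    have h2 : s - Finsupp.single i 1 + Finsupp.single i 1 = s := by
      ext j
      by_cases hj : j = i
      · subst hj
        simp only [Finsupp.coe_add, Finsupp.coe_tsub, Pi.add_apply, Pi.sub_apply,
          Finsupp.single_eq_same]
        omega
      · simp [Ne.symm hj]
    rw [h2] at h1
    rcases mul_eq_zero.1 h1.symm with h3 | h3
    · exact hne h3
    · exact Nat.cast_add_one_ne_zero _ h3

theorem deriv_aeval {ι : Type} [Fintype ι] (δ : Derivation ℂ K K) (x : ι → K)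
    (p : MvPolynomial ι ℂ) :
    δ (MvPolynomial.aeval x p) = ∑ i, MvPolynomial.aeval x (MvPolynomial.pderiv i p) * δ (x i) := by
  classical
  induction p using MvPolynomial.induction_on with
  | C a => simp
  | add p q hp hq =>
    rw [map_add, map_add, hp, hq, ← Finset.sum_add_distrib]
    refine Finset.sum_congr rfl fun i _ => ?_
    rw [map_add, map_add, add_mul]
  | mul_X p j hp =>
    rw [map_mul, MvPolynomial.aeval_X, Derivation.leibniz, hp, smul_eq_mul, smul_eq_mul,
      Finset.mul_sum]
    have h1 : MvPolynomial.aeval x p * δ (x j) =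
        ∑ i, MvPolynomial.aeval x p * (if i = j then 1 else 0) * δ (x i) := by
      rw [Finset.sum_eq_single j]
      · rw [if_pos rfl, mul_one]
      · intro i _ hi
        rw [if_neg hi, mul_zero, zero_mul]
      · intro h
        exact absurd (Finset.mem_univ j) h
    rw [h1, ← Finset.sum_add_distrib]
    refine Finset.sum_congr rfl fun i _ => ?_
    rw [MvPolynomial.pderiv_mul, MvPolynomial.pderiv_X, map_add, map_mul, map_mul,
      MvPolynomial.aeval_X, Pi.single_apply]
    have h3 : MvPolynomial.aeval x (if j = i then (1 : MvPolynomial ι ℂ) else 0) =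
        if i = j then (1 : K) else 0 := by
      by_cases h : i = j
      · rw [if_pos h, if_pos h.symm, map_one]
      · rw [if_neg h, if_neg (Ne.symm h), map_zero]
    rw [h3]
    ring

section

variable {v : ValuationSubring K} [IsDiscreteValuationRing v]

omit [Algebra ℂ K] in
theorem val_lt_one_iff {x : K} : v.valuation x < 1 ↔ vge v 1 x := by
  by_cases hx : x = 0
  · rw [hx, map_zero]
    exact ⟨fun _ => vge.zero, fun _ => zero_lt_one⟩
  · rw [← ord_pos_iff hx]
    constructor
    · intro h
      exact Or.inr h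
    · intro h
      exact h.le hx

omit [Algebra ℂ K] in
theorem val_eq_one_of_not_vge {x : K} (hx : x ∈ v) (h : ¬ vge v 1 x) : v.valuation x = 1 := by
  rw [← val_lt_one_iff] at h
  exact le_antisymm ((v.valuation_le_one_iff _).2 hx) (not_lt.1 h)

omit [Algebra ℂ K] in
/-- Cramer's rule modulo the maximal ideal. -/
theorem vge_of_vecMul {k : ℕ} {C : Matrix (Fin k) (Fin k) K} (hC : ∀ i j, C i j ∈ v)
    (hdet : v.valuation C.det = 1) {a : Fin k → K}
    (h : ∀ j, vge v 1 (∑ i, a i * C i j)) (i : Fin k) : vge v 1 (a i) := by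
  have h1 : Matrix.vecMul a (C * C.adjugate) i = C.det * a i := by
    rw [Matrix.mul_adjugate, Matrix.vecMul_smul, Matrix.vecMul_one, Pi.smul_apply, smul_eq_mul]
  have h2 : Matrix.vecMul a (C * C.adjugate) i =
      ∑ j, (∑ l, a l * C l j) * C.adjugate j i := by
    rw [← Matrix.vecMul_vecMul]
    rfl
  have h3 : ∀ j, C.adjugate j i ∈ v := by
    intro j
    rw [Matrix.adjugate_apply]
    refine det_mem fun p q => ?_
    by_cases hp : p = i
    · subst hp
      rw [Matrix.updateRow_self]
      by_cases hq : q = j
      · subst hq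
        rw [Pi.single_eq_same]
        exact v.one_mem
      · rw [Pi.single_eq_of_ne hq]
        exact v.zero_mem
    · rw [Matrix.updateRow_ne hp]
      exact hC p q
  have h4 : vge v 1 (C.det * a i) := by
    rw [← h1, h2]
    refine vge.sum fun j _ => ?_
    rw [mul_comm]
    exact vge.mem_mul (h3 j) (h j)
  have h5 : C.det ≠ 0 := by
    intro h0
    rw [h0, map_zero] at hdet
    exact zero_ne_one hdet
  have h6 : (C.det)⁻¹ ∈ v := by
    rw [← v.valuation_le_one_iff, map_inv₀, hdet, inv_one]
  have h7 := vge.mem_mul h6 h4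
  rwa [← mul_assoc, inv_mul_cancel₀ h5, one_mul] at h7

namespace Frame

variable {m : ℕ} (F : Frame v m)

/-- The derivations tangent to the divisor preserve the maximal ideal. -/
theorem vge_δ_succ {x : K} (hx : vge v 1 x) (j : Fin m) : vge v 1 (F.δ j.succ x) := by
  have h1 : x = (F.t : K) * (x / F.t) := by
    rw [mul_div_cancel₀]
    exact F.t_ne
  have h2 : x / (F.t : K) ∈ v := by
    rw [← vge_zero_iff]
    rcases hx with rfl | hx
    · rw [zero_div]; exact vge.zero
    · by_cases h0 : x = 0
      · rw [h0, zero_div]; exact vge.zero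
      · right
        rw [ord_div h0 F.t_ne, F.ord_t]
        omega
  rw [h1, Derivation.leibniz, F.δ_succ_t, smul_zero, add_zero, smul_eq_mul]
  have h3 : vge v 1 (F.t : K) := Or.inr F.ord_t.ge
  have h4 := h3.mul (vge_zero_iff.2 (F.δ_mem j.succ h2))
  rwa [add_zero] at h4

theorem vge_δ_zero {x : K} (hx : vge v 2 x) : vge v 1 (F.δ 0 x) := by
  have h1 : x = (F.t : K) * (x / F.t) := by
    rw [mul_div_cancel₀]
    exact F.t_ne
  have h2 : vge v 1 (x / (F.t : K)) := by
    rcases hx with rfl | hx
    · rw [zero_div]; exact vge.zero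
    · by_cases h0 : x = 0
      · rw [h0, zero_div]; exact vge.zero
      · right
        rw [ord_div h0 F.t_ne, F.ord_t]
        omega
  rw [h1, Derivation.leibniz, F.δ_zero_t, smul_eq_mul, smul_eq_mul, mul_one]
  have h3 : vge v 1 (F.t : K) := Or.inr F.ord_t.ge
  have h4 := h3.mul (vge_zero_iff.2 (F.δ_mem 0 (h2.mono (by omega) : vge v 0 _).mem))
  rw [add_zero] at h4
  exact h4.add h2

/-- The Jacobian criterion for independence of residues. -/
theorem resIndep_of_det {x : Fin m → K} (hx : ∀ i, x i ∈ v)
    (hdet : v.valuation (Matrix.of fun i j => F.δ (Fin.succ j) (x i)).det = 1) :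
    ResIndep v x := by
  have key : ∀ n : ℕ, ∀ p : MvPolynomial (Fin m) ℂ, p.totalDegree ≤ n →
      vge v 1 (MvPolynomial.aeval x p) → p = 0 := by
    intro n
    induction n with
    | zero =>
      intro p hp h1
      have h2 : p = MvPolynomial.C (MvPolynomial.coeff 0 p) :=
        MvPolynomial.totalDegree_eq_zero_iff_eq_C.1 (Nat.le_zero.1 hp)
      rw [h2, MvPolynomial.aeval_C] at h1
      by_contra hne
      have h3 : MvPolynomial.coeff 0 p ≠ 0 := by
        intro h0
        rw [h0, map_zero] at h2
        exact hne h2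
      have h4 := h1.le (by
        intro h0
        exact h3 ((map_eq_zero (algebraMap ℂ K)).1 h0))
      rw [ord_C] at h4
      omega
    | succ n ih =>
      intro p hp h1
      have h2 : ∀ i, MvPolynomial.pderiv i p = 0 := by
        intro i
        by_contra hne
        apply hne
        have hlt := totalDegree_pderiv_lt p i hne
        apply ih _ (by omega)
        refine vge_of_vecMul (C := Matrix.of fun i j => F.δ (Fin.succ j) (x i))
          (a := fun i => MvPolynomial.aeval x (MvPolynomial.pderiv i p))
          (fun i j => F.δ_mem _ (hx i)) hdet (fun j => ?_) i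
        have h3 := F.vge_δ_succ h1 j
        rw [deriv_aeval] at h3
        exact h3
      have h3 := eq_C_of_pderiv p h2
      refine ih p ?_ h1
      rw [h3, MvPolynomial.totalDegree_C]
      omega
  intro p hp
  refine val_eq_one_of_not_vge (aeval_mem (C_mem v) hx p) fun h => hp ?_
  exact key _ p le_rfl h

/-- If the differentials of the `x i` generate, then all but one of them have independent
residues. -/
theorem exists_resIndep {x : Fin (m + 1) → K} (hx : ∀ i, x i ∈ v)
    (hdet : v.valuation (Matrix.of fun i j => F.δ j (x i)).det = 1) :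
    ∃ i₀ : Fin (m + 1), ResIndep v fun j => x (i₀.succAbove j) := by
  by_contra hcon
  push Not at hcon
  set C : Matrix (Fin (m + 1)) (Fin (m + 1)) K := Matrix.of fun i j => F.δ j (x i) with hC
  have h1 : vge v 1 C.det := by
    rw [Matrix.det_succ_column_zero]
    refine vge.sum fun i _ => ?_
    have h2 : vge v 1 (C.submatrix i.succAbove Fin.succ).det := by
      by_contra h3
      apply hcon i
      apply F.resIndep_of_det fun j => hx _
      have h4 : (Matrix.of fun k j => F.δ (Fin.succ j) (x (i.succAbove k))) =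
          C.submatrix i.succAbove Fin.succ := rfl
      rw [h4]
      exact val_eq_one_of_not_vge (det_mem fun p q => F.δ_mem _ (hx _)) h3
    refine vge.mem_mul ?_ h2
    refine v.mul_mem _ _ ?_ (F.δ_mem _ (hx _))
    exact v.pow_mem (v.neg_mem _ v.one_mem) _
  rw [← val_lt_one_iff, hdet] at h1
  exact lt_irrefl _ h1

end Frame

end

/-- A prime ideal of `R[X]` with trivial intersection with `R` is generated by any irreducible
element of it. -/
theorem dvd_of_mem_of_irreducible {R : Type} [CommRing R] [IsDomain R] [UniqueFactorizationMonoid R]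
    (I : Ideal R[X]) (hI : ∀ c : R, C c ∈ I → c = 0) {P Q : R[X]} (hP : Irreducible P)
    (hPI : P ∈ I) (hQI : Q ∈ I) : P ∣ Q := by
  classical
  let _ : NormalizedGCDMonoid R := Classical.choice inferInstance
  let L := FractionRing R
  have hdeg : P.natDegree ≠ 0 := by
    intro h0
    obtain ⟨c, rfl⟩ := natDegree_eq_zero.1 h0
    have := hI c hPI
    rw [this, map_zero] at hP
    exact not_irreducible_zero hP
  have hprim : P.IsPrimitive := hP.isPrimitive hdeg
  have hirr : Irreducible (P.map (algebraMap R L)) :=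
    (hprim.irreducible_iff_irreducible_map_fraction_map (K := L)).1 hP
  by_cases hdvd : P.map (algebraMap R L) ∣ Q.map (algebraMap R L)
  · exact hprim.dvd_of_fraction_map_dvd_fraction_map (K := L) hdvd
  · exfalso
    obtain ⟨a, b, hab⟩ := (hirr.coprime_iff_not_dvd).2 hdvd
    -- clear denominators
    obtain ⟨c, hc, a', ha'⟩ : ∃ c : R, c ≠ 0 ∧ ∃ a' : R[X],
        a'.map (algebraMap R L) = C (algebraMap R L c) * a := by
      obtain ⟨c, hc, h1⟩ := IsLocalization.integerNormalization_spec
        (nonZeroDivisors R) a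
      refine ⟨c, nonZeroDivisors.ne_zero hc,
        IsLocalization.integerNormalization (nonZeroDivisors R) a, ?_⟩
      rw [h1]
      ext n
      simp [Algebra.smul_def]
    obtain ⟨d, hd, b', hb'⟩ : ∃ d : R, d ≠ 0 ∧ ∃ b' : R[X],
        b'.map (algebraMap R L) = C (algebraMap R L d) * b := by
      obtain ⟨d, hd, h1⟩ := IsLocalization.integerNormalization_spec
        (nonZeroDivisors R) b
      refine ⟨d, nonZeroDivisors.ne_zero hd,
        IsLocalization.integerNormalization (nonZeroDivisors R) b, ?_⟩
      rw [h1]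
      ext n
      simp [Algebra.smul_def]
    have h1 : C d * a' * P + C c * b' * Q = C (c * d) := by
      apply Polynomial.map_injective (algebraMap R L) (IsFractionRing.injective R L)
      rw [Polynomial.map_add, Polynomial.map_mul, Polynomial.map_mul, Polynomial.map_mul,
        Polynomial.map_mul, ha', hb', Polynomial.map_C, Polynomial.map_C, Polynomial.map_C, map_mul,
        C_mul]
      linear_combination (C (algebraMap R L c) * C (algebraMap R L d)) * hab
    have h2 : C (c * d) ∈ I := by
      rw [← h1]
      exact I.add_mem (I.mul_mem_left _ hPI) (I.mul_mem_left _ hQI)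
    exact mul_ne_zero hc hd (hI _ h2)

/-- The isomorphism of a polynomial ring with a polynomial ring over one variable less. -/
def sepVar {m : ℕ} (i₀ : Fin (m + 1)) :
    MvPolynomial (Fin (m + 1)) ℂ ≃ₐ[ℂ] (MvPolynomial (Fin m) ℂ)[X] :=
  (MvPolynomial.renameEquiv ℂ (finSuccEquiv' i₀)).trans (MvPolynomial.optionEquivLeft ℂ (Fin m))

theorem ev2_sepVar {m : ℕ} (i₀ : Fin (m + 1)) (x : Fin (m + 1) → K)
    (p : MvPolynomial (Fin (m + 1)) ℂ) :
    ev2 (fun j => x (i₀.succAbove j)) (x i₀) (sepVar i₀ p) = MvPolynomial.aeval x p := by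
  have : (ev2 (fun j => x (i₀.succAbove j)) (x i₀)).comp (sepVar i₀).toRingEquiv.toRingHom =
      (MvPolynomial.aeval x).toRingHom := by
    apply MvPolynomial.ringHom_ext
    · intro r
      simp [sepVar, ev2_C]
    · intro i
      rcases eq_or_ne i i₀ with rfl | hi
      · simp [sepVar, ev2_X]
      · obtain ⟨j, rfl⟩ := Fin.exists_succAbove_eq hi
        simp [sepVar, ev2_C]
  exact RingHom.congr_fun this p

section

variable {v : ValuationSubring K} [IsDiscreteValuationRing v] {m : ℕ}

/-- The centre of `v` on `ℂ[x]` is principal, when the differentials of the `x i` generate the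
regular differentials at `v`, and its generator is a uniformizer. -/
theorem Frame.exists_uniformizer (F : Frame v m) (htr : Algebra.trdeg ℂ K = (m + 1 : ℕ))
    {x : Fin (m + 1) → K} (hx : ∀ i, x i ∈ v)
    (hdet : v.valuation (Matrix.of fun i j => F.δ j (x i)).det = 1) :
    ∃ π : MvPolynomial (Fin (m + 1)) ℂ, Irreducible π ∧
      (∀ p, vge v 1 (MvPolynomial.aeval x p) ↔ π ∣ p) ∧ ord v (MvPolynomial.aeval x π) = 1 := by
  obtain ⟨i₀, hi₀⟩ := F.exists_resIndep hx hdet
  have hmem : ∀ p, MvPolynomial.aeval x p ∈ v := fun p => aeval_mem (C_mem v) hx p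
  let φ : MvPolynomial (Fin (m + 1)) ℂ →+* v :=
    { toFun := fun p => ⟨MvPolynomial.aeval x p, hmem p⟩
      map_one' := Subtype.ext (map_one _)
      map_zero' := Subtype.ext (map_zero _)
      map_add' := fun P Q => Subtype.ext (map_add _ P Q)
      map_mul' := fun P Q => Subtype.ext (map_mul _ P Q) }
  let I : Ideal (MvPolynomial (Fin (m + 1)) ℂ) := (IsLocalRing.maximalIdeal v).comap φ
  have hI : I.IsPrime := Ideal.comap_isPrime _ _
  have hmemI : ∀ p, p ∈ I ↔ vge v 1 (MvPolynomial.aeval x p) := by
    intro p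
    rw [← val_lt_one_iff]
    exact v.valuation_lt_one_iff ⟨_, hmem p⟩
  have hI0 : I ≠ ⊥ := by
    intro h0
    obtain ⟨t, ht⟩ := exists_irr v
    have h1 : ResIndep v x := by
      intro p hp
      refine val_eq_one_of_not_vge (hmem p) fun h => hp ?_
      rw [← hmemI, h0] at h
      exact h
    have h2 := card_le_of_indep htr (h1.cons ht)
    omega
  obtain ⟨π, hπI, hπ⟩ := hI.exists_mem_prime_of_ne_bot hI0
  have hπirr : Irreducible π := hπ.irreducible
  -- divisibility
  let J : Ideal (MvPolynomial (Fin m) ℂ)[X] := I.map (sepVar i₀).toRingEquiv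
  have hmemJ : ∀ P, P ∈ J → vge v 1 (ev2 (fun j => x (i₀.succAbove j)) (x i₀) P) := by
    intro P hP
    obtain ⟨p, hp, rfl⟩ := (Ideal.mem_map_of_equiv (sepVar i₀).toRingEquiv P).1 hP
    have h1 := ev2_sepVar i₀ x p
    change ev2 _ _ (sepVar i₀ p) = _ at h1
    change vge v 1 (ev2 _ _ (sepVar i₀ p))
    rw [h1]
    exact (hmemI p).1 hp
  have hdvd : ∀ p, p ∈ I → π ∣ p := by
    intro p hp
    have h1 : sepVar i₀ π ∣ sepVar i₀ p := by
      refine dvd_of_mem_of_irreducible J ?_ ?_ ?_ ?_
      · intro c hc
        have h2 := hmemJ _ hc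
        rw [ev2_C] at h2
        by_contra hne
        have h3 := hi₀ c hne
        rw [← val_lt_one_iff] at h2
        exact h2.ne h3
      · exact (MulEquiv.irreducible_iff (sepVar i₀)).2 hπirr
      · exact (Ideal.mem_map_of_equiv (sepVar i₀).toRingEquiv _).2 ⟨π, hπI, rfl⟩
      · exact (Ideal.mem_map_of_equiv (sepVar i₀).toRingEquiv _).2 ⟨p, hp, rfl⟩
    exact (map_dvd_iff (sepVar i₀)).1 h1
  refine ⟨π, hπirr, fun p => ⟨fun h => hdvd p ((hmemI p).2 h), fun h => ?_⟩, ?_⟩
  · rw [← hmemI]
    exact I.mem_of_dvd h hπI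
  · -- unramifiedness
    have h1 : vge v 1 (MvPolynomial.aeval x π) := (hmemI π).1 hπI
    by_contra hne
    have h2 : vge v 2 (MvPolynomial.aeval x π) := by
      rcases h1 with h1 | h1
      · exact Or.inl h1
      · right; omega
    have h3 : ∀ i, vge v 1 (MvPolynomial.aeval x (MvPolynomial.pderiv i π)) := by
      refine vge_of_vecMul (C := Matrix.of fun i j => F.δ j (x i))
        (a := fun i => MvPolynomial.aeval x (MvPolynomial.pderiv i π))
        (fun i j => F.δ_mem _ (hx i)) hdet fun j => ?_
      have h4 : vge v 1 (F.δ j (MvPolynomial.aeval x π)) := by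
        refine Fin.cases ?_ (fun j => ?_) j
        · exact F.vge_δ_zero h2
        · exact F.vge_δ_succ h1 j
      rw [deriv_aeval] at h4
      exact h4
    have h4 : ∀ i, MvPolynomial.pderiv i π = 0 := by
      intro i
      by_contra hne
      obtain ⟨q, hq⟩ := hdvd _ ((hmemI _).2 (h3 i))
      have hlt := totalDegree_pderiv_lt π i hne
      have hq0 : q ≠ 0 := by
        rintro rfl
        rw [mul_zero] at hq
        exact hne hq
      rw [hq, MvPolynomial.totalDegree_mul_of_isDomain hπirr.ne_zero hq0] at hlt
      omega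
    have h5 := eq_C_of_pderiv π h4
    apply hπirr.not_isUnit
    rw [h5]
    refine IsUnit.map MvPolynomial.C (isUnit_iff_ne_zero.2 ?_)
    intro h0
    rw [h0, map_zero] at h5
    exact hπirr.ne_zero h5

end

end Pool.Agent.Helper94.LCY
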