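import Pool.Agent.Helper94.MDS.GeoA
import Pool.Agent.Helper94.MDS.Dim
import Pool.Agent.Helper94.LCY.PicB

/-!
# Charts, centres and prime divisors of a normal projective variety
-/

noncomputable section

open IsLocalRing

namespace Pool.Agent.Helper94.LCY

namespace ProjVar

variable {K : Type} [Field K] [Algebra ℂ K] {ι : Type} (X : ProjVar K ι)

theorem ratio_mem {i j : ι} : X.x i / X.x j ∈ X.chart j := Algebra.subset_adjoin ⟨i, rfl⟩

theorem chart_fg [Finite ι] (j : ι) : (X.chart j).FG :=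
  ⟨(Set.finite_range fun i => X.x i / X.x j).toFinset, by
    rw [Set.Finite.coe_toFinset]; rfl⟩

instance [Finite ι] (j : ι) : Algebra.FiniteType ℂ (X.chart j) :=
  (Subalgebra.fg_iff_finiteType _).1 (X.chart_fg j)

instance [Finite ι] (j : ι) : IsNoetherianRing (X.chart j) :=
  Algebra.FiniteType.isNoetherianRing ℂ _

instance [Finite ι] (j : ι) : IsNoetherianRing (X.chart j).toSubring :=
  (inferInstance : IsNoetherianRing (X.chart j))

include X in
theorem fg_top [Finite ι] : (⊤ : IntermediateField ℂ K).FG := by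
  have hfin : {r : K | ∃ i j, r = X.x i / X.x j}.Finite := by
    have : {r : K | ∃ i j, r = X.x i / X.x j} =
        Set.range fun p : ι × ι => X.x p.1 / X.x p.2 := by
      ext r
      constructor
      · rintro ⟨i, j, rfl⟩
        exact ⟨(i, j), rfl⟩
      · rintro ⟨⟨i, j⟩, rfl⟩
        exact ⟨i, j, rfl⟩
    rw [this]
    exact Set.finite_range _
  refine ⟨hfin.toFinset, ?_⟩
  rw [Set.Finite.coe_toFinset]
  exact X.gen

theorem adjoin_chart {j : ι} (hj : X.x j ≠ 0) :
    IntermediateField.adjoin ℂ (Set.range fun i => X.x i / X.x j) =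
      (⊤ : IntermediateField ℂ K) := by
  rw [eq_top_iff]
  have h := X.gen
  rw [RatiosGenerate] at h
  rw [← h, IntermediateField.adjoin_le_iff]
  rintro _ ⟨i, k, rfl⟩
  have h1 : X.x i / X.x j ∈ IntermediateField.adjoin ℂ (Set.range fun i => X.x i / X.x j) :=
    IntermediateField.subset_adjoin _ _ ⟨i, rfl⟩
  have h2 : X.x k / X.x j ∈ IntermediateField.adjoin ℂ (Set.range fun i => X.x i / X.x j) :=
    IntermediateField.subset_adjoin _ _ ⟨k, rfl⟩
  have h3 : X.x i / X.x k = (X.x i / X.x j) / (X.x k / X.x j) := by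
    rw [div_div_div_cancel_right₀ hj]
  rw [h3]
  exact div_mem h1 h2

theorem exists_frac {j : ι} (hj : X.x j ≠ 0) (f : K) :
    ∃ g ∈ (X.chart j).toSubring, ∃ h ∈ (X.chart j).toSubring, h ≠ 0 ∧ f = g / h := by
  have hf : f ∈ IntermediateField.adjoin ℂ (Set.range fun i => X.x i / X.x j) := by
    rw [X.adjoin_chart hj]
    trivial
  obtain ⟨r, hr, s, hs, e⟩ := IntermediateField.mem_adjoin_iff_div.1 hf
  by_cases hs0 : s = 0
  · refine ⟨0, zero_mem _, 1, one_mem _, one_ne_zero, ?_⟩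
    rw [e, hs0, div_zero, zero_div]
  · exact ⟨r, hr, s, hs, hs0, e⟩

instance isFractionRing_chart {j : ι} [hj : Fact (X.x j ≠ 0)] : IsFractionRing (X.chart j) K :=
  IsFractionRing.of_field (X.chart j) K fun z => by
    obtain ⟨g, hg, h, hh, -, e⟩ := X.exists_frac hj.1 z
    exact ⟨⟨g, hg⟩, ⟨h, hh⟩, e⟩

theorem trdeg_chart {j : ι} (hj : X.x j ≠ 0) :
    Algebra.trdeg ℂ (X.chart j) = Algebra.trdeg ℂ K := by
  have : Fact (X.x j ≠ 0) := ⟨hj⟩
  have halg : Algebra.IsAlgebraic (X.chart j) K :=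
    (IsFractionRing.comap_isAlgebraic_iff (A := X.chart j) (K := K) (C := K)).2 inferInstance
  rw [← trdeg_add_eq ℂ (X.chart j) (A := K)]
  have h2 : Algebra.trdeg (X.chart j) K = 0 := trdeg_eq_zero
  rw [h2, add_zero]

/-- Every valuation ring has a centre. -/
theorem exists_chart_le [Finite ι] (v : ValuationSubring K)
    (hC : ∀ z : ℂ, algebraMap ℂ K z ∈ v) :
    ∃ j, X.x j ≠ 0 ∧ (X.chart j).toSubring ≤ v.toSubring := by
  obtain ⟨i₀, hi₀⟩ := X.exists_ne
  have : Nonempty ι := ⟨i₀⟩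
  obtain ⟨j, hj⟩ := Finite.exists_max fun i => v.valuation (X.x i)
  have hj0 : X.x j ≠ 0 := by
    intro h0
    have h1 := hj i₀
    rw [h0, map_zero] at h1
    exact (Valuation.ne_zero_iff _).2 hi₀ (le_antisymm h1 zero_le)
  refine ⟨j, hj0, ?_⟩
  have key : ∀ x ∈ X.chart j, x ∈ v := by
    intro x hx
    induction hx using Algebra.adjoin_induction with
    | mem x hx =>
      obtain ⟨i, rfl⟩ := hx
      rw [← v.valuation_le_one_iff, map_div₀]
      exact div_le_one_of_le₀ (hj i) zero_le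
    | algebraMap z => exact hC z
    | add x y _ _ hx hy => exact v.add_mem _ _ hx hy
    | mul x y _ _ hx hy => exact v.mul_mem _ _ hx hy
  exact fun x hx => key x hx

theorem exists_centre [Finite ι] (v : ValuationSubring K)
    (hC : ∀ z : ℂ, algebraMap ℂ K z ∈ v) :
    ∃ R : LocalSubring K, X.IsPoint R ∧ R ≤ v.toLocalSubring := by
  obtain ⟨j, hj, hle⟩ := X.exists_chart_le v hC
  let P : Ideal (X.chart j).toSubring :=
    (IsLocalRing.maximalIdeal v).comap (Subring.inclusion hle)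
  have hP : P.IsPrime := Ideal.comap_isPrime _ _
  refine ⟨LocalSubring.ofPrime _ P, ⟨j, hj, P, hP, rfl⟩, ?_⟩
  exact (ofPrime_le_iff _ P v).2 ⟨hle, fun x => v.valuation_lt_one_iff ⟨x, hle x.2⟩⟩

/-- The prime divisors, as a set of valuation rings. -/
def Pr : Set (ValuationSubring K) :=
  {v | X.IsPoint v.toLocalSubring ∧ IsDiscreteValuationRing v}

variable {X}

theorem mem_Pr {v : ValuationSubring K} : v ∈ X.Pr ↔
    IsDiscreteValuationRing v ∧ ∃ j, X.x j ≠ 0 ∧ IsLocOf (X.chart j).toSubring v := by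
  rw [Pr, Set.mem_ofPred_eq, isPoint_iff, and_comm]

theorem dvr_Pr {v : ValuationSubring K} (hv : v ∈ X.Pr) : IsDiscreteValuationRing v := hv.2

/-- A prime divisor as an element of `PrimeDiv`. -/
def toPr {v : ValuationSubring K} (hv : v ∈ X.Pr) : X.PrimeDiv := ⟨v, hv⟩

theorem PrimeDiv.mem_Pr' (P : X.PrimeDiv) : P.dvr ∈ X.Pr := P.2

theorem PrimeDiv.dvr_injective : Function.Injective (fun P : X.PrimeDiv => P.dvr) :=
  Subtype.val_injective

theorem isLocOf_of_mem_Pr {v : ValuationSubring K} (hv : v ∈ X.Pr) {j : ι} (hj : X.x j ≠ 0)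
    (hle : (X.chart j).toSubring ≤ v.toSubring) : IsLocOf (X.chart j).toSubring v :=
  isLocOf_of_le X hj (P := toPr hv) hle

variable (X)

theorem Pr_finite [Finite ι] {f : K} (hf : f ≠ 0) : {v ∈ X.Pr | ord v f ≠ 0}.Finite := by
  have h1 : (⋃ j : {j // X.x j ≠ 0}, {v : ValuationSubring K | IsDiscreteValuationRing v ∧
      IsLocOf (X.chart j.1).toSubring v ∧ ord v f ≠ 0}).Finite :=
    Set.finite_iUnion fun j => finite_ord_ne_zero _ (X.exists_frac j.2) hf
  refine h1.subset ?_
  rintro v ⟨hv, hne⟩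
  obtain ⟨hd, j, hj, hloc⟩ := mem_Pr.1 hv
  rw [Set.mem_iUnion]
  exact ⟨⟨j, hj⟩, hd, hloc, hne⟩

variable {X}

/-- Prime divisors have as many independent residues as possible. -/
theorem exists_resIndep [Finite ι] {m : ℕ} (htr : Algebra.trdeg ℂ K = (m + 1 : ℕ))
    {v : ValuationSubring K} (hv : v ∈ X.Pr) : ∃ y : Fin m → K, ResIndep v y := by
  obtain ⟨hd, j, hj, hloc⟩ := mem_Pr.1 hv
  have hle : ∀ x ∈ X.chart j, x ∈ v := fun x hx => hloc.1 hx
  set P := centre v (X.chart j) hle with hP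
  have hmemP : ∀ x : X.chart j, x ∈ P ↔ v.valuation (x : K) < 1 := fun x => mem_centre
  obtain ⟨f, hfP, hf0⟩ : ∃ f ∈ P, f ≠ 0 := by
    by_contra hcon
    push Not at hcon
    apply dvr_ne_top v
    rw [eq_top_iff]
    intro f _
    obtain ⟨g, hg, h, hh, hh0, rfl⟩ := X.exists_frac hj f
    have h1 : v.valuation h = 1 := by
      refine le_antisymm ((v.valuation_le_one_iff _).2 (hle h hh)) (not_lt.1 fun hlt => ?_)
      have := hcon ⟨h, hh⟩ ((hmemP _).2 hlt)
      exact hh0 (congrArg Subtype.val this)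
    rw [← v.valuation_le_one_iff, map_div₀, h1, div_one]
    exact (v.valuation_le_one_iff _).2 (hle g hg)
  have hPmin : P ∈ (Ideal.span {f}).minimalPrimes := by
    refine ⟨⟨inferInstance, (Ideal.span_singleton_le_iff_mem _).2 hfP⟩, ?_⟩
    rintro Q ⟨hQ, hfQ⟩ hQP x hx
    let Q' : Ideal (X.chart j).toSubring := Q
    have hQ' : Q'.IsPrime := hQ
    have hQ0 : Q' ≠ ⊥ := by
      intro h0
      have h1 : f ∈ Q' := (Ideal.span_singleton_le_iff_mem _).1 hfQ
      rw [h0] at h1
      exact hf0 h1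
    exact hloc.mem_prime Q' hQ0 (fun z hz => (hmemP z).1 (hQP hz)) x ((hmemP x).1 hx)
  have h1 := trdeg_quot_ge hf0 hPmin (M := m) (by rw [X.trdeg_chart hj, htr])
  obtain ⟨s, hs⟩ := exists_isTranscendenceBasis ℂ (X.chart j ⧸ P)
  rw [← hs.cardinalMk_eq_trdeg] at h1
  have h2 : Nonempty (Fin m ↪ s) := by
    rw [← Cardinal.le_def, Cardinal.mk_fin]
    exact h1
  obtain ⟨e⟩ := h2
  have h3 : ∀ i, ∃ z : X.chart j, Ideal.Quotient.mk P z = (e i : X.chart j ⧸ P) := fun i =>
    Ideal.Quotient.mk_surjective _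
  choose z hz using h3
  have h4 : AlgebraicIndependent ℂ fun i => Ideal.Quotient.mk P (z i) := by
    have h5 := hs.1.comp e e.injective
    convert h5 using 1
    funext i
    exact hz i
  refine ⟨fun i => (z i : K), fun p hp => ?_⟩
  have h5 : MvPolynomial.aeval (fun i => (z i : K)) p =
      ((MvPolynomial.aeval z p : X.chart j) : K) := by
    have : MvPolynomial.aeval (fun i => (z i : K)) = (X.chart j).val.comp (MvPolynomial.aeval z) := by
      apply MvPolynomial.algHom_ext
      intro i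
      rw [AlgHom.comp_apply, MvPolynomial.aeval_X, MvPolynomial.aeval_X]
      rfl
    rw [this]
    rfl
  rw [h5]
  refine le_antisymm ((v.valuation_le_one_iff _).2 (hle _ (Subtype.property _)))
    (not_lt.1 fun hlt => ?_)
  have h6 : MvPolynomial.aeval z p ∈ P := (hmemP _).2 hlt
  apply hp
  apply algebraicIndependent_iff.1 h4
  rw [aeval_mk]
  exact Ideal.Quotient.eq_zero_iff_mem.2 h6

/-! ### Hartogs -/

/-- A function which is regular along the prime divisors meeting a chart is regular there. -/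
theorem mem_chart_of [Finite ι] (hN : X.IsNormal) {j : ι} (hj : X.x j ≠ 0) {f : K}
    (h : ∀ v ∈ X.Pr, (X.chart j).toSubring ≤ v.toSubring → f ∈ v) : f ∈ X.chart j := by
  by_contra hf
  have hic : IsIntegrallyClosed (X.chart j).toSubring := hN j hj
  obtain ⟨v, hv, hloc, hfv⟩ := exists_dvr_not_mem (X.chart j).toSubring (X.exists_frac hj)
    (f := f) hf
  exact hfv (h v (mem_Pr.2 ⟨hv, j, hj, hloc⟩) hloc.1)

/-- A function which is regular along the prime divisors through a point is regular there. -/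
theorem mem_point_of [Finite ι] (hN : X.IsNormal) {R : LocalSubring K} (hR : X.IsPoint R) {f : K}
    (h : ∀ v ∈ X.Pr, R.toSubring ≤ v.toSubring → f ∈ v) : f ∈ R.toSubring := by
  by_contra hf
  obtain ⟨j, hj, P, hP, rfl⟩ := hR
  have hic : IsIntegrallyClosed (X.chart j).toSubring := hN j hj
  obtain ⟨v, hv, hloc, hle, hfv⟩ := exists_dvr_not_mem_local (X.chart j).toSubring
    (X.exists_frac hj) P hf
  exact hfv (h v (mem_Pr.2 ⟨hv, j, hj, hloc⟩) hle)

/-- A function of order zero along the prime divisors through a point is invertible there. -/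
theorem val_eq_one_of [Finite ι] (hN : X.IsNormal) {R : LocalSubring K} (hR : X.IsPoint R) {f : K}
    (hf : f ≠ 0) (h : ∀ v ∈ X.Pr, R.toSubring ≤ v.toSubring → ord v f = 0)
    {v : ValuationSubring K} (hv : R ≤ v.toLocalSubring) : v.valuation f = 1 := by
  have h1 : f ∈ R.toSubring := mem_point_of hN hR fun w hw hle => by
    have := dvr_Pr hw
    exact mem_of_ord_zero hf (h w hw hle)
  have h2 : f⁻¹ ∈ R.toSubring := mem_point_of hN hR fun w hw hle => by
    have := dvr_Pr hw
    exact inv_mem_of_ord_zero hf (h w hw hle)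
  have h3 := (v.valuation_le_one_iff _).2 (hv.1 h1)
  have h4 := (v.valuation_le_one_iff _).2 (hv.1 h2)
  rw [map_inv₀] at h4
  exact le_antisymm h3 ((inv_le_one₀ (zero_lt_iff.2 ((Valuation.ne_zero_iff _).2 hf))).1 h4)

omit X in
theorem mem_C_of_isAlgebraic {g : K} (hg : IsAlgebraic ℂ g) : ∃ c : ℂ, g = algebraMap ℂ K c := by
  have hint := hg.isIntegral
  have hq : (minpoly ℂ g).leadingCoeff = 1 := minpoly.monic hint
  have h : (minpoly ℂ g).degree = 1 :=
    IsAlgClosed.degree_eq_one_of_irreducible ℂ (minpoly.irreducible hint)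
  have h1 : Polynomial.aeval g (minpoly ℂ g) = 0 := minpoly.aeval ℂ g
  rw [Polynomial.eq_X_add_C_of_degree_eq_one h, hq, Polynomial.C_1, one_mul, map_add,
    Polynomial.aeval_X, Polynomial.aeval_C, add_eq_zero_iff_eq_neg] at h1
  exact ⟨-(minpoly ℂ g).coeff 0, by rw [map_neg]; exact h1⟩

omit X in
/-- A transcendental element has a zero. -/
theorem exists_zero_of_transcendental {g : K} (hg : Transcendental ℂ g) :
    ∃ v : ValuationSubring K, (∀ z : ℂ, algebraMap ℂ K z ∈ v) ∧ v.valuation g < 1 := by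
  let A : Subring K := (Polynomial.aeval (R := ℂ) g).range.toSubring
  have hmemA : ∀ x : K, x ∈ A ↔ ∃ P : Polynomial ℂ, Polynomial.aeval g P = x := fun x => Iff.rfl
  have hgA : g ∈ A := (hmemA g).2 ⟨Polynomial.X, Polynomial.aeval_X g⟩
  let I : Ideal A := Ideal.span {⟨g, hgA⟩}
  have hI : I ≠ ⊤ := by
    intro h
    rw [Ideal.eq_top_iff_one] at h
    obtain ⟨a, ha⟩ := Ideal.mem_span_singleton'.1 h
    obtain ⟨P, hP⟩ := (hmemA a).1 a.2
    have h1 : Polynomial.aeval g (P * Polynomial.X - 1) = 0 := by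
      rw [map_sub, map_mul, Polynomial.aeval_X, map_one, hP]
      have := congrArg Subtype.val ha
      change (a : K) * g = 1 at this
      rw [this, sub_self]
    have h2 := transcendental_iff.1 hg _ h1
    have h3 := congrArg (fun Q : Polynomial ℂ => Q.coeff 0) h2
    simp at h3
  obtain ⟨v, hAv, hIv⟩ := Ideal.image_subset_nonunits_valuationSubring I hI
  refine ⟨v, fun z => hAv ((hmemA _).2 ⟨Polynomial.C z, Polynomial.aeval_C _ _⟩), ?_⟩
  have h1 : g ∈ v.nonunits := hIv ⟨⟨g, hgA⟩, Ideal.subset_span rfl, rfl⟩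
  exact h1

/-- A function which is regular everywhere is constant. -/
theorem const_of [Finite ι] (hN : X.IsNormal) {g : K} (h : ∀ v ∈ X.Pr, g ∈ v) :
    ∃ c : ℂ, g = algebraMap ℂ K c := by
  by_contra hcon
  have htr : Transcendental ℂ g⁻¹ := fun h => hcon (by
    have h1 := h.inv
    rw [inv_inv] at h1
    exact mem_C_of_isAlgebraic h1)
  have hg0 : g ≠ 0 := by
    rintro rfl
    exact hcon ⟨0, (map_zero _).symm⟩
  obtain ⟨v, hC, hlt⟩ := exists_zero_of_transcendental htr
  obtain ⟨j, hj, hle⟩ := X.exists_chart_le v hC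
  have hg : g ∈ v := hle (mem_chart_of hN hj fun w hw _ => h w hw)
  have h1 := (v.valuation_le_one_iff _).2 hg
  rw [map_inv₀] at hlt
  have h2 : (0 : v.ValueGroup) < v.valuation g := zero_lt_iff.2 ((Valuation.ne_zero_iff _).2 hg0)
  rw [inv_lt_one₀ h2] at hlt
  exact absurd h1 (not_le.2 hlt)

end ProjVar

end Pool.Agent.Helper94.LCY
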