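import Pool.Agent.Helper94.MDS.Mono
import Pool.Agent.Helper94.MDS.CY

/-!
# Homogeneous elements of the Laurent polynomial ring over the function field
-/

noncomputable section

namespace Pool.Agent.Helper94.LCY

variable (K : Type) [Field K] (r : ℕ)

/-- Laurent polynomials over `K`. -/
abbrev GR : Type := AddMonoidAlgebra K (Fin r → ℤ)

/-- The field of fractions of the ring of Laurent polynomials. -/
abbrev LF : Type := FractionRing (GR K r)

variable {K} {r}

/-- The homogeneous element `g t^γ`. -/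
def hm (γ : Fin r → ℤ) (g : K) : LF K r :=
  algebraMap (GR K r) (LF K r) (AddMonoidAlgebra.single γ g)

theorem hm_mul (γ γ' : Fin r → ℤ) (g g' : K) : hm γ g * hm γ' g' = hm (γ + γ') (g * g') := by
  rw [hm, hm, hm, ← map_mul, AddMonoidAlgebra.single_mul_single]

theorem hm_one : hm (0 : Fin r → ℤ) (1 : K) = 1 := by
  rw [hm, ← AddMonoidAlgebra.one_def, map_one]

theorem hm_zero (γ : Fin r → ℤ) : hm γ (0 : K) = 0 := by
  rw [hm, AddMonoidAlgebra.single_zero, map_zero]

theorem GR_injective : Function.Injective (algebraMap (GR K r) (LF K r)) :=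
  IsFractionRing.injective _ _

theorem hm_ne (γ : Fin r → ℤ) {g : K} (hg : g ≠ 0) : hm γ g ≠ 0 := by
  rw [hm, Ne, map_eq_zero_iff _ GR_injective, AddMonoidAlgebra.single_eq_zero]
  exact hg

theorem hm_K (g : K) : hm (0 : Fin r → ℤ) g = algebraMap K (LF K r) g := by
  rw [IsScalarTower.algebraMap_apply K (GR K r) (LF K r)]
  rfl

theorem hm_inj {γ γ' : Fin r → ℤ} {g g' : K} (hg : g ≠ 0) (h : hm γ g = hm γ' g') :
    γ = γ' ∧ g = g' := by
  have h1 := GR_injective h
  rw [AddMonoidAlgebra.single_inj] at h1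
  rcases h1 with h1 | h1
  · exact h1
  · exact absurd h1.1 hg

theorem hm_inv (γ : Fin r → ℤ) {g : K} (hg : g ≠ 0) : (hm γ g)⁻¹ = hm (-γ) g⁻¹ := by
  refine inv_eq_of_mul_eq_one_right ?_
  rw [hm_mul, add_neg_cancel, mul_inv_cancel₀ hg, hm_one]

theorem hm_div (γ γ' : Fin r → ℤ) (g : K) {g' : K} (hg : g' ≠ 0) :
    hm γ g / hm γ' g' = hm (γ - γ') (g / g') := by
  rw [div_eq_mul_inv, hm_inv _ hg, hm_mul, sub_eq_add_neg, div_eq_mul_inv]

theorem hm_pow (γ : Fin r → ℤ) (g : K) (n : ℕ) : hm γ g ^ n = hm (n • γ) (g ^ n) := by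
  induction n with
  | zero => rw [pow_zero, pow_zero, zero_smul, hm_one]
  | succ n ih => rw [pow_succ, ih, hm_mul, pow_succ, succ_nsmul]

theorem hm_zpow (γ : Fin r → ℤ) {g : K} (hg : g ≠ 0) (n : ℤ) :
    hm γ g ^ n = hm (n • γ) (g ^ n) := by
  obtain ⟨m, rfl | rfl⟩ := n.eq_nat_or_neg
  · rw [zpow_natCast, zpow_natCast, hm_pow, natCast_zsmul]
  · rw [zpow_neg, zpow_natCast, hm_pow, hm_inv _ (pow_ne_zero _ hg), zpow_neg, zpow_natCast,
      neg_smul, natCast_zsmul]

theorem hm_prod {ι : Type} (s : Finset ι) (γ : ι → Fin r → ℤ) (g : ι → K) :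
    ∏ i ∈ s, hm (γ i) (g i) = hm (∑ i ∈ s, γ i) (∏ i ∈ s, g i) := by
  classical
  induction s using Finset.induction_on with
  | empty => rw [Finset.prod_empty, Finset.sum_empty, Finset.prod_empty, hm_one]
  | insert a s ha ih => rw [Finset.prod_insert ha, ih, hm_mul, Finset.sum_insert ha,
      Finset.prod_insert ha]

theorem hm_C [Algebra ℂ K] (c : ℂ) :
    hm (0 : Fin r → ℤ) (algebraMap ℂ K c) = algebraMap ℂ (LF K r) c := by
  rw [hm_K, ← IsScalarTower.algebraMap_apply]

/-- Every element of the image of `GR K r` is a sum of homogeneous elements. -/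
theorem algebraMap_GR (x : GR K r) : algebraMap (GR K r) (LF K r) x =
    ∑ γ ∈ x.coeff.support, hm γ (x.coeff γ) := by
  conv_lhs => rw [← AddMonoidAlgebra.sum_coeff_single x]
  rw [Finsupp.sum, map_sum]
  rfl

/-! ### Transcendence degree -/

/-- The variables. -/
def tv (i : Fin r) : LF K r := hm (Pi.single i 1) 1

theorem hm_eq (γ : Fin r → ℤ) (g : K) :
    hm γ g = algebraMap K (LF K r) g * ∏ i, (tv i : LF K r) ^ γ i := by
  have h1 : ∏ i, (tv i : LF K r) ^ γ i = hm γ (1 : K) := by
    have h2 : ∀ i, (tv i : LF K r) ^ γ i = hm (γ i • Pi.single i 1) (1 : K) := fun i => by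
      rw [tv, hm_zpow _ one_ne_zero, one_zpow]
    rw [Finset.prod_congr rfl fun i _ => h2 i, hm_prod, Finset.prod_const_one]
    congr 1
    funext j
    rw [Finset.sum_apply, Finset.sum_eq_single j]
    · simp
    · intro i _ hij
      rw [Pi.smul_apply, Pi.single_eq_of_ne hij.symm, smul_zero]
    · intro h
      exact absurd (Finset.mem_univ j) h
  rw [h1, ← hm_K, hm_mul, zero_add, mul_one]

theorem tv_indep : AlgebraicIndependent K (tv : Fin r → LF K r) := by
  classical
  rw [algebraicIndependent_iff]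
  intro p hp
  have h1 : MvPolynomial.aeval (tv : Fin r → LF K r) p =
      algebraMap (GR K r) (LF K r) (∑ a ∈ p.support,
        AddMonoidAlgebra.single (fun i => (a i : ℤ)) (p.coeff a)) := by
    conv_lhs => rw [p.as_sum]
    rw [map_sum, map_sum]
    refine Finset.sum_congr rfl fun a _ => ?_
    rw [MvPolynomial.aeval_monomial]
    change _ = hm _ _
    rw [hm_eq, Finsupp.prod_fintype _ _ (fun _ => pow_zero _)]
    congr 1
  rw [h1, map_eq_zero_iff _ GR_injective] at hp
  ext a
  rw [MvPolynomial.coeff_zero]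
  by_contra hne
  have ha : a ∈ p.support := MvPolynomial.mem_support_iff.2 hne
  have h2 := congrArg (fun x : GR K r => x.coeff fun i => (a i : ℤ)) hp
  simp only [AddMonoidAlgebra.coeff_sum, Finsupp.finsetSum_apply, AddMonoidAlgebra.coeff_zero,
    Finsupp.coe_zero, Pi.zero_apply, AddMonoidAlgebra.coeff_single] at h2
  rw [Finset.sum_eq_single a] at h2
  · rw [Finsupp.single_eq_same] at h2
    exact hne h2
  · intro b _ hb
    rw [Finsupp.single_apply, if_neg]
    intro h
    apply hb
    ext i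
    have := congrFun h i
    exact_mod_cast this
  · intro h
    exact absurd ha h

theorem tv_isAlgebraic :
    Algebra.IsAlgebraic (Algebra.adjoin K (Set.range (tv : Fin r → LF K r))) (LF K r) := by
  set A := Algebra.adjoin K (Set.range (tv : Fin r → LF K r)) with hA
  have h1 : ∀ i, IsAlgebraic A (tv i : LF K r) := fun i =>
    isAlgebraic_algebraMap (⟨tv i, Algebra.subset_adjoin ⟨i, rfl⟩⟩ : A)
  have h2 : ∀ i (n : ℤ), IsAlgebraic A ((tv i : LF K r) ^ n) := by
    intro i n
    obtain ⟨m, rfl | rfl⟩ := n.eq_nat_or_neg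
    · rw [zpow_natCast]; exact (h1 i).pow m
    · rw [zpow_neg, zpow_natCast]; exact ((h1 i).pow m).inv
  have h3 : ∀ s : Finset (Fin r), ∀ γ : Fin r → ℤ,
      IsAlgebraic A (∏ i ∈ s, (tv i : LF K r) ^ γ i) := by
    classical
    intro s γ
    induction s using Finset.induction_on with
    | empty => rw [Finset.prod_empty]; exact isAlgebraic_one
    | insert a s ha ih => rw [Finset.prod_insert ha]; exact (h2 a _).mul ih
  have h4 : ∀ (γ : Fin r → ℤ) (g : K), IsAlgebraic A (hm γ g) := by
    intro γ g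
    rw [hm_eq]
    refine IsAlgebraic.mul ?_ (h3 _ _)
    exact isAlgebraic_algebraMap (⟨algebraMap K (LF K r) g, A.algebraMap_mem g⟩ : A)
  have h5 : ∀ x : GR K r, IsAlgebraic A (algebraMap (GR K r) (LF K r) x) := by
    classical
    intro x
    rw [algebraMap_GR]
    have : ∀ s : Finset (Fin r → ℤ), IsAlgebraic A (∑ γ ∈ s, hm γ (x.coeff γ)) := by
      intro s
      induction s using Finset.induction_on with
      | empty => rw [Finset.sum_empty]; exact isAlgebraic_zero
      | insert a s ha ih => rw [Finset.sum_insert ha]; exact (h4 _ _).add ih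
    exact this _
  refine ⟨fun y => ?_⟩
  obtain ⟨a, b, hb, rfl⟩ := IsFractionRing.div_surjective (A := GR K r) y
  rw [div_eq_mul_inv]
  exact (h5 a).mul (h5 b).inv

theorem trdeg_LF [Algebra ℂ K] {n : ℕ} (h : Algebra.trdeg ℂ K = n) :
    Algebra.trdeg ℂ (LF K r) = ((n + r : ℕ) : Cardinal) := by
  have h1 : Algebra.trdeg K (LF K r) = r := by
    have h2 := tv_indep.isTranscendenceBasis_iff_isAlgebraic.2 (tv_isAlgebraic (K := K) (r := r))
    rw [← h2.cardinalMk_eq_trdeg, Cardinal.mk_fin]
  rw [← trdeg_add_eq ℂ K (A := LF K r), h, h1]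
  push_cast
  rfl

end Pool.Agent.Helper94.LCY
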