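import Pool.Agent.Helper94.MDS.GeoB
import Pool.Agent.Helper94.MDS.Hm

/-!
# Sections of divisors and the hyperplane divisor
-/

noncomputable section

open IsLocalRing

namespace Pool.Agent.Helper94.LCY

namespace ProjVar

variable {K : Type} [Field K] [Algebra ℂ K] {ι : Type} (X : ProjVar K ι)

/-- Sections of the divisor `E`. -/
def sect (E : ValuationSubring K → ℤ) : Submodule ℂ K where
  carrier := {g | ∀ v ∈ X.Pr, vge v (-(E v)) g}
  zero_mem' := fun _ _ => vge.zero
  add_mem' := by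
    intro f g hf hg v hv
    have := dvr_Pr hv
    exact (hf v hv).add (hg v hv)
  smul_mem' := by
    intro c g hg v hv
    have := dvr_Pr hv
    exact (hg v hv).smulC c

theorem mem_sect {E : ValuationSubring K → ℤ} {g : K} :
    g ∈ X.sect E ↔ ∀ v ∈ X.Pr, vge v (-(E v)) g := Iff.rfl

/-- A coordinate which is not identically zero. -/
def i₀ : ι := X.exists_ne.choose

theorem x_i₀ : X.x X.i₀ ≠ 0 := X.exists_ne.choose_spec

/-- The divisor of the coordinate `x_{i₀}`. -/
def hyp (v : ValuationSubring K) : ℤ :=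
  open Classical in if h : ∃ j, X.x j ≠ 0 ∧ (X.chart j).toSubring ≤ v.toSubring then
    ord v (X.x X.i₀ / X.x h.choose) else 0

theorem val_ratio_eq_one {v : ValuationSubring K} {i j : ι} (hi : X.x i ≠ 0) (hj : X.x j ≠ 0)
    (hi' : (X.chart i).toSubring ≤ v.toSubring) (hj' : (X.chart j).toSubring ≤ v.toSubring) :
    v.valuation (X.x i / X.x j) = 1 := by
  have h1 : X.x i / X.x j ∈ v := hj' X.ratio_mem
  have h2 : X.x j / X.x i ∈ v := hi' X.ratio_mem
  refine le_antisymm ((v.valuation_le_one_iff _).2 h1) ?_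
  have h3 := (v.valuation_le_one_iff _).2 h2
  rw [← inv_div, map_inv₀] at h3
  refine (inv_le_one₀ ?_).1 h3
  rw [zero_lt_iff]
  exact (Valuation.ne_zero_iff _).2 (div_ne_zero hi hj)

theorem hyp_eq {v : ValuationSubring K} [IsDiscreteValuationRing v] {j : ι} (hj : X.x j ≠ 0)
    (hle : (X.chart j).toSubring ≤ v.toSubring) : X.hyp v = ord v (X.x X.i₀ / X.x j) := by
  have h : ∃ j, X.x j ≠ 0 ∧ (X.chart j).toSubring ≤ v.toSubring := ⟨j, hj, hle⟩
  rw [hyp, dif_pos h]
  have h1 := h.choose_spec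
  set k := h.choose with hk
  have h2 : X.x X.i₀ / X.x k = X.x X.i₀ / X.x j * (X.x j / X.x k) := by
    rw [div_mul_div_cancel₀ hj]
  rw [h2, ord_mul (div_ne_zero X.x_i₀ hj) (div_ne_zero hj h1.1),
    (ord_eq_zero_iff (div_ne_zero hj h1.1)).2 (X.val_ratio_eq_one hj h1.1 hle h1.2), add_zero]

theorem hyp_nonneg [Finite ι] {v : ValuationSubring K} (hv : v ∈ X.Pr) : 0 ≤ X.hyp v := by
  obtain ⟨hd, j, hj, hloc⟩ := mem_Pr.1 hv
  rw [X.hyp_eq hj hloc.1, ord_nonneg_iff (div_ne_zero X.x_i₀ hj)]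
  exact hloc.1 X.ratio_mem

theorem hyp_finite [Finite ι] : {v ∈ X.Pr | X.hyp v ≠ 0}.Finite := by
  have h1 : (⋃ j : {j // X.x j ≠ 0}, {v ∈ X.Pr | ord v (X.x X.i₀ / X.x j.1) ≠ 0}).Finite :=
    Set.finite_iUnion fun j => X.Pr_finite (div_ne_zero X.x_i₀ j.2)
  refine h1.subset ?_
  rintro v ⟨hv, hne⟩
  obtain ⟨hd, j, hj, hloc⟩ := mem_Pr.1 hv
  rw [Set.mem_iUnion]
  refine ⟨⟨j, hj⟩, hv, ?_⟩
  rw [← X.hyp_eq hj hloc.1]
  exact hne

/-- Sections of multiples of the hyperplane divisor in charts. -/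
theorem mul_pow_mem_chart [Finite ι] (hN : X.IsNormal) {k : ℕ} {g : K}
    (hg : g ∈ X.sect fun v => k * X.hyp v) {j : ι} (hj : X.x j ≠ 0) :
    g * (X.x X.i₀ / X.x j) ^ k ∈ X.chart j := by
  refine mem_chart_of hN hj fun v hv hle => ?_
  have := dvr_Pr hv
  have h1 : vge v (-(k * X.hyp v)) g := hg v hv
  rw [X.hyp_eq hj hle] at h1
  have h2 : vge v (k * ord v (X.x X.i₀ / X.x j)) ((X.x X.i₀ / X.x j) ^ k) := by
    right
    rw [ord_pow (div_ne_zero X.x_i₀ hj)]
  have h3 := h1.mul h2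
  rw [neg_add_cancel] at h3
  exact h3.mem

/-- Powers of coordinate functions are sections. -/
theorem ratio_pow_mem [Finite ι] (i : ι) (k : ℕ) :
    (X.x i / X.x X.i₀) ^ k ∈ X.sect fun v => k * X.hyp v := by
  intro v hv
  obtain ⟨hd, j, hj, hloc⟩ := mem_Pr.1 hv
  by_cases hi : X.x i = 0
  · rcases k with _ | k
    · right
      rw [pow_zero, ord_one]
      simp
    · left
      rw [hi, zero_div, zero_pow (Nat.succ_ne_zero k)]
  right
  change -(k * X.hyp v) ≤ _
  rw [X.hyp_eq hj hloc.1, ord_pow (div_ne_zero hi X.x_i₀)]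
  have h1 : 0 ≤ ord v (X.x i / X.x j) := (ord_nonneg_iff (div_ne_zero hi hj)).2
    (hloc.1 X.ratio_mem)
  have h2 : ord v (X.x i / X.x j) = ord v (X.x i / X.x X.i₀) + ord v (X.x X.i₀ / X.x j) := by
    rw [← ord_mul (div_ne_zero hi X.x_i₀) (div_ne_zero X.x_i₀ hj), div_mul_div_cancel₀ X.x_i₀]
  rw [h2] at h1
  nlinarith

/-- Every element of a chart becomes a section of a multiple of the hyperplane divisor. -/
theorem exists_mul_mem [Finite ι] {j : ι} (hj : X.x j ≠ 0) {a : K} (ha : a ∈ X.chart j) :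
    ∃ d : ℕ, a * (X.x j / X.x X.i₀) ^ d ∈ X.sect fun v => d * X.hyp v := by
  have hmul : ∀ {f g : K} {d e : ℕ}, f ∈ X.sect (fun v => d * X.hyp v) →
      g ∈ X.sect (fun v => e * X.hyp v) → f * g ∈ X.sect fun v => ((d + e : ℕ) : ℤ) * X.hyp v := by
    intro f g d e hf hg v hv
    have := dvr_Pr hv
    refine ((hf v hv).mul (hg v hv)).mono ?_
    push_cast
    linarith
  have hup : ∀ {f : K} {d : ℕ} (e : ℕ), f * (X.x j / X.x X.i₀) ^ d ∈
      X.sect (fun v => d * X.hyp v) → f * (X.x j / X.x X.i₀) ^ (d + e) ∈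
        X.sect fun v => ((d + e : ℕ) : ℤ) * X.hyp v := by
    intro f d e h
    rw [pow_add, ← mul_assoc]
    exact hmul h (X.ratio_pow_mem j e)
  induction ha using Algebra.adjoin_induction with
  | mem x hx =>
    obtain ⟨i, rfl⟩ := hx
    refine ⟨1, ?_⟩
    change X.x i / X.x j * _ ∈ _
    rw [pow_one, div_mul_div_cancel₀ hj]
    have := X.ratio_pow_mem i 1
    rwa [pow_one] at this
  | algebraMap z =>
    refine ⟨0, ?_⟩
    rw [pow_zero, mul_one]
    intro v hv
    have := dvr_Pr hv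
    right
    rw [ord_C]
    simp
  | add x y _ _ hx hy =>
    obtain ⟨d, hd⟩ := hx
    obtain ⟨e, he⟩ := hy
    refine ⟨d + e, ?_⟩
    rw [add_mul]
    refine Submodule.add_mem _ (hup e hd) ?_
    have := hup d he
    rwa [add_comm e d] at this
  | mul x y _ _ hx hy =>
    obtain ⟨d, hd⟩ := hx
    obtain ⟨e, he⟩ := hy
    refine ⟨d + e, ?_⟩
    have h1 : x * y * (X.x j / X.x X.i₀) ^ (d + e) =
        (x * (X.x j / X.x X.i₀) ^ d) * (y * (X.x j / X.x X.i₀) ^ e) := by
      rw [pow_add]; ring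
    rw [h1]
    exact hmul hd he

/-- A section of a multiple of the hyperplane divisor vanishing along a prime divisor. -/
theorem exists_sect_vanishing [Finite ι] {v : ValuationSubring K} (hv : v ∈ X.Pr) :
    ∃ (s : K) (d : ℕ), s ≠ 0 ∧ s ∈ X.sect (fun v => d * X.hyp v) ∧
      1 ≤ ord v s + d * X.hyp v := by
  obtain ⟨hd, j, hj, hloc⟩ := mem_Pr.1 hv
  obtain ⟨a, ha, ha0, hav⟩ : ∃ a ∈ X.chart j, a ≠ 0 ∧ v.valuation a < 1 := by
    obtain ⟨t, ht⟩ := exists_irr v
    obtain ⟨g, hg, h, hh, hh1, e⟩ := hloc.2 t t.2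
    have h1 : v.valuation g < 1 := by
      have h2 := irr_lt_one ht
      rwa [e, map_div₀, hh1, div_one] at h2
    refine ⟨g, hg, ?_, h1⟩
    rintro rfl
    rw [zero_div] at e
    exact irr_ne_zero ht e
  obtain ⟨d, hd'⟩ := X.exists_mul_mem hj ha
  have hr := div_ne_zero hj X.x_i₀
  refine ⟨_, d, mul_ne_zero ha0 (pow_ne_zero _ hr), hd', ?_⟩
  rw [ord_mul ha0 (pow_ne_zero _ hr), ord_pow hr, X.hyp_eq hj hloc.1]
  have h1 : ord v (X.x j / X.x X.i₀) = - ord v (X.x X.i₀ / X.x j) := by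
    rw [← ord_inv (div_ne_zero X.x_i₀ hj), inv_div]
  have h2 := (ord_pos_iff ha0).2 hav
  rw [h1]
  nlinarith

/-- Every divisor is bounded by a section of a multiple of the hyperplane divisor. -/
theorem exists_sect_ge [Finite ι] (S : Finset (ValuationSubring K)) (hS : ∀ v ∈ S, v ∈ X.Pr)
    (E : ValuationSubring K → ℤ) :
    ∃ (s : K) (d : ℕ), s ≠ 0 ∧ s ∈ X.sect (fun v => d * X.hyp v) ∧
      ∀ v ∈ S, E v ≤ ord v s + d * X.hyp v := by
  classical
  induction S using Finset.induction_on with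
  | empty =>
    refine ⟨1, 0, one_ne_zero, fun v hv => ?_, fun v hv => absurd hv (Finset.notMem_empty v)⟩
    have := dvr_Pr hv
    right
    rw [ord_one]
    simp
  | insert w S hw ih =>
    obtain ⟨s, d, hs0, hs, hsE⟩ := ih fun v hv => hS v (Finset.mem_insert_of_mem hv)
    have hwPr := hS w (Finset.mem_insert_self _ _)
    obtain ⟨s', d', hs0', hs', hsw⟩ := X.exists_sect_vanishing hwPr
    set N := (E w).toNat with hN
    refine ⟨s * s' ^ N, d + N * d', mul_ne_zero hs0 (pow_ne_zero _ hs0'), fun v hv => ?_, ?_⟩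
    · have := dvr_Pr hv
      right
      have h1 := (hs v hv).le hs0
      have h2 := (hs' v hv).le hs0'
      rw [ord_mul hs0 (pow_ne_zero _ hs0'), ord_pow hs0']
      push_cast
      nlinarith
    · intro v hv
      have hvPr := hS v hv
      have := dvr_Pr hvPr
      have h1 := (hs v hvPr).le hs0
      have h2 := (hs' v hvPr).le hs0'
      rw [ord_mul hs0 (pow_ne_zero _ hs0'), ord_pow hs0']
      push_cast
      rcases Finset.mem_insert.1 hv with rfl | hv'
      · have h3 : E v ≤ N := Int.self_le_toNat _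
        nlinarith
      · have h3 := hsE v hv'
        nlinarith

end ProjVar

end Pool.Agent.Helper94.LCY
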