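import Pool.Agent.Helper94.MDS.GeoC

/-!
# Finiteness of the section ring of the hyperplane divisor
-/

noncomputable section

open IsLocalRing

namespace Pool.Agent.Helper94.LCY

namespace ProjVar

variable {K : Type} [Field K] [Algebra ℂ K] {ι : Type} (X : ProjVar K ι)

/-- Constant exponents. -/
def ck (k : ℤ) : Fin 1 → ℤ := fun _ => k

theorem ck_add (k l : ℤ) : ck k + ck l = ck (k + l) := rfl

theorem eq_ck (γ : Fin 1 → ℤ) : γ = ck (γ 0) := by
  funext i
  rw [Subsingleton.elim i 0]
  rfl

theorem nsmul_ck (n : ℕ) (k : ℤ) : n • ck k = ck (n * k) := by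
  funext i
  simp [ck]

/-- The generators of the homogeneous coordinate ring. -/
def sgen (i : ι) : LF K 1 := hm (ck 1) (X.x i / X.x X.i₀)

/-- The homogeneous coordinate ring. -/
def hcr : Subalgebra ℂ (LF K 1) := Algebra.adjoin ℂ (Set.range X.sgen)

theorem hcr_fg [Finite ι] : X.hcr.FG :=
  ⟨(Set.finite_range X.sgen).toFinset, by rw [Set.Finite.coe_toFinset]; rfl⟩

/-- The space of linear forms. -/
def lin1 : Submodule ℂ K := Submodule.span ℂ (Set.range fun i => X.x i / X.x X.i₀)

theorem lin1_fg [Finite ι] : X.lin1.FG :=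
  ⟨(Set.finite_range fun i => X.x i / X.x X.i₀).toFinset, by
    rw [Set.Finite.coe_toFinset]; rfl⟩

/-- The Laurent polynomials whose coefficients are homogeneous forms. -/
def formPoly : Subalgebra ℂ (GR K 1) where
  carrier := {P | ∀ γ, (γ 0 < 0 → P.coeff γ = 0) ∧ P.coeff γ ∈ X.lin1 ^ (γ 0).toNat}
  zero_mem' := fun γ => ⟨fun _ => by rw [AddMonoidAlgebra.coeff_zero]; rfl, by
    rw [AddMonoidAlgebra.coeff_zero]; exact Submodule.zero_mem _⟩
  add_mem' := by
    intro P Q hP hQ γ
    rw [AddMonoidAlgebra.coeff_add]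
    refine ⟨fun h => ?_, Submodule.add_mem _ (hP γ).2 (hQ γ).2⟩
    rw [Finsupp.add_apply, (hP γ).1 h, (hQ γ).1 h, add_zero]
  one_mem' := by
    intro γ
    rw [AddMonoidAlgebra.one_def, AddMonoidAlgebra.coeff_single, Finsupp.single_apply]
    split_ifs with h
    · rw [← h]
      refine ⟨fun h => absurd h (by simp), ?_⟩
      have : ((0 : Fin 1 → ℤ) 0).toNat = 0 := rfl
      rw [this, pow_zero]
      exact Submodule.one_le.1 le_rfl
    · exact ⟨fun _ => rfl, Submodule.zero_mem _⟩
  mul_mem' := by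
    classical
    intro P Q hP hQ γ
    have key : ∀ a b : Fin 1 → ℤ, a + b = γ → (γ 0 < 0 → P.coeff a * Q.coeff b = 0) ∧
        P.coeff a * Q.coeff b ∈ X.lin1 ^ (γ 0).toNat := by
      intro a b hab
      have hab0 : γ 0 = a 0 + b 0 := by rw [← hab]; rfl
      by_cases ha : a 0 < 0
      · rw [(hP a).1 ha, zero_mul]
        exact ⟨fun _ => rfl, Submodule.zero_mem _⟩
      by_cases hb : b 0 < 0
      · rw [(hQ b).1 hb, mul_zero]
        exact ⟨fun _ => rfl, Submodule.zero_mem _⟩
      refine ⟨fun h => by omega, ?_⟩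
      have h1 : (γ 0).toNat = (a 0).toNat + (b 0).toNat := by omega
      rw [h1, pow_add]
      exact Submodule.mul_mem_mul (hP a).2 (hQ b).2
    rw [AddMonoidAlgebra.coeff_mul]
    constructor
    · intro h
      refine Finset.sum_eq_zero fun a _ => Finset.sum_eq_zero fun b _ => ?_
      change (if a + b = γ then P.coeff a * Q.coeff b else 0) = 0
      split_ifs with hab
      · exact (key a b hab).1 h
      · rfl
    · refine Submodule.sum_mem _ fun a _ => Submodule.sum_mem _ fun b _ => ?_
      change (if a + b = γ then P.coeff a * Q.coeff b else 0) ∈ _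
      split_ifs with hab
      · exact (key a b hab).2
      · exact Submodule.zero_mem _
  algebraMap_mem' := by
    intro c γ
    rw [AddMonoidAlgebra.coe_algebraMap, Function.comp_apply, AddMonoidAlgebra.coeff_single,
      Finsupp.single_apply]
    split_ifs with h
    · rw [← h]
      refine ⟨fun h => absurd h (by simp), ?_⟩
      have : ((0 : Fin 1 → ℤ) 0).toNat = 0 := rfl
      rw [this, pow_zero, Submodule.mem_one]
      exact ⟨c, rfl⟩
    · exact ⟨fun _ => rfl, Submodule.zero_mem _⟩

theorem mem_formPoly {P : GR K 1} : P ∈ X.formPoly ↔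
    ∀ γ, (γ 0 < 0 → P.coeff γ = 0) ∧ P.coeff γ ∈ X.lin1 ^ (γ 0).toNat := Iff.rfl

theorem exists_formPoly {z : LF K 1} (hz : z ∈ X.hcr) :
    ∃ P ∈ X.formPoly, algebraMap (GR K 1) (LF K 1) P = z := by
  have h : X.hcr ≤ X.formPoly.map (IsScalarTower.toAlgHom ℂ (GR K 1) (LF K 1)) := by
    rw [hcr, Algebra.adjoin_le_iff]
    rintro _ ⟨i, rfl⟩
    refine ⟨AddMonoidAlgebra.single (ck 1) (X.x i / X.x X.i₀), ?_, rfl⟩
    intro γ
    rw [AddMonoidAlgebra.coeff_single, Finsupp.single_apply]
    split_ifs with h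
    · rw [← h]
      refine ⟨fun h => absurd h (by decide +revert), ?_⟩
      have : ((ck 1) 0).toNat = 1 := rfl
      rw [this, pow_one]
      exact Submodule.subset_span ⟨i, rfl⟩
    · exact ⟨fun _ => rfl, Submodule.zero_mem _⟩
  obtain ⟨P, hP, h1⟩ := h hz
  exact ⟨P, hP, h1⟩

/-- The integrality of sections. -/
theorem hm_mem_of_valuation [Finite ι] (hN : X.IsNormal) {k : ℕ} {g : K}
    (hg : g ∈ X.sect fun v => k * X.hyp v) {V : ValuationSubring (LF K 1)}
    (hV : ∀ z ∈ X.hcr, z ∈ V) : hm (ck k) g ∈ V := by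
  set v := V.comap (algebraMap K (LF K 1)) with hv
  have hC : ∀ z : ℂ, algebraMap ℂ K z ∈ v := by
    intro z
    change algebraMap K (LF K 1) (algebraMap ℂ K z) ∈ V
    rw [← IsScalarTower.algebraMap_apply]
    exact hV _ (X.hcr.algebraMap_mem z)
  obtain ⟨j, hj, hle⟩ := X.exists_chart_le v hC
  have h1 : g * (X.x X.i₀ / X.x j) ^ k ∈ v := hle (X.mul_pow_mem_chart hN hg hj)
  have h2 : algebraMap K (LF K 1) (g * (X.x X.i₀ / X.x j) ^ k) ∈ V := h1
  have h3 : X.sgen j ^ k ∈ V := V.pow_mem (hV _ (Algebra.subset_adjoin ⟨j, rfl⟩)) k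
  have h4 : hm (ck k) g = algebraMap K (LF K 1) (g * (X.x X.i₀ / X.x j) ^ k) * X.sgen j ^ k := by
    rw [← hm_K, sgen, hm_pow, hm_mul, nsmul_ck, mul_one, zero_add, mul_assoc, ← mul_pow]
    congr 1
    have h5 : X.x X.i₀ / X.x j * (X.x j / X.x X.i₀) = 1 := by
      rw [div_mul_div_cancel₀ hj, div_self X.x_i₀]
    rw [h5, one_pow, mul_one]
  rw [h4]
  exact V.mul_mem _ _ h2 h3

/-- A finite field extension. -/
theorem finite_of_isAlgebraic' {L F : Type} [Field L] [Field F] [Algebra ℂ L] [Algebra ℂ F]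
    [Algebra L F] [IsScalarTower ℂ L F] [Algebra.EssFiniteType ℂ F] [Algebra.IsAlgebraic L F] :
    FiniteDimensional L F := by
  have : Algebra.EssFiniteType L F := Algebra.EssFiniteType.of_comp ℂ L F
  exact Algebra.finite_of_essFiniteType_of_isAlgebraic

include X in
theorem essFiniteType_LF [Finite ι] : Algebra.EssFiniteType ℂ (LF K 1) := by
  have h1 : Algebra.EssFiniteType ℂ K := IntermediateField.fg_top_iff.1 X.fg_top
  have h2 : Algebra.EssFiniteType K (GR K 1) := inferInstance
  have h3 : Algebra.EssFiniteType (GR K 1) (LF K 1) :=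
    Algebra.EssFiniteType.of_isLocalization _ (nonZeroDivisors (GR K 1))
  have h4 : Algebra.EssFiniteType K (LF K 1) := Algebra.EssFiniteType.comp K (GR K 1) (LF K 1)
  exact Algebra.EssFiniteType.comp ℂ K (LF K 1)

/-- `LF K 1` is algebraic over every subring over which the homogeneous coordinate ring is
algebraic. -/
theorem isAlgebraic_LF {A : Type} [CommRing A] [IsDomain A] [Algebra A (LF K 1)]
    [FaithfulSMul A (LF K 1)] (hC : ∀ z : ℂ, IsAlgebraic A (algebraMap ℂ (LF K 1) z))
    (h : ∀ z ∈ X.hcr, IsAlgebraic A z) : Algebra.IsAlgebraic A (LF K 1) := by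
  have hsg : ∀ i, IsAlgebraic A (X.sgen i) := fun i => h _ (Algebra.subset_adjoin ⟨i, rfl⟩)
  have ht : IsAlgebraic A (hm (ck 1) (1 : K)) := by
    have h1 := hsg X.i₀
    rw [sgen, div_self X.x_i₀] at h1
    exact h1
  have hK : ∀ g : K, IsAlgebraic A (algebraMap K (LF K 1) g) := by
    intro g
    have hg : g ∈ IntermediateField.adjoin ℂ (Set.range fun i => X.x i / X.x X.i₀) := by
      rw [X.adjoin_chart X.x_i₀]
      trivial
    induction hg using IntermediateField.adjoin_induction with
    | mem x hx =>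
      obtain ⟨i, rfl⟩ := hx
      have h1 : algebraMap K (LF K 1) (X.x i / X.x X.i₀) =
          X.sgen i * (hm (ck 1) (1 : K))⁻¹ := by
        rw [← hm_K, sgen, hm_inv _ one_ne_zero, hm_mul, add_neg_cancel, inv_one, mul_one]
      change IsAlgebraic A (algebraMap K (LF K 1) (X.x i / X.x X.i₀))
      rw [h1]
      exact (hsg i).mul ht.inv
    | algebraMap z =>
      rw [← IsScalarTower.algebraMap_apply]
      exact hC z
    | add x y _ _ hx hy => rw [map_add]; exact hx.add hy
    | inv x _ hx => rw [map_inv₀]; exact hx.inv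
    | mul x y _ _ hx hy => rw [map_mul]; exact hx.mul hy
  have htz : ∀ k : ℤ, IsAlgebraic A (hm (ck k) (1 : K)) := by
    intro k
    have h1 : hm (ck k) (1 : K) = hm (ck 1) (1 : K) ^ k := by
      rw [hm_zpow _ one_ne_zero, one_zpow]
      congr 1
      funext i
      simp [ck]
    rw [h1]
    obtain ⟨m, rfl | rfl⟩ := k.eq_nat_or_neg
    · rw [zpow_natCast]; exact ht.pow m
    · rw [zpow_neg, zpow_natCast]; exact (ht.pow m).inv
  have hhm : ∀ (γ : Fin 1 → ℤ) (g : K), IsAlgebraic A (hm γ g) := by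
    intro γ g
    have h1 : hm γ g = algebraMap K (LF K 1) g * hm (ck (γ 0)) (1 : K) := by
      rw [← hm_K, hm_mul, zero_add, mul_one, ← eq_ck]
    rw [h1]
    exact (hK g).mul (htz _)
  have h5 : ∀ x : GR K 1, IsAlgebraic A (algebraMap (GR K 1) (LF K 1) x) := by
    classical
    intro x
    rw [algebraMap_GR]
    have : ∀ s : Finset (Fin 1 → ℤ), IsAlgebraic A (∑ γ ∈ s, hm γ (x.coeff γ)) := by
      intro s
      induction s using Finset.induction_on with
      | empty => rw [Finset.sum_empty]; exact isAlgebraic_zero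
      | insert a s ha ih => rw [Finset.sum_insert ha]; exact (hhm _ _).add ih
    exact this _
  refine ⟨fun y => ?_⟩
  obtain ⟨a, b, hb, rfl⟩ := IsFractionRing.div_surjective (A := GR K 1) y
  rw [div_eq_mul_inv]
  exact (h5 a).mul (h5 b).inv

/-- The sections generate a finite module over the homogeneous coordinate ring. -/
theorem exists_generators [Finite ι] (hN : X.IsNormal) :
    ∃ s : Finset (ℕ × K), (∀ p ∈ s, p.2 ∈ X.sect fun v => p.1 * X.hyp v) ∧
      ∀ (k : ℕ) (g : K), g ∈ X.sect (fun v => k * X.hyp v) →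
        ∃ a : ℕ × K → LF K 1, (∀ p, a p ∈ X.hcr) ∧
          hm (ck k) g = ∑ p ∈ s, a p * hm (ck p.1) p.2 := by
  classical
  have hft : Algebra.FiniteType ℂ X.hcr := (Subalgebra.fg_iff_finiteType _).1 X.hcr_fg
  obtain ⟨d, φ, hφ, hφf⟩ := exists_finite_inj_algHom_of_fg ℂ X.hcr
  let A := MvPolynomial (Fin d) ℂ
  let ψ : A →ₐ[ℂ] LF K 1 := X.hcr.val.comp φ
  have hψ : Function.Injective ψ := Subtype.val_injective.comp hφ
  let _ : Algebra A (LF K 1) := ψ.toRingHom.toAlgebra
  have hmap : ∀ a : A, algebraMap A (LF K 1) a = (φ a : LF K 1) := fun _ => rfl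
  have hfaith : FaithfulSMul A (LF K 1) := (faithfulSMul_iff_algebraMap_injective _ _).2 hψ
  have htower : IsScalarTower ℂ A (LF K 1) :=
    IsScalarTower.of_algebraMap_eq fun x => (ψ.commutes x).symm
  -- the coordinate ring is integral
  have hint : ∀ z ∈ X.hcr, IsIntegral A z := by
    intro z hz
    have h1 : φ.toRingHom.IsIntegralElem ⟨z, hz⟩ := RingHom.Finite.to_isIntegral hφf _
    obtain ⟨p, hp, hp0⟩ := h1
    refine ⟨p, hp, ?_⟩
    have h2 := congrArg (fun w : X.hcr => (w : LF K 1)) hp0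
    have h3 : (X.hcr.val.toRingHom (Polynomial.eval₂ φ.toRingHom ⟨z, hz⟩ p) : LF K 1) = 0 := h2
    rw [Polynomial.hom_eval₂] at h3
    exact h3
  have halg : Algebra.IsAlgebraic A (LF K 1) := X.isAlgebraic_LF (fun z => by
    rw [IsScalarTower.algebraMap_apply ℂ A (LF K 1)]
    exact isAlgebraic_algebraMap _) fun z hz => (hint z hz).isAlgebraic
  let L := FractionRing A
  let _ : Algebra L (LF K 1) := FractionRing.liftAlgebra A (LF K 1)
  have : IsScalarTower A L (LF K 1) := FractionRing.isScalarTower_liftAlgebra A (LF K 1)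
  have : IsScalarTower ℂ L (LF K 1) := IsScalarTower.of_algebraMap_eq fun x => by
    rw [IsScalarTower.algebraMap_apply ℂ A L, ← IsScalarTower.algebraMap_apply A L (LF K 1),
      ← IsScalarTower.algebraMap_apply ℂ A (LF K 1)]
  have halg' : Algebra.IsAlgebraic L (LF K 1) :=
    (IsFractionRing.comap_isAlgebraic_iff (A := A) (K := L) (C := LF K 1)).1 halg
  have hess := X.essFiniteType_LF
  have hfd : FiniteDimensional L (LF K 1) := finite_of_isAlgebraic'
  have hsep : Algebra.IsSeparable L (LF K 1) := Algebra.IsAlgebraic.isSeparable_of_perfectField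
  have hnoeth : IsNoetherian A (integralClosure A (LF K 1)) :=
    IsIntegralClosure.isNoetherian A L (LF K 1) _
  -- the sections are integral
  have hsint : ∀ (k : ℕ) (g : K), g ∈ X.sect (fun v => k * X.hyp v) →
      hm (ck k) g ∈ integralClosure A (LF K 1) := by
    intro k g hg
    by_contra hcon
    obtain ⟨V, hV, hgV⟩ := Subring.exists_le_valuationSubring_of_isIntegrallyClosedIn
      (R := (integralClosure A (LF K 1)).toSubring) hcon
    exact hgV (X.hm_mem_of_valuation hN hg fun z hz => hV (hint z hz))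
  -- the module
  set T : Set (LF K 1) := {z | ∃ p : ℕ × K, p.2 ∈ X.sect (fun v => p.1 * X.hyp v) ∧
    z = hm (ck p.1) p.2} with hT
  have hTfg : (Submodule.span A T).FG := by
    have h1 : Submodule.span A T ≤ Subalgebra.toSubmodule (integralClosure A (LF K 1)) := by
      rw [Submodule.span_le]
      rintro _ ⟨p, hp, rfl⟩
      exact hsint _ _ hp
    have h2 : IsNoetherian A (Subalgebra.toSubmodule (integralClosure A (LF K 1))) := hnoeth
    exact isNoetherian_submodule.1 h2 _ h1
  obtain ⟨s', hs', hspan⟩ := (Submodule.fg_span_iff_fg_span_finset_subset T).1 hTfg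
  have h1 : ∀ z : s', ∃ p : ℕ × K, p.2 ∈ X.sect (fun v => p.1 * X.hyp v) ∧
    (z : LF K 1) = hm (ck p.1) p.2 := fun z => hs' z.2
  choose p hp hpz using h1
  refine ⟨Finset.univ.image p, ?_, fun k g hg => ?_⟩
  · intro q hq
    obtain ⟨z, -, rfl⟩ := Finset.mem_image.1 hq
    exact hp z
  · have h2 : hm (ck k) g ∈ Submodule.span A (s' : Set (LF K 1)) := by
      rw [← hspan]
      exact Submodule.subset_span ⟨(k, g), hg, rfl⟩
    have h3 : (s' : Set (LF K 1)) ⊆ ((Finset.univ.image p).image
        fun q : ℕ × K => hm (ck q.1) q.2 : Finset (LF K 1)) := by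
      intro z hz
      rw [Finset.coe_image]
      exact ⟨p ⟨z, hz⟩, Finset.mem_coe.2 (Finset.mem_image_of_mem _ (Finset.mem_univ _)),
        (hpz ⟨z, hz⟩).symm⟩
    have h4 := Submodule.span_mono h3 h2
    rw [Finset.coe_image, Submodule.mem_span_image_finset_iff_exists_fun'] at h4
    obtain ⟨c, hc⟩ := h4
    refine ⟨fun q => algebraMap A (LF K 1) (c q), fun q => ?_, ?_⟩
    · exact (φ (c q)).2
    · rw [← hc]
      exact Finset.sum_congr rfl fun q _ => Algebra.smul_def _ _

theorem finDim_sect_hyp [Finite ι] (hN : X.IsNormal) (k : ℕ) :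
    FiniteDimensional ℂ (X.sect fun v => k * X.hyp v) := by
  classical
  obtain ⟨s, hs, hgen⟩ := X.exists_generators hN
  set W : Submodule ℂ K :=
    ⨆ p ∈ s, X.lin1 ^ ((k : ℤ) - p.1).toNat * Submodule.span ℂ {p.2} with hW
  have hWfg : W.FG := by
    refine Submodule.fg_biSup s _ fun p _ => ?_
    exact (X.lin1_fg.pow _).mul (Submodule.fg_span_singleton _)
  have hle : (X.sect fun v => k * X.hyp v) ≤ W := by
    intro g hg
    obtain ⟨a, ha, h1⟩ := hgen k g hg
    have h2 : ∀ p, ∃ P ∈ X.formPoly, algebraMap (GR K 1) (LF K 1) P = a p :=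
      fun p => X.exists_formPoly (ha p)
    choose P hP hPa using h2
    have h3 : AddMonoidAlgebra.single (ck k) g =
        ∑ p ∈ s, P p * AddMonoidAlgebra.single (ck p.1) p.2 := by
      apply GR_injective
      rw [map_sum]
      refine Eq.trans h1 (Finset.sum_congr rfl fun p _ => ?_)
      rw [map_mul, hPa]
      rfl
    have h4 := congrArg (fun z : GR K 1 => z.coeff (ck k)) h3
    simp only [AddMonoidAlgebra.coeff_sum, Finsupp.finsetSum_apply,
      AddMonoidAlgebra.coeff_mul_single_apply, AddMonoidAlgebra.coeff_single,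
      Finsupp.single_eq_same] at h4
    rw [h4]
    refine Submodule.sum_mem _ fun p hp => ?_
    refine Submodule.mem_iSup_of_mem p (Submodule.mem_iSup_of_mem hp ?_)
    refine Submodule.mul_mem_mul ?_ (Submodule.mem_span_singleton_self _)
    exact (hP p (ck k - ck p.1)).2
  have : FiniteDimensional ℂ W := Module.Finite.iff_fg.2 hWfg
  exact Submodule.finiteDimensional_of_le hle

/-- Spaces of sections are finite-dimensional. -/
theorem finDim_sect [Finite ι] (hN : X.IsNormal) {E : ValuationSubring K → ℤ}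
    (hE : {v ∈ X.Pr | 0 < E v}.Finite) : FiniteDimensional ℂ (X.sect E) := by
  classical
  obtain ⟨s, d, hs0, hs, hsE⟩ := X.exists_sect_ge hE.toFinset
    (fun v hv => ((Set.Finite.mem_toFinset _).1 hv).1) E
  have hfd := X.finDim_sect_hyp hN d
  have hmap : ∀ g ∈ X.sect E, s * g ∈ X.sect fun v => d * X.hyp v := by
    intro g hg v hv
    have := dvr_Pr hv
    have h2 := (hs v hv).le hs0
    rcases hg v hv with h1 | h1
    · left; rw [h1, mul_zero]
    by_cases hg0 : g = 0
    · left; rw [hg0, mul_zero]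
    right
    rw [ord_mul hs0 hg0]
    by_cases hv' : v ∈ hE.toFinset
    · have h3 := hsE v hv'
      linarith
    · have h3 : ¬ 0 < E v := fun h => hv' ((Set.Finite.mem_toFinset _).2 ⟨hv, h⟩)
      linarith
  let f : X.sect E →ₗ[ℂ] X.sect fun v => d * X.hyp v :=
    { toFun := fun g => ⟨s * g, hmap g g.2⟩
      map_add' := fun g h => Subtype.ext (mul_add _ _ _)
      map_smul' := fun c g => Subtype.ext (by
        change s * (c • (g : K)) = c • (s * (g : K))
        rw [mul_smul_comm]) }
  refine FiniteDimensional.of_injective f ?_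
  intro g h hgh
  have h1 : s * (g : K) = s * (h : K) := congrArg Subtype.val hgh
  exact Subtype.ext (mul_left_cancel₀ hs0 h1)

end ProjVar

end Pool.Agent.Helper94.LCY
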