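import Pool.Agent.Helper94.MDS.OrdMore

/-!
# `ℚ`-factorial varieties, Cox rings and Mori dream spaces
-/

noncomputable section

namespace Pool.Agent.Helper94.LCY

namespace ProjVar

variable {K : Type} [Field K] [Algebra ℂ K] {ι : Type} (X : ProjVar K ι)

/-- `X` is `ℚ`-factorial: every Weil divisor has a positive multiple which is Cartier. -/
def IsQFactorial : Prop := ∀ E : X.WeilDiv, ∃ k : ℕ, 0 < k ∧ k • E ∈ X.cartier

/-- The Weil divisors `D_1, ..., D_r` generate the rational divisor class group `Cl(X) ⊗ ℚ`: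
every Weil divisor has a positive multiple which is linearly equivalent to an integral
combination of them. -/
def GeneratesClass {r : ℕ} (D : Fin r → X.WeilDiv) : Prop :=
  ∀ E : X.WeilDiv, ∃ (k : ℕ) (γ : Fin r → ℤ), 0 < k ∧ k • E - ∑ i, γ i • D i ∈ X.principal

/-- The Weil divisors `D_1, ..., D_r` form a basis of the rational divisor class group
`Cl(X) ⊗ ℚ`: they generate it, and no nontrivial integral combination of them is principal. -/
def IsClassBasis {r : ℕ} (D : Fin r → X.WeilDiv) : Prop :=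
  X.GeneratesClass D ∧ ∀ γ : Fin r → ℤ, ∑ i, γ i • D i ∈ X.principal → γ = 0

/-- Every coefficient `s_γ`, `γ ∈ ℤ^r`, of the Laurent polynomial `s` over the function field `K`
is a section of the sheaf `𝒪(γ_1 D_1 + ... + γ_r D_r)`: it is zero, or
`div s_γ + γ_1 D_1 + ... + γ_r D_r ≥ 0`. -/
def HasSectionCoeffs {r : ℕ} (D : Fin r → X.WeilDiv) (s : AddMonoidAlgebra K (Fin r → ℤ)) :
    Prop :=
  ∀ (γ : Fin r → ℤ) (P : X.PrimeDiv), s.coeff γ = 0 ∨
    0 ≤ ord P.dvr (s.coeff γ) + (∑ i, γ i • D i) P

section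

variable {X} {r : ℕ} {D : Fin r → X.WeilDiv}

theorem HasSectionCoeffs.zero : X.HasSectionCoeffs D 0 :=
  fun γ P => Or.inl (by rw [AddMonoidAlgebra.coeff_zero]; rfl)

theorem HasSectionCoeffs.add {x y : AddMonoidAlgebra K (Fin r → ℤ)}
    (hx : X.HasSectionCoeffs D x) (hy : X.HasSectionCoeffs D y) :
    X.HasSectionCoeffs D (x + y) := by
  intro γ P
  rw [AddMonoidAlgebra.coeff_add]
  have h1 : vge P.dvr (-((∑ i, γ i • D i) P)) (x.coeff γ) := by
    rcases hx γ P with h | h
    · exact Or.inl h
    · exact Or.inr (by omega)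
  have h2 : vge P.dvr (-((∑ i, γ i • D i) P)) (y.coeff γ) := by
    rcases hy γ P with h | h
    · exact Or.inl h
    · exact Or.inr (by omega)
  rcases h1.add h2 with h | h
  · exact Or.inl h
  · refine Or.inr ?_
    change 0 ≤ ord P.dvr (x.coeff γ + y.coeff γ) + _
    omega

theorem HasSectionCoeffs.one : X.HasSectionCoeffs D 1 := by
  intro γ P
  rw [AddMonoidAlgebra.one_def, AddMonoidAlgebra.coeff_single, Finsupp.single_apply]
  split_ifs with h
  · right
    rw [← h, ord_one]
    simp
  · exact Or.inl rfl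

theorem HasSectionCoeffs.mul {x y : AddMonoidAlgebra K (Fin r → ℤ)}
    (hx : X.HasSectionCoeffs D x) (hy : X.HasSectionCoeffs D y) :
    X.HasSectionCoeffs D (x * y) := by
  classical
  intro γ P
  have h1 : ∀ (z : AddMonoidAlgebra K (Fin r → ℤ)), (∀ (γ : Fin r → ℤ) (P : X.PrimeDiv),
      z.coeff γ = 0 ∨ 0 ≤ ord P.dvr (z.coeff γ) + (∑ i, γ i • D i) P) →
      ∀ γ, vge P.dvr (-((∑ i, γ i • D i) P)) (z.coeff γ) := by
    intro z hz γ
    rcases hz γ P with h | h
    · exact Or.inl h
    · exact Or.inr (by omega)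
  have h2 : vge P.dvr (-((∑ i, γ i • D i) P)) ((x * y).coeff γ) := by
    rw [AddMonoidAlgebra.coeff_mul]
    refine vge.sum fun a _ => vge.sum fun b _ => ?_
    change vge _ _ (if a + b = γ then x.coeff a * y.coeff b else 0)
    split_ifs with h
    · refine ((h1 x hx a).mul (h1 y hy b)).mono ?_
      have h3 : (∑ i, γ i • D i) P = (∑ i, a i • D i) P + (∑ i, b i • D i) P := by
        rw [← h, ← Finsupp.add_apply, ← Finset.sum_add_distrib]
        congr 1
        exact Finset.sum_congr rfl fun i _ => by rw [Pi.add_apply, add_smul]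
      omega
    · exact vge.zero
  rcases h2 with h | h
  · exact Or.inl h
  · exact Or.inr (by omega)

theorem HasSectionCoeffs.algebraMap (c : ℂ) :
    X.HasSectionCoeffs D (algebraMap ℂ (AddMonoidAlgebra K (Fin r → ℤ)) c) := by
  intro γ P
  rw [AddMonoidAlgebra.coe_algebraMap, Function.comp_apply, AddMonoidAlgebra.coeff_single,
    Finsupp.single_apply]
  split_ifs with h
  · right
    rw [← h, ord_C]
    simp
  · exact Or.inl rfl

end

/-- The Cox ring `⨁_γ H⁰(X, 𝒪(γ_1 D_1 + ... + γ_r D_r))`, `γ ∈ ℤ^r`, as a subring of the ring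
`K[ℤ^r]` of Laurent polynomials in `r` variables over the function field `K`. -/
def coxRing {r : ℕ} (D : Fin r → X.WeilDiv) :
    Subalgebra ℂ (AddMonoidAlgebra K (Fin r → ℤ)) where
  carrier := {s | X.HasSectionCoeffs D s}
  zero_mem' := HasSectionCoeffs.zero
  add_mem' := HasSectionCoeffs.add
  one_mem' := HasSectionCoeffs.one
  mul_mem' := HasSectionCoeffs.mul
  algebraMap_mem' := HasSectionCoeffs.algebraMap

/-- `X` is a Mori dream space: it is `ℚ`-factorial, its Picard group is finitely generated, and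
its Cox ring (with respect to divisors which are a basis of `Cl(X) ⊗ ℚ = Pic(X) ⊗ ℚ`) is
finitely generated. -/
structure IsMoriDreamSpace : Prop where
  qfactorial : X.IsQFactorial
  pic_fg : AddGroup.FG X.Pic
  cox_fg : ∃ D : Fin X.picardRank → X.WeilDiv, X.GeneratesClass D ∧ (X.coxRing D).FG

/-- Invertible functions on the complement of the boundary `B` which are multiplicatively
independent modulo constants are algebraically independent. -/
def UnitsIndependent (B : X.PrimeDiv → ℚ) : Prop :=
  ∀ (d : ℕ) (u : Fin d → K), (∀ i, u i ≠ 0) →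
    (∀ i (P : X.PrimeDiv), B P = 0 → ord P.dvr (u i) = 0) →
    (∀ e : Fin d → ℤ, (∃ c : ℂ, ∏ i, u i ^ e i = algebraMap ℂ K c) → e = 0) →
      AlgebraicIndependent ℂ u

end ProjVar

end Pool.Agent.Helper94.LCY
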