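import Pool.Agent.Helper94.MDS.GeoB
import Pool.Agent.Helper94.MDS.Gen

/-!
# Orders of top forms and alternating forms
-/

noncomputable section

open KaehlerDifferential

namespace Pool.Agent.Helper94.LCY

variable {K : Type} [Field K] [Algebra ℂ K] {m : ℕ}

/-- The alternating form dual to a top form. -/
def IsDual (A : Ω[K⁄ℂ] [⋀^Fin (m + 1)]→ₗ[K] K) (θ : ⋀[K]^(m + 1) Ω[K⁄ℂ]) : Prop :=
  A ≠ 0 ∧ θ ≠ 0 ∧ ∀ ξ : Fin (m + 1) → Ω[K⁄ℂ], exteriorPower.ιMulti K (m + 1) ξ = A ξ • θ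

theorem exists_isDual (b : Module.Basis (Fin (m + 1)) K (Ω[K⁄ℂ]))
    {θ : ⋀[K]^(m + 1) Ω[K⁄ℂ]} (hθ : θ ≠ 0) : ∃ A, IsDual (m := m) A θ := by
  obtain ⟨a, ha⟩ := exists_eq_smul b θ
  have ha0 : a ≠ 0 := by
    rintro rfl
    rw [zero_smul] at ha
    exact hθ ha
  have h1 : ∀ ξ : Fin (m + 1) → Ω[K⁄ℂ], exteriorPower.ιMulti K (m + 1) ξ =
      (a⁻¹ • b.det) ξ • θ := by
    intro ξ
    rw [ιMulti_eq_det_smul b, ha, smul_smul, AlternatingMap.smul_apply, smul_eq_mul,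
      mul_comm a⁻¹, mul_assoc, inv_mul_cancel₀ ha0, mul_one, Module.Basis.det_apply,
      ← Matrix.det_transpose]
    rfl
  refine ⟨a⁻¹ • b.det, ?_, hθ, h1⟩
  intro h0
  have h2 := h1 b
  rw [h0, AlternatingMap.zero_apply, zero_smul] at h2
  exact ιMulti_basis_ne_zero b h2

theorem HasOrdForm.unique {n : ℕ} {v : ValuationSubring K} [IsDiscreteValuationRing v]
    {θ : ⋀[K]^n Ω[K⁄ℂ]} {k k' : ℤ} (h : HasOrdForm n v θ k) (h' : HasOrdForm n v θ k') :
    k = k' := by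
  obtain ⟨t, η, ht, hη, h1, h2⟩ := h
  obtain ⟨t', η', ht', hη', h1', h2'⟩ := h'
  have h3 : η ∈ regForms n v := (h1 η).2 ⟨1, v.one_mem, (one_smul _ _).symm⟩
  have h3' : η' ∈ regForms n v := (h1' η').2 ⟨1, v.one_mem, (one_smul _ _).symm⟩
  obtain ⟨a, ha, e⟩ := (h1' η).1 h3
  obtain ⟨a', ha', e'⟩ := (h1 η').1 h3'
  have h4 : a * a' = 1 := by
    have h5 : (1 : K) • η = (a * a') • η := by
      rw [one_smul, mul_smul, ← e', ← e]
    exact (smul_left_injective K hη h5).symm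
  have ha0 : a ≠ 0 := left_ne_zero_of_mul_eq_one h4
  have hoa : ord v a = 0 := by
    apply ord_eq_zero_of_mem ha
    rwa [← eq_inv_of_mul_eq_one_right h4]
  have h6 : (t : K) ^ k * a = (t' : K) ^ k' := by
    apply smul_left_injective K hη'
    change ((t : K) ^ k * a) • η' = (t' : K) ^ k' • η'
    rw [mul_smul, ← e, ← h2, h2']
  have h7 := congrArg (ord v) h6
  rw [ord_mul (zpow_ne_zero _ (irr_ne_zero ht)) ha0, ord_zpow (irr_ne_zero ht),
    ord_zpow (irr_ne_zero ht'), ord_irr ht, ord_irr ht', hoa] at h7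
  linarith

namespace IsDual

variable {A : Ω[K⁄ℂ] [⋀^Fin (m + 1)]→ₗ[K] K} {θ : ⋀[K]^(m + 1) Ω[K⁄ℂ]}

theorem exists_eq (h : IsDual A θ) (b : Module.Basis (Fin (m + 1)) K (Ω[K⁄ℂ]))
    (θ' : ⋀[K]^(m + 1) Ω[K⁄ℂ]) : ∃ g : K, θ' = g • θ := by
  obtain ⟨a, ha⟩ := exists_eq_smul b θ'
  exact ⟨a * A b, by rw [ha, h.2.2, smul_smul]⟩

theorem mem_regForms_of_frame {v : ValuationSubring K} (F : Frame v m) :
    exteriorPower.ιMulti K (m + 1) F.b ∈ regForms (m + 1) v := by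
  refine AddSubgroup.subset_closure ⟨1, Fin.cons (F.t : K) F.y, v.one_mem, fun i => ?_, ?_⟩
  · refine Fin.cases ?_ (fun i => ?_) i
    · exact F.t.2
    · exact F.res.mem i
  · rw [one_smul]
    congr 1
    funext i
    refine Fin.cases ?_ (fun i => ?_) i
    · exact F.b_zero
    · exact F.b_succ i

theorem hasOrdForm_smul_iff (h : IsDual A θ) {v : ValuationSubring K} [IsDiscreteValuationRing v]
    (F : Frame v m) {f : K} (hf : f ≠ 0) {k : ℤ} :
    HasOrdForm (m + 1) v (f • θ) k ↔ k = ord v f - ord v (A F.b) := by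
  have hAF := alt_ne_zero h.1 F.b
  have h1 : HasOrdForm (m + 1) v (f • θ) (ord v f - ord v (A F.b)) := by
    have h2 : f • θ = (f * (A F.b)⁻¹) • exteriorPower.ιMulti K (m + 1) F.b := by
      rw [h.2.2, smul_smul, mul_assoc, inv_mul_cancel₀ hAF, mul_one]
    rw [h2]
    have h3 := hasOrdForm_smul (v := v) (ιMulti_basis_ne_zero F.b)
      (regForms_iff F.b F.int (mem_regForms_of_frame F)) (mul_ne_zero hf (inv_ne_zero hAF))
    rwa [ord_mul hf (inv_ne_zero hAF), ord_inv hAF, ← sub_eq_add_neg] at h3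
  constructor
  · intro h2
    exact h2.unique h1
  · rintro rfl
    exact h1

theorem hasOrdForm_iff (h : IsDual A θ) {v : ValuationSubring K} [IsDiscreteValuationRing v]
    (F : Frame v m) {k : ℤ} : HasOrdForm (m + 1) v θ k ↔ k = - ord v (A F.b) := by
  have h1 := h.hasOrdForm_smul_iff F (one_ne_zero (α := K)) (k := k)
  rwa [one_smul, ord_one, zero_sub] at h1

end IsDual

namespace ProjVar

variable {ι : Type} {X : ProjVar K ι}

/-- The boundary is the divisor of poles of `θ`. -/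
def HasDiv (X : ProjVar K ι) (B : X.PrimeDiv → ℚ) (A : Ω[K⁄ℂ] [⋀^Fin (m + 1)]→ₗ[K] K) : Prop :=
  ∀ (P : X.PrimeDiv) (F : Frame P.dvr m), ((ord P.dvr (A F.b) : ℤ) : ℚ) = B P

theorem hasDiv_of {B : X.PrimeDiv → ℚ} {A : Ω[K⁄ℂ] [⋀^Fin (m + 1)]→ₗ[K] K}
    {θ : Form K (m + 1)} (h : IsDual A θ)
    (hθ : ∀ P : X.PrimeDiv, ∃ k : ℤ, HasOrder (m + 1) P.dvr θ k ∧ (k : ℚ) = - B P) :
    HasDiv X B A := by
  intro P F
  obtain ⟨k, hk, hkB⟩ := hθ P
  rw [hasOrder_iff] at hk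
  rw [(h.hasOrdForm_iff F).1 hk] at hkB
  push_cast at hkB
  linarith

theorem exists_frame_Pr [Finite ι] (htr : Algebra.trdeg ℂ K = (m + 1 : ℕ))
    {v : ValuationSubring K} (hv : v ∈ X.Pr) : Nonempty (Frame v m) := by
  have := dvr_Pr hv
  obtain ⟨y, hy⟩ := exists_resIndep htr hv
  obtain ⟨t, ht⟩ := exists_irr v
  obtain ⟨F, -, -⟩ := nonempty_frame X.fg_top htr hy ht
  exact ⟨F⟩

include X in
theorem exists_frame_div [Finite ι] (htr : Algebra.trdeg ℂ K = (m + 1 : ℕ))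
    {v : ValuationSubring K} (hv : IsDivisorial (m + 1) v) : Nonempty (Frame v m) := by
  have := hv.1
  obtain ⟨y, hy⟩ := hv.2
  obtain ⟨t, ht⟩ := exists_irr v
  obtain ⟨F, -, -⟩ := nonempty_frame X.fg_top htr (m := m) (y := y) hy ht
  exact ⟨F⟩

theorem isDivisorial_of_frame {v : ValuationSubring K} [IsDiscreteValuationRing v]
    (F : Frame v m) : IsDivisorial (m + 1) v := ⟨inferInstance, F.y, F.res⟩

/-- The order of a local generator. -/
theorem pluri_iff [Finite ι] (hN : X.IsNormal) (htr : Algebra.trdeg ℂ K = (m + 1 : ℕ))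
    {B : X.PrimeDiv → ℚ} {A : Ω[K⁄ℂ] [⋀^Fin (m + 1)]→ₗ[K] K}
    {θ : Form K (m + 1)} (h : IsDual A θ) (hdiv : HasDiv X B A)
    {R : LocalSubring K} (hR : X.IsPoint R) {v : ValuationSubring K} [IsDiscreteValuationRing v]
    (hRv : R ≤ v.toLocalSubring) (F : Frame v m) {m' : ℕ} {f : K} {θ' : Form K (m + 1)}
    (hgen : IsLocalGenerator (m + 1) X B R m' f θ') {l : ℤ} :
    HasPluriOrder (m + 1) v m' f θ' l ↔ l = - (m' * ord v (A F.b)) := by
  obtain ⟨hm', hf, hθ', hP⟩ := hgen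
  obtain ⟨g, hg⟩ := h.exists_eq F.b θ'
  have hg0 : g ≠ 0 := by
    rintro rfl
    rw [zero_smul] at hg
    exact hθ' hg
  have hh0 : f * g ^ m' ≠ 0 := mul_ne_zero hf (pow_ne_zero _ hg0)
  have hplur : ∀ {w : ValuationSubring K} [IsDiscreteValuationRing w] (G : Frame w m) {l : ℤ},
      HasPluriOrder (m + 1) w m' f θ' l ↔ l = ord w (f * g ^ m') - m' * ord w (A G.b) := by
    intro w _ G l
    have hiff : ∀ k : ℤ, HasOrder (m + 1) w θ' k ↔ k = ord w g - ord w (A G.b) := by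
      intro k
      rw [hasOrder_iff, hg]
      exact h.hasOrdForm_smul_iff G hg0
    rw [ord_mul hf (pow_ne_zero _ hg0), ord_pow hg0]
    constructor
    · rintro ⟨k, hk, rfl⟩
      rw [(hiff k).1 hk]
      ring
    · rintro rfl
      exact ⟨_, (hiff _).2 rfl, by ring⟩
  have hunit : ord v (f * g ^ m') = 0 := by
    rw [ord_eq_zero_iff hh0]
    refine val_eq_one_of hN hR hh0 (fun w hw hle => ?_) hRv
    have := dvr_Pr hw
    obtain ⟨G⟩ := exists_frame_Pr htr hw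
    obtain ⟨l', hl', hlB⟩ := hP (toPr hw) hle
    have h1 := (hplur G).1 hl'
    have h2 : ((ord w (A G.b) : ℤ) : ℚ) = B (toPr hw) := hdiv (toPr hw) G
    rw [h1, ← h2] at hlB
    push_cast at hlB
    have h3 : ((ord w (f * g ^ m') : ℤ) : ℚ) = 0 := by linarith
    exact_mod_cast h3
  rw [hplur F, hunit, zero_sub]

theorem isLocalGenerator_one [Finite ι] (htr : Algebra.trdeg ℂ K = (m + 1 : ℕ))
    {B : X.PrimeDiv → ℚ} {A : Ω[K⁄ℂ] [⋀^Fin (m + 1)]→ₗ[K] K}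
    {θ : Form K (m + 1)} (h : IsDual A θ) (hdiv : HasDiv X B A) (R : LocalSubring K) :
    IsLocalGenerator (m + 1) X B R 1 1 θ := by
  refine ⟨one_pos, one_ne_zero, h.2.1, fun P _ => ?_⟩
  obtain ⟨F⟩ := exists_frame_Pr htr P.mem_Pr'
  refine ⟨- ord P.dvr (A F.b), ⟨- ord P.dvr (A F.b), ?_, ?_⟩, ?_⟩
  · rw [hasOrder_iff]
    exact (h.hasOrdForm_iff F).2 rfl
  · rw [ord_one]
    push_cast
    ring
  · rw [← hdiv P F]
    push_cast
    ring

/-- The discrepancy in terms of a global generator. -/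
theorem hasDiscrepancy_iff [Finite ι] (hN : X.IsNormal) (htr : Algebra.trdeg ℂ K = (m + 1 : ℕ))
    {B : X.PrimeDiv → ℚ} {A : Ω[K⁄ℂ] [⋀^Fin (m + 1)]→ₗ[K] K}
    {θ : Form K (m + 1)} (h : IsDual A θ) (hdiv : HasDiv X B A)
    {v : ValuationSubring K} [IsDiscreteValuationRing v] (F : Frame v m) {a : ℚ} :
    HasDiscrepancy (m + 1) X B v a ↔ a = - ((ord v (A F.b) : ℤ) : ℚ) := by
  constructor
  · rintro ⟨R, hR, hRv, m', f, θ', hgen, l, hl, hla⟩
    rw [pluri_iff hN htr h hdiv hR hRv F hgen] at hl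
    rw [hl] at hla
    push_cast at hla
    have hm' : (m' : ℚ) ≠ 0 := by
      have := hgen.1
      exact_mod_cast this.ne'
    have h1 : (m' : ℚ) * a = m' * (-((ord v (A F.b) : ℤ) : ℚ)) := by rw [hla]; ring
    exact mul_left_cancel₀ hm' h1
  · rintro rfl
    obtain ⟨R, hR, hRv⟩ := X.exists_centre v (C_mem v)
    have hgen := isLocalGenerator_one htr h hdiv R
    refine ⟨R, hR, hRv, 1, 1, θ, hgen, - (((1 : ℕ) : ℤ) * ord v (A F.b)), ?_, ?_⟩
    · rw [pluri_iff hN htr h hdiv hR hRv F hgen]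
    · push_cast
      ring

/-- Log canonicity in terms of a global generator. -/
theorem lc_of [Finite ι] (hN : X.IsNormal) (htr : Algebra.trdeg ℂ K = (m + 1 : ℕ))
    {B : X.PrimeDiv → ℚ} {A : Ω[K⁄ℂ] [⋀^Fin (m + 1)]→ₗ[K] K}
    {θ : Form K (m + 1)} (h : IsDual A θ) (hdiv : HasDiv X B A)
    (hlc : IsLogCanonical (m + 1) X B) {v : ValuationSubring K} [IsDiscreteValuationRing v]
    (F : Frame v m) : ord v (A F.b) ≤ 1 := by
  obtain ⟨R, hR, hRv⟩ := X.exists_centre v (C_mem v)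
  obtain ⟨m', f, θ', hgen, hall⟩ := hlc R hR
  obtain ⟨l, hl, hle⟩ := hall v (isDivisorial_of_frame F) hRv
  rw [pluri_iff hN htr h hdiv hR hRv F hgen] at hl
  rw [hl] at hle
  have hm' : (0 : ℤ) < m' := by exact_mod_cast hgen.1
  nlinarith

end ProjVar

end Pool.Agent.Helper94.LCY
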