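import Pool.Agent.Helper94.MDS.GeoDefs

/-!
# Ranks of divisor class groups
-/

noncomputable section

namespace Pool.Agent.Helper94.LCY

/-! ### Finitely generated abelian groups -/

theorem divisiblePart_eq_bot {G : Type} [AddCommGroup G] (hG : AddGroup.FG G) :
    divisiblePart G = ⊥ := by
  have hfin : Module.Finite ℤ G := Module.Finite.iff_addGroup_fg.2 hG
  rw [divisiblePart, sSup_eq_bot]
  intro H hH
  let N : Submodule ℤ G := AddSubgroup.toIntSubmodule H
  have hN : N.FG := IsNoetherian.noetherian N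
  have hle : N ≤ Ideal.span {(2 : ℤ)} • N := by
    intro x hx
    obtain ⟨y, hy, e⟩ := hH 2 (by norm_num) x hx
    have h1 : x = (2 : ℤ) • y := by rw [← e, ← natCast_zsmul]; rfl
    rw [h1]
    exact Submodule.smul_mem_smul (Ideal.mem_span_singleton_self 2) hy
  obtain ⟨r, hr, hr0⟩ := Submodule.exists_sub_one_mem_and_smul_eq_zero_of_fg_of_le_smul
    (Ideal.span {(2 : ℤ)}) N hN hle
  rw [Ideal.mem_span_singleton] at hr
  have hrne : r ≠ 0 := by
    rintro rfl
    obtain ⟨c, hc⟩ := hr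
    omega
  rw [eq_bot_iff]
  intro x hx
  obtain ⟨y, hy, e⟩ := hH r.natAbs (Int.natAbs_pos.2 hrne) x hx
  rw [AddSubgroup.mem_bot, ← e]
  have h1 := hr0 y hy
  rcases Int.natAbs_eq r with h2 | h2
  · rw [h2, natCast_zsmul] at h1
    exact h1
  · rw [h2, neg_smul, natCast_zsmul, neg_eq_zero] at h1
    exact h1

theorem finrank_quotient_divisiblePart' {G : Type} [AddCommGroup G] (hG : AddGroup.FG G) :
    Module.finrank ℤ (G ⧸ divisiblePart G) = Module.finrank ℤ G := by
  rw [divisiblePart_eq_bot hG]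
  exact (QuotientAddGroup.quotientBot (G := G)).toIntLinearEquiv.finrank_eq

/-- Elements which generate a finitely generated abelian group up to torsion, as many as
the rank, are linearly independent. -/
theorem indep_of_gen {G : Type} [AddCommGroup G] (hG : AddGroup.FG G) {r : ℕ}
    (hr : Module.finrank ℤ G = r) (c : Fin r → G)
    (hc : ∀ x : G, ∃ k : ℕ, 0 < k ∧ ∃ γ : Fin r → ℤ, k • x = ∑ i, γ i • c i) (γ : Fin r → ℤ)
    (h0 : ∑ i, γ i • c i = 0) : γ = 0 := by
  have hfin : Module.Finite ℤ G := Module.Finite.iff_addGroup_fg.2 hG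
  let φ : (Fin r → ℤ) →ₗ[ℤ] G := Fintype.linearCombination ℤ c
  have hφ : ∀ γ, φ γ = ∑ i, γ i • c i := fun γ => Fintype.linearCombination_apply _ _ _
  have h1 : Module.finrank ℤ (LinearMap.range φ) + Module.finrank ℤ (LinearMap.ker φ) = r := by
    have h1 := Submodule.finrank_quotient_add_finrank (LinearMap.ker φ)
    rw [φ.quotKerEquivRange.finrank_eq, Module.finrank_fintype_fun_eq_card,
      Fintype.card_fin] at h1
    exact h1
  have h2 : Module.finrank ℤ (G ⧸ LinearMap.range φ) + Module.finrank ℤ (LinearMap.range φ) =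
      r := by
    have h1 := Submodule.finrank_quotient_add_finrank (LinearMap.range φ)
    rw [hr] at h1
    exact h1
  have h3 : Module.finrank ℤ (G ⧸ LinearMap.range φ) = 0 := by
    rw [Module.finrank_eq_zero_iff_isTorsion]
    intro y
    obtain ⟨x, rfl⟩ := Submodule.Quotient.mk_surjective _ y
    obtain ⟨k, hk, γ', h⟩ := hc x
    refine ⟨⟨(k : ℤ), mem_nonZeroDivisors_of_ne_zero (by exact_mod_cast hk.ne')⟩, ?_⟩
    change Submodule.Quotient.mk ((k : ℤ) • x) = (0 : G ⧸ LinearMap.range φ)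
    rw [Submodule.Quotient.mk_eq_zero, natCast_zsmul, h, ← hφ]
    exact LinearMap.mem_range_self _ _
  have h4 : Module.finrank ℤ (LinearMap.ker φ) = 0 := by omega
  rw [Module.finrank_eq_zero_iff_isTorsion] at h4
  obtain ⟨a, ha⟩ := @h4 ⟨γ, by rw [LinearMap.mem_ker, hφ, h0]⟩
  have h5 := congrArg Subtype.val ha
  have ha0 : (a : ℤ) ≠ 0 := nonZeroDivisors.ne_zero a.2
  funext i
  have h6 := congrFun h5 i
  change (a : ℤ) * γ i = 0 at h6
  exact (mul_eq_zero.1 h6).resolve_left ha0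

/-- A finitely generated abelian group of rank `r` has `r` elements which generate it up to
torsion. -/
theorem exists_gen {G : Type} [AddCommGroup G] (hG : AddGroup.FG G) {r : ℕ}
    (hr : Module.finrank ℤ G = r) : ∃ c : Fin r → G,
      ∀ x : G, ∃ k : ℕ, 0 < k ∧ ∃ γ : Fin r → ℤ, k • x = ∑ i, γ i • c i := by
  have hfin : Module.Finite ℤ G := Module.Finite.iff_addGroup_fg.2 hG
  set T := Submodule.torsion ℤ G with hT
  have h1 := Submodule.finrank_quotient_add_finrank T
  have h2 : Module.finrank ℤ T = 0 := by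
    rw [Module.finrank_eq_zero_iff_isTorsion]
    exact Submodule.torsion_isTorsion
  have h3 : Module.finrank ℤ (G ⧸ T) = r := by omega
  have hfree : Module.Free ℤ (G ⧸ T) := Module.free_of_finite_type_torsion_free'
  let b := Module.finBasisOfFinrankEq ℤ (G ⧸ T) h3
  have h4 : ∀ i, ∃ c : G, Submodule.Quotient.mk c = b i := fun i =>
    Submodule.Quotient.mk_surjective _ _
  choose c hc using h4
  refine ⟨c, fun x => ?_⟩
  have h5 : Submodule.Quotient.mk x = (∑ i, b.repr (Submodule.Quotient.mk x) i • b i : G ⧸ T) :=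
    (b.sum_repr _).symm
  set n : Fin r → ℤ := fun i => b.repr (Submodule.Quotient.mk x) i with hn
  have h6 : x - ∑ i, n i • c i ∈ T := by
    rw [← Submodule.Quotient.mk_eq_zero, Submodule.Quotient.mk_sub, sub_eq_zero, h5]
    have h7 : (Submodule.Quotient.mk (∑ i, n i • c i) : G ⧸ T) = ∑ i, n i • b i := by
      have h8 : (Submodule.Quotient.mk (∑ i, n i • c i) : G ⧸ T) =
        T.mkQ (∑ i, n i • c i) := rfl
      rw [h8, map_sum]
      refine Finset.sum_congr rfl fun i _ => ?_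
      rw [map_zsmul]
      congr 1
      exact hc i
    rw [h7]
  obtain ⟨a, ha⟩ := (Submodule.mem_torsion_iff _).1 h6
  have ha0 : (a : ℤ) ≠ 0 := nonZeroDivisors.ne_zero a.2
  have ha' : (a : ℤ) • (x - ∑ i, n i • c i) = 0 := ha
  have h8 : ((a : ℤ).natAbs) • x = ∑ i, (((a : ℤ).natAbs : ℤ) * n i) • c i := by
    have h9 : (((a : ℤ).natAbs : ℤ)) • (x - ∑ i, n i • c i) = 0 := by
      rcases Int.natAbs_eq (a : ℤ) with h10 | h10
      · rw [← h10]; exact ha'
      · have h11 : ((a : ℤ).natAbs : ℤ) = -(a : ℤ) := by omega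
        rw [h11, neg_smul, ha', neg_zero]
    rw [smul_sub, sub_eq_zero, natCast_zsmul] at h9
    rw [h9, Finset.smul_sum]
    refine Finset.sum_congr rfl fun i _ => ?_
    rw [mul_smul, natCast_zsmul]
  exact ⟨_, Int.natAbs_pos.2 ha0, _, h8⟩

namespace ProjVar

variable {K : Type} [Field K] [Algebra ℂ K] {ι : Type} {X : ProjVar K ι}

theorem picardRank_eq (h : AddGroup.FG X.Pic) : X.picardRank = Module.finrank ℤ X.Pic :=
  finrank_quotient_divisiblePart' h

/-- The class of a Cartier divisor. -/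
def cls (E : X.WeilDiv) (hE : E ∈ X.cartier) : X.Pic :=
  QuotientAddGroup.mk (s := X.principal.addSubgroupOf X.cartier) ⟨E, hE⟩

theorem cls_surj (c : X.Pic) : ∃ (E : X.WeilDiv) (hE : E ∈ X.cartier), cls E hE = c := by
  obtain ⟨⟨E, hE⟩, h⟩ := QuotientAddGroup.mk_surjective (s := X.principal.addSubgroupOf X.cartier) c
  exact ⟨E, hE, h⟩

theorem cls_eq_zero {E : X.WeilDiv} {hE : E ∈ X.cartier} : cls E hE = 0 ↔ E ∈ X.principal := by
  have h1 : cls E hE = 0 ↔ (⟨E, hE⟩ : X.cartier) ∈ X.principal.addSubgroupOf X.cartier :=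
    QuotientAddGroup.eq_zero_iff _
  rw [h1, AddSubgroup.mem_addSubgroupOf]

/-- The class map as a homomorphism. -/
def clsHom : X.cartier →+ X.Pic := QuotientAddGroup.mk' (X.principal.addSubgroupOf X.cartier)

theorem clsHom_apply (E : X.cartier) : clsHom E = cls (E : X.WeilDiv) E.2 := rfl

theorem clsHom_eq_zero {E : X.cartier} : clsHom E = 0 ↔ (E : X.WeilDiv) ∈ X.principal := by
  rw [clsHom_apply, cls_eq_zero]

theorem clsHom_surj (c : X.Pic) : ∃ E : X.cartier, clsHom E = c := by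
  obtain ⟨E, hE, h⟩ := cls_surj c
  exact ⟨⟨E, hE⟩, h⟩

/-- Generators of the rational class group, as many as the Picard rank, are independent. -/
theorem indep_of_generates (hQ : X.IsQFactorial) (hfg : AddGroup.FG X.Pic)
    {D : Fin X.picardRank → X.WeilDiv} (hD : X.GeneratesClass D) (γ : Fin X.picardRank → ℤ)
    (h0 : ∑ i, γ i • D i ∈ X.principal) : γ = 0 := by
  choose k hk hkD using fun i => hQ (D i)
  set e : ℕ := ∏ i, k i with he
  have he0 : 0 < e := Finset.prod_pos fun i _ => hk i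
  have heD : ∀ i, e • D i ∈ X.cartier := by
    intro i
    obtain ⟨c, hc⟩ := Finset.dvd_prod_of_mem k (Finset.mem_univ i)
    rw [he, hc, mul_comm, mul_smul]
    exact X.cartier.nsmul_mem (hkD i) c
  have hsum : ∀ δ : Fin X.picardRank → ℤ, ∑ i, δ i • clsHom (⟨e • D i, heD i⟩ : X.cartier) =
      clsHom (∑ i, δ i • (⟨e • D i, heD i⟩ : X.cartier)) := by
    intro δ
    rw [map_sum]
    exact Finset.sum_congr rfl fun i _ => (map_zsmul _ _ _).symm
  have hcoe : ∀ δ : Fin X.picardRank → ℤ,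
      ((∑ i, δ i • (⟨e • D i, heD i⟩ : X.cartier) : X.cartier) : X.WeilDiv) =
        e • ∑ i, δ i • D i := by
    intro δ
    rw [AddSubgroup.val_finsetSum, Finset.smul_sum]
    refine Finset.sum_congr rfl fun i _ => ?_
    change δ i • (e • D i) = e • (δ i • D i)
    rw [smul_comm]
  refine indep_of_gen hfg (picardRank_eq hfg).symm
    (fun i => clsHom (⟨e • D i, heD i⟩ : X.cartier)) (fun x => ?_) γ ?_
  · obtain ⟨E, rfl⟩ := clsHom_surj x
    obtain ⟨k', δ, hk', hδ⟩ := hD E
    refine ⟨e * k', Nat.mul_pos he0 hk', δ, ?_⟩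
    rw [hsum, ← map_nsmul, ← sub_eq_zero, ← map_sub, clsHom_eq_zero]
    have h1 : (((e * k') • E - ∑ i, δ i • (⟨e • D i, heD i⟩ : X.cartier) : X.cartier) :
        X.WeilDiv) = e • (k' • (E : X.WeilDiv) - ∑ i, δ i • D i) := by
      rw [AddSubgroup.coe_sub, hcoe, smul_sub, AddSubgroup.coe_nsmul, mul_smul]
    rw [h1]
    exact X.principal.nsmul_mem hδ e
  · rw [hsum, clsHom_eq_zero, hcoe]
    exact X.principal.nsmul_mem h0 e

/-- Existence of generators of the rational class group. -/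
theorem exists_generates (hQ : X.IsQFactorial) (hfg : AddGroup.FG X.Pic) :
    ∃ D : Fin X.picardRank → X.WeilDiv, X.GeneratesClass D := by
  obtain ⟨c, hc⟩ := exists_gen hfg (picardRank_eq hfg).symm
  choose D hD using fun i => clsHom_surj (c i)
  refine ⟨fun i => D i, fun E => ?_⟩
  obtain ⟨k, hk, hkE⟩ := hQ E
  obtain ⟨k', hk', γ, h⟩ := hc (clsHom ⟨k • E, hkE⟩)
  refine ⟨k' * k, γ, Nat.mul_pos hk' hk, ?_⟩
  have h1 : clsHom (k' • (⟨k • E, hkE⟩ : X.cartier) - ∑ i, γ i • D i) = 0 := by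
    rw [map_sub, map_nsmul, h, map_sum, sub_eq_zero]
    refine Finset.sum_congr rfl fun i _ => ?_
    rw [map_zsmul, hD]
  rw [clsHom_eq_zero] at h1
  have h2 : ((k' • (⟨k • E, hkE⟩ : X.cartier) - ∑ i, γ i • D i : X.cartier) : X.WeilDiv) =
      (k' * k) • E - ∑ i, γ i • (D i : X.WeilDiv) := by
    rw [AddSubgroup.coe_sub, AddSubgroup.coe_nsmul, AddSubgroup.val_finsetSum, mul_smul]
    rfl
  rwa [h2] at h1

/-- In Picard rank one, every non-torsion Cartier divisor generates the rational class group. -/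
theorem generates_of_rank_one (hQ : X.IsQFactorial) (hfg : AddGroup.FG X.Pic)
    (h1 : X.picardRank = 1) {H : X.WeilDiv} (hH : H ∈ X.cartier)
    (hHt : ∀ k : ℤ, k • H ∈ X.principal → k = 0) (E : X.WeilDiv) :
    ∃ (k : ℕ) (n : ℤ), 0 < k ∧ k • E - n • H ∈ X.principal := by
  have hr := picardRank_eq hfg
  rw [h1] at hr
  obtain ⟨c, hc⟩ := exists_gen hfg hr.symm
  simp only [Finset.univ_unique, Fin.default_eq_zero, Finset.sum_singleton] at hc
  obtain ⟨k, hk, γ, h⟩ := hc (clsHom ⟨H, hH⟩)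
  obtain ⟨a, ha, haE⟩ := hQ E
  obtain ⟨k', hk', γ', h'⟩ := hc (clsHom ⟨a • E, haE⟩)
  have hγ : γ 0 ≠ 0 := by
    intro h0
    rw [h0, zero_smul, ← map_nsmul, clsHom_eq_zero] at h
    have h2 := hHt k (by rw [natCast_zsmul]; exact h)
    exact hk.ne' (by exact_mod_cast h2)
  -- `γ 0 • (k' • a • E) = γ' 0 • k • H`
  have key : clsHom (γ 0 • (k' • (⟨a • E, haE⟩ : X.cartier)) -
      γ' 0 • (k • (⟨H, hH⟩ : X.cartier))) = 0 := by
    rw [map_sub, map_zsmul, map_zsmul, map_nsmul, map_nsmul, h, h', smul_smul, smul_smul,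
      mul_comm, sub_self]
  rw [clsHom_eq_zero] at key
  have h2 : ((γ 0 • (k' • (⟨a • E, haE⟩ : X.cartier)) - γ' 0 • (k • (⟨H, hH⟩ : X.cartier)) :
      X.cartier) : X.WeilDiv) = (γ 0 * (k' * a : ℕ)) • E - (γ' 0 * k) • H := by
    rw [AddSubgroup.coe_sub, AddSubgroup.coe_zsmul, AddSubgroup.coe_zsmul,
      AddSubgroup.coe_nsmul, AddSubgroup.coe_nsmul]
    change γ 0 • (k' • (a • E)) - γ' 0 • (k • H) = _
    rw [← natCast_zsmul, ← natCast_zsmul, ← natCast_zsmul, smul_smul, smul_smul, smul_smul]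
    push_cast
    rw [mul_assoc]
  rw [h2] at key
  rcases lt_or_gt_of_ne hγ with hneg | hpos
  · refine ⟨(-(γ 0)).toNat * (k' * a), -(γ' 0 * k), ?_, ?_⟩
    · exact Nat.mul_pos (by omega) (Nat.mul_pos hk' ha)
    · have h3 : (((-(γ 0)).toNat * (k' * a) : ℕ) : ℤ) = -(γ 0 * (k' * a : ℕ)) := by
        rw [Nat.cast_mul, Int.toNat_of_nonneg (by omega)]
        ring
      have h4 : ((-(γ 0)).toNat * (k' * a)) • E - (-(γ' 0 * k)) • H =
          -((γ 0 * (k' * a : ℕ)) • E - (γ' 0 * k) • H) := by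
        rw [← natCast_zsmul E, h3]
        module
      rw [h4]
      exact X.principal.neg_mem key
  · refine ⟨(γ 0).toNat * (k' * a), γ' 0 * k, ?_, ?_⟩
    · exact Nat.mul_pos (by omega) (Nat.mul_pos hk' ha)
    · have h3 : (((γ 0).toNat * (k' * a) : ℕ) : ℤ) = γ 0 * (k' * a : ℕ) := by
        rw [Nat.cast_mul, Int.toNat_of_nonneg (by omega)]
      rw [← natCast_zsmul E, h3]
      exact key

end ProjVar

end Pool.Agent.Helper94.LCY
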