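import Pool.Agent.Helper94.MDS.Semi

/-!
# The logarithmic derivation defined by the units
-/

noncomputable section

open KaehlerDifferential

namespace Pool.Agent.Helper94.LCY

variable {K : Type} [Field K] [Algebra ℂ K] {m : ℕ}

/-- Units, torsion and finiteness of the complement of the boundary. -/
structure CYUnits (X : CYData K m) where
  u : Fin m → K
  ind : AlgebraicIndependent ℂ u
  ordu : ∀ v ∈ X.U, ∀ i, ord v (u i) = 0
  unit : ∀ g : K, g ≠ 0 → (∀ v ∈ X.U, ord v g = 0) →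
    ∃ (c : ℂ) (k : Fin m → ℤ), g = algebraMap ℂ K c * ∏ i, u i ^ k i
  tors : ∀ v ∈ X.U, ∃ g : K, g ≠ 0 ∧ 0 < ord v g ∧ ∀ v' ∈ X.U, v' ≠ v → ord v' g = 0
  finDim : ∀ E, X.BdDiv E → FiniteDimensional ℂ (X.sections E)

namespace CYUnits

variable {X : CYData K m} (S : CYUnits X)

theorem u_ne (i : Fin m) : S.u i ≠ 0 := S.ind.ne_zero i

theorem u_mem {v : ValuationSubring K} (hv : v ∈ X.U) (i : Fin m) : S.u i ∈ v := by
  have := CYData.dvr_U hv
  exact mem_of_ord_zero (S.u_ne i) (S.ordu v hv i)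

theorem u_mem_Q (i : Fin m) : S.u i ∈ X.Q := fun _ hv => S.u_mem hv i

theorem aeval_mem_Q (p : MvPolynomial (Fin m) ℂ) : MvPolynomial.aeval S.u p ∈ X.Q := by
  intro v hv
  have := CYData.dvr_U hv
  exact aeval_mem (C_mem v) (S.u_mem hv) p

theorem aeval_ne {p : MvPolynomial (Fin m) ℂ} (hp : p ≠ 0) : MvPolynomial.aeval S.u p ≠ 0 :=
  fun h => hp (algebraicIndependent_iff.1 S.ind p h)

/-- The linear form on the differentials given by the units. -/
def lin : Ω[K⁄ℂ] →ₗ[K] K where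
  toFun ζ := X.A (Fin.cons ζ fun i => dlog (S.u i))
  map_add' ζ η := by
    have h := (X.A.curryLeft).map_add ζ η
    have h2 := congrArg (fun f => f fun i => dlog (S.u i)) h
    simp only [AlternatingMap.curryLeft_apply_apply, AlternatingMap.add_apply] at h2
    exact h2
  map_smul' a ζ := by
    have h := (X.A.curryLeft).map_smul a ζ
    have h2 := congrArg (fun f => f fun i => dlog (S.u i)) h
    simp only [AlternatingMap.curryLeft_apply_apply, AlternatingMap.smul_apply] at h2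
    exact h2

theorem lin_apply (ζ : Ω[K⁄ℂ]) : S.lin ζ = X.A (Fin.cons ζ fun i => dlog (S.u i)) := rfl

/-- The derivation given by the units. -/
def δ : Derivation ℂ K K := S.lin.compDer (D ℂ K)

theorem δ_apply (g : K) : S.δ g = S.lin (D ℂ K g) := rfl

theorem δ_eq {g : K} (hg : g ≠ 0) : S.δ g = g * S.lin (dlog g) := by
  rw [δ_apply, D_eq_smul_dlog hg, map_smul, smul_eq_mul]

theorem lin_dlog_u (i : Fin m) : S.lin (dlog (S.u i)) = 0 := by
  rw [lin_apply]
  refine X.A.map_eq_zero_of_eq _ (i := 0) (j := i.succ) ?_ (Fin.succ_ne_zero i).symm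
  rw [Fin.cons_zero, Fin.cons_succ]

theorem δ_u (i : Fin m) : S.δ (S.u i) = 0 := by
  rw [S.δ_eq (S.u_ne i), S.lin_dlog_u, mul_zero]

theorem lin_dlog_mem_U {v : ValuationSubring K} (hv : v ∈ X.U) {g : K} (hg : g ≠ 0)
    (h : ord v g = 0) : S.lin (dlog g) ∈ v := by
  have := CYData.dvr_U hv
  obtain ⟨F⟩ := X.exists_frame hv.1
  refine X.A_mem_U hv F fun i j => ?_
  refine Fin.cases ?_ (fun i => ?_) i
  · exact F.repr_dlog_mem hg h j
  · exact F.repr_dlog_mem (S.u_ne i) (S.ordu v hv i) j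

theorem lin_dlog_mem_B {v : ValuationSubring K} (hv : v ∈ X.Bd) {g : K} (hg : g ≠ 0) :
    S.lin (dlog g) ∈ v := by
  have h := X.A_mem_B hv (g := Fin.cons g S.u) (fun i => by
    refine Fin.cases ?_ (fun i => ?_) i
    · exact hg
    · exact S.u_ne i)
  convert h using 1
  rw [lin_apply]
  congr 1
  funext i
  refine Fin.cases ?_ (fun i => ?_) i <;> rfl

theorem δ_mem_U {v : ValuationSubring K} (hv : v ∈ X.U) {g : K} (hg : g ∈ v) : S.δ g ∈ v := by
  have := CYData.dvr_U hv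
  obtain ⟨F⟩ := X.exists_frame hv.1
  refine X.A_mem_U hv F fun i j => ?_
  refine Fin.cases ?_ (fun i => ?_) i
  · exact F.int g hg j
  · exact F.repr_dlog_mem (S.u_ne i) (S.ordu v hv i) j

theorem δ_vge_B {v : ValuationSubring K} (hv : v ∈ X.Bd) {k : ℤ} {g : K} (hg : vge v k g) :
    vge v k (S.δ g) := by
  have := CYData.dvr_B hv
  by_cases h0 : g = 0
  · rw [h0, map_zero]; exact vge.zero
  · rw [S.δ_eq h0, mul_comm]
    exact vge.mem_mul (S.lin_dlog_mem_B hv h0) hg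

theorem δ_sections {E : ValuationSubring K → ℤ} (hE : X.BdDiv E) {g : K}
    (hg : g ∈ X.sections E) : S.δ g ∈ X.sections E := by
  intro v hv
  rcases X.mem_U_or_Bd hv with h | h
  · have := CYData.dvr_U h
    have h1 := hg v hv
    rw [hE v h, neg_zero] at h1 ⊢
    exact vge_zero_iff.2 (S.δ_mem_U h h1.mem)
  · exact S.δ_vge_B h (hg v hv)

theorem semiS : SemiS (S.δ : K →ₗ[ℂ] K) := by
  refine X.semiS 0 S.ind S.δ S.δ_u one_ne_zero fun g => ?_
  rw [map_one, one_mul, δ_apply, lin_apply]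
  congr 1
  funext i
  refine Fin.cases ?_ (fun i => ?_) i
  · rw [Fin.insertNth_apply_same, Fin.cons_zero]
  · rw [Fin.cons_succ, ← Fin.succAbove_zero, Fin.insertNth_apply_succAbove]

include S in
/-- The field `K` is the fraction field of `Q`. -/
theorem exists_div_Q (f : K) : ∃ a b, a ∈ X.Q ∧ b ∈ X.Q ∧ b ≠ 0 ∧ f = a / b := by
  classical
  by_cases hf : f = 0
  · exact ⟨0, 1, X.Q.zero_mem, X.Q.one_mem, one_ne_zero, by rw [hf, zero_div]⟩
  have hfin : {v ∈ X.Pr | ord v f ≠ 0}.Finite := X.fin f hf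
  have htors : ∀ v : ValuationSubring K, ∃ g : K, g ≠ 0 ∧ (v ∈ X.U → 0 < ord v g) ∧
      ∀ v' ∈ X.U, v' ≠ v → ord v' g = 0 := by
    intro v
    by_cases hv : v ∈ X.U
    · obtain ⟨g, hg, h1, h2⟩ := S.tors v hv
      exact ⟨g, hg, fun _ => h1, h2⟩
    · refine ⟨1, one_ne_zero, fun h => absurd h hv, fun v' hv' _ => ?_⟩
      have := CYData.dvr_U hv'
      exact ord_one
  choose g hg0 hg1 hg2 using htors
  set T := hfin.toFinset with hT
  set b := ∏ v ∈ T, g v ^ (ord v f).natAbs with hb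
  have hb0 : b ≠ 0 := Finset.prod_ne_zero_iff.2 fun v _ => pow_ne_zero _ (hg0 v)
  have hord : ∀ v ∈ X.U, 0 ≤ ord v b ∧ -(ord v f) ≤ ord v b := by
    intro v hv
    have := CYData.dvr_U hv
    have h1 : ord v b = ∑ v' ∈ T, ((ord v' f).natAbs : ℤ) * ord v (g v') := by
      rw [hb, ord_prod fun v' _ => pow_ne_zero _ (hg0 v')]
      exact Finset.sum_congr rfl fun v' _ => ord_pow (hg0 v') _
    have hnn : ∀ v', 0 ≤ ord v (g v') := by
      intro v'
      by_cases h : v = v'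
      · subst h; exact (hg1 v hv).le
      · exact (hg2 v' v hv h).ge
    have h2 : ∀ v' ∈ T, 0 ≤ ((ord v' f).natAbs : ℤ) * ord v (g v') := fun v' _ =>
      mul_nonneg (by positivity) (hnn v')
    have h3 : 0 ≤ ord v b := by
      rw [h1]; exact Finset.sum_nonneg h2
    refine ⟨h3, ?_⟩
    by_cases hvT : v ∈ T
    · have h4 := Finset.single_le_sum h2 hvT
      rw [← h1] at h4
      have h5 := hg1 v hv
      have h6 : -(ord v f) ≤ ((ord v f).natAbs : ℤ) := by omega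
      nlinarith
    · have h4 : ord v f = 0 := by
        by_contra h5
        apply hvT
        rw [hT, Set.Finite.mem_toFinset]
        exact ⟨hv.1, h5⟩
      omega
  refine ⟨f * b, b, ?_, ?_, hb0, ?_⟩
  · intro v hv
    have := CYData.dvr_U hv
    rw [← ord_nonneg_iff (mul_ne_zero hf hb0), ord_mul hf hb0]
    have := (hord v hv).2
    omega
  · intro v hv
    have := CYData.dvr_U hv
    rw [← ord_nonneg_iff hb0]
    exact (hord v hv).1
  · field_simp

theorem exists_cons : ∃ g : K, AlgebraicIndependent ℂ (Fin.cons g S.u : Fin (m + 1) → K) := by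
  by_contra hcon
  push Not at hcon
  have h1 : Algebra.IsAlgebraic (Algebra.adjoin ℂ (Set.range S.u)) K := by
    refine ⟨fun g => ?_⟩
    by_contra h2
    apply hcon g
    have h3 : AlgebraicIndependent ℂ (fun o : Option (Fin m) => o.elim g S.u) :=
      AlgebraicIndependent.option_iff.2 ⟨S.ind, h2⟩
    have h4 := h3.comp (finSuccEquiv m) (finSuccEquiv m).injective
    convert h4 using 1
    funext i
    refine Fin.cases ?_ (fun i => ?_) i
    · simp
    · simp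
  have h2 := (S.ind.isTranscendenceBasis_iff_isAlgebraic.2 h1).cardinalMk_eq_trdeg
  rw [X.tr, Cardinal.mk_fin] at h2
  have h3 : m = m + 1 := by exact_mod_cast h2
  omega

theorem δ_ne : ∃ g : K, S.δ g ≠ 0 := by
  obtain ⟨g, hg⟩ := S.exists_cons
  obtain ⟨V, hV, hres, hlt⟩ := exists_dvr X.fg X.tr hg
  have hg0 : g ≠ 0 := by
    have := hg.ne_zero 0
    simpa using this
  obtain ⟨F, hF⟩ := X.exists_frame_of hres
  have h1 := F.ord_alt_cons X.A X.A_ne hg0 ((ord_pos_iff hg0).2 hlt).ne'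
  rw [hF] at h1
  refine ⟨g, ?_⟩
  rw [S.δ_eq hg0]
  exact mul_ne_zero hg0 h1.1

theorem mem_span_eigen {g : K} (hg : g ∈ X.Q) :
    g ∈ Submodule.span ℂ {x | x ∈ X.Q ∧ ∃ lam : ℂ, S.δ x = lam • x} := by
  have hE := X.bdDiv_pol hg
  have := S.finDim _ hE
  have h := Pool.Agent.Helper94.LCY.mem_span_eigen S.semiS (X.sections (CYData.pol g))
    (fun x hx => S.δ_sections hE hx) (X.mem_sections_pol g)
  refine Submodule.span_mono ?_ h
  rintro x ⟨hx, lam, hlam⟩
  exact ⟨X.sections_le_Q hE hx, lam, hlam⟩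

theorem exists_eigen_ne : ∃ g ∈ X.Q, g ≠ 0 ∧ ∃ lam : ℂ, lam ≠ 0 ∧ S.δ g = lam • g := by
  by_contra hcon
  push Not at hcon
  have h1 : ∀ g ∈ X.Q, S.δ g = 0 := by
    intro g hg
    refine Submodule.span_induction (p := fun x _ => S.δ x = 0) ?_ (map_zero _) ?_ ?_
      (S.mem_span_eigen hg)
    · rintro x ⟨hx, lam, hlam⟩
      by_cases hx0 : x = 0
      · rw [hx0, map_zero]
      · by_cases hl : lam = 0
        · rw [hlam, hl, zero_smul]
        · exact absurd hlam (hcon x hx hx0 lam hl)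
    · intro x y _ _ hx hy
      rw [map_add, hx, hy, add_zero]
    · intro a x _ hx
      rw [Derivation.map_smul, hx, smul_zero]
  obtain ⟨g, hg⟩ := S.δ_ne
  apply hg
  obtain ⟨a, b, ha, hb, hb0, rfl⟩ := S.exists_div_Q g
  rw [Derivation.leibniz_div, h1 a ha, h1 b hb]
  simp

/-- eigenvectors -/
def IsEig (g : K) (lam : ℂ) : Prop := g ≠ 0 ∧ S.δ g = lam • g

theorem isEig_iff {g : K} {lam : ℂ} (hg : g ≠ 0) :
    S.IsEig g lam ↔ S.lin (dlog g) = algebraMap ℂ K lam := by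
  unfold IsEig
  rw [S.δ_eq hg, Algebra.smul_def, mul_comm g]
  constructor
  · rintro ⟨-, h⟩
    exact mul_right_cancel₀ hg h
  · intro h
    exact ⟨hg, by rw [h]⟩

theorem IsEig.lin {S : CYUnits X} {g : K} {lam : ℂ} (h : S.IsEig g lam) :
    S.lin (dlog g) = algebraMap ℂ K lam := (S.isEig_iff h.1).1 h

theorem IsEig.mul {S : CYUnits X} {g g' : K} {lam lam' : ℂ} (h : S.IsEig g lam)
    (h' : S.IsEig g' lam') : S.IsEig (g * g') (lam + lam') := by
  rw [S.isEig_iff (mul_ne_zero h.1 h'.1), dlog_mul h.1 h'.1, map_add, h.lin, h'.lin, map_add]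

theorem IsEig.zpow {S : CYUnits X} {g : K} {lam : ℂ} (h : S.IsEig g lam) (k : ℤ) :
    S.IsEig (g ^ k) (k * lam) := by
  rw [S.isEig_iff (zpow_ne_zero _ h.1), dlog_zpow h.1, map_smul, h.lin, map_mul, smul_eq_mul]
  simp

theorem IsEig.inv {S : CYUnits X} {g : K} {lam : ℂ} (h : S.IsEig g lam) :
    S.IsEig g⁻¹ (-lam) := by
  have := h.zpow (-1)
  simpa using this

theorem IsEig.div {S : CYUnits X} {g g' : K} {lam lam' : ℂ} (h : S.IsEig g lam)
    (h' : S.IsEig g' lam') : S.IsEig (g / g') (lam - lam') := by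
  rw [div_eq_mul_inv, sub_eq_add_neg]
  exact h.mul h'.inv

theorem IsEig.pow {S : CYUnits X} {g : K} {lam : ℂ} (h : S.IsEig g lam) (k : ℕ) :
    S.IsEig (g ^ k) (k * lam) := by
  have := h.zpow k
  simpa using this

theorem isEig_one : S.IsEig 1 0 := ⟨one_ne_zero, by rw [Derivation.map_one_eq_zero, zero_smul]⟩

theorem isEig_zero_iff {g : K} (hg : g ≠ 0) : S.IsEig g 0 ↔ S.δ g = 0 := by
  unfold IsEig
  rw [zero_smul]
  exact ⟨fun h => h.2, fun h => ⟨hg, h⟩⟩

/-- At a prime divisor outside of the boundary where the `u i` have independent residues, an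
eigenvector with nonzero order is impossible. -/
theorem not_resIndep {v : ValuationSubring K} (hv : v ∈ X.U) {g : K} {lam : ℂ}
    (hg : S.IsEig g lam) (h : ord v g ≠ 0) : ¬ ResIndep v S.u := by
  intro hres
  have := CYData.dvr_U hv
  obtain ⟨F, hF⟩ := X.exists_frame_of hres
  have h1 := F.ord_alt_cons X.A X.A_ne hg.1 h
  rw [hF, ← S.lin_apply, hg.lin, ord_C, X.ordA_U v hv.1 hv.2 F] at h1
  have := h1.2
  omega

/-- The valuation which measures the weights. -/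
theorem exists_V : ∃ V : ValuationSubring K, IsDiscreteValuationRing V ∧ ∃ κ : ℂ, κ ≠ 0 ∧
    (∀ g lam, S.IsEig g lam → lam = ord V g * κ) ∧
    (∃ g lam, g ∈ X.Q ∧ S.IsEig g lam ∧ 0 < ord V g) ∧
    (∃ g lam, g ∈ X.Q ∧ S.IsEig g lam ∧ ord V g < 0) := by
  obtain ⟨q, hqQ, hq0, lam, hlam, hq⟩ := S.exists_eigen_ne
  have hqe : S.IsEig q lam := ⟨hq0, hq⟩
  have hqne : S.δ q ≠ 0 := by
    rw [hq]
    exact smul_ne_zero hlam hq0
  have hind := cons_of_deriv S.ind S.δ S.δ_u hqne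
  obtain ⟨V, hV, hres, hlt⟩ := exists_dvr X.fg X.tr hind
  obtain ⟨F, hF⟩ := X.exists_frame_of hres
  have hb : 0 < ord V q := (ord_pos_iff hq0).2 hlt
  have hA1 : ord V (X.A F.b) = 1 := by
    have h1 := F.ord_alt_cons X.A X.A_ne hq0 hb.ne'
    rw [hF, ← S.lin_apply, hqe.lin, ord_C] at h1
    have := h1.2
    omega
  have hweight : ∀ g lam', S.IsEig g lam' → lam' = ord V g * (lam / ord V q) := by
    intro g lam' hg
    set y := g ^ (ord V q) / q ^ (ord V g) with hy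
    have hye : S.IsEig y ((ord V q : ℂ) * lam' - (ord V g : ℂ) * lam) :=
      (hg.zpow _).div (hqe.zpow _)
    have hyo : ord V y = 0 := by
      rw [hy, ord_div (zpow_ne_zero _ hg.1) (zpow_ne_zero _ hq0), ord_zpow hg.1, ord_zpow hq0]
      ring
    have h1 := F.alt_cons X.A (dlog y)
    rw [hF, ← S.lin_apply, hye.lin] at h1
    have h2 : vge V 1 (algebraMap ℂ K ((ord V q : ℂ) * lam' - (ord V g : ℂ) * lam)) := by
      rw [h1]
      refine vge.mem_mul ?_ (vge.mem_mul (F.repr_dlog_mem hye.1 hyo 0) (Or.inr hA1.ge))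
      have h3 : (∏ i, (S.u i)⁻¹) ∈ V := by
        refine V.toSubring.prod_mem fun i _ => ?_
        have h4 := hres.val_eq_one i
        change (S.u i)⁻¹ ∈ V
        rw [← V.valuation_le_one_iff, map_inv₀, h4, inv_one]
      exact h3
    have h3 : (ord V q : ℂ) * lam' - (ord V g : ℂ) * lam = 0 := by
      by_contra h0
      have h4 := h2.le (by
        rw [Ne, map_eq_zero]
        exact h0)
      rw [ord_C] at h4
      omega
    have h5 : (ord V q : ℂ) ≠ 0 := by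
      exact_mod_cast hb.ne'
    field_simp
    linear_combination h3
  refine ⟨V, hV, lam / ord V q, div_ne_zero hlam (by exact_mod_cast hb.ne'), hweight,
    ⟨q, lam, hqQ, hqe, hb⟩, ?_⟩
  by_contra hcon
  push Not at hcon
  have hQ : X.Q ≤ V.toSubring := by
    intro g hg
    refine Submodule.span_induction (p := fun x _ => x ∈ V) ?_ V.zero_mem ?_ ?_
      (S.mem_span_eigen hg)
    · rintro x ⟨hx, lam', hlam'⟩
      by_cases hx0 : x = 0
      · rw [hx0]; exact V.zero_mem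
      · exact (ord_nonneg_iff hx0).1 (hcon x lam' hx ⟨hx0, hlam'⟩)
    · intro x y _ _ hx hy
      exact V.add_mem _ _ hx hy
    · intro a x _ hx
      rw [Algebra.smul_def]
      exact V.mul_mem _ _ (C_mem V a) hx
  obtain ⟨P, hP, hPq, hPV⟩ := X.exists_center hQ hlt hq0
  have hPd := CYData.dvr_U hP
  refine S.not_resIndep hP hqe hPq.ne' ?_
  intro p hp
  refine val_eq_one_of_not_vge (S.aeval_mem_Q p P hP) fun h => ?_
  have h1 := hPV _ (S.aeval_mem_Q p) h
  rw [← val_lt_one_iff, hres p hp] at h1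
  exact lt_irrefl _ h1

/-- The eigenvector `w` of minimal weight. -/
theorem exists_w : ∃ (w : K) (c : ℂ), c ≠ 0 ∧ S.IsEig w c ∧
    (∀ g lam, S.IsEig g lam → ∃ k : ℤ, lam = k * c) ∧
    (∃ g, ∃ k : ℤ, g ∈ X.Q ∧ S.IsEig g (k * c) ∧ 0 < k) ∧
    (∃ g, ∃ k : ℤ, g ∈ X.Q ∧ S.IsEig g (k * c) ∧ k < 0) := by
  obtain ⟨V, hV, κ, hκ, hw, ⟨g₁, l₁, h1Q, h1e, h1o⟩, ⟨g₂, l₂, h2Q, h2e, h2o⟩⟩ := S.exists_V
  let H : AddSubgroup ℤ :=
    { carrier := {k | ∃ g lam, S.IsEig g lam ∧ ord V g = k}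
      zero_mem' := ⟨1, 0, S.isEig_one, ord_one⟩
      add_mem' := by
        rintro a b ⟨g, lam, hg, rfl⟩ ⟨g', lam', hg', rfl⟩
        exact ⟨g * g', _, hg.mul hg', ord_mul hg.1 hg'.1⟩
      neg_mem' := by
        rintro a ⟨g, lam, hg, rfl⟩
        exact ⟨g⁻¹, _, hg.inv, ord_inv hg.1⟩ }
  obtain ⟨d, hd⟩ := Int.subgroup_cyclic H
  have hmem : ∀ k, k ∈ H ↔ ∃ j : ℤ, k = j * d := by
    intro k
    rw [hd, AddSubgroup.mem_closure_singleton]
    constructor
    · rintro ⟨j, hj⟩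
      exact ⟨j, by rw [← hj, smul_eq_mul]⟩
    · rintro ⟨j, hj⟩
      exact ⟨j, by rw [hj, smul_eq_mul]⟩
  obtain ⟨w, c, hwe, hwd⟩ : d ∈ H := (hmem d).2 ⟨1, by ring⟩
  have hc : c = d * κ := by rw [hw w c hwe, hwd]
  have hd0 : d ≠ 0 := by
    intro h0
    obtain ⟨j, hj⟩ := (hmem _).1 (⟨g₁, l₁, h1e, rfl⟩ : ord V g₁ ∈ H)
    rw [h0, mul_zero] at hj
    omega
  have hex : ∀ g lam, S.IsEig g lam → ∃ k : ℤ, lam = k * c ∧ ord V g = k * d := by
    intro g lam hg
    obtain ⟨j, hj⟩ := (hmem _).1 (⟨g, lam, hg, rfl⟩ : ord V g ∈ H)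
    refine ⟨j, ?_, hj⟩
    rw [hw g lam hg, hj, hc]
    push_cast
    ring
  refine ⟨w, c, ?_, hwe, fun g lam hg => ?_, ?_⟩
  · rw [hc]
    exact mul_ne_zero (by exact_mod_cast hd0) hκ
  · obtain ⟨k, hk, -⟩ := hex g lam hg
    exact ⟨k, hk⟩
  · obtain ⟨k₁, hk₁, ho₁⟩ := hex g₁ l₁ h1e
    obtain ⟨k₂, hk₂, ho₂⟩ := hex g₂ l₂ h2e
    rw [hk₁] at h1e
    rw [hk₂] at h2e
    rw [ho₁] at h1o
    rw [ho₂] at h2o
    rcases lt_or_gt_of_ne hd0 with hd' | hd'
    · exact ⟨⟨g₂, k₂, h2Q, h2e, by nlinarith⟩, ⟨g₁, k₁, h1Q, h1e, by nlinarith⟩⟩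
    · exact ⟨⟨g₁, k₁, h1Q, h1e, by nlinarith⟩, ⟨g₂, k₂, h2Q, h2e, by nlinarith⟩⟩

end CYUnits

end Pool.Agent.Helper94.LCY
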