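import Pool.Agent.Helper94.MDS.Ind
import Pool.Agent.Helper94.MDS.Full
import Pool.Agent.Helper94.MDS.Tor

/-!
# The units of the complement of the boundary
-/

noncomputable section

open KaehlerDifferential

namespace Pool.Agent.Helper94.LCY

variable {K : Type} [Field K] [Algebra ℂ K] {m : ℕ}

theorem algIndep_of_mem_adjoin {L : Type} [Field L] [Algebra ℂ L] {d : ℕ} {x y : Fin d → L}
    (hy : AlgebraicIndependent ℂ y) (h : ∀ i, y i ∈ Algebra.adjoin ℂ (Set.range x)) :
    AlgebraicIndependent ℂ x := by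
  set A := Algebra.adjoin ℂ (Set.range x) with hA
  set x' : Fin d → A := fun i => ⟨x i, Algebra.subset_adjoin ⟨i, rfl⟩⟩ with hx'
  set y' : Fin d → A := fun i => ⟨y i, h i⟩ with hy'
  have h1 : AlgebraicIndependent ℂ y' := AlgebraicIndependent.of_comp A.val hy
  have h2 : Algebra.adjoin ℂ (Set.range x') = ⊤ := by
    have h3 := Algebra.adjoin_adjoin_coe_preimage (R := ℂ) (s := Set.range x)
    convert h3 using 2
    ext a
    constructor
    · rintro ⟨i, rfl⟩
      exact ⟨i, rfl⟩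
    · rintro ⟨i, hi⟩
      exact ⟨i, Subtype.ext hi⟩
  have halg : Algebra.IsAlgebraic (Algebra.adjoin ℂ (Set.range x')) A := by
    refine ⟨fun a => ?_⟩
    have ha : a ∈ Algebra.adjoin ℂ (Set.range x') := by rw [h2]; trivial
    exact isAlgebraic_algebraMap (⟨a, ha⟩ : Algebra.adjoin ℂ (Set.range x'))
  have hfaith : FaithfulSMul ℂ A :=
    (faithfulSMul_iff_algebraMap_injective _ _).2 (algebraMap ℂ A).injective
  have h3 := (Algebra.IsAlgebraic.isTranscendenceBasis_of_le_trdeg_of_finite ℂ x'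
    h1.cardinalMk_le_trdeg).1
  exact h3.map' (f := A.val) Subtype.val_injective

/-- Multiplicatively independent units of the complement of the boundary are algebraically
independent. -/
def UnitsIndep (X : CYData K m) : Prop :=
  ∀ (d : ℕ) (u : Fin d → K), (∀ i, u i ≠ 0) → (∀ v ∈ X.U, ∀ i, ord v (u i) = 0) →
    (∀ e : Fin d → ℤ, (∀ v ∈ X.Bd, ∑ i, e i * ord v (u i) = 0) → e = 0) →
      AlgebraicIndependent ℂ u

namespace CoxData

variable {X : CYData K m} {r : ℕ} (C : CoxData X r)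

include C in
theorem exists_enum : ∃ b : Fin (m + r) → ValuationSubring K, Function.Injective b ∧
    Set.range b = X.Bd := by
  have h1 := Set.ncard_eq_toFinset_card X.Bd X.Bd_fin
  rw [C.card] at h1
  have e := X.Bd_fin.toFinset.equivFin
  rw [← h1] at e
  refine ⟨fun j => (e.symm j : ValuationSubring K), fun i j h => ?_, ?_⟩
  · exact e.symm.injective (Subtype.ext h)
  · ext v
    constructor
    · rintro ⟨j, rfl⟩
      exact (Set.Finite.mem_toFinset _).1 (e.symm j).2
    · intro hv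
      refine ⟨e ⟨v, (Set.Finite.mem_toFinset _).2 hv⟩, ?_⟩
      simp

/-- An enumeration of the boundary. -/
def b : Fin (m + r) → ValuationSubring K := C.exists_enum.choose

theorem b_inj : Function.Injective C.b := C.exists_enum.choose_spec.1

theorem range_b : Set.range C.b = X.Bd := C.exists_enum.choose_spec.2

theorem b_mem (j : Fin (m + r)) : C.b j ∈ X.Bd := by
  rw [← C.range_b]
  exact ⟨j, rfl⟩

theorem b_Pr (j : Fin (m + r)) : C.b j ∈ X.Pr := X.Bd_sub (C.b_mem j)

/-- A common multiple. -/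
def E : ℕ := ∏ j, C.e (C.b j)

theorem E_pos : 0 < C.E := Finset.prod_pos fun _ _ => C.e_pos _

/-- The cofactors. -/
def Ej (j : Fin (m + r)) : ℕ := C.E / C.e (C.b j)

theorem Ej_mul (j : Fin (m + r)) : C.Ej j * C.e (C.b j) = C.E :=
  Nat.div_mul_cancel (Finset.dvd_prod_of_mem _ (Finset.mem_univ j))

theorem Ej_ne (j : Fin (m + r)) : (C.Ej j : ℤ) ≠ 0 := by
  intro h
  have h1 := C.Ej_mul j
  have h2 := C.E_pos
  have h3 : C.Ej j = 0 := by exact_mod_cast h
  rw [h3, zero_mul] at h1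
  omega

/-- A power of a homogeneous element without zeros or poles outside of the boundary is a monomial
in the equations of the boundary components. -/
theorem pow_eq {γ : Fin r → ℤ} {g : K} (hg : g ≠ 0) (h : ∀ v ∈ X.U, C.vt v γ g = 0) :
    ∃ c : ℂ, c ≠ 0 ∧
      (C.E : ℤ) • γ = ∑ j, ((C.Ej j : ℤ) * C.vt (C.b j) γ g) • C.γ (C.b j) ∧
      hm γ g ^ C.E = algebraMap ℂ (LF K r) c *
        ∏ j, C.F (C.b j) ^ ((C.Ej j : ℤ) * C.vt (C.b j) γ g) := by
  classical
  set k : Fin (m + r) → ℤ := fun j => (C.Ej j : ℤ) * C.vt (C.b j) γ g with hk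
  have hke : ∀ j, k j * C.e (C.b j) = C.E * C.vt (C.b j) γ g := by
    intro j
    have h1 : (C.Ej j : ℤ) * C.e (C.b j) = C.E := by exact_mod_cast C.Ej_mul j
    rw [hk, ← h1]
    ring
  set g' := g ^ (C.E : ℤ) * ∏ j, (C.g (C.b j)) ^ (-(k j)) with hg'
  set γ' := (C.E : ℤ) • γ + ∑ j, (-(k j)) • C.γ (C.b j) with hγ'
  have hgk : ∀ j ∈ Finset.univ, (C.g (C.b j)) ^ (-(k j)) ≠ 0 := fun j _ =>
    zpow_ne_zero _ (C.g_ne _)
  have hg'0 : g' ≠ 0 := mul_ne_zero (zpow_ne_zero _ hg) (Finset.prod_ne_zero_iff.2 hgk)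
  have hvt : ∀ v ∈ X.Pr, C.vt v γ' g' = 0 := by
    intro v hv
    rw [hγ', hg', C.vt_mul hv (zpow_ne_zero _ hg) (Finset.prod_ne_zero_iff.2 hgk),
      C.vt_zpow hv hg, C.vt_prod hv _ hgk]
    rcases X.mem_U_or_Bd hv with h1 | h1
    · rw [h v h1, mul_zero, zero_add]
      refine Finset.sum_eq_zero fun j _ => ?_
      rw [C.vt_zpow hv (C.g_ne _), C.vt_g_ne (C.b_Pr j) hv (fun h2 => h1.2 (h2 ▸ C.b_mem j)),
        mul_zero]
    · rw [← C.range_b] at h1
      obtain ⟨j, rfl⟩ := h1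
      rw [Finset.sum_eq_single j]
      · rw [C.vt_zpow hv (C.g_ne _), C.vt_g_self hv, neg_mul, hke]
        ring
      · intro j' _ hne
        rw [C.vt_zpow hv (C.g_ne _), C.vt_g_ne (C.b_Pr j') hv (fun h2 => hne (C.b_inj h2).symm),
          mul_zero]
      · intro h2
        exact absurd (Finset.mem_univ j) h2
  obtain ⟨hγ0, c, hc, hgc⟩ := C.const hg'0 hvt
  refine ⟨c, hc, ?_, ?_⟩
  · rw [hγ'] at hγ0
    simp only [neg_smul, Finset.sum_neg_distrib] at hγ0
    exact (sub_eq_zero.1 (by rw [sub_eq_add_neg]; exact hγ0))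
  · have h1 : hm γ g ^ (C.E : ℤ) * ∏ j, C.F (C.b j) ^ (-(k j)) = algebraMap ℂ (LF K r) c := by
      rw [← hm_C, ← hgc, ← hγ0, hγ', hg', ← hm_mul, hm_zpow γ hg, ← hm_prod]
      congr 1
      refine Finset.prod_congr rfl fun j _ => ?_
      rw [F, hm_zpow _ (C.g_ne _)]
    have h2 : (∏ j, C.F (C.b j) ^ (-(k j))) * ∏ j, C.F (C.b j) ^ k j = 1 := by
      rw [← Finset.prod_mul_distrib]
      refine Finset.prod_eq_one fun j _ => ?_
      rw [← zpow_add₀ (C.F_ne _), neg_add_cancel, zpow_zero]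
    rw [← h1, mul_assoc, h2, mul_one, zpow_natCast]

theorem vt_zero (v : ValuationSubring K) (g : K) : C.vt v 0 g = ord v g := by
  rw [vt, comb_zero]
  simp

/-- The exponents of the units. -/
def Λ : Submodule ℤ (Fin (m + r) → ℤ) where
  carrier := {k | ∃ g : K, g ≠ 0 ∧ (∀ v ∈ X.U, ord v g = 0) ∧ ∀ j, ord (C.b j) g = k j}
  zero_mem' := ⟨1, one_ne_zero, fun v hv => by
    have := CYData.dvr_U hv
    exact ord_one, fun j => by
    have := CYData.dvr_B (C.b_mem j)
    exact ord_one⟩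
  add_mem' := by
    rintro k k' ⟨g, hg, h1, h2⟩ ⟨g', hg', h1', h2'⟩
    refine ⟨g * g', mul_ne_zero hg hg', fun v hv => ?_, fun j => ?_⟩
    · have := CYData.dvr_U hv
      rw [ord_mul hg hg', h1 v hv, h1' v hv, add_zero]
    · have := CYData.dvr_B (C.b_mem j)
      rw [ord_mul hg hg', h2, h2', Pi.add_apply]
  smul_mem' := by
    rintro n k ⟨g, hg, h1, h2⟩
    refine ⟨g ^ n, zpow_ne_zero _ hg, fun v hv => ?_, fun j => ?_⟩
    · have := CYData.dvr_U hv
      rw [ord_zpow hg, h1 v hv, mul_zero]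
    · have := CYData.dvr_B (C.b_mem j)
      rw [ord_zpow hg, h2, Pi.smul_apply, smul_eq_mul]

/-- The classes of the boundary components. -/
def Ψ : (Fin (m + r) → ℤ) →ₗ[ℤ] (Fin r → ℤ) := Fintype.linearCombination ℤ fun j => C.γ (C.b j)

theorem Ψ_apply (k : Fin (m + r) → ℤ) : C.Ψ k = ∑ j, k j • C.γ (C.b j) :=
  Fintype.linearCombination_apply _ _ _

theorem finrank_Ψ : Module.finrank ℤ (LinearMap.range C.Ψ) +
    Module.finrank ℤ (LinearMap.ker C.Ψ) = m + r := by
  have h1 := Submodule.finrank_quotient_add_finrank (LinearMap.ker C.Ψ)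
  rw [C.Ψ.quotKerEquivRange.finrank_eq, Module.finrank_fintype_fun_eq_card,
    Fintype.card_fin] at h1
  exact h1

theorem finrank_coker : Module.finrank ℤ ((Fin r → ℤ) ⧸ LinearMap.range C.Ψ) +
    Module.finrank ℤ (LinearMap.range C.Ψ) = r := by
  have h1 := Submodule.finrank_quotient_add_finrank (LinearMap.range C.Ψ)
  rw [Module.finrank_fintype_fun_eq_card, Fintype.card_fin] at h1
  exact h1

/-- A class some multiple of which is supported on the boundary. -/
def Tor (x : Fin r → ℤ) : Prop := ∃ n : ℤ, n ≠ 0 ∧ n • x ∈ LinearMap.range C.Ψ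

theorem Tor.add {C : CoxData X r} {x y : Fin r → ℤ} (hx : C.Tor x) (hy : C.Tor y) :
    C.Tor (x + y) := by
  obtain ⟨n, hn, h⟩ := hx
  obtain ⟨n', hn', h'⟩ := hy
  refine ⟨n * n', mul_ne_zero hn hn', ?_⟩
  have h1 : (n * n') • (x + y) = n' • (n • x) + n • (n' • y) := by
    rw [smul_add, smul_smul, smul_smul, mul_comm n' n]
  rw [h1]
  exact Submodule.add_mem _ (Submodule.smul_mem _ _ h) (Submodule.smul_mem _ _ h')

theorem Tor.smul {C : CoxData X r} {x : Fin r → ℤ} (hx : C.Tor x) (a : ℤ) : C.Tor (a • x) := by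
  obtain ⟨n, hn, h⟩ := hx
  exact ⟨n, hn, by rw [smul_comm]; exact Submodule.smul_mem _ _ h⟩

theorem Tor.sum {C : CoxData X r} {ι : Type} {s : Finset ι} {x : ι → Fin r → ℤ}
    (hx : ∀ i ∈ s, C.Tor (x i)) : C.Tor (∑ i ∈ s, x i) := by
  classical
  induction s using Finset.induction_on with
  | empty => exact ⟨1, one_ne_zero, by rw [Finset.sum_empty, smul_zero]; exact Submodule.zero_mem _⟩
  | insert a s ha ih =>
    rw [Finset.sum_insert ha]
    exact (hx a (Finset.mem_insert_self _ _)).add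
      (ih fun i hi => hx i (Finset.mem_insert_of_mem hi))

theorem tor_of_finrank (h : Module.finrank ℤ (LinearMap.ker C.Ψ) ≤ m) (x : Fin r → ℤ) :
    C.Tor x := by
  have h1 := C.finrank_Ψ
  have h2 := C.finrank_coker
  have h3 : Module.finrank ℤ ((Fin r → ℤ) ⧸ LinearMap.range C.Ψ) = 0 := by omega
  rw [Module.finrank_eq_zero_iff_isTorsion] at h3
  obtain ⟨a, ha⟩ := @h3 (Submodule.Quotient.mk x)
  refine ⟨a, nonZeroDivisors.ne_zero a.2, ?_⟩
  have h4 : Submodule.Quotient.mk ((a : ℤ) • x) = (0 : (Fin r → ℤ) ⧸ LinearMap.range C.Ψ) := ha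
  rwa [Submodule.Quotient.mk_eq_zero] at h4

theorem finrank_of_tor (h : ∀ x, C.Tor x) : Module.finrank ℤ (LinearMap.ker C.Ψ) ≤ m := by
  have h1 := C.finrank_Ψ
  have h2 := C.finrank_coker
  have h3 : Module.finrank ℤ ((Fin r → ℤ) ⧸ LinearMap.range C.Ψ) = 0 := by
    rw [Module.finrank_eq_zero_iff_isTorsion]
    intro y
    obtain ⟨x, rfl⟩ := Submodule.Quotient.mk_surjective _ y
    obtain ⟨n, hn, h⟩ := h x
    refine ⟨⟨n, mem_nonZeroDivisors_of_ne_zero hn⟩, ?_⟩
    change Submodule.Quotient.mk (n • x) = (0 : (Fin r → ℤ) ⧸ LinearMap.range C.Ψ)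
    rwa [Submodule.Quotient.mk_eq_zero]
  omega

theorem le_finrank_kerΨ : m ≤ Module.finrank ℤ (LinearMap.ker C.Ψ) := by
  have h1 := C.finrank_Ψ
  have h2 := C.finrank_coker
  omega

/-- Kernel elements are exponents of units. -/
theorem ker_mem {k : Fin (m + r) → ℤ} (hk : C.Ψ k = 0) :
    (fun j => k j * C.e (C.b j)) ∈ C.Λ := by
  rw [Ψ_apply] at hk
  have h0 : ∀ j ∈ Finset.univ, (C.g (C.b j)) ^ (k j) ≠ 0 := fun j _ => zpow_ne_zero _ (C.g_ne _)
  refine ⟨∏ j, (C.g (C.b j)) ^ (k j), Finset.prod_ne_zero_iff.2 h0, fun v hv => ?_, fun j => ?_⟩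
  · rw [← C.vt_zero, ← hk, C.vt_prod hv.1 _ h0]
    refine Finset.sum_eq_zero fun j _ => ?_
    rw [C.vt_zpow hv.1 (C.g_ne _), C.vt_g_ne (C.b_Pr j) hv.1 (fun h2 => hv.2 (h2 ▸ C.b_mem j)),
      mul_zero]
  · rw [← C.vt_zero, ← hk, C.vt_prod (C.b_Pr j) _ h0, Finset.sum_eq_single j]
    · rw [C.vt_zpow (C.b_Pr j) (C.g_ne _), C.vt_g_self (C.b_Pr j)]
    · intro j' _ hne
      rw [C.vt_zpow (C.b_Pr j) (C.g_ne _),
        C.vt_g_ne (C.b_Pr j') (C.b_Pr j) (fun h2 => hne (C.b_inj h2).symm), mul_zero]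
    · intro h2
      exact absurd (Finset.mem_univ j) h2

theorem finrank_ker_le : Module.finrank ℤ (LinearMap.ker C.Ψ) ≤ Module.finrank ℤ C.Λ := by
  let f : LinearMap.ker C.Ψ →ₗ[ℤ] C.Λ :=
    { toFun := fun k => ⟨fun j => (k : Fin (m + r) → ℤ) j * C.e (C.b j), C.ker_mem k.2⟩
      map_add' := fun k k' => by
        apply Subtype.ext
        funext j
        change ((k : Fin (m + r) → ℤ) j + (k' : Fin (m + r) → ℤ) j) * _ = _ + _
        rw [add_mul]
      map_smul' := fun a k => by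
        apply Subtype.ext
        funext j
        change (a * (k : Fin (m + r) → ℤ) j) * _ = a * _
        rw [mul_assoc] }
  refine LinearMap.finrank_le_finrank_of_injective (f := f) ?_
  intro k k' h
  apply Subtype.ext
  funext j
  have h1 := congrFun (congrArg Subtype.val h) j
  change (k : Fin (m + r) → ℤ) j * (C.e (C.b j) : ℤ) =
    (k' : Fin (m + r) → ℤ) j * (C.e (C.b j) : ℤ) at h1
  have h2 : (C.e (C.b j) : ℤ) ≠ 0 := by
    have := C.e_pos (C.b j)
    omega
  exact mul_right_cancel₀ h2 h1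

theorem finrank_Λ_le : Module.finrank ℤ C.Λ ≤ Module.finrank ℤ (LinearMap.ker C.Ψ) := by
  have hmem : ∀ k : C.Λ, (fun j => (C.Ej j : ℤ) * (k : Fin (m + r) → ℤ) j) ∈
      LinearMap.ker C.Ψ := by
    rintro ⟨k, g, hg, h1, h2⟩
    obtain ⟨c, -, h3, -⟩ := C.pow_eq (γ := 0) hg (fun v hv => by rw [C.vt_zero]; exact h1 v hv)
    rw [LinearMap.mem_ker, Ψ_apply]
    rw [smul_zero] at h3
    rw [h3]
    refine Finset.sum_congr rfl fun j _ => ?_
    rw [C.vt_zero, h2]
  let f : C.Λ →ₗ[ℤ] LinearMap.ker C.Ψ :=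
    { toFun := fun k => ⟨fun j => (C.Ej j : ℤ) * (k : Fin (m + r) → ℤ) j, hmem k⟩
      map_add' := fun k k' => by
        apply Subtype.ext
        funext j
        change _ * ((k : Fin (m + r) → ℤ) j + (k' : Fin (m + r) → ℤ) j) = _ + _
        rw [mul_add]
      map_smul' := fun a k => by
        apply Subtype.ext
        funext j
        change _ * (a * (k : Fin (m + r) → ℤ) j) = a * _
        rw [mul_left_comm] }
  refine LinearMap.finrank_le_finrank_of_injective (f := f) ?_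
  intro k k' h
  apply Subtype.ext
  funext j
  have h1 := congrFun (congrArg Subtype.val h) j
  exact mul_left_cancel₀ (C.Ej_ne j) h1

/-- Every class is torsion modulo the classes of the prime divisors. -/
theorem tor_of_Pr (h : ∀ v ∈ X.Pr, C.Tor (C.γ v)) (x : Fin r → ℤ) : C.Tor x := by
  obtain ⟨e, k, s, c, he, hc, hs, -, -, hpow⟩ := C.exists_pow x (g := (1 : K)) one_ne_zero
  have h1 : hm x (1 : K) ^ e = hm ((0 : Fin r → ℤ) + ∑ v ∈ s, k v • C.γ v)
      (algebraMap ℂ K c * ∏ v ∈ s, C.g v ^ k v) := by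
    rw [hpow, ← hm_mul, hm_C, ← hm_prod]
    congr 1
    refine Finset.prod_congr rfl fun v _ => ?_
    rw [F, hm_zpow _ (C.g_ne _)]
  rw [hm_pow, one_pow, zero_add] at h1
  have h2 := (hm_inj one_ne_zero h1).1
  obtain ⟨n, hn, h3⟩ := Tor.sum (C := C) (s := s) (x := fun v => k v • C.γ v)
    fun v hv => (h v (hs v hv)).smul _
  rw [← h2] at h3
  refine ⟨n * e, mul_ne_zero hn (by exact_mod_cast he.ne'), ?_⟩
  rw [mul_smul, natCast_zsmul]
  exact h3

/-- If the Cox ring is finitely generated, then multiplicatively independent units are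
algebraically independent. -/
theorem unitsIndep (hfg : (X.cox C.D).FG) : UnitsIndep X := by
  classical
  intro d u hu0 hu1 hu2
  have h2 : ∀ i, ∃ c : ℂ, c ≠ 0 ∧ hm (0 : Fin r → ℤ) (u i) ^ C.E = algebraMap ℂ (LF K r) c *
      ∏ j, C.F (C.b j) ^ ((C.Ej j : ℤ) * ord (C.b j) (u i)) := by
    intro i
    obtain ⟨c, hc, -, h3⟩ := C.pow_eq (γ := 0) (hu0 i)
      (fun v hv => by rw [C.vt_zero]; exact hu1 v hv i)
    refine ⟨c, hc, ?_⟩
    rw [h3]
    congr 1
    refine Finset.prod_congr rfl fun j _ => ?_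
    rw [C.vt_zero]
  choose c hc h3 using h2
  have h4 := algIndep_monomials (C.F_indep hfg C.b_inj C.b_mem (by omega))
    (fun i j => (C.Ej j : ℤ) * ord (C.b j) (u i)) (by
      intro a ha
      refine hu2 a fun v hv => ?_
      rw [← C.range_b] at hv
      obtain ⟨j, rfl⟩ := hv
      have h6 := ha j
      have h7 : (C.Ej j : ℤ) * ∑ i, a i * ord (C.b j) (u i) = 0 := by
        rw [← h6, Finset.mul_sum]
        exact Finset.sum_congr rfl fun i _ => by ring
      exact (mul_eq_zero.1 h7).resolve_left (C.Ej_ne j))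
  have h6 : AlgebraicIndependent ℂ fun i => algebraMap K (LF K r) (u i) := by
    refine algIndep_of_mem_adjoin h4 fun i => ?_
    have h5 : ∏ j, C.F (C.b j) ^ ((C.Ej j : ℤ) * ord (C.b j) (u i)) =
        algebraMap ℂ (LF K r) (c i)⁻¹ * algebraMap K (LF K r) (u i) ^ C.E := by
      rw [← hm_K, h3 i, ← mul_assoc, ← map_mul, inv_mul_cancel₀ (hc i), map_one, one_mul]
    have h6 : algebraMap K (LF K r) (u i) ∈
        Algebra.adjoin ℂ (Set.range fun i => algebraMap K (LF K r) (u i)) :=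
      Algebra.subset_adjoin ⟨i, rfl⟩
    rw [h5]
    exact Subalgebra.mul_mem _ (Subalgebra.algebraMap_mem _ _) (Subalgebra.pow_mem _ h6 _)
  have h7 : (fun i => algebraMap K (LF K r) (u i)) =
      (IsScalarTower.toAlgHom ℂ K (LF K r)) ∘ u := rfl
  rw [h7] at h6
  exact AlgebraicIndependent.of_comp _ h6

include C in
/-- The units of the complement of the boundary. -/
theorem nonempty_units (hUI : UnitsIndep X)
    (hfd : ∀ E, X.BdDiv E → FiniteDimensional ℂ (X.sections E)) : Nonempty (CYUnits X) := by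
  classical
  obtain ⟨d, ⟨β⟩⟩ := Submodule.nonempty_basis_of_pid (Pi.basisFun ℤ (Fin (m + r))) C.Λ
  have hd : Module.finrank ℤ C.Λ = d := by
    rw [Module.finrank_eq_card_basis β, Fintype.card_fin]
  have h1 : ∀ i, ∃ g : K, g ≠ 0 ∧ (∀ v ∈ X.U, ord v g = 0) ∧
      ∀ j, ord (C.b j) g = (β i : Fin (m + r) → ℤ) j := fun i => (β i).2
  choose u hu0 hu1 hu2 using h1
  -- the units are generated by the `u i`
  have hunit : ∀ g : K, g ≠ 0 → (∀ v ∈ X.U, ord v g = 0) →
      ∃ (c : ℂ) (k : Fin d → ℤ), g = algebraMap ℂ K c * ∏ i, u i ^ k i := by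
    intro g hg h
    set k₀ : C.Λ := ⟨fun j => ord (C.b j) g, g, hg, h, fun j => rfl⟩ with hk₀
    set k : Fin d → ℤ := fun i => β.repr k₀ i with hk
    have hsum : ∀ j, ord (C.b j) g = ∑ i, k i * (β i : Fin (m + r) → ℤ) j := by
      intro j
      have h2 := congrArg (fun y : C.Λ => (y : Fin (m + r) → ℤ) j) (β.sum_repr k₀)
      simp only [Submodule.coe_sum, Finset.sum_apply] at h2
      exact h2.symm
    have hprod0 : ∏ i, u i ^ k i ≠ 0 := Finset.prod_ne_zero_iff.2 fun i _ =>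
      zpow_ne_zero _ (hu0 i)
    obtain ⟨c, hc⟩ := X.const (g / ∏ i, u i ^ k i) fun v hv => by
      have := X.dvr v hv
      refine mem_of_ord_zero (div_ne_zero hg hprod0) ?_
      rw [ord_div hg hprod0, ord_prod fun i _ => zpow_ne_zero _ (hu0 i)]
      rcases X.mem_U_or_Bd hv with h2 | h2
      · rw [h v h2, Finset.sum_eq_zero, sub_zero]
        intro i _
        rw [ord_zpow (hu0 i), hu1 i v h2, mul_zero]
      · rw [← C.range_b] at h2
        obtain ⟨j, rfl⟩ := h2
        rw [hsum j, sub_eq_zero]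
        refine Finset.sum_congr rfl fun i _ => ?_
        rw [ord_zpow (hu0 i), hu2]
    exact ⟨c, k, by rw [← hc, div_mul_cancel₀ _ hprod0]⟩
  -- algebraic independence
  have hind : AlgebraicIndependent ℂ u := by
    refine hUI d u hu0 (fun v hv i => hu1 i v hv) fun a ha => ?_
    have h5 : ∑ i, a i • β i = 0 := by
      apply Subtype.ext
      funext j
      rw [Submodule.coe_sum, Finset.sum_apply]
      change ∑ i, a i * (β i : Fin (m + r) → ℤ) j = 0
      rw [← ha (C.b j) (C.b_mem j)]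
      exact Finset.sum_congr rfl fun i _ => by rw [hu2]
    funext i
    exact Fintype.linearIndependent_iff.1 β.linearIndependent a h5 i
  have hd1 : d ≤ m + 1 := card_le_of_indep X.tr hind
  have hd2 : m ≤ d := by
    have h2 := C.le_finrank_kerΨ
    have h3 := C.finrank_ker_le
    omega
  rcases Nat.lt_or_ge m d with hlt | hge
  · -- too many units
    exfalso
    obtain rfl : d = m + 1 := by omega
    let S : FullUnits X := ⟨u, hind, fun v hv i => hu1 i v hv, hunit, hfd⟩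
    have h2 : ∀ v ∈ X.Pr, C.Tor (C.γ v) := by
      intro v hv
      rcases X.mem_U_or_Bd hv with h3 | h3
      · obtain ⟨ρ, hρ0, hρ1, hρ2⟩ := S.exists_rho h3
        have hρe : ρ ^ (-(C.e v : ℤ)) ≠ 0 := zpow_ne_zero _ hρ0
        obtain ⟨c, -, h4, -⟩ := C.pow_eq (γ := C.γ v + (-(C.e v : ℤ)) • 0)
          (g := C.g v * ρ ^ (-(C.e v : ℤ))) (mul_ne_zero (C.g_ne v) hρe) (fun v' hv' => by
            rw [C.vt_mul hv'.1 (C.g_ne v) hρe, C.vt_zpow hv'.1 hρ0, C.vt_zero]
            by_cases h5 : v' = v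
            · subst h5
              rw [C.vt_g_self hv, hρ1]
              ring
            · rw [C.vt_g_ne hv hv'.1 h5, hρ2 v' hv' h5, mul_zero, add_zero])
        rw [smul_zero, add_zero] at h4
        refine ⟨C.E, by exact_mod_cast C.E_pos.ne', ?_⟩
        rw [h4]
        exact ⟨_, C.Ψ_apply _⟩
      · rw [← C.range_b] at h3
        obtain ⟨j, rfl⟩ := h3
        refine ⟨1, one_ne_zero, ?_⟩
        rw [one_smul]
        refine ⟨Pi.single j 1, ?_⟩
        rw [Ψ_apply, Finset.sum_eq_single j]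
        · rw [Pi.single_eq_same, one_smul]
        · intro j' _ hne
          rw [Pi.single_eq_of_ne hne, zero_smul]
        · intro h
          exact absurd (Finset.mem_univ j) h
    have h3 := C.finrank_of_tor (C.tor_of_Pr h2)
    have h4 := C.finrank_Λ_le
    omega
  · obtain rfl : d = m := by omega
    have htor := C.tor_of_finrank (by
      have := C.finrank_ker_le
      omega)
    refine ⟨⟨u, hind, fun v hv i => hu1 i v hv, hunit, fun v hv => ?_, hfd⟩⟩
    obtain ⟨n, hn, k, hk⟩ := htor (C.γ v)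
    rw [Ψ_apply] at hk
    -- the function
    have h0 : ∀ j ∈ Finset.univ, (C.g (C.b j)) ^ (-(k j)) ≠ 0 := fun j _ =>
      zpow_ne_zero _ (C.g_ne _)
    have hprod0 := Finset.prod_ne_zero_iff.2 h0
    set g := (C.g v) ^ n * ∏ j, (C.g (C.b j)) ^ (-(k j)) with hg
    have hg0 : g ≠ 0 := mul_ne_zero (zpow_ne_zero _ (C.g_ne v)) hprod0
    have hord : ∀ v' ∈ X.U, ord v' g = n * C.vt v' (C.γ v) (C.g v) := by
      intro v' hv'
      have hdeg : n • C.γ v + ∑ j, (-(k j)) • C.γ (C.b j) = 0 := by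
        simp only [neg_smul, Finset.sum_neg_distrib]
        rw [hk, add_neg_cancel]
      rw [← C.vt_zero, ← hdeg, hg, C.vt_mul hv'.1 (zpow_ne_zero _ (C.g_ne v)) hprod0,
        C.vt_zpow hv'.1 (C.g_ne v), C.vt_prod hv'.1 _ h0, Finset.sum_eq_zero, add_zero]
      intro j _
      rw [C.vt_zpow hv'.1 (C.g_ne _),
        C.vt_g_ne (C.b_Pr j) hv'.1 (fun h2 => hv'.2 (h2 ▸ C.b_mem j)), mul_zero]
    have hev : (0 : ℤ) < C.e v := by exact_mod_cast C.e_pos v
    rcases lt_or_gt_of_ne hn with hn' | hn'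
    · refine ⟨g⁻¹, inv_ne_zero hg0, ?_, fun v' hv' hne => ?_⟩
      · have := CYData.dvr_U hv
        rw [ord_inv hg0, hord v hv, C.vt_g_self hv.1]
        nlinarith
      · have := CYData.dvr_U hv'
        rw [ord_inv hg0, hord v' hv', C.vt_g_ne hv.1 hv'.1 hne, mul_zero, neg_zero]
    · refine ⟨g, hg0, ?_, fun v' hv' hne => ?_⟩
      · rw [hord v hv, C.vt_g_self hv.1]
        exact mul_pos hn' hev
      · rw [hord v' hv', C.vt_g_ne hv.1 hv'.1 hne, mul_zero]

end CoxData

end Pool.Agent.Helper94.LCY
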