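import Pool.Agent.Helper94.MDS.GeoD
import Pool.Agent.Helper94.MDS.GeoE
import Pool.Agent.Helper94.MDS.GeoF
import Pool.Agent.Helper94.MDS.Units

/-!
# From varieties to valuation data
-/

noncomputable section

open KaehlerDifferential

namespace Pool.Agent.Helper94.LCY

variable {K : Type} [Field K] [Algebra ℂ K] {m : ℕ} {ι : Type}

/-- The geometric input: a log Calabi-Yau pair of index one. -/
structure GeoData (X : ProjVar K ι) (m : ℕ) (B : X.PrimeDiv → ℚ) where
  hN : X.IsNormal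
  htr : Algebra.trdeg ℂ K = (m + 1 : ℕ)
  hfin : (Function.support B).Finite
  hpos : ∀ P, 0 ≤ B P
  hlc : IsLogCanonical (m + 1) X B
  A : Ω[K⁄ℂ] [⋀^Fin (m + 1)]→ₗ[K] K
  θ : Form K (m + 1)
  dual : IsDual A θ
  hdiv : ProjVar.HasDiv X B A

namespace GeoData

variable {X : ProjVar K ι} {B : X.PrimeDiv → ℚ} [Finite ι]

omit [Finite ι] in
theorem exists_basis (_ : ProjVar K ι) (htr : Algebra.trdeg ℂ K = (m + 1 : ℕ)) :
    Nonempty (Module.Basis (Fin (m + 1)) K (Ω[K⁄ℂ])) := by
  obtain ⟨s, hs⟩ := exists_isTranscendenceBasis ℂ K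
  have hcard : Cardinal.mk s = (m + 1 : ℕ) := by rw [hs.cardinalMk_eq_trdeg, htr]
  have he : Nonempty (Fin (m + 1) ≃ s) := by
    rw [← Cardinal.eq, Cardinal.mk_fin, hcard]
  obtain ⟨e⟩ := he
  have h1 : IsTranscendenceBasis ℂ (fun a => (e a : K)) := (isTranscendenceBasis_equiv e).2 hs
  obtain ⟨b, -⟩ := exists_basis_D h1
  exact ⟨b⟩

theorem nonempty (h1 : IsLogCY (m + 1) X B) (h2 : IndexOne (m + 1) X B) :
    Nonempty (GeoData X m B) := by
  obtain ⟨htr, hN, hfin, hpos, hlc, -⟩ := h1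
  obtain ⟨θ, hθ, hP⟩ := h2
  obtain ⟨b⟩ := exists_basis X htr
  obtain ⟨A, hA⟩ := exists_isDual b (θ := θ) hθ
  exact ⟨⟨hN, htr, hfin, hpos, hlc, A, θ, hA, ProjVar.hasDiv_of hA hP⟩⟩

variable (G : GeoData X m B)

theorem ordA_le {v : ValuationSubring K} [IsDiscreteValuationRing v] (F : Frame v m) :
    ord v (G.A F.b) ≤ 1 := ProjVar.lc_of G.hN G.htr G.dual G.hdiv G.hlc F

/-- The valuations of the components of the boundary. -/
def bd (B : X.PrimeDiv → ℚ) : Set (ValuationSubring K) := (fun P : X.PrimeDiv => P.dvr) ''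
  Function.support B

omit [Finite ι] in
theorem mem_bd {P : X.PrimeDiv} : P.dvr ∈ bd B ↔ B P ≠ 0 := by
  constructor
  · rintro ⟨Q, hQ, h⟩
    rw [← ProjVar.PrimeDiv.dvr_injective h]
    exact hQ
  · intro h
    exact ⟨P, h, rfl⟩

/-- The log Calabi-Yau data in terms of valuations. -/
def cy : CYData K m where
  fg := X.fg_top
  tr := G.htr
  Pr := X.Pr
  Bd := bd B
  Bd_sub := by
    rintro _ ⟨P, -, rfl⟩
    exact P.mem_Pr'
  Bd_fin := G.hfin.image _
  dvr := fun v hv => ProjVar.dvr_Pr hv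
  fin := fun f hf => X.Pr_finite hf
  res := fun v hv => ProjVar.exists_resIndep G.htr hv
  A := G.A
  A_ne := G.dual.1
  ordA_U := by
    intro v hv hvB F
    have h1 := G.hdiv (ProjVar.toPr hv) F
    have h2 : B (ProjVar.toPr hv) = 0 := by
      by_contra h
      exact hvB (mem_bd.2 h)
    rw [h2] at h1
    exact_mod_cast h1
  ordA_B := by
    rintro _ ⟨P, hP, rfl⟩ F
    have h1 := G.hdiv P F
    have h2 : ord P.dvr (G.A F.b) ≤ 1 := G.ordA_le F
    have h3 := G.hpos P
    have h4 : B P ≠ 0 := hP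
    rw [← h1] at h3 h4
    have h5 : (0 : ℤ) ≤ ord P.dvr (G.A F.b) := by exact_mod_cast h3
    have h6 : ord P.dvr (G.A F.b) ≠ 0 := by
      intro h
      apply h4
      rw [h]
      rfl
    change ord P.dvr (G.A F.b) = 1
    omega
  lc := fun v hv F => G.ordA_le F
  const := fun g hg => ProjVar.const_of G.hN hg

@[simp] theorem cy_Pr : G.cy.Pr = X.Pr := rfl

theorem cy_sections (E : ValuationSubring K → ℤ) : G.cy.sections E = X.sect E := rfl

theorem mem_cy_U {v : ValuationSubring K} : v ∈ G.cy.U ↔ ∃ P : X.PrimeDiv, P.dvr = v ∧ B P = 0 := by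
  constructor
  · rintro ⟨hv, hvB⟩
    refine ⟨ProjVar.toPr hv, rfl, ?_⟩
    by_contra h
    exact hvB (mem_bd.2 h)
  · rintro ⟨P, rfl, hP⟩
    exact ⟨P.mem_Pr', fun h => mem_bd.1 h hP⟩

theorem finDim (E : ValuationSubring K → ℤ) (hE : G.cy.BdDiv E) :
    FiniteDimensional ℂ (G.cy.sections E) := by
  rw [cy_sections]
  refine X.finDim_sect G.hN (G.cy.Bd_fin.subset ?_)
  rintro v ⟨hv, hpos⟩
  by_contra hvB
  rw [hE v ⟨hv, hvB⟩] at hpos
  exact lt_irrefl _ hpos

/-- A Weil divisor as a function on valuation rings. -/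
def wd (E : X.WeilDiv) (v : ValuationSubring K) : ℤ :=
  open Classical in if h : v ∈ X.Pr then E (ProjVar.toPr h) else 0

omit [Finite ι] in
theorem wd_apply (E : X.WeilDiv) (P : X.PrimeDiv) : wd E P.dvr = E P := by
  rw [wd, dif_pos P.mem_Pr']
  rfl

omit [Finite ι] in
theorem wd_of_mem (E : X.WeilDiv) {v : ValuationSubring K} (hv : v ∈ X.Pr) :
    wd E v = E (ProjVar.toPr hv) := by
  rw [wd, dif_pos hv]

omit [Finite ι] in
theorem comb_wd {r : ℕ} (D : Fin r → X.WeilDiv) (γ : Fin r → ℤ) (P : X.PrimeDiv) :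
    comb (fun i => wd (D i)) γ P.dvr = (∑ i, γ i • D i) P := by
  rw [comb, Finsupp.finsetSum_apply]
  refine Finset.sum_congr rfl fun i _ => ?_
  rw [wd_apply, Finsupp.smul_apply, smul_eq_mul]

/-- The class group data. -/
def cox {r : ℕ} {D : Fin r → X.WeilDiv} (hD : X.IsClassBasis D)
    (hcard : (Function.support B).ncard = m + r) : CoxData G.cy r where
  D := fun i => wd (D i)
  gen := by
    intro v hv
    obtain ⟨k, γ, hk, f, hf, h⟩ := hD.1 (Finsupp.single (ProjVar.toPr hv) 1)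
    refine ⟨k, f, γ, hk, hf, fun v' hv' => ?_⟩
    have h1 := h (ProjVar.toPr hv')
    have h2 := comb_wd D γ (ProjVar.toPr hv')
    change ord v' f + comb (fun i => wd (D i)) γ v' = _
    change _ = ord v' f at h1
    change comb (fun i => wd (D i)) γ v' = _ at h2
    classical
    rw [h2, ← h1, Finsupp.sub_apply, Finsupp.smul_apply, sub_add_cancel, Finsupp.single_apply,
      nsmul_eq_mul]
    by_cases hvv : v' = v
    · subst hvv
      rw [if_pos rfl, if_pos rfl, mul_one]
    · rw [if_neg hvv, if_neg (fun h => hvv (congrArg (fun P : X.PrimeDiv => P.dvr) h).symm),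
        mul_zero]
  indep := by
    intro γ g hg h
    refine hD.2 γ ⟨g⁻¹, inv_ne_zero hg, fun P => ?_⟩
    have h1 := h P.dvr P.mem_Pr'
    rw [comb_wd] at h1
    rw [ord_inv hg]
    linarith
  Dfin := by
    intro i
    refine (((D i).support.finite_toSet).image fun P : X.PrimeDiv => P.dvr).subset ?_
    rintro v ⟨hv, hne⟩
    refine ⟨ProjVar.toPr hv, ?_, rfl⟩
    rw [wd_of_mem _ hv] at hne
    exact Finsupp.mem_support_iff.2 hne
  card := by
    change (bd B).ncard = _
    rw [bd, Set.ncard_image_of_injective _ ProjVar.PrimeDiv.dvr_injective, hcard]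

theorem cox_D {r : ℕ} {D : Fin r → X.WeilDiv} (hD : X.IsClassBasis D)
    (hcard : (Function.support B).ncard = m + r) : (G.cox hD hcard).D = fun i => wd (D i) := rfl

theorem cox_eq {r : ℕ} (D : Fin r → X.WeilDiv) :
    G.cy.cox (fun i => wd (D i)) = X.coxRing D := by
  ext s
  constructor
  · intro h γ P
    rcases h γ P.dvr P.mem_Pr' with h1 | h1
    · exact Or.inl h1
    · right
      rw [comb_wd] at h1
      linarith
  · intro h γ v hv
    rcases h γ (ProjVar.toPr hv) with h1 | h1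
    · exact Or.inl h1
    · right
      have h2 := comb_wd D γ (ProjVar.toPr hv)
      change comb (fun i => wd (D i)) γ v = _ at h2
      rw [h2]
      change 0 ≤ ord v (s.coeff γ) + _ at h1
      linarith

theorem unitsIndep_of_fg {r : ℕ} {D : Fin r → X.WeilDiv} (hD : X.IsClassBasis D)
    (hcard : (Function.support B).ncard = m + r) (hC : (X.coxRing D).FG) :
    UnitsIndep G.cy := by
  refine (G.cox hD hcard).unitsIndep ?_
  rw [cox_D, cox_eq]
  exact hC

theorem unitsIndep_of (h : X.UnitsIndependent B) : UnitsIndep G.cy := by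
  intro d u hu0 hu1 hu2
  refine h d u hu0 (fun i P hP => hu1 P.dvr (G.mem_cy_U.2 ⟨P, rfl, hP⟩) i) fun e he => ?_
  obtain ⟨c, hc⟩ := he
  refine hu2 e fun v hv => ?_
  have := CYData.dvr_B hv
  have h1 : ord v (∏ i, u i ^ e i) = 0 := by rw [hc, ord_C]
  rw [ord_prod fun i _ => zpow_ne_zero _ (hu0 i)] at h1
  rw [← h1]
  exact Finset.sum_congr rfl fun i _ => (ord_zpow (hu0 i) _).symm

/-- The units of the complement of the boundary. -/
theorem nonempty_units {r : ℕ} {D : Fin r → X.WeilDiv} (hD : X.IsClassBasis D)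
    (hcard : (Function.support B).ncard = m + r) (hU : UnitsIndep G.cy) :
    Nonempty (CYUnits G.cy) :=
  (G.cox hD hcard).nonempty_units hU G.finDim

end GeoData

end Pool.Agent.Helper94.LCY
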