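import Pool.Agent.Helper94.MDS.GeoD
import Pool.Agent.Helper94.MDS.GeoF

/-!
# Varieties of Picard rank one are Mori dream spaces
-/

noncomputable section

namespace Pool.Agent.Helper94.LCY

namespace ProjVar

variable {K : Type} [Field K] [Algebra ℂ K] {ι : Type} (X : ProjVar K ι)

/-- A variety of positive dimension has a nonconstant ratio of coordinates. -/
theorem exists_ratio_transcendental {m : ℕ} (htr : Algebra.trdeg ℂ K = (m + 1 : ℕ)) :
    ∃ j, X.x j ≠ 0 ∧ ∀ k : ℕ, 0 < k → ¬ ∃ c : ℂ, (X.x j / X.x X.i₀) ^ k = algebraMap ℂ K c := by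
  by_contra hcon
  push Not at hcon
  have h1 : ∀ z ∈ Set.range (fun i => X.x i / X.x X.i₀), IsIntegral ℂ z := by
    rintro _ ⟨i, rfl⟩
    by_cases hi : X.x i = 0
    · simp only [hi, zero_div]
      exact isIntegral_zero
    obtain ⟨k, hk, c, hc⟩ := hcon i hi
    refine IsIntegral.of_pow hk ?_
    rw [hc]
    exact isIntegral_algebraMap
  have h2 := IntermediateField.isAlgebraic_adjoin h1
  rw [X.adjoin_chart X.x_i₀] at h2
  have h3 : Algebra.IsAlgebraic ℂ K :=
    (IntermediateField.topEquiv (F := ℂ) (E := K)).isAlgebraic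
  have h4 : Algebra.trdeg ℂ K = 0 := trdeg_eq_zero
  rw [h4] at htr
  exact absurd (Nat.cast_injective (R := Cardinal) (by rw [Nat.cast_zero]; exact htr.symm))
    (Nat.succ_ne_zero m)

variable [Finite ι]

/-- The hyperplane divisor as a Weil divisor. -/
def hypDiv : X.WeilDiv :=
  Finsupp.ofSupportFinite (fun P => X.hyp P.dvr) (by
    refine (X.hyp_finite.preimage PrimeDiv.dvr_injective.injOn).subset ?_
    intro P hP
    exact ⟨P.mem_Pr', hP⟩)

theorem hypDiv_apply (P : X.PrimeDiv) : X.hypDiv P = X.hyp P.dvr := rfl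

theorem hypDiv_mem_cartier : X.hypDiv ∈ X.cartier := by
  rintro R ⟨j, hj, 𝔭, h𝔭, rfl⟩
  refine ⟨X.x X.i₀ / X.x j, div_ne_zero X.x_i₀ hj, fun P hP => ?_⟩
  rw [hypDiv_apply]
  exact X.hyp_eq hj ((LocalSubring.le_ofPrime _ _).trans hP)

theorem hypDiv_nonTorsion (hN : X.IsNormal) {m : ℕ} (htr : Algebra.trdeg ℂ K = (m + 1 : ℕ))
    (k : ℤ) (hk : k • X.hypDiv ∈ X.principal) : k = 0 := by
  have key : ∀ n : ℕ, 0 < n → n • X.hypDiv ∈ X.principal → False := by
    rintro n hn ⟨f, hf, hP⟩
    have h1 : ∀ j, X.x j ≠ 0 → ∃ c : ℂ, (X.x j / X.x X.i₀) ^ n * f = algebraMap ℂ K c := by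
      intro j hj
      refine const_of hN fun v hv => ?_
      have := dvr_Pr hv
      have h2 := (X.ratio_pow_mem j n) v hv
      have h3 : vge v (n * X.hyp v) f := by
        right
        have h4 := hP (toPr hv)
        rw [Finsupp.smul_apply, hypDiv_apply, nsmul_eq_mul] at h4
        exact h4.le
      have h4 := h2.mul h3
      rw [neg_add_cancel] at h4
      exact h4.mem
    obtain ⟨j, hj, hcon⟩ := X.exists_ratio_transcendental htr
    obtain ⟨c, hc⟩ := h1 j hj
    obtain ⟨d, hd⟩ := h1 X.i₀ X.x_i₀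
    rw [div_self X.x_i₀, one_pow, one_mul] at hd
    refine hcon n hn ⟨c / d, ?_⟩
    have hd0 : algebraMap ℂ K d ≠ 0 := by rw [← hd]; exact hf
    rw [map_div₀, ← hc, ← hd, mul_div_assoc, div_self hf, mul_one]
  by_contra hk0
  rcases lt_or_gt_of_ne hk0 with h | h
  · refine key (-k).toNat (by omega) ?_
    have h1 : ((-k).toNat • X.hypDiv : X.WeilDiv) = - (k • X.hypDiv) := by
      rw [← natCast_zsmul, Int.toNat_of_nonneg (by omega), neg_smul]
    rw [h1]
    exact X.principal.neg_mem hk
  · refine key k.toNat (by omega) ?_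
    have h1 : (k.toNat • X.hypDiv : X.WeilDiv) = k • X.hypDiv := by
      rw [← natCast_zsmul, Int.toNat_of_nonneg (by omega)]
    rw [h1]
    exact hk

theorem sum_hypDiv (γ : Fin 1 → ℤ) (P : X.PrimeDiv) :
    (∑ i, γ i • (fun _ : Fin 1 => X.hypDiv) i) P = γ 0 * X.hyp P.dvr := by
  rw [Finset.univ_unique, Finset.sum_singleton, Finsupp.smul_apply, smul_eq_mul]
  rfl

theorem single_mem_coxRing (γ : Fin 1 → ℤ) (g : K)
    (h : ∀ v ∈ X.Pr, vge v (-(γ 0 * X.hyp v)) g) :
    AddMonoidAlgebra.single γ g ∈ X.coxRing fun _ : Fin 1 => X.hypDiv := by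
  classical
  intro δ P
  rw [AddMonoidAlgebra.coeff_single, Finsupp.single_apply, sum_hypDiv]
  split_ifs with hδ
  · rcases h P.dvr P.mem_Pr' with h1 | h1
    · exact Or.inl h1
    · right
      rw [← hδ]
      linarith
  · exact Or.inl rfl

theorem vge_of_mem_coxRing {z : AddMonoidAlgebra K (Fin 1 → ℤ)}
    (hz : z ∈ X.coxRing fun _ : Fin 1 => X.hypDiv) (γ : Fin 1 → ℤ) :
    ∀ v ∈ X.Pr, vge v (-(γ 0 * X.hyp v)) (z.coeff γ) := by
  intro v hv
  rcases hz γ (toPr hv) with h1 | h1
  · exact Or.inl h1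
  · right
    rw [sum_hypDiv] at h1
    change 0 ≤ ord v (z.coeff γ) + γ 0 * X.hyp v at h1
    linarith

/-- The section ring of the hyperplane divisor is finitely generated. -/
theorem coxRing_hypDiv_fg (hN : X.IsNormal) {m : ℕ} (htr : Algebra.trdeg ℂ K = (m + 1 : ℕ)) :
    (X.coxRing fun _ : Fin 1 => X.hypDiv).FG := by
  classical
  obtain ⟨s, hs, hgen⟩ := X.exists_generators hN
  set T : Set (AddMonoidAlgebra K (Fin 1 → ℤ)) :=
    Set.range (fun i => AddMonoidAlgebra.single (ck 1) (X.x i / X.x X.i₀)) ∪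
      (fun p : ℕ × K => AddMonoidAlgebra.single (ck p.1) p.2) '' s with hT
  have hTfin : T.Finite := (Set.finite_range _).union (s.finite_toSet.image _)
  have heq : X.coxRing (fun _ : Fin 1 => X.hypDiv) = Algebra.adjoin ℂ T := by
    apply le_antisymm
    · intro z hz
      have hz1 : z = ∑ γ ∈ z.coeff.support, AddMonoidAlgebra.single γ (z.coeff γ) := by
        refine Eq.trans ?_ (AddMonoidAlgebra.sum_coeff_single z).symm
        rfl
      rw [hz1]
      refine Subalgebra.sum_mem _ fun γ hγ => ?_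
      have hγ0 : z.coeff γ ≠ 0 := Finsupp.mem_support_iff.1 hγ
      have hv := X.vge_of_mem_coxRing hz γ
      set g := z.coeff γ with hg
      rw [eq_ck γ]
      rcases lt_or_ge (γ 0) 0 with hneg | hpos
      · exfalso
        obtain ⟨c, hc⟩ := const_of hN (g := g) fun v hvP => by
          have := dvr_Pr hvP
          refine (vge_zero_iff.1 ((hv v hvP).mono ?_))
          have := X.hyp_nonneg hvP
          nlinarith
        have hH : X.hypDiv = 0 := by
          ext P
          rw [hypDiv_apply, Finsupp.zero_apply]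
          have h1 := (hv P.dvr P.mem_Pr').le hγ0
          rw [hc, ord_C] at h1
          have h2 := X.hyp_nonneg P.mem_Pr'
          nlinarith
        have h3 := X.hypDiv_nonTorsion hN htr 1 (by
          rw [one_smul, hH]
          exact X.principal.zero_mem)
        exact one_ne_zero h3
      · obtain ⟨k, hk⟩ := Int.eq_ofNat_of_zero_le hpos
        rw [hk]
        have hgs : g ∈ X.sect fun v => k * X.hyp v := by
          intro v hvP
          have h1 := hv v hvP
          rw [hk] at h1
          exact h1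
        obtain ⟨a, ha, hsum⟩ := hgen k g hgs
        have hle : X.hcr ≤ (Algebra.adjoin ℂ T).map
            (IsScalarTower.toAlgHom ℂ (GR K 1) (LF K 1)) := by
          rw [hcr, Algebra.adjoin_le_iff]
          rintro _ ⟨i, rfl⟩
          exact ⟨AddMonoidAlgebra.single (ck 1) (X.x i / X.x X.i₀),
            Algebra.subset_adjoin (Or.inl ⟨i, rfl⟩), rfl⟩
        have h2 : ∀ p, ∃ P ∈ Algebra.adjoin ℂ T, algebraMap (GR K 1) (LF K 1) P = a p := by
          intro p
          obtain ⟨P, hP, h⟩ := hle (ha p)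
          exact ⟨P, hP, h⟩
        choose P hP hPa using h2
        have h3 : (AddMonoidAlgebra.single (ck k) g : GR K 1) =
            ∑ p ∈ s, P p * AddMonoidAlgebra.single (ck p.1) p.2 := by
          apply GR_injective
          rw [map_sum]
          refine Eq.trans hsum (Finset.sum_congr rfl fun p _ => ?_)
          rw [map_mul, hPa]
          rfl
        refine (congrArg (fun w => w ∈ Algebra.adjoin ℂ T) h3).mpr ?_
        refine Subalgebra.sum_mem _ fun p hp => ?_
        exact Subalgebra.mul_mem _ (hP p) (Algebra.subset_adjoin (Or.inr ⟨p, hp, rfl⟩))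
    · rw [Algebra.adjoin_le_iff]
      rintro _ (⟨i, rfl⟩ | ⟨p, hp, rfl⟩)
      · refine X.single_mem_coxRing _ _ ?_
        have h1 := X.ratio_pow_mem i 1
        rw [pow_one] at h1
        exact h1
      · exact X.single_mem_coxRing _ _ (hs p hp)
  rw [heq]
  exact ⟨hTfin.toFinset, by rw [Set.Finite.coe_toFinset]⟩

/-- Normal projective `ℚ`-factorial varieties with Picard group of rank one are Mori dream
spaces. -/
theorem isMoriDreamSpace_of_rank_one (hN : X.IsNormal) {m : ℕ}
    (htr : Algebra.trdeg ℂ K = (m + 1 : ℕ)) (hQ : X.IsQFactorial) (hfg : AddGroup.FG X.Pic)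
    (h1 : X.picardRank = 1) : X.IsMoriDreamSpace := by
  refine ⟨hQ, hfg, ?_⟩
  have key : ∀ r : ℕ, r = 1 → ∃ D : Fin r → X.WeilDiv, X.GeneratesClass D ∧
      (X.coxRing D).FG := by
    rintro _ rfl
    refine ⟨fun _ => X.hypDiv, fun E => ?_, X.coxRing_hypDiv_fg hN htr⟩
    obtain ⟨k, n, hk, h⟩ := generates_of_rank_one hQ hfg h1 X.hypDiv_mem_cartier
      (X.hypDiv_nonTorsion hN htr) E
    refine ⟨k, fun _ => n, hk, ?_⟩
    rw [Finset.univ_unique, Finset.sum_singleton]
    exact h
  exact key _ h1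

end ProjVar

end Pool.Agent.Helper94.LCY
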