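import Pool.Agent.Helper94.MDS.Dim

/-!
# Monomials with independent exponents
-/

noncomputable section

namespace Pool.Agent.Helper94.LCY

section

variable {L : Type} [Field L] [Algebra ℂ L] {J : Type} [Fintype J]

/-- A polynomial in Laurent monomials is, up to a monomial, a polynomial in the variables. -/
theorem exists_monomial_clear {z : J → L} (hz : ∀ j, z j ≠ 0) {p : ℕ} (κ : Fin p → J → ℤ)
    (hκ : ∀ c : Fin p → ℤ, (∀ j, ∑ l, c l * κ l j = 0) → c = 0) {P : MvPolynomial (Fin p) ℂ}
    (hP : P ≠ 0) : ∃ (P' : MvPolynomial J ℂ) (N : ℕ), P' ≠ 0 ∧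
      (∏ j, z j ^ N) * MvPolynomial.aeval (fun l => ∏ j, z j ^ κ l j) P =
        MvPolynomial.aeval z P' := by
  classical
  set E : (Fin p →₀ ℕ) → J → ℤ := fun a j => ∑ l, (a l : ℤ) * κ l j with hE
  set N := ∑ a ∈ P.support, ∑ j, (E a j).natAbs with hN
  have hNE : ∀ a ∈ P.support, ∀ j, 0 ≤ E a j + N := by
    intro a ha j
    have h1 : (E a j).natAbs ≤ ∑ j, (E a j).natAbs :=
      Finset.single_le_sum (f := fun j => (E a j).natAbs) (fun _ _ => Nat.zero_le _)
        (Finset.mem_univ j)
    have h2 : ∑ j, (E a j).natAbs ≤ N :=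
      Finset.single_le_sum (f := fun a => ∑ j, (E a j).natAbs) (fun _ _ => Nat.zero_le _) ha
    omega
  set e : (Fin p →₀ ℕ) → (J →₀ ℕ) := fun a => Finsupp.equivFunOnFinite.symm
    fun j => (E a j + N).toNat with he
  have hej : ∀ a ∈ P.support, ∀ j, ((e a j : ℕ) : ℤ) = E a j + N := by
    intro a ha j
    exact Int.toNat_of_nonneg (hNE a ha j)
  have hinj : ∀ a ∈ P.support, ∀ a' ∈ P.support, e a = e a' → a = a' := by
    intro a ha a' ha' h
    have h1 : (fun l => (a l : ℤ) - a' l) = 0 := by
      apply hκ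
      intro j
      have h2 := hej a ha j
      have h3 := hej a' ha' j
      rw [h] at h2
      have h4 : E a j = E a' j := by linarith
      simp only [sub_mul, Finset.sum_sub_distrib]
      rw [sub_eq_zero]
      exact h4
    ext l
    have h2 := congrFun h1 l
    simp only [Pi.zero_apply] at h2
    omega
  refine ⟨∑ a ∈ P.support, MvPolynomial.monomial (e a) (P.coeff a), N, ?_, ?_⟩
  · intro h0
    obtain ⟨a, ha⟩ : P.support.Nonempty := by
      rw [Finset.nonempty_iff_ne_empty]
      intro h
      exact hP (MvPolynomial.support_eq_empty.1 h)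
    have h1 := congrArg (MvPolynomial.coeff (e a)) h0
    rw [MvPolynomial.coeff_sum, Finset.sum_eq_single a] at h1
    · rw [MvPolynomial.coeff_monomial, if_pos rfl, MvPolynomial.coeff_zero] at h1
      exact MvPolynomial.mem_support_iff.1 ha h1
    · intro a' ha' hne
      rw [MvPolynomial.coeff_monomial, if_neg]
      intro h
      exact hne (hinj a' ha' a ha h)
    · intro h
      exact absurd ha h
  · conv_lhs => rw [P.as_sum]
    rw [map_sum, map_sum, Finset.mul_sum]
    refine Finset.sum_congr rfl fun a ha => ?_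
    rw [MvPolynomial.aeval_monomial, MvPolynomial.aeval_monomial,
      Finsupp.prod_fintype _ _ (fun _ => pow_zero _), Finsupp.prod_fintype _ _ (fun _ => pow_zero _)]
    rw [mul_left_comm]
    congr 1
    have h1 : (∏ l, (∏ j, z j ^ κ l j) ^ a l) = ∏ j, z j ^ E a j := by
      simp only [← Finset.prod_pow]
      rw [Finset.prod_comm]
      refine Finset.prod_congr rfl fun j _ => ?_
      have h2 : ∀ s : Finset (Fin p), ∏ l ∈ s, (z j ^ κ l j) ^ a l =
          z j ^ ∑ l ∈ s, (a l : ℤ) * κ l j := by
        intro s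
        induction s using Finset.induction_on with
        | empty => simp
        | insert l s hl ih =>
          rw [Finset.prod_insert hl, Finset.sum_insert hl, zpow_add₀ (hz j), ih, ← zpow_natCast,
            ← zpow_mul, mul_comm (κ l j)]
      exact h2 _
    rw [h1, ← Finset.prod_mul_distrib]
    refine Finset.prod_congr rfl fun j _ => ?_
    rw [← zpow_natCast, ← zpow_add₀ (hz j), ← zpow_natCast, hej a ha j, add_comm]

theorem algIndep_monomials {z : J → L} (hz : AlgebraicIndependent ℂ z) {p : ℕ}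
    (κ : Fin p → J → ℤ)
    (hκ : ∀ c : Fin p → ℤ, (∀ j, ∑ l, c l * κ l j = 0) → c = 0) :
    AlgebraicIndependent ℂ (fun l => ∏ j, z j ^ κ l j) := by
  rw [algebraicIndependent_iff]
  intro P hP
  by_contra h0
  obtain ⟨P', N, hP', h⟩ := exists_monomial_clear (z := z) (fun j => hz.ne_zero j) κ hκ h0
  rw [hP, mul_zero] at h
  exact hP' (algebraicIndependent_iff.1 hz P' h.symm)

theorem resIndep_monomials {V : ValuationSubring L} {z : J → L} (hz : ResIndep V z) {p : ℕ}
    (κ : Fin p → J → ℤ)
    (hκ : ∀ c : Fin p → ℤ, (∀ j, ∑ l, c l * κ l j = 0) → c = 0) :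
    ResIndep V (fun l => ∏ j, z j ^ κ l j) := by
  intro P h0
  obtain ⟨P', N, hP', h⟩ := exists_monomial_clear (z := z) (fun j => hz.ne_zero j) κ hκ h0
  have h1 := congrArg V.valuation h
  rw [map_mul, hz P' hP', map_prod, Finset.prod_eq_one, one_mul] at h1
  · exact h1
  · intro j _
    rw [map_pow, hz.val_eq_one, one_pow]

omit [Fintype J] in
/-- Residually independent elements and an element of the maximal ideal are independent. -/
theorem ResIndep.option {V : ValuationSubring L} {z : J → L} (hz : ResIndep V z) {x : L}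
    (hx : x ≠ 0) (hlt : V.valuation x < 1) :
    AlgebraicIndependent ℂ (fun o : Option J => o.elim x z) := by
  refine AlgebraicIndependent.option_iff.2 ⟨hz.algebraicIndependent, fun halg => ?_⟩
  obtain ⟨P, hP0, hP⟩ := halg.exists_nonzero_coeff_and_aeval_eq_zero
    (mem_nonZeroDivisors_of_ne_zero hx)
  obtain ⟨p, hp⟩ := exists_aeval_of_mem_adjoin (P.coeff 0).2
  have hp0 : p ≠ 0 := by
    rintro rfl
    rw [map_zero] at hp
    exact hP0 (Subtype.ext hp.symm)
  have h1 : V.valuation (P.coeff 0 : L) = 1 := by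
    rw [← hp]
    exact hz p hp0
  have hadj : ∀ a : Algebra.adjoin ℂ (Set.range z), (a : L) ∈ V := by
    intro a
    obtain ⟨p, hp⟩ := exists_aeval_of_mem_adjoin a.2
    rw [← hp]
    exact aeval_mem hz.C_mem hz.mem p
  have hmem : ∀ R : Polynomial (Algebra.adjoin ℂ (Set.range z)),
      Polynomial.aeval x R ∈ V := by
    intro R
    induction R using Polynomial.induction_on' with
    | add p q hp hq => rw [map_add]; exact V.add_mem _ _ hp hq
    | monomial n a =>
      rw [Polynomial.aeval_monomial]
      exact V.mul_mem _ _ (hadj a) (V.pow_mem ((V.valuation_le_one_iff x).1 hlt.le) n)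
  have h2 := hP
  rw [← Polynomial.divX_mul_X_add P, map_add, map_mul, Polynomial.aeval_X,
    Polynomial.aeval_C] at h2
  have h3 : (P.coeff 0 : L) = -(Polynomial.aeval x P.divX * x) := by
    change algebraMap (Algebra.adjoin ℂ (Set.range z)) L (P.coeff 0) = _
    linear_combination h2
  rw [h3, Valuation.map_neg, map_mul] at h1
  have h4 := (V.valuation_le_one_iff _).2 (hmem P.divX)
  have h5 : V.valuation (Polynomial.aeval x P.divX) * V.valuation x < 1 :=
    lt_of_le_of_lt (mul_le_of_le_one_left zero_le h4) hlt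
  exact h5.ne h1

omit [Fintype J] in
theorem ResIndep.cons' {n : ℕ} {V : ValuationSubring L} {z : Fin n → L} (hz : ResIndep V z) {x : L}
    (hx : x ≠ 0) (hlt : V.valuation x < 1) :
    AlgebraicIndependent ℂ (Fin.cons x z : Fin (n + 1) → L) := by
  have h2 := (hz.option hx hlt).comp (finSuccEquiv n) (finSuccEquiv n).injective
  convert h2 using 1
  funext i
  refine Fin.cases ?_ (fun i => ?_) i
  · simp
  · simp

end

/-! ### Linear algebra over the integers -/

theorem le_finrank_ker {J M : Type} [Fintype J] [AddCommGroup M] [Module.Finite ℤ M]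
    (Φ : (J → ℤ) →ₗ[ℤ] M) {a b : ℕ} (hM : Module.finrank ℤ M ≤ b)
    (hJ : a + b ≤ Fintype.card J) : a ≤ Module.finrank ℤ (LinearMap.ker Φ) := by
  have h1 := Submodule.finrank_quotient_add_finrank (LinearMap.ker Φ)
  rw [Φ.quotKerEquivRange.finrank_eq, Module.finrank_fintype_fun_eq_card] at h1
  have h2 : Module.finrank ℤ (LinearMap.range Φ) ≤ Module.finrank ℤ M := Submodule.finrank_le _
  omega

theorem exists_kernel {J : Type} [Fintype J] {r m : ℕ} (deg : J → Fin r → ℤ) (j₀ : J)
    (hJ : Fintype.card J = m + 1 + r) : ∃ κ : Fin (m + 1) → J → ℤ,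
      (∀ l i, ∑ j, κ l j * deg j i = 0) ∧ (∀ l : Fin m, κ l.succ j₀ = 0) ∧
      ∀ c : Fin (m + 1) → ℤ, (∀ j, ∑ l, c l * κ l j = 0) → c = 0 := by
  let Φ : (J → ℤ) →ₗ[ℤ] (Fin r → ℤ) :=
    { toFun := fun k i => ∑ j, k j * deg j i
      map_add' := fun k k' => by
        funext i
        simp only [Pi.add_apply, add_mul, Finset.sum_add_distrib]
      map_smul' := fun a k => by
        funext i
        simp only [Pi.smul_apply, smul_eq_mul, Finset.mul_sum, RingHom.id_apply, mul_assoc] }
  let Φ' : (J → ℤ) →ₗ[ℤ] (Fin r → ℤ) × ℤ := Φ.prod (LinearMap.proj j₀)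
  have h1 : m + 1 ≤ Module.finrank ℤ (LinearMap.ker Φ) :=
    le_finrank_ker Φ (b := r) (by rw [Module.finrank_fintype_fun_eq_card, Fintype.card_fin])
      (by omega)
  have h2 : m ≤ Module.finrank ℤ (LinearMap.ker Φ') :=
    le_finrank_ker Φ' (b := r + 1) (by
      rw [Module.finrank_prod, Module.finrank_fintype_fun_eq_card, Fintype.card_fin,
        Module.finrank_self]) (by omega)
  obtain ⟨v, hv⟩ := exists_linearIndependent_of_le_finrank h2
  have hle : LinearMap.ker Φ' ≤ LinearMap.ker Φ := by
    intro k hk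
    rw [LinearMap.mem_ker] at hk ⊢
    exact congrArg Prod.fst hk
  have hv' : LinearIndependent ℤ fun l => Submodule.inclusion hle (v l) :=
    hv.map' (Submodule.inclusion hle) (Submodule.ker_inclusion _ _ hle)
  obtain ⟨x, hx⟩ := exists_linearIndependent_cons_of_lt_finrank hv' (by omega)
  set w : Fin (m + 1) → LinearMap.ker Φ := Fin.cons x fun l => Submodule.inclusion hle (v l)
    with hw
  refine ⟨fun l => (w l : J → ℤ), fun l i => ?_, fun l => ?_, fun c hc => ?_⟩
  · exact congrFun (w l).2 i
  · have h3 := (v l).2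
    exact congrArg Prod.snd h3
  · funext l
    refine Fintype.linearIndependent_iff.1 hx c ?_ l
    apply Subtype.ext
    rw [Submodule.coe_sum]
    funext j
    rw [Finset.sum_apply]
    exact hc j

end Pool.Agent.Helper94.LCY
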