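import Pool.Agent.Helper94.MDS.GeoE
import Pool.Agent.Helper94.MDS.Mono
import Pool.Agent.Helper94.MDS.Units

/-!
# Charts which are affine spaces, and projective space
-/

noncomputable section

open KaehlerDifferential

namespace Pool.Agent.Helper94.LCY

variable {K : Type} [Field K] [Algebra ℂ K] {m : ℕ}

section Poly

variable {n : ℕ} {z : Fin n → K}

theorem isIntegrallyClosed_adjoin (hz : AlgebraicIndependent ℂ z) :
    IsIntegrallyClosed (Algebra.adjoin ℂ (Set.range z)) :=
  IsIntegrallyClosed.of_equiv hz.aevalEquiv.toRingEquiv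

/-- The differentials of the coordinates are a basis of the regular differentials. -/
theorem repr_D_mem {v : ValuationSubring K}
    (hloc : IsLocOf (Algebra.adjoin ℂ (Set.range z)).toSubring v)
    (b : Module.Basis (Fin n) K (Ω[K⁄ℂ])) (hb : ∀ i, b i = D ℂ K (z i)) {x : K} (hx : x ∈ v)
    (i : Fin n) : b.repr (D ℂ K x) i ∈ v := by
  have hA : ∀ x ∈ Algebra.adjoin ℂ (Set.range z), ∀ i, b.repr (D ℂ K x) i ∈ v := by
    intro x hx
    induction hx using Algebra.adjoin_induction with
    | mem x hx =>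
      intro i
      obtain ⟨j, rfl⟩ := hx
      rw [← hb, Module.Basis.repr_self, Finsupp.single_apply]
      split_ifs
      · exact v.one_mem
      · exact v.zero_mem
    | algebraMap z =>
      intro i
      rw [Derivation.map_algebraMap, map_zero]
      exact v.zero_mem
    | add x y _ _ hx hy =>
      intro i
      rw [map_add, map_add, Finsupp.add_apply]
      exact v.add_mem _ _ (hx i) (hy i)
    | mul x y hx' hy' hx hy =>
      intro i
      rw [Derivation.leibniz, map_add, map_smul, map_smul, Finsupp.add_apply,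
        Finsupp.smul_apply, Finsupp.smul_apply]
      exact v.add_mem _ _ (v.mul_mem _ _ (hloc.1 hx') (hy i)) (v.mul_mem _ _ (hloc.1 hy') (hx i))
  obtain ⟨g, hg, h, hh, hh1, rfl⟩ := hloc.2 x hx
  have hinv : h⁻¹ ∈ v := by
    rw [← v.valuation_le_one_iff, map_inv₀, hh1, inv_one]
  rw [Derivation.leibniz_div, map_smul, map_sub, map_smul, map_smul, Finsupp.smul_apply,
    Finsupp.sub_apply, Finsupp.smul_apply, Finsupp.smul_apply]
  exact v.mul_mem _ _ (v.pow_mem hinv 2) (v.sub_mem (v.mul_mem _ _ (hloc.1 hh) (hA g hg i))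
    (v.mul_mem _ _ (hloc.1 hg) (hA h hh i)))

/-- The orders of the coordinates along a prime divisor. -/
theorem sum_ord_coord (hz : AlgebraicIndependent ℂ z) {v : ValuationSubring K}
    [IsDiscreteValuationRing v] (hloc : IsLocOf (Algebra.adjoin ℂ (Set.range z)).toSubring v) :
    ∑ i, ord v (z i) = open Classical in if ∃ i, ord v (z i) ≠ 0 then 1 else 0 := by
  classical
  have hmem : ∀ i, z i ∈ Algebra.adjoin ℂ (Set.range z) := fun i =>
    Algebra.subset_adjoin ⟨i, rfl⟩
  have hz0 : ∀ i, z i ≠ 0 := fun i => hz.ne_zero i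
  have hnn : ∀ i, 0 ≤ ord v (z i) := fun i => (ord_nonneg_iff (hz0 i)).2 (hloc.1 (hmem i))
  split_ifs with h
  · obtain ⟨i, hi⟩ := h
    have hpos : 0 < ord v (z i) := lt_of_le_of_ne (hnn i) (Ne.symm hi)
    -- the prime ideal generated by `z i`
    let e := hz.aevalEquiv
    let P : Ideal (Algebra.adjoin ℂ (Set.range z)).toSubring :=
      Ideal.span {(⟨z i, hmem i⟩ : (Algebra.adjoin ℂ (Set.range z)).toSubring)}
    have hprime : Prime (⟨z i, hmem i⟩ : Algebra.adjoin ℂ (Set.range z)) := by
      have h1 : (⟨z i, hmem i⟩ : Algebra.adjoin ℂ (Set.range z)) = e (MvPolynomial.X i) := by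
        apply Subtype.ext
        change z i = MvPolynomial.aeval z (MvPolynomial.X i)
        rw [MvPolynomial.aeval_X]
      rw [h1]
      exact (MulEquiv.prime_iff e).2 MvPolynomial.X_prime
    have hP : P.IsPrime := (Ideal.span_singleton_prime hprime.ne_zero).2 hprime
    have hP0 : P ≠ ⊥ := by
      intro h0
      rw [Ideal.span_singleton_eq_bot] at h0
      exact hprime.ne_zero h0
    have hPv : ∀ x ∈ P, v.valuation (x : K) < 1 := by
      intro x hx
      obtain ⟨a, rfl⟩ := Ideal.mem_span_singleton'.1 hx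
      change v.valuation ((a : K) * z i) < 1
      rw [map_mul]
      exact (mul_le_of_le_one_left zero_le ((v.valuation_le_one_iff _).2
        (hloc.1 a.2))).trans_lt ((ord_pos_iff (hz0 i)).1 hpos)
    have hcen : ∀ x ∈ Algebra.adjoin ℂ (Set.range z), v.valuation x < 1 →
        ∃ a ∈ Algebra.adjoin ℂ (Set.range z), x = a * z i := by
      intro x hx hlt
      have h1 := hloc.mem_prime P hP0 hPv ⟨x, hx⟩ hlt
      obtain ⟨a, ha⟩ := Ideal.mem_span_singleton'.1 h1
      exact ⟨a, a.2, (congrArg Subtype.val ha).symm⟩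
    have hi1 : ord v (z i) = 1 := by
      obtain ⟨t, ht⟩ := exists_irr v
      obtain ⟨g, hg, k, hk, hk1, e⟩ := hloc.2 t t.2
      have hg0 : g ≠ 0 := by
        rintro rfl
        rw [zero_div] at e
        exact irr_ne_zero ht e
      have hk0 : k ≠ 0 := by
        rintro rfl
        rw [map_zero] at hk1
        exact zero_ne_one hk1
      have h1 : ord v g = 1 := by
        have h2 := congrArg (ord v) e
        rw [ord_irr ht, ord_div hg0 hk0, (ord_eq_zero_iff hk0).2 hk1, sub_zero] at h2
        exact h2.symm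
      obtain ⟨a, ha, rfl⟩ := hcen g hg ((ord_pos_iff hg0).1 (by omega))
      have ha0 : a ≠ 0 := left_ne_zero_of_mul hg0
      rw [ord_mul ha0 (hz0 i)] at h1
      have h2 := (ord_nonneg_iff ha0).2 (hloc.1 ha)
      omega
    rw [Finset.sum_eq_single i]
    · exact hi1
    · intro j _ hij
      by_contra hne
      have hj : 0 < ord v (z j) := lt_of_le_of_ne (hnn j) (Ne.symm hne)
      obtain ⟨a, ha, hja⟩ := hcen (z j) (hmem j) ((ord_pos_iff (hz0 j)).1 hj)
      obtain ⟨p, rfl⟩ := exists_aeval_of_mem_adjoin ha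
      have h1 : MvPolynomial.aeval (R := ℂ) z (MvPolynomial.X j) =
          MvPolynomial.aeval z (p * MvPolynomial.X i) := by
        rw [map_mul, MvPolynomial.aeval_X, MvPolynomial.aeval_X]
        exact hja
      have h2 : (MvPolynomial.X j : MvPolynomial (Fin n) ℂ) = p * MvPolynomial.X i := hz h1
      have h3 : (MvPolynomial.X i : MvPolynomial (Fin n) ℂ) ∣ MvPolynomial.X j :=
        ⟨p, by rw [h2, mul_comm]⟩
      rw [MvPolynomial.X_dvd_X] at h3
      exact hij h3.symm
    · intro h
      exact absurd (Finset.mem_univ i) h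
  · push Not at h
    exact Finset.sum_eq_zero fun i _ => h i

end Poly

/-- The order of a form along a prime divisor of an affine space. -/
theorem ord_A_coord {z : Fin (m + 1) → K} (hz : IsTranscendenceBasis ℂ z)
    {v : ValuationSubring K} [IsDiscreteValuationRing v]
    (hloc : IsLocOf (Algebra.adjoin ℂ (Set.range z)).toSubring v) (F : Frame v m)
    {A : Ω[K⁄ℂ] [⋀^Fin (m + 1)]→ₗ[K] K} (hA : A ≠ 0) :
    ord v (A F.b) = ∑ i, ord v (z i) + ord v (A fun i => dlog (z i)) := by
  obtain ⟨b, hb⟩ := exists_basis_D hz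
  have hz0 : ∀ i, z i ≠ 0 := fun i => hz.1.ne_zero i
  have hmem : ∀ i, z i ∈ v := fun i => hloc.1 (Algebra.subset_adjoin ⟨i, rfl⟩)
  have h1 : A b = (∏ i, z i) * A fun i => dlog (z i) := by
    rw [← smul_eq_mul, ← AlternatingMap.map_smul_univ]
    congr 1
    funext i
    rw [hb, D_eq_smul_dlog (hz0 i)]
  have hAb : A b ≠ 0 := alt_ne_zero hA b
  have hprod : ∏ i, z i ≠ 0 := Finset.prod_ne_zero_iff.2 fun i _ => hz0 i
  have hlog : (A fun i => dlog (z i)) ≠ 0 := by
    intro h0
    rw [h0, mul_zero] at h1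
    exact hAb h1
  have h2 : ord v (A b) = ∑ i, ord v (z i) + ord v (A fun i => dlog (z i)) := by
    rw [h1, ord_mul hprod hlog, ord_prod fun i _ => hz0 i]
  rw [← h2]
  refine le_antisymm ?_ ?_
  · exact (F.vge_alt A (ξ := b) fun i j => by
      rw [hb]
      exact F.int _ (hmem i) j).le hAb
  · have h3 := alt_eq_det A b F.b
    have hdet : (Matrix.of fun i j => b.repr (F.b i) j).det ∈ v := by
      refine det_mem fun i j => ?_
      change b.repr (F.b i) j ∈ v
      refine Fin.cases ?_ (fun i => ?_) i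
      · rw [F.b_zero]
        exact repr_D_mem hloc b hb F.t.2 j
      · rw [F.b_succ]
        exact repr_D_mem hloc b hb (F.res.mem i) j
    have h4 := alt_ne_zero hA F.b
    have h5 : (Matrix.of fun i j => b.repr (F.b i) j).det ≠ 0 := by
      intro h0
      rw [h0, zero_mul] at h3
      exact h4 h3
    rw [h3, ord_mul h5 hAb]
    have h6 := (ord_nonneg_iff h5).2 hdet
    omega

end Pool.Agent.Helper94.LCY
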