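import Pool.Agent.Helper94.MDS.GeoP

/-!
# The pair `(ℙ^n, H_0 + ... + H_n)`
-/

noncomputable section

open KaehlerDifferential

namespace Pool.Agent.Helper94.LCY

theorem algebraMap_RatField_injective (n : ℕ) :
    Function.Injective (algebraMap (MvPolynomial (Fin n) ℂ) (RatField n)) :=
  IsFractionRing.injective _ _

theorem aeval_ratX (n : ℕ) (p : MvPolynomial (Fin n) ℂ) :
    MvPolynomial.aeval (ratX n) p = algebraMap (MvPolynomial (Fin n) ℂ) (RatField n) p := by
  have h : MvPolynomial.aeval (ratX n) =
      IsScalarTower.toAlgHom ℂ (MvPolynomial (Fin n) ℂ) (RatField n) := by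
    apply MvPolynomial.algHom_ext
    intro i
    rw [MvPolynomial.aeval_X]
    rfl
  rw [h]
  rfl

theorem ratX_indep (n : ℕ) : AlgebraicIndependent ℂ (ratX n) := by
  rw [algebraicIndependent_iff]
  intro p hp
  rw [aeval_ratX] at hp
  exact (map_eq_zero_iff _ (algebraMap_RatField_injective n)).1 hp

theorem ratX_basis (n : ℕ) : IsTranscendenceBasis ℂ (ratX n) := by
  have h1 := IsTranscendenceBasis.mvPolynomial (Fin n) ℂ
  have halg : Algebra.IsAlgebraic (MvPolynomial (Fin n) ℂ) (RatField n) :=
    (IsFractionRing.comap_isAlgebraic_iff (A := MvPolynomial (Fin n) ℂ) (K := RatField n)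
      (C := RatField n)).2 inferInstance
  have h2 := h1.algebraMap_comp (A := RatField n)
  exact h2

theorem trdeg_RatField (n : ℕ) : Algebra.trdeg ℂ (RatField n) = (n : ℕ) := by
  rw [← (ratX_basis n).cardinalMk_eq_trdeg, Cardinal.mk_fin]

theorem ratX_ne (n : ℕ) (i : Fin n) : ratX n i ≠ 0 := (ratX_indep n).ne_zero i

/-- The coordinates of a chart of projective space. -/
def zc (n : ℕ) (k : Option (Fin n)) : Fin n → RatField n :=
  k.elim (ratX n) fun k i => if i = k then (ratX n k)⁻¹ else ratX n i / ratX n k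

theorem zc_none (n : ℕ) : zc n none = ratX n := rfl

theorem zc_some (n : ℕ) (k i : Fin n) :
    zc n (some k) i = if i = k then (ratX n k)⁻¹ else ratX n i / ratX n k := rfl

theorem projSpace_x_ne (n : ℕ) (k : Option (Fin n)) : (projSpace n).x k ≠ 0 := by
  cases k with
  | none => exact one_ne_zero
  | some k => exact ratX_ne n k

theorem zc_mem_chart (n : ℕ) (k : Option (Fin n)) (i : Fin n) :
    zc n k i ∈ (projSpace n).chart k := by
  cases k with
  | none =>
    refine Algebra.subset_adjoin ⟨some i, ?_⟩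
    change ratX n i / 1 = ratX n i
    rw [div_one]
  | some k =>
    rw [zc_some]
    split_ifs with h
    · refine Algebra.subset_adjoin ⟨none, ?_⟩
      change 1 / ratX n k = _
      rw [one_div]
    · exact Algebra.subset_adjoin ⟨some i, rfl⟩

theorem chart_eq (n : ℕ) (k : Option (Fin n)) :
    (projSpace n).chart k = Algebra.adjoin ℂ (Set.range (zc n k)) := by
  apply le_antisymm
  · refine Algebra.adjoin_le ?_
    rintro _ ⟨i, rfl⟩
    change (projSpace n).x i / (projSpace n).x k ∈ Algebra.adjoin ℂ (Set.range (zc n k))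
    by_cases hik : i = k
    · rw [hik, div_self (projSpace_x_ne n k)]
      exact Subalgebra.one_mem _
    cases k with
    | none =>
      cases i with
      | none => exact absurd rfl hik
      | some i =>
        refine Algebra.subset_adjoin ⟨i, ?_⟩
        change ratX n i = ratX n i / 1
        rw [div_one]
    | some k =>
      cases i with
      | none =>
        refine Algebra.subset_adjoin ⟨k, ?_⟩
        rw [zc_some, if_pos rfl]
        change _ = 1 / ratX n k
        rw [one_div]
      | some i =>
        refine Algebra.subset_adjoin ⟨i, ?_⟩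
        rw [zc_some, if_neg (fun h => hik (by rw [h]))]
        rfl
  · refine Algebra.adjoin_le ?_
    rintro _ ⟨i, rfl⟩
    exact zc_mem_chart n k i

/-- The exponents of the change of coordinates. -/
def zmat (n : ℕ) (k : Option (Fin n)) : Matrix (Fin n) (Fin n) ℤ :=
  fun i j => k.elim (if i = j then 1 else 0) fun k =>
    (if i = k then 0 else if i = j then 1 else 0) - if j = k then 1 else 0

theorem zpow_prod_eq {L : Type} [Field L] {n : ℕ} {y : Fin n → L} (hy : ∀ i, y i ≠ 0)
    (k : Option (Fin n)) (i : Fin n) :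
    ∏ j, y j ^ zmat n k i j = k.elim (y i) fun k => if i = k then (y k)⁻¹ else y i / y k := by
  cases k with
  | none =>
    rw [Finset.prod_eq_single i]
    · change y i ^ (if i = i then (1 : ℤ) else 0) = y i
      rw [if_pos rfl, zpow_one]
    · intro j _ hj
      change y j ^ (if i = j then (1 : ℤ) else 0) = 1
      rw [if_neg hj.symm, zpow_zero]
    · intro h
      exact absurd (Finset.mem_univ i) h
  | some k =>
    have h1 : ∀ j, y j ^ zmat n (some k) i j =
        y j ^ (if i = k then 0 else if i = j then (1 : ℤ) else 0) *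
          (y j ^ (if j = k then (1 : ℤ) else 0))⁻¹ := by
      intro j
      change y j ^ ((if i = k then 0 else if i = j then (1 : ℤ) else 0) -
        if j = k then (1 : ℤ) else 0) = _
      rw [zpow_sub₀ (hy j), div_eq_mul_inv]
    rw [Finset.prod_congr rfl fun j _ => h1 j, Finset.prod_mul_distrib, Finset.prod_inv_distrib]
    have h2 : ∏ j, y j ^ (if j = k then (1 : ℤ) else 0) = y k := by
      rw [Finset.prod_eq_single k]
      · rw [if_pos rfl, zpow_one]
      · intro j _ hj
        rw [if_neg hj, zpow_zero]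
      · intro h
        exact absurd (Finset.mem_univ k) h
    rw [h2]
    change _ = if i = k then (y k)⁻¹ else y i / y k
    by_cases hik : i = k
    · rw [if_pos hik]
      simp only [if_pos hik, zpow_zero, Finset.prod_const_one, one_mul]
    · rw [if_neg hik]
      simp only [if_neg hik]
      rw [Finset.prod_eq_single i]
      · rw [if_pos rfl, zpow_one, div_eq_mul_inv]
      · intro j _ hj
        rw [if_neg hj.symm, zpow_zero]
      · intro h
        exact absurd (Finset.mem_univ i) h

theorem zc_eq (n : ℕ) (k : Option (Fin n)) (i : Fin n) :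
    zc n k i = ∏ j, ratX n j ^ zmat n k i j := by
  rw [zpow_prod_eq (ratX_ne n) k i]
  cases k with
  | none => rfl
  | some k => rfl

theorem zc_ne (n : ℕ) (k : Option (Fin n)) (i : Fin n) : zc n k i ≠ 0 := by
  rw [zc_eq]
  exact Finset.prod_ne_zero_iff.2 fun j _ => zpow_ne_zero _ (ratX_ne n j)

theorem ratX_eq (n : ℕ) (k : Option (Fin n)) (i : Fin n) :
    ratX n i = ∏ j, zc n k j ^ zmat n k i j := by
  rw [zpow_prod_eq (zc_ne n k) k i]
  cases k with
  | none => rfl
  | some k =>
    change _ = if i = k then (zc n (some k) k)⁻¹ else zc n (some k) i / zc n (some k) k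
    have h1 : zc n (some k) k = (ratX n k)⁻¹ := by rw [zc_some, if_pos rfl]
    by_cases hik : i = k
    · rw [if_pos hik, h1, inv_inv, hik]
    · rw [if_neg hik, h1, zc_some, if_neg hik, div_inv_eq_mul, div_mul_cancel₀ _ (ratX_ne n k)]

theorem zmat_indep (n : ℕ) (k : Option (Fin n)) (c : Fin n → ℤ)
    (h : ∀ j, ∑ l, c l * zmat n k l j = 0) : c = 0 := by
  cases k with
  | none =>
    funext j
    have h1 := h j
    rw [Finset.sum_eq_single j] at h1
    · have h2 : zmat n none j j = 1 := if_pos rfl
      rw [h2, mul_one] at h1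
      exact h1
    · intro l _ hl
      have h2 : zmat n none l j = 0 := if_neg hl
      rw [h2, mul_zero]
    · intro h'
      exact absurd (Finset.mem_univ j) h'
  | some k =>
    have hne : ∀ j, j ≠ k → c j = 0 := by
      intro j hj
      have h1 := h j
      rw [Finset.sum_eq_single j] at h1
      · have h2 : zmat n (some k) j j = 1 := by
          change (if j = k then 0 else if j = j then (1 : ℤ) else 0) - (if j = k then 1 else 0) = 1
          rw [if_neg hj, if_neg hj, if_pos rfl, sub_zero]
        rw [h2, mul_one] at h1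
        exact h1
      · intro l _ hl
        have h2 : zmat n (some k) l j = 0 := by
          change (if l = k then 0 else if l = j then (1 : ℤ) else 0) - (if j = k then 1 else 0) = 0
          rw [if_neg hj, if_neg hl, ite_self, sub_zero]
        rw [h2, mul_zero]
      · intro h'
        exact absurd (Finset.mem_univ j) h'
    have hk : c k = 0 := by
      have h1 := h k
      rw [Finset.sum_eq_single k] at h1
      · have h2 : zmat n (some k) k k = -1 := by
          change (if k = k then 0 else if k = k then (1 : ℤ) else 0) - (if k = k then 1 else 0) = -1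
          rw [if_pos rfl, if_pos rfl]
          rfl
        rw [h2] at h1
        linarith
      · intro l _ hl
        rw [hne l hl, zero_mul]
      · intro h'
        exact absurd (Finset.mem_univ k) h'
    funext j
    by_cases hj : j = k
    · rw [hj]; exact hk
    · exact hne j hj

theorem zc_indep (n : ℕ) (k : Option (Fin n)) : AlgebraicIndependent ℂ (zc n k) := by
  have h := algIndep_monomials (ratX_indep n) (fun i j => zmat n k i j) (zmat_indep n k)
  have h2 : zc n k = fun l => ∏ j, ratX n j ^ zmat n k l j := funext fun i => zc_eq n k i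
  rw [h2]
  exact h

theorem zc_basis (n : ℕ) (k : Option (Fin n)) : IsTranscendenceBasis ℂ (zc n k) :=
  (zc_indep n k).isTranscendenceBasis_of_trdeg_le_of_finite (by
    rw [trdeg_RatField, Cardinal.mk_fin])

theorem isNormal_projSpace (n : ℕ) : (projSpace n).IsNormal := by
  intro k _
  rw [chart_eq]
  exact isIntegrallyClosed_adjoin (zc_indep n k)

theorem exists_ord_iff (n : ℕ) (k : Option (Fin n)) {v : ValuationSubring (RatField n)}
    [IsDiscreteValuationRing v] :
    (∃ i, ord v (zc n k i) ≠ 0) ↔ ∃ i, ord v (ratX n i) ≠ 0 := by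
  have key : ∀ {y w : Fin n → RatField n}, (∀ i, y i ≠ 0) →
      (∀ i, w i = ∏ j, y j ^ zmat n k i j) → (∃ i, ord v (w i) ≠ 0) → ∃ i, ord v (y i) ≠ 0 := by
    intro y w hy hw h
    by_contra hcon
    push Not at hcon
    obtain ⟨i, hi⟩ := h
    apply hi
    rw [hw, ord_prod fun j _ => zpow_ne_zero _ (hy j)]
    refine Finset.sum_eq_zero fun j _ => ?_
    rw [ord_zpow (hy j), hcon j, mul_zero]
  exact ⟨key (ratX_ne n) (zc_eq n k), key (zc_ne n k) (ratX_eq n k)⟩

section

variable {K : Type} [Field K] [Algebra ℂ K] {m : ℕ}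

/-- Change of coordinates in logarithmic forms. -/
theorem ord_dlog_change {y w : Fin (m + 1) → K} (hy : ∀ i, y i ≠ 0)
    {κ : Matrix (Fin (m + 1)) (Fin (m + 1)) ℤ} (hw : ∀ i, w i = ∏ j, y j ^ κ i j)
    (A : Ω[K⁄ℂ] [⋀^Fin (m + 1)]→ₗ[K] K) :
    (A fun i => dlog (w i)) = ((κ.det : ℤ) : K) * A fun i => dlog (y i) := by
  have h1 : ∀ i, dlog (w i) = ∑ j, ((κ i j : ℤ) : K) • dlog (y j) := by
    intro i
    rw [hw, dlog_prod fun j _ => zpow_ne_zero _ (hy j)]
    exact Finset.sum_congr rfl fun j _ => dlog_zpow (hy j) _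
  have h2 := alt_det A (fun j => dlog (y j)) (κ.map fun a : ℤ => (a : K))
  have h3 : (κ.map fun a : ℤ => (a : K)).det = ((κ.det : ℤ) : K) := by
    have := (Int.castRingHom K).map_det κ
    exact this.symm
  rw [h3, smul_eq_mul] at h2
  rw [← h2]
  congr 1
  funext i
  exact h1 i

end

/-- The canonical form of `(ℙ^n, H_0 + ... + H_n)`. -/
theorem exists_projForm (m : ℕ) : ∃ (A : Ω[RatField (m + 1)⁄ℂ] [⋀^Fin (m + 1)]→ₗ[RatField (m + 1)]
      RatField (m + 1)) (θ : Form (RatField (m + 1)) (m + 1)), IsDual A θ ∧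
    (A fun i => dlog (ratX (m + 1) i)) = 1 ∧
    ProjVar.HasDiv (projSpace (m + 1)) (coordBoundary (m + 1)) A := by
  obtain ⟨b, hb⟩ := exists_basis_D (ratX_basis (m + 1))
  set θ : ⋀[RatField (m + 1)]^(m + 1) Ω[RatField (m + 1)⁄ℂ] :=
    exteriorPower.ιMulti _ (m + 1) (fun i => dlog (ratX (m + 1) i)) with hθ
  have hθ0 : θ ≠ 0 := by
    have h1 : exteriorPower.ιMulti (RatField (m + 1)) (m + 1) b =
        (∏ i, ratX (m + 1) i) • θ := by
      rw [hθ, ← AlternatingMap.map_smul_univ]
      congr 1
      funext i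
      rw [hb, D_eq_smul_dlog (ratX_ne (m + 1) i)]
    intro h0
    rw [h0, smul_zero] at h1
    exact ιMulti_basis_ne_zero b h1
  obtain ⟨A, hA⟩ := exists_isDual b hθ0
  have hA1 : (A fun i => dlog (ratX (m + 1) i)) = 1 := by
    have h1 := hA.2.2 fun i => dlog (ratX (m + 1) i)
    have h2 : (1 : RatField (m + 1)) • θ = (A fun i => dlog (ratX (m + 1) i)) • θ := by
      rw [one_smul]
      exact h1
    exact (smul_left_injective _ hθ0 h2).symm
  refine ⟨A, θ, hA, hA1, fun P F => ?_⟩
  obtain ⟨k, hk, hloc⟩ := (isPoint_iff (projSpace (m + 1)) P.dvr).1 P.2.1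
  rw [chart_eq] at hloc
  have h1 := ord_A_coord (zc_basis (m + 1) k) hloc F hA.1
  have h2 := sum_ord_coord (zc_indep (m + 1) k) hloc
  have h3 := ord_dlog_change (zc_ne (m + 1) k) (ratX_eq (m + 1) k) A
  rw [hA1] at h3
  have h4 : ord P.dvr (A fun i => dlog (zc (m + 1) k i)) = 0 := by
    have hd0 : (((zmat (m + 1) k).det : ℤ) : RatField (m + 1)) ≠ 0 := by
      intro h0
      rw [h0, zero_mul] at h3
      exact one_ne_zero h3
    have ha0 : (A fun i => dlog (zc (m + 1) k i)) ≠ 0 := by
      intro h0
      rw [h0, mul_zero] at h3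
      exact one_ne_zero h3
    have h5 := congrArg (ord P.dvr) h3
    rw [ord_one, ord_mul hd0 ha0] at h5
    have h6 : (((zmat (m + 1) k).det : ℤ) : RatField (m + 1)) =
        algebraMap ℂ (RatField (m + 1)) (((zmat (m + 1) k).det : ℤ) : ℂ) := by
      rw [map_intCast]
    rw [h6, ord_C, zero_add] at h5
    exact h5.symm
  rw [h1, h2, h4, add_zero, coordBoundary]
  classical
  have h5 := exists_ord_iff (m + 1) k (v := P.dvr)
  by_cases h6 : ∃ i, ord P.dvr (ratX (m + 1) i) ≠ 0
  · rw [if_pos (h5.2 h6), if_pos h6]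
    norm_num
  · rw [if_neg fun h => h6 (h5.1 h), if_neg h6]
    norm_num

end Pool.Agent.Helper94.LCY
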