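import Pool.Agent.Helper94.MDS.GeoQ
import Pool.Agent.Helper94.MDS.GeoG
import Pool.Agent.Helper94.MDS.Fib
import Pool.Agent.Helper94.LCY.PicB

/-!
# Transport of structure to projective space
-/

noncomputable section

open KaehlerDifferential

namespace Pool.Agent.Helper94.LCY

section Pull

variable {K L : Type} [Field K] [Algebra ℂ K] [Field L] [Algebra ℂ L] (σ : L ≃ₐ[ℂ] K)

/-- The pull-back of a valuation ring along an isomorphism. -/
def pull (v : ValuationSubring K) : ValuationSubring L := v.comap (σ : L →+* K)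

theorem mem_pull {v : ValuationSubring K} {x : L} : x ∈ pull σ v ↔ σ x ∈ v := Iff.rfl

theorem pull_symm (v : ValuationSubring K) : pull σ.symm (pull σ v) = v := by
  ext x
  rw [mem_pull, mem_pull, AlgEquiv.apply_symm_apply]

theorem pull_pull_symm (v : ValuationSubring L) : pull σ (pull σ.symm v) = v := by
  ext x
  rw [mem_pull, mem_pull, AlgEquiv.symm_apply_apply]

theorem pull_val_lt {v : ValuationSubring K} {x : L} :
    (pull σ v).valuation x < 1 ↔ v.valuation (σ x) < 1 := by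
  by_cases hx : x = 0
  · rw [hx, map_zero, map_zero, map_zero]
    exact ⟨fun _ => zero_lt_one, fun _ => zero_lt_one⟩
  have hx' : σ x ≠ 0 := by
    rw [Ne, map_eq_zero_iff _ σ.injective]; exact hx
  have h1 : ∀ {F : Type} [Field F] (W : ValuationSubring F) (y : F), y ≠ 0 →
      (W.valuation y < 1 ↔ y⁻¹ ∉ W) := by
    intro F _ W y hy
    rw [← W.valuation_le_one_iff, map_inv₀, not_le,
      one_lt_inv₀ (zero_lt_iff.2 ((Valuation.ne_zero_iff _).2 hy))]
  rw [h1 _ _ hx, h1 _ _ hx', ← map_inv₀]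
  rfl

theorem pull_val_eq_one {v : ValuationSubring K} {x : L} :
    (pull σ v).valuation x = 1 ↔ v.valuation (σ x) = 1 := by
  have h1 : (pull σ v).valuation x ≤ 1 ↔ v.valuation (σ x) ≤ 1 := by
    rw [ValuationSubring.valuation_le_one_iff, ValuationSubring.valuation_le_one_iff]
    rfl
  have h2 := pull_val_lt σ (v := v) (x := x)
  constructor
  · intro h
    refine le_antisymm (h1.1 h.le) (not_lt.1 fun h3 => ?_)
    exact (h2.2 h3).ne h
  · intro h
    refine le_antisymm (h1.2 h.le) (not_lt.1 fun h3 => ?_)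
    exact (h2.1 h3).ne h

/-- The isomorphism of valuation rings. -/
def pullEquiv (v : ValuationSubring K) : v ≃+* pull σ v where
  toFun x := ⟨σ.symm x, by rw [mem_pull, AlgEquiv.apply_symm_apply]; exact x.2⟩
  invFun x := ⟨σ x, x.2⟩
  left_inv x := Subtype.ext (σ.apply_symm_apply _)
  right_inv x := Subtype.ext (σ.symm_apply_apply _)
  map_mul' x y := Subtype.ext (map_mul σ.symm _ _)
  map_add' x y := Subtype.ext (map_add σ.symm _ _)

theorem dvr_pull (v : ValuationSubring K) [IsDiscreteValuationRing v] :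
    IsDiscreteValuationRing (pull σ v) :=
  IsDiscreteValuationRing.RingEquivClass.isDiscreteValuationRing (pullEquiv σ v)

theorem ord_pull {v : ValuationSubring K} [IsDiscreteValuationRing v] (x : L) :
    ord (pull σ v) x = ord v (σ x) := by
  have := dvr_pull σ v
  by_cases hx : x = 0
  · rw [hx, map_zero, ord_zero, ord_zero]
  have hx' : σ x ≠ 0 := by
    rw [Ne, map_eq_zero_iff _ σ.injective]; exact hx
  obtain ⟨t, ht⟩ := exists_irr v
  have ht' : Irreducible (pullEquiv σ v t) := (MulEquiv.irreducible_iff (pullEquiv σ v)).2 ht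
  have hσt : σ ((pullEquiv σ v t : pull σ v) : L) = t := σ.apply_symm_apply _
  set t' := pullEquiv σ v t with ht'd
  have ht0 : (t' : L) ≠ 0 := irr_ne_zero ht'
  set k := ord v (σ x) with hk
  have h1 : (pull σ v).valuation (x * (t' : L) ^ (-k)) = 1 := by
    rw [pull_val_eq_one, map_mul, map_zpow₀, hσt, ← ord_eq_zero_iff
      (mul_ne_zero hx' (zpow_ne_zero _ (irr_ne_zero ht))), ord_mul hx'
      (zpow_ne_zero _ (irr_ne_zero ht)), ord_zpow (irr_ne_zero ht), ord_irr ht, ← hk]
    ring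
  rw [← ord_eq_zero_iff (mul_ne_zero hx (zpow_ne_zero _ ht0)), ord_mul hx (zpow_ne_zero _ ht0),
    ord_zpow ht0, ord_irr ht'] at h1
  linarith

theorem resIndep_pull {v : ValuationSubring K} {ι : Type} {y : ι → K} (hy : ResIndep v y) :
    ResIndep (pull σ v) fun i => σ.symm (y i) := by
  intro p hp
  rw [pull_val_eq_one]
  have h1 : σ (MvPolynomial.aeval (fun i => σ.symm (y i)) p) = MvPolynomial.aeval y p := by
    have h2 : (σ : L →ₐ[ℂ] K).comp (MvPolynomial.aeval fun i => σ.symm (y i)) =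
        MvPolynomial.aeval y := by
      apply MvPolynomial.algHom_ext
      intro i
      rw [AlgHom.comp_apply, MvPolynomial.aeval_X, MvPolynomial.aeval_X]
      exact σ.apply_symm_apply _
    rw [← h2]
    rfl
  rw [h1]
  exact hy p hp

/-- The transported derivation. -/
def pullDer (d : Derivation ℂ K K) : Derivation ℂ L L :=
  Derivation.mk' (σ.symm.toLinearMap ∘ₗ (d : K →ₗ[ℂ] K) ∘ₗ σ.toLinearMap) fun a b => by
    change σ.symm (d (σ (a * b))) = a • σ.symm (d (σ b)) + b • σ.symm (d (σ a))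
    rw [map_mul, Derivation.leibniz, map_add, smul_eq_mul, smul_eq_mul, map_mul, map_mul,
      AlgEquiv.symm_apply_apply, AlgEquiv.symm_apply_apply]
    rfl

theorem pullDer_apply (d : Derivation ℂ K K) (z : L) : pullDer σ d z = σ.symm (d (σ z)) := rfl

/-- Coordinates of differentials with respect to corresponding logarithmic bases. -/
theorem repr_pull {n : ℕ} {x₀ : Fin n → L} (hx : ∀ i, x₀ i ≠ 0)
    (b : Module.Basis (Fin n) K (Ω[K⁄ℂ])) (hb : ∀ i, b i = dlog (σ (x₀ i)))
    (b₀ : Module.Basis (Fin n) L (Ω[L⁄ℂ])) (hb₀ : ∀ i, b₀ i = dlog (x₀ i)) (z : L) (j : Fin n) :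
    b.repr (D ℂ K (σ z)) j = σ (b₀.repr (D ℂ L z) j) := by
  set d : Derivation ℂ L L := pullDer σ ((b.coord j).compDer (D ℂ K)) with hd
  have h1 : d.liftKaehlerDifferential = b₀.coord j := by
    refine b₀.ext fun i => ?_
    rw [hb₀, dlog, map_smul, Derivation.liftKaehlerDifferential_comp_D, hd, pullDer_apply,
      smul_eq_mul]
    have h2 : (b.coord j).compDer (D ℂ K) (σ (x₀ i)) = σ (x₀ i) * (if i = j then 1 else 0) := by
      change b.coord j (D ℂ K (σ (x₀ i))) = _
      rw [D_eq_smul_dlog (by rw [Ne, map_eq_zero_iff _ σ.injective]; exact hx i), ← hb,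
        map_smul, smul_eq_mul, Module.Basis.coord_apply, Module.Basis.repr_self,
        Finsupp.single_apply]
    have h3 : b₀.coord j ((x₀ i)⁻¹ • D ℂ L (x₀ i)) = if i = j then 1 else 0 := by
      change b₀.coord j (dlog (x₀ i)) = _
      rw [← hb₀, Module.Basis.coord_apply, Module.Basis.repr_self, Finsupp.single_apply]
    rw [h2, map_mul, AlgEquiv.symm_apply_apply, ← mul_assoc, inv_mul_cancel₀ (hx i), one_mul]
    rw [h3]
    split_ifs <;> simp
  have h4 : d z = b₀.repr (D ℂ L z) j := by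
    have h5 := LinearMap.congr_fun h1 (D ℂ L z)
    rw [Derivation.liftKaehlerDifferential_comp_D] at h5
    exact h5
  rw [← h4, hd, pullDer_apply, AlgEquiv.apply_symm_apply]
  rfl

/-- Values of corresponding alternating forms. -/
theorem alt_pull {n : ℕ} {x₀ : Fin n → L} (hx : ∀ i, x₀ i ≠ 0)
    (b : Module.Basis (Fin n) K (Ω[K⁄ℂ])) (hb : ∀ i, b i = dlog (σ (x₀ i)))
    (b₀ : Module.Basis (Fin n) L (Ω[L⁄ℂ])) (hb₀ : ∀ i, b₀ i = dlog (x₀ i))
    (A : Ω[K⁄ℂ] [⋀^Fin n]→ₗ[K] K) (A₀ : Ω[L⁄ℂ] [⋀^Fin n]→ₗ[L] L)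
    (h0 : (A₀ fun i => dlog (x₀ i)) = 1) (w : Fin n → L) :
    (A fun i => D ℂ K (σ (w i))) = (A fun i => dlog (σ (x₀ i))) * σ (A₀ fun i => D ℂ L (w i)) := by
  have h1 : (A b : K) = A fun i => dlog (σ (x₀ i)) := congrArg A (funext hb)
  have h2 : (A₀ b₀ : L) = 1 := by
    rw [← h0]
    exact congrArg A₀ (funext hb₀)
  rw [alt_eq_det A b, alt_eq_det A₀ b₀, h1, h2, mul_one, mul_comm]
  congr 1
  have h3 : (Matrix.of fun i j => b.repr (D ℂ K (σ (w i))) j) =
      (Matrix.of fun i j => b₀.repr (D ℂ L (w i)) j).map (σ : L →+* K) := by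
    ext i j
    exact repr_pull σ hx b hb b₀ hb₀ (w i) j
  rw [h3]
  exact ((σ : L →+* K).map_det _).symm

theorem isLocOf_pull {A : Subring L} {v : ValuationSubring L} (h : IsLocOf A v) {B : Subring K}
    (hB : ∀ x, x ∈ B ↔ σ.symm x ∈ A) : IsLocOf B (pull σ.symm v) := by
  refine ⟨fun x hx => h.1 ((hB x).1 hx), fun f hf => ?_⟩
  obtain ⟨g, hg, k, hk, hk1, he⟩ := h.2 (σ.symm f) hf
  refine ⟨σ g, ?_, σ k, ?_, ?_, ?_⟩
  · rw [hB, AlgEquiv.symm_apply_apply]; exact hg
  · rw [hB, AlgEquiv.symm_apply_apply]; exact hk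
  · rw [pull_val_eq_one, AlgEquiv.symm_apply_apply]; exact hk1
  · rw [← map_div₀, ← he, AlgEquiv.apply_symm_apply]

end Pull

section

variable {K : Type} [Field K] [Algebra ℂ K] {m : ℕ} {ι : Type}

/-- A discrete valuation ring as a subalgebra. -/
def subalgOf (v : ValuationSubring K) (h : ∀ z : ℂ, algebraMap ℂ K z ∈ v) : Subalgebra ℂ K :=
  { v.toSubring with algebraMap_mem' := h }

/-- The isomorphism of function fields given by toric coordinates. -/
theorem exists_sigma {n : ℕ} {x : Fin n → K} (hx : AlgebraicIndependent ℂ x)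
    (htop : IntermediateField.adjoin ℂ (Set.range x) = ⊤) :
    ∃ σ : RatField n ≃ₐ[ℂ] K, ∀ i, σ (ratX n i) = x i := by
  refine ⟨hx.aevalEquivField.trans ((IntermediateField.equivOfEq htop).trans
    IntermediateField.topEquiv), fun i => ?_⟩
  have h1 := hx.aevalEquivField_algebraMap_apply_coe (MvPolynomial.X i)
  rw [MvPolynomial.aeval_X] at h1
  exact h1

variable {X : ProjVar K ι} {B : X.PrimeDiv → ℚ} [Finite ι]

/-- Toric coordinates with the right form give a crepant birational map. -/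
theorem GeoData.isCrepant (G : GeoData X m B) (σ : RatField (m + 1) ≃ₐ[ℂ] K) {c : ℂ}
    (hc : c ≠ 0) (h : (G.A fun i => dlog (σ (ratX (m + 1) i))) = algebraMap ℂ K c) :
    IsCrepant X B σ := by
  intro v hv a
  have := hv.1
  obtain ⟨F⟩ := ProjVar.exists_frame_div (X := X) G.htr hv
  have := dvr_pull σ v
  obtain ⟨F', ht, hy⟩ := nonempty_frame (projSpace (m + 1)).fg_top (trdeg_RatField (m + 1))
    (v := pull σ v) (resIndep_pull σ F.res)
    ((MulEquiv.irreducible_iff (pullEquiv σ v)).2 F.irr)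
  obtain ⟨A₀, θ₀, hd, h1, hdiv⟩ := exists_projForm m
  have e1 := ProjVar.hasDiscrepancy_iff G.hN G.htr G.dual G.hdiv F (a := a)
  have e2 := ProjVar.hasDiscrepancy_iff (isNormal_projSpace (m + 1)) (trdeg_RatField (m + 1)) hd
    hdiv F' (a := a)
  rw [e1]
  refine Iff.trans ?_ e2.symm
  have hx0 := ratX_ne (m + 1)
  have hA : (G.A fun i => dlog (σ (ratX (m + 1) i))) ≠ 0 := by
    rw [h, Ne, map_eq_zero]
    exact hc
  obtain ⟨b, hb⟩ := exists_basis_of_alt F.b hA
  obtain ⟨b₀, hb₀⟩ := exists_basis_of_alt F'.b (A := A₀)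
    (ξ := fun i => dlog (ratX (m + 1) i)) (by rw [h1]; exact one_ne_zero)
  have key := alt_pull σ hx0 b hb b₀ hb₀ G.A A₀ h1
    (Fin.cons (F'.t : RatField (m + 1)) F'.y)
  have h2 : (fun i => D ℂ K (σ ((Fin.cons (F'.t : RatField (m + 1)) F'.y :
      Fin (m + 1) → RatField (m + 1)) i))) = F.b := by
    funext i
    refine Fin.cases ?_ (fun i => ?_) i
    · rw [Fin.cons_zero, F.b_zero, ht]
      exact congrArg (D ℂ K) (σ.apply_symm_apply _)
    · rw [Fin.cons_succ, F.b_succ, hy, AlgEquiv.apply_symm_apply]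
  have h3 : (fun i => D ℂ (RatField (m + 1)) ((Fin.cons (F'.t : RatField (m + 1)) F'.y :
      Fin (m + 1) → RatField (m + 1)) i)) = F'.b := by
    funext i
    refine Fin.cases ?_ (fun i => ?_) i
    · rw [Fin.cons_zero, F'.b_zero]
    · rw [Fin.cons_succ, F'.b_succ]
  rw [h2, h3, h] at key
  have h4 : ord v (G.A F.b) = ord (pull σ v) (A₀ F'.b) := by
    rw [ord_pull, key, ord_mul, ord_C, zero_add]
    · rw [Ne, map_eq_zero]; exact hc
    · rw [Ne, map_eq_zero_iff _ σ.injective]
      exact alt_ne_zero hd.1 F'.b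
  rw [h4]

/-- A log Calabi-Yau pair with toric coordinates is of cluster type. -/
theorem GeoData.isClusterType (G : GeoData X m B) (hU : Nonempty (CYUnits G.cy)) :
    IsClusterType (m + 1) X B := by
  obtain ⟨S⟩ := hU
  obtain ⟨x, hx, htop, ⟨c, hc, hA⟩, hV⟩ := S.exists_coord
  obtain ⟨σ, hσ⟩ := exists_sigma hx htop
  refine ⟨σ, G.isCrepant σ hc ?_, fun P hP => ?_⟩
  · simp only [hσ]
    exact hA
  have hP0 : ∀ i, ord P.dvr (ratX (m + 1) i) = 0 := by
    intro i
    by_contra hi
    rw [coordBoundary, if_pos ⟨i, hi⟩] at hP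
    exact one_ne_zero hP
  have hle : ((projSpace (m + 1)).chart none).toSubring ≤ P.dvr.toSubring := by
    have h1 : (projSpace (m + 1)).chart none ≤ subalgOf P.dvr (C_mem P.dvr) := by
      rw [chart_eq, Algebra.adjoin_le_iff]
      rintro _ ⟨i, rfl⟩
      exact mem_of_ord_zero (ratX_ne _ i) (hP0 i)
    exact h1
  have hloc := isLocOf_of_le (projSpace (m + 1)) (projSpace_x_ne (m + 1) none) hle
  have hd := dvr_pull σ.symm P.dvr
  have hmem : pull σ.symm P.dvr ∈ G.cy.U := by
    refine hV _ hd (fun i => ?_) (isLocOf_pull σ hloc fun y => ?_)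
    · rw [ord_pull, ← hσ, AlgEquiv.symm_apply_apply]
      exact hP0 i
    · change y ∈ (MvPolynomial.aeval (R := ℂ) x).range ↔ σ.symm y ∈ (projSpace (m + 1)).chart none
      rw [chart_eq, Algebra.adjoin_range_eq_range_aeval]
      have h2 : (σ : RatField (m + 1) →ₐ[ℂ] K).comp (MvPolynomial.aeval (ratX (m + 1))) =
          MvPolynomial.aeval x := by
        apply MvPolynomial.algHom_ext
        intro i
        rw [AlgHom.comp_apply, MvPolynomial.aeval_X, MvPolynomial.aeval_X]
        exact hσ i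
      constructor
      · rintro ⟨p, rfl⟩
        refine ⟨p, ?_⟩
        change MvPolynomial.aeval (ratX (m + 1)) p = σ.symm (MvPolynomial.aeval x p)
        rw [← h2]
        exact (σ.symm_apply_apply _).symm
      · rintro ⟨p, hp⟩
        refine ⟨p, ?_⟩
        change MvPolynomial.aeval (ratX (m + 1)) p = σ.symm y at hp
        change MvPolynomial.aeval x p = y
        rw [← h2]
        change σ (MvPolynomial.aeval (ratX (m + 1)) p) = y
        rw [hp, AlgEquiv.apply_symm_apply]
  obtain ⟨Q, hQ, -⟩ := G.mem_cy_U.1 hmem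
  refine ⟨Q, ?_⟩
  rw [hQ]
  exact pull_pull_symm σ P.dvr

end

end Pool.Agent.Helper94.LCY
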