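import Pool.Agent.Helper94.MDS.Contra

/-!
# The equations of the boundary components are algebraically independent
-/

noncomputable section

open KaehlerDifferential

namespace Pool.Agent.Helper94.LCY

variable {K : Type} [Field K] [Algebra ℂ K] {m : ℕ}

theorem exists_basis_of_adjoin {A : Type} [CommRing A] [IsDomain A] [Algebra ℂ A] {s : Set A}
    (hs : Algebra.adjoin ℂ s = ⊤) {k : ℕ} (hk : Algebra.trdeg ℂ A = k) :
    ∃ t : Fin k → A, (∀ a, t a ∈ s) ∧ IsTranscendenceBasis ℂ t := by
  have halg : Algebra.IsAlgebraic (Algebra.adjoin ℂ s) A := by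
    refine ⟨fun y => ?_⟩
    have hy : y ∈ Algebra.adjoin ℂ s := by rw [hs]; trivial
    exact isAlgebraic_algebraMap (⟨y, hy⟩ : Algebra.adjoin ℂ s)
  have hfaith : FaithfulSMul ℂ A :=
    (faithfulSMul_iff_algebraMap_injective _ _).2 (algebraMap ℂ A).injective
  obtain ⟨t, hts, ht⟩ := exists_isTranscendenceBasis_subset (R := ℂ) s
  have hcard : Cardinal.mk t = k := by rw [ht.cardinalMk_eq_trdeg, hk]
  have he : Nonempty (Fin k ≃ t) := by
    rw [← Cardinal.eq, Cardinal.mk_fin, hcard]
  obtain ⟨e⟩ := he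
  exact ⟨fun a => (e a : A), fun a => hts (e a).2, (isTranscendenceBasis_equiv e).2 ht⟩

namespace CoxData

variable {X : CYData K m} {r : ℕ} (C : CoxData X r)

/-- The equation of `v` in the Cox ring. -/
def FR (v : ValuationSubring K) : C.R :=
  open Classical in if hv : v ∈ X.Pr then ⟨C.F v, C.F_mem hv⟩ else 0

theorem FR_coe {v : ValuationSubring K} (hv : v ∈ X.Pr) : (C.FR v : LF K r) = C.F v := by
  rw [FR, dif_pos hv]

theorem FR_ne {v : ValuationSubring K} (hv : v ∈ X.Pr) : C.FR v ≠ 0 := by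
  intro h
  have h1 := congrArg Subtype.val h
  rw [C.FR_coe hv] at h1
  exact C.F_ne v h1

theorem hm_coeff_mem {y : GR K r} (hy : y ∈ X.cox C.D) (γ : Fin r → ℤ) :
    hm γ (y.coeff γ) ∈ C.R := C.mem_R.2 ⟨_, CYData.single_mem_cox (hy γ), rfl⟩

/-- The homogeneous elements of a quotient of the Cox ring. -/
def homs (P : Ideal C.R) : Set (C.R ⧸ P) :=
  {y | ∃ (γ : Fin r → ℤ) (g : K) (h : hm γ g ∈ C.R),
    y = Ideal.Quotient.mk P (⟨hm γ g, h⟩ : C.R)}

theorem adjoin_homs (P : Ideal C.R) : Algebra.adjoin ℂ (C.homs P) = ⊤ := by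
  rw [eq_top_iff]
  rintro y -
  obtain ⟨⟨x, hx⟩, rfl⟩ := Ideal.Quotient.mk_surjective y
  obtain ⟨z, hz, rfl⟩ := C.mem_R.1 hx
  have h1 : (⟨algebraMap (GR K r) (LF K r) z, hx⟩ : C.R) =
      ∑ γ ∈ z.coeff.support, ⟨hm γ (z.coeff γ), C.hm_coeff_mem hz γ⟩ := by
    apply Subtype.ext
    rw [AddSubmonoidClass.coe_finsetSum]
    exact algebraMap_GR z
  rw [h1, map_sum]
  exact Subalgebra.sum_mem _ fun γ _ => Algebra.subset_adjoin ⟨γ, _, _, rfl⟩

/-- Quotients of the Cox ring have transcendence bases of homogeneous elements. -/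
theorem exists_basis (P : Ideal C.R) [P.IsPrime] {k : ℕ}
    (hk : Algebra.trdeg ℂ (C.R ⧸ P) = k) : ∃ (γh : Fin k → Fin r → ℤ) (gh : Fin k → K)
      (hmem : ∀ a, hm (γh a) (gh a) ∈ C.R), (∀ a, gh a ≠ 0) ∧
      IsTranscendenceBasis ℂ
        (fun a => Ideal.Quotient.mk P (⟨hm (γh a) (gh a), hmem a⟩ : C.R)) := by
  obtain ⟨t, hts, ht⟩ := exists_basis_of_adjoin (C.adjoin_homs P) hk
  choose γh gh hmem hh using hts
  have h4 : t = fun a => Ideal.Quotient.mk P (⟨hm (γh a) (gh a), hmem a⟩ : C.R) := funext hh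
  rw [h4] at ht
  refine ⟨γh, gh, hmem, fun a ha => ?_, ht⟩
  apply ht.1.ne_zero a
  have h3 : (⟨hm (γh a) (gh a), hmem a⟩ : C.R) = 0 := by
    apply Subtype.ext
    change hm (γh a) (gh a) = 0
    rw [ha, hm_zero]
  rw [h3, map_zero]

/-- The ideal generated by equations of boundary components. -/
def bId {c : ℕ} (b : Fin c → ValuationSubring K) : Ideal C.R :=
  Ideal.span (Set.range fun j => C.FR (b j))

theorem FR_mem_bId {c : ℕ} (b : Fin c → ValuationSubring K) (j : Fin c) : C.FR (b j) ∈ C.bId b :=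
  Ideal.subset_span ⟨j, rfl⟩

theorem bId_le_iff {c : ℕ} (b : Fin c → ValuationSubring K) (P : Ideal C.R) :
    C.bId b ≤ P ↔ ∀ j, C.FR (b j) ∈ P := by
  rw [bId, Ideal.span_le]
  constructor
  · intro h j
    exact h ⟨j, rfl⟩
  · rintro h _ ⟨j, rfl⟩
    exact h j

theorem bId_castSucc {c : ℕ} (b : Fin (c + 1) → ValuationSubring K) :
    C.bId (fun j => b j.castSucc) ≤ C.bId b := by
  rw [bId_le_iff]
  exact fun j => C.FR_mem_bId b _

/-- Upper bound for the dimension of intersections of boundary components. -/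
theorem claim (hfg : (X.cox C.D).FG) (c : ℕ) : ∀ (b : Fin c → ValuationSubring K), Function.Injective b →
    (∀ j, b j ∈ X.Bd) → ∀ k, k + c = m + 1 + r → ∀ P ∈ (C.bId b).minimalPrimes,
      Algebra.trdeg ℂ (C.R ⧸ P) ≤ (k : Cardinal) := by
  induction c with
  | zero =>
    intro b _ _ k hk P hP
    have h1 : Algebra.trdeg ℂ (C.R ⧸ P) ≤ Algebra.trdeg ℂ C.R :=
      trdeg_le_of_surjective (Ideal.Quotient.mkₐ ℂ P) Ideal.Quotient.mk_surjective
    have h2 : Algebra.trdeg ℂ C.R ≤ Algebra.trdeg ℂ (LF K r) :=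
      trdeg_le_of_injective (Subalgebra.val C.R) Subtype.val_injective
    have h3 : Algebra.trdeg ℂ (LF K r) = ((m + 1 + r : ℕ) : Cardinal) := trdeg_LF X.tr
    rw [h3] at h2
    refine (h1.trans h2).trans ?_
    exact_mod_cast (by omega : m + 1 + r ≤ k)
  | succ c ih =>
    intro b hbi hb k hk P hP
    have hPp : P.IsPrime := hP.1.1
    have hbP : ∀ j, C.FR (b j) ∈ P := (C.bId_le_iff b P).1 hP.1.2
    have hbi' : Function.Injective fun j : Fin c => b j.castSucc := fun j j' h =>
      Fin.castSucc_injective c (hbi h)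
    obtain ⟨P', hP', hle⟩ := Ideal.exists_minimalPrimes_le (J := P)
      ((C.bId_castSucc b).trans hP.1.2)
    have hP'p : P'.IsPrime := hP'.1.1
    have h1 := ih (fun j => b j.castSucc) hbi' (fun j => hb _) (k + 1) (by omega) P' hP'
    rcases lt_or_eq_of_le hle with hlt | heq
    · exact trdeg_quot_le' P' P hlt h1
    subst heq
    by_contra hcon
    rw [not_le] at hcon
    have h2 : Algebra.trdeg ℂ (C.R ⧸ P') = ((k + 1 : ℕ) : Cardinal) := by
      refine le_antisymm h1 ?_
      have := Order.succ_le_of_lt hcon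
      rw [Cardinal.succ_natCast] at this
      push_cast
      exact this
    rcases c with _ | c
    · -- `P'` is zero
      have h3 : P' ≤ ⊥ := hP'.2 ⟨Ideal.isPrime_bot, by
        rw [bId_le_iff]
        exact fun j => j.elim0⟩ bot_le
      have h4 := h3 (hbP 0)
      exact C.FR_ne (X.Bd_sub (hb 0)) h4
    · obtain ⟨γh, gh, hmem, hgh, hbas⟩ := C.exists_basis P' h2
      obtain ⟨V, i, hRV, hPV, hres⟩ := exists_valuation C.R (C.R_fg hfg) (M := m + 1 + r) (c := c)
        (k := k + 1) C.trdeg_R (by omega) (fun j => C.FR (b j.castSucc))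
        (fun j => C.FR_ne (X.Bd_sub (hb _))) hP' (fun a => ⟨_, hmem a⟩) hbas
      refine C.contra hRV (c := c) (k := k + 1) (by omega) (fun j => b j.castSucc)
        (fun j => hb _) i (hb (Fin.last (c + 1))) (fun j h => ?_) ?_ ?_ γh gh hgh hmem ?_
      · exact (Fin.castSucc_lt_last j).ne (hbi h.symm)
      · rw [← C.FR_coe (X.Bd_sub (hb _)), ← hPV]
        exact hbP _
      · rw [← C.FR_coe (X.Bd_sub (hb _)), ← hPV]
        exact hbP _
      · have h3 : (fun j : Fin c => (C.FR (b (i.succAbove j).castSucc) : LF K r) /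
            (C.FR (b i.castSucc) : LF K r)) =
            fun j : Fin c => C.F (b (i.succAbove j).castSucc) / C.F (b i.castSucc) := by
          funext j
          rw [C.FR_coe (X.Bd_sub (hb _)), C.FR_coe (X.Bd_sub (hb _))]
        rw [h3] at hres
        exact hres

/-- Lower bound for the dimension of intersections of boundary components. -/
theorem exists_prime [Algebra.FiniteType ℂ C.R] (M : Ideal C.R) [hM : M.IsPrime] (c : ℕ) :
    ∀ (b : Fin c → ValuationSubring K), (∀ j, C.FR (b j) ∈ M) → ∀ k, k + c = m + 1 + r →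
      ∃ P ∈ (C.bId b).minimalPrimes, P ≤ M ∧ (k : Cardinal) ≤ Algebra.trdeg ℂ (C.R ⧸ P) := by
  induction c with
  | zero =>
    intro b _ k hk
    have h0 : C.bId b = ⊥ := by
      rw [eq_bot_iff, bId_le_iff]
      exact fun j => j.elim0
    refine ⟨⊥, ⟨⟨Ideal.isPrime_bot, h0.le⟩, fun Q _ _ => bot_le⟩, bot_le, ?_⟩
    have h1 : Algebra.trdeg ℂ C.R ≤ Algebra.trdeg ℂ (C.R ⧸ (⊥ : Ideal C.R)) :=
      trdeg_le_of_injective (Ideal.Quotient.mkₐ ℂ ⊥) (by
        rw [injective_iff_map_eq_zero]
        intro x hx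
        have h2 : x ∈ (⊥ : Ideal C.R) := Ideal.Quotient.eq_zero_iff_mem.1 hx
        exact h2)
    refine le_trans ?_ (C.trdeg_R.trans h1)
    exact_mod_cast (by omega : k ≤ m + 1 + r)
  | succ c ih =>
    intro b hb k hk
    obtain ⟨P, hP, hPM, htr⟩ := ih (fun j => b j.castSucc) (fun j => hb _) (k + 1) (by omega)
    have hPp : P.IsPrime := hP.1.1
    -- a prime between `P` and `M` which contains the last equation
    obtain ⟨P₁, hP₁p, hPP₁, hP₁M, hlast, htr₁⟩ : ∃ P₁ : Ideal C.R, P₁.IsPrime ∧ P ≤ P₁ ∧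
        P₁ ≤ M ∧ C.FR (b (Fin.last c)) ∈ P₁ ∧
        (k : Cardinal) ≤ Algebra.trdeg ℂ (C.R ⧸ P₁) := by
      by_cases hmem : C.FR (b (Fin.last c)) ∈ P
      · refine ⟨P, hPp, le_rfl, hPM, hmem, le_trans ?_ htr⟩
        exact_mod_cast (by omega : k ≤ k + 1)
      · set f : C.R ⧸ P := Ideal.Quotient.mk P (C.FR (b (Fin.last c))) with hf
        have hf0 : f ≠ 0 := fun h => hmem (Ideal.Quotient.eq_zero_iff_mem.1 h)
        have hMp : (M.map (Ideal.Quotient.mk P)).IsPrime :=
          Ideal.map_isPrime_of_surjective Ideal.Quotient.mk_surjective (by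
            rw [Ideal.mk_ker]; exact hPM)
        obtain ⟨Q, hQ, hQM⟩ := Ideal.exists_minimalPrimes_le (I := Ideal.span {f})
          (J := M.map (Ideal.Quotient.mk P)) (by
            rw [Ideal.span_singleton_le_iff_mem]
            exact Ideal.mem_map_of_mem _ (hb _))
        have hQp : Q.IsPrime := hQ.1.1
        have hft : Algebra.FiniteType ℂ (C.R ⧸ P) :=
          Algebra.FiniteType.of_surjective (Ideal.Quotient.mkₐ ℂ P) Ideal.Quotient.mk_surjective
        have htrQ := trdeg_quot_ge hf0 hQ htr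
        refine ⟨Q.comap (Ideal.Quotient.mk P), Ideal.comap_isPrime _ _, ?_, ?_, ?_, ?_⟩
        · intro x hx
          rw [Ideal.mem_comap, Ideal.Quotient.eq_zero_iff_mem.2 hx]
          exact Q.zero_mem
        · refine (Ideal.comap_mono hQM).trans ?_
          rw [Ideal.comap_map_of_surjective _ Ideal.Quotient.mk_surjective]
          refine sup_le le_rfl ?_
          intro x hx
          rw [Ideal.mem_comap, Ideal.mem_bot] at hx
          exact hPM (Ideal.Quotient.eq_zero_iff_mem.1 hx)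
        · rw [Ideal.mem_comap]
          exact hQ.1.2 (Ideal.subset_span rfl)
        · refine htrQ.trans ?_
          exact trdeg_quot_comap P Q
    have hbP₁ : C.bId b ≤ P₁ := by
      rw [bId_le_iff]
      intro j
      refine Fin.lastCases ?_ (fun j => ?_) j
      · exact hlast
      · exact hPP₁ ((C.bId_le_iff _ P).1 hP.1.2 j)
    obtain ⟨P₂, hP₂, hle⟩ := Ideal.exists_minimalPrimes_le (J := P₁) hbP₁
    refine ⟨P₂, hP₂, hle.trans hP₁M, htr₁.trans ?_⟩
    exact trdeg_le_of_surjective (Ideal.Quotient.factorₐ ℂ hle) (Ideal.Quotient.factor_surjective hle)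

/-- The equations of the boundary components do not generate the unit ideal. -/
theorem bId_ne_top {c : ℕ} {b : Fin c → ValuationSubring K} (hb : ∀ j, b j ∈ X.Bd) :
    C.bId b ≠ ⊤ := by
  intro htop
  rw [Ideal.eq_top_iff_one, bId, Ideal.mem_span_range_iff_exists_fun] at htop
  obtain ⟨a, ha⟩ := htop
  have h1 : ∀ j, ∃ y ∈ X.cox C.D, algebraMap (GR K r) (LF K r) y = (a j : LF K r) :=
    fun j => C.mem_R.1 (a j).2
  choose y hy hya using h1
  have h2 : ∑ j, y j * AddMonoidAlgebra.single (C.γ (b j)) (C.g (b j)) = (1 : GR K r) := by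
    apply GR_injective
    have h3 := congrArg Subtype.val ha
    rw [AddSubmonoidClass.coe_finsetSum] at h3
    rw [map_sum, map_one]
    refine Eq.trans (Finset.sum_congr rfl fun j _ => ?_) h3
    rw [map_mul, hya]
    change _ = (a j : LF K r) * (C.FR (b j) : LF K r)
    rw [C.FR_coe (X.Bd_sub (hb j))]
    rfl
  have h3 := congrArg (fun z : GR K r => z.coeff 0) h2
  simp only [AddMonoidAlgebra.coeff_sum, Finsupp.finsetSum_apply,
    AddMonoidAlgebra.coeff_mul_single_apply] at h3
  rw [Finset.sum_eq_zero] at h3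
  · rw [AddMonoidAlgebra.one_def, AddMonoidAlgebra.coeff_single, Finsupp.single_eq_same] at h3
    exact zero_ne_one h3
  · intro j _
    have hbj := X.Bd_sub (hb j)
    set s := (y j).coeff (0 - C.γ (b j)) * C.g (b j) with hs
    have hvge : ∀ v ∈ X.Pr, vge v (C.vt v (C.γ (b j)) (C.g (b j))) s := by
      intro v hv
      have := X.dvr v hv
      have h4 := hy j (0 - C.γ (b j)) v hv
      have h5 : vge v (ord v (C.g (b j))) (C.g (b j)) := vge_ord _
      have h6 := h4.mul h5
      have h7 := comb_neg C.D (C.γ (b j)) v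
      rw [← zero_sub] at h7
      rw [h7] at h6
      refine h6.mono ?_
      rw [vt]
      omega
    obtain ⟨c', hc'⟩ := X.const s fun v hv => by
      have := X.dvr v hv
      exact ((hvge v hv).mono (C.vt_g_nonneg hbj hv) : vge v 0 s).mem
    have h4 := hvge (b j) hbj
    rw [C.vt_g_self hbj] at h4
    have := X.dvr (b j) hbj
    rcases h4 with h4 | h4
    · exact h4
    · rw [hc', ord_C] at h4
      have := C.e_pos (b j)
      omega

/-- The equations of the boundary components are algebraically independent. -/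
theorem F_indep (hfg : (X.cox C.D).FG) {c : ℕ} {b : Fin c → ValuationSubring K}
    (hbi : Function.Injective b) (hb : ∀ j, b j ∈ X.Bd) (hc : c ≤ m + 1 + r) :
    AlgebraicIndependent ℂ fun j => C.F (b j) := by
  classical
  have hft : Algebra.FiniteType ℂ C.R := (Subalgebra.fg_iff_finiteType C.R).1 (C.R_fg hfg)
  rcases c with _ | c
  · have : IsEmpty (Fin 0) := inferInstance
    exact algebraicIndependent_empty_type_iff.2 (algebraMap ℂ (LF K r)).injective
  obtain ⟨M, hM, hbM⟩ := Ideal.exists_le_maximal _ (C.bId_ne_top hb)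
  have hMp : M.IsPrime := hM.isPrime
  obtain ⟨k, hk⟩ : ∃ k, k + (c + 1) = m + 1 + r := ⟨m + 1 + r - (c + 1), by omega⟩
  obtain ⟨P, hP, -, htr⟩ := C.exists_prime M (c + 1) b ((C.bId_le_iff b M).1 hbM) k hk
  have hPp : P.IsPrime := hP.1.1
  have htr' : Algebra.trdeg ℂ (C.R ⧸ P) = k :=
    le_antisymm (C.claim hfg (c + 1) b hbi hb k hk P hP) htr
  obtain ⟨γh, gh, hmem, hgh, hbas⟩ := C.exists_basis P htr'
  obtain ⟨V, i, hRV, hPV, hres⟩ := exists_valuation C.R (C.R_fg hfg) (M := m + 1 + r) (c := c)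
    (k := k) C.trdeg_R (by omega) (fun j => C.FR (b j))
    (fun j => C.FR_ne (X.Bd_sub (hb _))) hP (fun a => ⟨_, hmem a⟩) hbas
  set z : Fin c ⊕ Fin k → LF K r := Sum.elim
    (fun j : Fin c => (C.FR (b (i.succAbove j)) : LF K r) / (C.FR (b i) : LF K r))
    (fun a => hm (γh a) (gh a)) with hz
  have hres' : ResIndep V z := hres
  have hFi : C.F (b i) ≠ 0 := C.F_ne _
  have hopt := hres'.option hFi (by
    rw [← C.FR_coe (X.Bd_sub (hb _)), ← hPV]
    exact (C.bId_le_iff b P).1 hP.1.2 i)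
  set κ : Fin (c + 1) → Option (Fin c ⊕ Fin k) → ℤ := fun l o =>
    o.elim 1 (Sum.elim (fun j => if l = i.succAbove j then 1 else 0) (fun _ => 0)) with hκ
  have h1 := algIndep_monomials hopt κ (by
    intro c' h
    have h2 : ∀ j, c' (i.succAbove j) = 0 := by
      intro j
      have h3 := h (some (Sum.inl j))
      simp only [hκ, Option.elim, Sum.elim_inl, mul_ite, mul_one, mul_zero, Finset.sum_ite_eq',
        Finset.mem_univ, if_true] at h3
      exact h3
    have h3 := h none
    simp only [hκ, Option.elim, mul_one] at h3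
    rw [Fin.sum_univ_succAbove _ i, Finset.sum_eq_zero fun j _ => h2 j, add_zero] at h3
    funext l
    rcases eq_or_ne l i with rfl | hl
    · exact h3
    · obtain ⟨j, rfl⟩ := Fin.exists_succAbove_eq hl
      exact h2 j)
  have h2 : (fun l => ∏ o : Option (Fin c ⊕ Fin k), (o.elim (C.F (b i)) z) ^ κ l o) =
      fun j => C.F (b j) := by
    funext l
    rw [Fintype.prod_option, Fintype.prod_sum_type]
    simp only [hκ, Option.elim, Sum.elim_inl, Sum.elim_inr, zpow_one, zpow_zero,
      Finset.prod_const_one, mul_one]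
    rcases eq_or_ne l i with rfl | hl
    · rw [Finset.prod_eq_one, mul_one]
      intro j _
      rw [if_neg (Fin.succAbove_ne l j).symm, zpow_zero]
    · obtain ⟨j, rfl⟩ := Fin.exists_succAbove_eq hl
      rw [Finset.prod_eq_single j]
      · rw [if_pos rfl, zpow_one, hz, Sum.elim_inl, C.FR_coe (X.Bd_sub (hb _)),
          C.FR_coe (X.Bd_sub (hb _)), mul_div_cancel₀ _ hFi]
      · intro j' _ hj'
        rw [if_neg, zpow_zero]
        intro h3
        exact hj' (Fin.succAbove_right_injective h3).symm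
      · intro h3
        exact absurd (Finset.mem_univ j) h3
  rw [h2] at h1
  exact h1

end CoxData

end Pool.Agent.Helper94.LCY
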