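import Pool.Agent.Helper94.MDS.GeoR
import Pool.Agent.Helper94.MDS.GeoH

/-!
# Log Calabi-Yau pairs of complexity one
-/

noncomputable section

namespace Pool.Agent.Helper94.LCY

variable {K : Type} [Field K] [Algebra ℂ K] {ι : Type}

/-- A variety of dimension zero has no prime divisors. -/
theorem isEmpty_primeDiv (X : ProjVar K ι) (htr : Algebra.trdeg ℂ K = (0 : ℕ)) :
    IsEmpty X.PrimeDiv := by
  refine ⟨fun P => ?_⟩
  have halg : Algebra.IsAlgebraic ℂ K := by
    rw [← trdeg_eq_zero_iff, htr, Nat.cast_zero]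
  obtain ⟨t, ht⟩ := exists_irr P.dvr
  obtain ⟨c, hc⟩ := ProjVar.mem_C_of_isAlgebraic (halg.isAlgebraic (t : K))
  have h1 := ord_irr ht
  rw [hc, ord_C] at h1
  exact zero_ne_one h1

theorem picardRank_eq_zero (X : ProjVar K ι) (h : IsEmpty X.PrimeDiv) : X.picardRank = 0 := by
  have h1 : Subsingleton X.WeilDiv := inferInstance
  have h2 : Subsingleton X.cartier := inferInstance
  have h3 : Subsingleton X.Pic :=
    (QuotientAddGroup.mk_surjective (s := X.principal.addSubgroupOf X.cartier)).subsingleton
  have h4 : Subsingleton X.NS :=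
    (QuotientAddGroup.mk_surjective (s := divisiblePart X.Pic)).subsingleton
  exact Module.finrank_zero_of_subsingleton

/-- Log Calabi-Yau pairs of index one with `n + r - 1` boundary components, where `r` is the rank
of the divisor class group. -/
theorem clusterType_class [Finite ι] (X : ProjVar K ι) (B : X.PrimeDiv → ℚ) (n : ℕ)
    (h1 : IsLogCY n X B) (h2 : IndexOne n X B) {r : ℕ} {D : Fin r → X.WeilDiv}
    (hD : X.IsClassBasis D) (h3 : (Function.support B).ncard + 1 = n + r)
    (h4 : (X.coxRing D).FG ∨ X.UnitsIndependent B) : IsClusterType n X B := by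
  rcases n with _ | m
  · exfalso
    have h5 := isEmpty_primeDiv X h1.1
    have h6 : r = 0 := by
      by_contra hr
      have h7 : Nonempty (Fin r) := ⟨⟨0, Nat.pos_of_ne_zero hr⟩⟩
      have h8 := hD.2 (fun _ => 1) (by
        rw [Subsingleton.elim (∑ i, (1 : ℤ) • D i) 0]
        exact X.principal.zero_mem)
      have h9 := congrFun h8 h7.some
      exact one_ne_zero h9
    omega
  obtain ⟨G⟩ := GeoData.nonempty h1 h2
  have hcard : (Function.support B).ncard = m + r := by omega
  rcases h4 with hC | hU
  · exact G.isClusterType (G.nonempty_units hD hcard (G.unitsIndep_of_fg hD hcard hC))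
  · exact G.isClusterType (G.nonempty_units hD hcard (G.unitsIndep_of hU))

/-- Log Calabi-Yau pairs of index one with `n + ρ - 1` boundary components on `ℚ`-factorial
varieties with independent units. -/
theorem clusterType_units [Finite ι] (X : ProjVar K ι) (B : X.PrimeDiv → ℚ) (n : ℕ)
    (h1 : IsLogCY n X B) (h2 : IndexOne n X B)
    (h3 : (Function.support B).ncard + 1 = n + X.picardRank)
    (hQ : X.IsQFactorial) (hfg : AddGroup.FG X.Pic) (h4 : X.UnitsIndependent B) :
    IsClusterType n X B := by
  obtain ⟨D, hD⟩ := ProjVar.exists_generates hQ hfg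
  exact clusterType_class X B n h1 h2 ⟨hD, ProjVar.indep_of_generates hQ hfg hD⟩ h3 (Or.inr h4)

/-- Log Calabi-Yau pairs of index one with `n + ρ - 1` boundary components on Mori dream
spaces. -/
theorem clusterType_mds [Finite ι] (X : ProjVar K ι) (B : X.PrimeDiv → ℚ) (n : ℕ)
    (h1 : IsLogCY n X B) (h2 : IndexOne n X B)
    (h3 : (Function.support B).ncard + 1 = n + X.picardRank)
    (h4 : X.IsMoriDreamSpace ∨ X.IsQFactorial ∧ AddGroup.FG X.Pic ∧ X.picardRank = 1) :
    IsClusterType n X B := by
  have key : X.IsMoriDreamSpace → IsClusterType n X B := by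
    intro hM
    obtain ⟨D, hD, hC⟩ := hM.cox_fg
    exact clusterType_class X B n h1 h2
      ⟨hD, ProjVar.indep_of_generates hM.qfactorial hM.pic_fg hD⟩ h3 (Or.inl hC)
  rcases h4 with hM | ⟨hQ, hfg, h⟩
  · exact key hM
  · rcases n with _ | m
    · have h5 := picardRank_eq_zero X (isEmpty_primeDiv X h1.1)
      omega
    · exact key (X.isMoriDreamSpace_of_rank_one h1.2.1 h1.1 hQ hfg h)

end Pool.Agent.Helper94.LCY
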