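import Pool.Agent.Helper94.LCY.Loc

/-!
# More on orders along discrete valuation rings
-/

noncomputable section

namespace Pool.Agent.Helper94.LCY

variable {K : Type} [Field K] {v : ValuationSubring K}

theorem not_hasOrd_zero {k : ℤ} : ¬ HasOrd v (0 : K) k := by
  rintro ⟨t, ht, h⟩
  rw [map_zero] at h
  exact (zpow_ne_zero k ((v.valuation.ne_zero_iff).2 (irr_ne_zero ht))) h.symm

theorem ord_zero : ord v (0 : K) = 0 := by
  rw [ord, dif_neg]
  rintro ⟨k, hk⟩
  exact not_hasOrd_zero hk

section

variable [IsDiscreteValuationRing v]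

theorem ord_irr {t : v} (ht : Irreducible t) : ord v (t : K) = 1 :=
  ord_eq_of_val ht (by rw [zpow_one])

theorem ord_neg (f : K) : ord v (-f) = ord v f := by
  by_cases hf : f = 0
  · rw [hf, neg_zero]
  · obtain ⟨t, ht⟩ := exists_irr v
    rw [ord_eq_iff ht (neg_ne_zero.2 hf), Valuation.map_neg]
    exact val_eq_zpow_ord ht hf

/-- `g` is zero or has order at least `k`. -/
def vge (v : ValuationSubring K) (k : ℤ) (g : K) : Prop := g = 0 ∨ k ≤ ord v g

theorem vge_iff_mem {t : v} (ht : Irreducible t) {k : ℤ} {g : K} :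
    vge v k g ↔ g * (t : K) ^ (-k) ∈ v := by
  have ht0 := irr_ne_zero ht
  by_cases hg : g = 0
  · rw [hg, zero_mul]
    exact ⟨fun _ => v.zero_mem, fun _ => Or.inl rfl⟩
  · rw [← ord_nonneg_iff (mul_ne_zero hg (zpow_ne_zero _ ht0)), ord_mul hg (zpow_ne_zero _ ht0),
      ord_zpow ht0, ord_irr ht]
    unfold vge
    constructor
    · rintro (h | h)
      · exact absurd h hg
      · omega
    · intro h
      right
      omega

theorem vge_zero_iff {g : K} : vge v 0 g ↔ g ∈ v := by
  obtain ⟨t, ht⟩ := exists_irr v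
  rw [vge_iff_mem ht, neg_zero, zpow_zero, mul_one]

theorem vge.mem {g : K} (h : vge v 0 g) : g ∈ v := vge_zero_iff.1 h

theorem vge.add {k : ℤ} {f g : K} (hf : vge v k f) (hg : vge v k g) : vge v k (f + g) := by
  obtain ⟨t, ht⟩ := exists_irr v
  rw [vge_iff_mem ht] at *
  rw [add_mul]
  exact v.add_mem _ _ hf hg

theorem vge.neg {k : ℤ} {f : K} (hf : vge v k f) : vge v k (-f) := by
  rcases hf with rfl | h
  · left; rw [neg_zero]
  · right; rwa [ord_neg]

theorem vge.sub {k : ℤ} {f g : K} (hf : vge v k f) (hg : vge v k g) : vge v k (f - g) := by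
  rw [sub_eq_add_neg]
  exact hf.add hg.neg

omit [IsDiscreteValuationRing v] in
theorem vge.zero {k : ℤ} : vge v k (0 : K) := Or.inl rfl

theorem vge.mul {k l : ℤ} {f g : K} (hf : vge v k f) (hg : vge v l g) :
    vge v (k + l) (f * g) := by
  by_cases hf0 : f = 0
  · rw [hf0, zero_mul]; exact vge.zero
  by_cases hg0 : g = 0
  · rw [hg0, mul_zero]; exact vge.zero
  right
  rw [ord_mul hf0 hg0]
  have h1 := hf.resolve_left hf0
  have h2 := hg.resolve_left hg0
  omega

omit [IsDiscreteValuationRing v] in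
theorem vge.mono {k l : ℤ} {f : K} (hf : vge v k f) (h : l ≤ k) : vge v l f := by
  rcases hf with rfl | h'
  · exact vge.zero
  · exact Or.inr (h.trans h')

theorem vge.sum {ι : Type*} {s : Finset ι} {k : ℤ} {f : ι → K} (h : ∀ i ∈ s, vge v k (f i)) :
    vge v k (∑ i ∈ s, f i) := by
  classical
  induction s using Finset.induction_on with
  | empty => rw [Finset.sum_empty]; exact vge.zero
  | insert a s ha ih =>
    rw [Finset.sum_insert ha]
    exact (h a (Finset.mem_insert_self _ _)).add
      (ih fun i hi => h i (Finset.mem_insert_of_mem hi))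

theorem vge.mem_mul {k : ℤ} {a f : K} (ha : a ∈ v) (hf : vge v k f) : vge v k (a * f) := by
  have := (vge_zero_iff.2 ha).mul hf
  rwa [zero_add] at this

omit [IsDiscreteValuationRing v] in
theorem vge_ord (f : K) : vge v (ord v f) f := Or.inr le_rfl

omit [IsDiscreteValuationRing v] in
theorem vge.le {k : ℤ} {f : K} (hf : vge v k f) (h0 : f ≠ 0) : k ≤ ord v f :=
  hf.resolve_left h0

/-- The sum of elements of different orders. -/
theorem ord_add_of_lt {f g : K} (hf : f ≠ 0) (h : vge v (ord v f + 1) g) :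
    f + g ≠ 0 ∧ ord v (f + g) = ord v f := by
  have h1 : f + g ≠ 0 := by
    intro h0
    have h2 : g = -f := by linear_combination h0
    rw [h2] at h
    have := h.le (neg_ne_zero.2 hf)
    rw [ord_neg] at this
    omega
  refine ⟨h1, le_antisymm ?_ ?_⟩
  · by_contra hlt
    rw [not_le] at hlt
    have h3 : vge v (ord v f + 1) (f + g) := Or.inr (by omega)
    have h4 := h3.sub h
    rw [add_sub_cancel_right] at h4
    have := h4.le hf
    omega
  · have h3 : vge v (ord v f) (f + g) := (vge_ord f).add (h.mono (by omega))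
    exact h3.le h1

theorem ord_prod {ι : Type*} {s : Finset ι} {f : ι → K} (h : ∀ i ∈ s, f i ≠ 0) :
    ord v (∏ i ∈ s, f i) = ∑ i ∈ s, ord v (f i) := by
  classical
  induction s using Finset.induction_on with
  | empty => rw [Finset.prod_empty, Finset.sum_empty, ord_one]
  | insert a s ha ih =>
    rw [Finset.prod_insert ha, Finset.sum_insert ha, ord_mul (h a (Finset.mem_insert_self _ _))
      (Finset.prod_ne_zero_iff.2 fun i hi => h i (Finset.mem_insert_of_mem hi)),
      ih fun i hi => h i (Finset.mem_insert_of_mem hi)]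

/-- An element with nonzero order is not a unit: membership of the inverse. -/
theorem inv_mem_of_ord_zero {f : K} (hf : f ≠ 0) (h : ord v f = 0) : f⁻¹ ∈ v := by
  rw [← ord_nonneg_iff (inv_ne_zero hf), ord_inv hf, h, neg_zero]

theorem mem_of_ord_zero {f : K} (hf : f ≠ 0) (h : ord v f = 0) : f ∈ v := by
  rw [← ord_nonneg_iff hf, h]

theorem ord_eq_zero_of_mem {f : K} (hf : f ∈ v) (hf' : f⁻¹ ∈ v) : ord v f = 0 := by
  by_cases h0 : f = 0
  · rw [h0, ord_zero]
  · have h1 := (ord_nonneg_iff h0).2 hf
    have h2 := (ord_nonneg_iff (inv_ne_zero h0)).2 hf'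
    rw [ord_inv h0] at h2
    omega

/-- The set of elements of order at least `k` determines `v`. -/
theorem dvr_ext {v' : ValuationSubring K} [IsDiscreteValuationRing v']
    (h : ∀ f : K, f ∈ v → f ∈ v') : v = v' := dvr_eq_of_le h

end

section C

variable [Algebra ℂ K] [IsDiscreteValuationRing v]

/-- A discrete valuation ring containing the constants. -/
theorem ord_algebraMap (hC : ∀ z : ℂ, algebraMap ℂ K z ∈ v) (z : ℂ) :
    ord v (algebraMap ℂ K z) = 0 := by
  apply ord_eq_zero_of_mem (hC z)
  rw [← map_inv₀]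
  exact hC _

/-- The constants are in every discrete valuation ring of a field over `ℂ`: an element of `ℂ`
has `n`-th roots for all `n`. -/
theorem C_mem (v : ValuationSubring K) [IsDiscreteValuationRing v] (z : ℂ) :
    algebraMap ℂ K z ∈ v := by
  by_cases hz : z = 0
  · rw [hz, map_zero]; exact v.zero_mem
  have hz' : algebraMap ℂ K z ≠ 0 := by
    rw [Ne, map_eq_zero]
    exact hz
  -- the order of `z` is divisible by all `n`
  have key : ∀ n : ℕ, 0 < n → (n : ℤ) ∣ ord v (algebraMap ℂ K z) := by
    intro n hn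
    obtain ⟨w, hw⟩ := IsAlgClosed.exists_pow_nat_eq z hn
    have hw0 : algebraMap ℂ K w ≠ 0 := by
      rw [Ne, map_eq_zero]
      rintro rfl
      rw [zero_pow (by omega)] at hw
      exact hz hw.symm
    refine ⟨ord v (algebraMap ℂ K w), ?_⟩
    rw [← ord_pow hw0, ← map_pow, hw]
  have h0 : ord v (algebraMap ℂ K z) = 0 := by
    by_contra hne
    have h1 := key ((ord v (algebraMap ℂ K z)).natAbs + 1) (by omega)
    have h2 := Int.le_of_dvd (a := (((ord v (algebraMap ℂ K z)).natAbs + 1 : ℕ) : ℤ))
      (b := |ord v (algebraMap ℂ K z)|) (abs_pos.2 hne) ((dvd_abs _ _).2 h1)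
    rw [Int.abs_eq_natAbs] at h2
    push_cast at h2
    omega
  exact mem_of_ord_zero hz' h0

theorem ord_C (v : ValuationSubring K) [IsDiscreteValuationRing v] (z : ℂ) :
    ord v (algebraMap ℂ K z) = 0 := ord_algebraMap (C_mem v) z

theorem vge.smulC {k : ℤ} {f : K} (z : ℂ) (hf : vge v k f) : vge v k (z • f) := by
  rw [Algebra.smul_def]
  exact vge.mem_mul (C_mem v z) hf

end C

end Pool.Agent.Helper94.LCY
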