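import Pool.Agent.Helper94.LCY.FormsOrd
import Pool.Agent.Helper94.MDS.OrdMore

/-!
# The differentials of a divisorial valuation ring
-/

noncomputable section

open KaehlerDifferential Polynomial

namespace Pool.Agent.Helper94.LCY

variable {K : Type} [Field K] [Algebra ℂ K]

/-- The elements `y i` of `v` have algebraically independent residues. -/
def ResIndep {ι : Type} (v : ValuationSubring K) (y : ι → K) : Prop :=
  ∀ p : MvPolynomial ι ℂ, p ≠ 0 → v.valuation (MvPolynomial.aeval y p) = 1

theorem ResIndep.val_eq_one {ι : Type} {v : ValuationSubring K} {y : ι → K} (h : ResIndep v y)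
    (i : ι) : v.valuation (y i) = 1 := by
  have := h (MvPolynomial.X i) (MvPolynomial.X_ne_zero i)
  rwa [MvPolynomial.aeval_X] at this

theorem ResIndep.mem {ι : Type} {v : ValuationSubring K} {y : ι → K} (h : ResIndep v y)
    (i : ι) : y i ∈ v := (v.valuation_le_one_iff _).1 (h.val_eq_one i).le

theorem ResIndep.ne_zero {ι : Type} {v : ValuationSubring K} {y : ι → K} (h : ResIndep v y)
    (i : ι) : y i ≠ 0 := by
  intro h0
  have := h.val_eq_one i
  rw [h0, map_zero] at this
  exact zero_ne_one this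

theorem ResIndep.C_mem {ι : Type} {v : ValuationSubring K} {y : ι → K} (h : ResIndep v y)
    (z : ℂ) : algebraMap ℂ K z ∈ v := by
  by_cases hz : z = 0
  · rw [hz, map_zero]; exact v.zero_mem
  · have := h (MvPolynomial.C z) (by simpa using hz)
    rw [MvPolynomial.aeval_C] at this
    exact (v.valuation_le_one_iff _).1 this.le

theorem ResIndep.comp {ι κ : Type} {v : ValuationSubring K} {y : ι → K} (h : ResIndep v y)
    (f : κ → ι) (hf : Function.Injective f) : ResIndep v (y ∘ f) := by
  intro p hp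
  have h1 := h (MvPolynomial.rename f p) (by
    intro h0
    exact hp ((map_eq_zero_iff _ (MvPolynomial.rename_injective f hf)).1 h0))
  rwa [MvPolynomial.aeval_rename] at h1

theorem aeval_mem {ι : Type} {v : ValuationSubring K} {y : ι → K}
    (hC : ∀ z : ℂ, algebraMap ℂ K z ∈ v) (hy : ∀ i, y i ∈ v) (p : MvPolynomial ι ℂ) :
    MvPolynomial.aeval y p ∈ v := by
  induction p using MvPolynomial.induction_on with
  | C a => rw [MvPolynomial.aeval_C]; exact hC a
  | add p q hp hq => rw [map_add]; exact v.add_mem _ _ hp hq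
  | mul_X p i hp => rw [map_mul, MvPolynomial.aeval_X]; exact v.mul_mem _ _ hp (hy i)

/-- Evaluation of a polynomial whose coefficients are polynomials in the `y i`. -/
def ev2 {ι : Type} (y : ι → K) (x : K) : (MvPolynomial ι ℂ)[X] →+* K :=
  Polynomial.eval₂RingHom (MvPolynomial.aeval y : MvPolynomial ι ℂ →ₐ[ℂ] K).toRingHom x

theorem ev2_C {ι : Type} (y : ι → K) (x : K) (c : MvPolynomial ι ℂ) :
    ev2 y x (C c) = MvPolynomial.aeval y c := by
  simp [ev2]

theorem ev2_X {ι : Type} (y : ι → K) (x : K) :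
    ev2 y x (X : (MvPolynomial ι ℂ)[X]) = x := by
  simp [ev2]

theorem ev2_monomial {ι : Type} (y : ι → K) (x : K) (n : ℕ) (c : MvPolynomial ι ℂ) :
    ev2 y x (monomial n c) = MvPolynomial.aeval y c * x ^ n := by
  rw [← C_mul_X_pow_eq_monomial, map_mul, map_pow, ev2_C, ev2_X]

theorem ev2_mem {ι : Type} {v : ValuationSubring K} {y : ι → K} {x : K}
    (hC : ∀ z : ℂ, algebraMap ℂ K z ∈ v) (hy : ∀ i, y i ∈ v) (hx : x ∈ v)
    (p : (MvPolynomial ι ℂ)[X]) : ev2 y x p ∈ v := by
  induction p using Polynomial.induction_on' with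
  | add p q hp hq => rw [map_add]; exact v.add_mem _ _ hp hq
  | monomial n c =>
    rw [ev2_monomial]
    exact v.mul_mem _ _ (aeval_mem hC hy c) (v.pow_mem hx n)

/-- A polynomial relation of minimal degree on the residue of `x`. -/
theorem exists_minp {ι : Type} {v : ValuationSubring K} {y : ι → K} (hy : ResIndep v y) {x : K}
    (hx : x ∈ v) (h : ∃ p : (MvPolynomial ι ℂ)[X], p ≠ 0 ∧ v.valuation (ev2 y x p) < 1) :
    ∃ p : (MvPolynomial ι ℂ)[X], v.valuation (ev2 y x p) < 1 ∧
      v.valuation (ev2 y x (derivative p)) = 1 := by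
  classical
  let P : ℕ → Prop := fun n => ∃ p : (MvPolynomial ι ℂ)[X], p ≠ 0 ∧
    v.valuation (ev2 y x p) < 1 ∧ p.natDegree = n
  have hP : ∃ n, P n := by
    obtain ⟨p, hp, h1⟩ := h
    exact ⟨_, p, hp, h1, rfl⟩
  obtain ⟨p, hp, h1, h2⟩ := Nat.find_spec hP
  refine ⟨p, h1, ?_⟩
  have hdeg : p.natDegree ≠ 0 := by
    intro h0
    obtain ⟨c, rfl⟩ := natDegree_eq_zero.1 h0
    rw [ev2_C] at h1
    have hc : c ≠ 0 := by
      rintro rfl
      exact hp (map_zero _)
    rw [hy c hc] at h1
    exact lt_irrefl _ h1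
  have hd0 : derivative p ≠ 0 := by
    intro h0
    exact hdeg (derivative_eq_zero.1 h0)
  have hlt : (derivative p).natDegree < Nat.find hP := by
    rw [← h2]
    exact natDegree_derivative_lt hdeg
  have h3 := Nat.find_min hP hlt
  have h4 : ev2 y x (derivative p) ∈ v := ev2_mem hy.C_mem hy.mem hx _
  refine le_antisymm ((v.valuation_le_one_iff _).2 h4) (not_lt.1 fun h5 => h3 ?_)
  exact ⟨_, hd0, h5, rfl⟩

/-- The chain rule, modulo the derivatives of the coefficients. -/
theorem chain_rule {ι : Type} {v : ValuationSubring K} {y : ι → K} {x : K} (hx : x ∈ v)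
    (δ : Derivation ℂ K K) (S : AddSubgroup K) (hS : ∀ a ∈ v, ∀ s ∈ S, a * s ∈ S)
    (h : ∀ c : MvPolynomial ι ℂ, δ (MvPolynomial.aeval y c) ∈ S) (p : (MvPolynomial ι ℂ)[X]) :
    δ (ev2 y x p) - ev2 y x (derivative p) * δ x ∈ S := by
  induction p using Polynomial.induction_on' with
  | add p q hp hq =>
    have : δ (ev2 y x (p + q)) - ev2 y x (derivative (p + q)) * δ x =
        (δ (ev2 y x p) - ev2 y x (derivative p) * δ x) +
        (δ (ev2 y x q) - ev2 y x (derivative q) * δ x) := by
      rw [map_add, map_add, map_add, map_add]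
      ring
    rw [this]
    exact S.add_mem hp hq
  | monomial n c =>
    rw [derivative_monomial, ev2_monomial, ev2_monomial, Derivation.leibniz,
      Derivation.leibniz_pow, map_mul, map_natCast]
    have : MvPolynomial.aeval y c • (n • x ^ (n - 1) • δ x) + x ^ n • δ (MvPolynomial.aeval y c)
        - MvPolynomial.aeval y c * (n : K) * x ^ (n - 1) * δ x =
        x ^ n * δ (MvPolynomial.aeval y c) := by
      simp only [smul_eq_mul, nsmul_eq_mul]
      ring
    rw [this]
    exact hS _ (v.pow_mem hx n) _ (h c)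

/-- Derivatives of polynomials. -/
theorem deriv_aeval_mem {ι : Type} {v : ValuationSubring K} {y : ι → K}
    (hC : ∀ z : ℂ, algebraMap ℂ K z ∈ v) (hy : ∀ i, y i ∈ v)
    (δ : Derivation ℂ K K) (S : AddSubgroup K) (hS : ∀ a ∈ v, ∀ s ∈ S, a * s ∈ S)
    (h : ∀ i, δ (y i) ∈ S) (c : MvPolynomial ι ℂ) : δ (MvPolynomial.aeval y c) ∈ S := by
  induction c using MvPolynomial.induction_on with
  | C a =>
    rw [MvPolynomial.aeval_C, Derivation.map_algebraMap]
    exact S.zero_mem
  | add p q hp hq => rw [map_add, map_add]; exact S.add_mem hp hq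
  | mul_X p i hp =>
    rw [map_mul, MvPolynomial.aeval_X, Derivation.leibniz]
    exact S.add_mem (hS _ (aeval_mem hC hy p) _ (h i)) (hS _ (hy i) _ hp)

theorem ResIndep.algebraicIndependent {ι : Type} {v : ValuationSubring K} {y : ι → K}
    (h : ResIndep v y) : AlgebraicIndependent ℂ y := by
  rw [algebraicIndependent_iff]
  intro p hp
  by_contra hp0
  have := h p hp0
  rw [hp, map_zero] at this
  exact zero_ne_one this

theorem ResIndep.cons {k : ℕ} {v : ValuationSubring K} {y : Fin k → K} (h : ResIndep v y) {t : v}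
    (ht : Irreducible t) : AlgebraicIndependent ℂ (Fin.cons (t : K) y : Fin (k + 1) → K) := by
  have h0 := h.algebraicIndependent
  have hS : ∀ s ∈ Algebra.adjoin ℂ (Set.range y), s ≠ 0 → v.valuation s = 1 := by
    intro s hs hs0
    rw [Algebra.adjoin_range_eq_range_aeval] at hs
    obtain ⟨p, rfl⟩ := hs
    exact h p (by rintro rfl; exact hs0 (map_zero _))
  have ht' := transcendental_of_unit hS ht
  have h1 : AlgebraicIndependent ℂ (fun o : Option (Fin k) => o.elim (t : K) y) :=
    AlgebraicIndependent.option_iff.2 ⟨h0, ht'⟩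
  have h2 := h1.comp (finSuccEquiv k) (finSuccEquiv k).injective
  convert h2 using 1
  funext i
  refine Fin.cases ?_ (fun i => ?_) i
  · simp
  · simp

theorem card_le_of_indep {k n : ℕ} (htr : Algebra.trdeg ℂ K = n) {y : Fin k → K}
    (h : AlgebraicIndependent ℂ y) : k ≤ n := by
  have := h.cardinalMk_le_trdeg
  rw [htr] at this
  simpa using this

/-- Every residue is algebraic over the field generated by the residues of the `y i`. -/
theorem exists_rel {m : ℕ} (htr : Algebra.trdeg ℂ K = (m + 1 : ℕ)) {v : ValuationSubring K}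
    [IsDiscreteValuationRing v] {y : Fin m → K} (hy : ResIndep v y) {x : K} (hx : x ∈ v) :
    ∃ p : (MvPolynomial (Fin m) ℂ)[X], p ≠ 0 ∧ v.valuation (ev2 y x p) < 1 := by
  by_contra hcon
  push Not at hcon
  obtain ⟨t, ht⟩ := exists_irr v
  have h1 : ResIndep v (Fin.cons x y : Fin (m + 1) → K) := by
    intro p hp
    have h2 : MvPolynomial.aeval (Fin.cons x y : Fin (m + 1) → K) p =
        ev2 y x (MvPolynomial.finSuccEquiv ℂ m p) := by
      have : (MvPolynomial.aeval (Fin.cons x y : Fin (m + 1) → K)).toRingHom =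
          (ev2 y x).comp (MvPolynomial.finSuccEquiv ℂ m).toRingEquiv.toRingHom := by
        apply MvPolynomial.ringHom_ext
        · intro r
          simp [MvPolynomial.finSuccEquiv_apply, ev2_C]
        · intro i
          refine Fin.cases ?_ (fun i => ?_) i
          · simp [MvPolynomial.finSuccEquiv_X_zero, ev2_X]
          · simp [MvPolynomial.finSuccEquiv_X_succ, ev2_C]
      exact RingHom.congr_fun this p
    rw [h2]
    have h3 : MvPolynomial.finSuccEquiv ℂ m p ≠ 0 := by
      intro h0
      exact hp ((map_eq_zero_iff _ (MvPolynomial.finSuccEquiv ℂ m).injective).1 h0)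
    have h4 : ev2 y x (MvPolynomial.finSuccEquiv ℂ m p) ∈ v := ev2_mem hy.C_mem hy.mem hx _
    exact le_antisymm ((v.valuation_le_one_iff _).2 h4) (hcon _ h3)
  have h2 := card_le_of_indep htr (h1.cons ht)
  omega

/-- Along a divisorial valuation ring, the differentials of a uniformizer and of elements whose
residues are a transcendence basis are a basis of the regular differentials. -/
theorem exists_frame {m : ℕ} (hfg : (⊤ : IntermediateField ℂ K).FG)
    (htr : Algebra.trdeg ℂ K = (m + 1 : ℕ)) {v : ValuationSubring K} [IsDiscreteValuationRing v]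
    {y : Fin m → K} (hy : ResIndep v y) {t : v} (ht : Irreducible t) :
    ∃ b : Module.Basis (Fin (m + 1)) K (Ω[K⁄ℂ]), b 0 = D ℂ K (t : K) ∧
      (∀ i : Fin m, b i.succ = D ℂ K (y i)) ∧ ∀ x ∈ v, ∀ j, b.repr (D ℂ K x) j ∈ v := by
  obtain ⟨b, w, hw, hwv, hbw, c, hc⟩ := exists_bound hfg htr hy ht
  have hb0 : b 0 = D ℂ K (t : K) := by rw [hbw, hw]; rfl
  have hbs : ∀ i : Fin m, b i.succ = D ℂ K (y i) := by
    intro i
    rw [hbw, hw]
    rfl
  refine ⟨b, hb0, hbs, ?_⟩
  have ht0 := irr_ne_zero ht
  let S : AddSubgroup K := v.toSubring.toAddSubgroup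
  have hmemS : ∀ x : K, x ∈ S ↔ x ∈ v := fun _ => Iff.rfl
  have hS : ∀ a ∈ v, ∀ s ∈ S, a * s ∈ S := fun a ha s hs => v.mul_mem _ _ ha hs
  let δ : Fin (m + 1) → Derivation ℂ K K := fun j => (b.coord j).compDer (D ℂ K)
  have hδ : ∀ j x, δ j x = b.repr (D ℂ K x) j := fun _ _ => rfl
  have hδb : ∀ i j, b.repr (b i) j ∈ v := by
    intro i j
    rw [Module.Basis.repr_self, Finsupp.single_apply]
    split_ifs
    · exact v.one_mem
    · exact v.zero_mem
  have hδt : ∀ j, δ j (t : K) ∈ v := by
    intro j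
    rw [hδ, ← hb0]
    exact hδb _ _
  have hδy : ∀ i j, δ j (y i) ∈ v := by
    intro i j
    rw [hδ, ← hbs]
    exact hδb _ _
  induction c with
  | zero =>
    intro x hx j
    have := hc x hx j
    rwa [pow_zero, one_mul] at this
  | succ c ih =>
    apply ih
    intro x hx j
    obtain ⟨p, hp1, hp2⟩ := exists_minp hy hx (exists_rel htr hy hx)
    have h1 : δ j (ev2 y x p) - ev2 y x (derivative p) * δ j x ∈ S :=
      chain_rule hx (δ j) S hS
        (deriv_aeval_mem hy.C_mem hy.mem (δ j) S hS fun i => hδy i j) p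
    rw [hmemS] at h1
    -- `ev2 y x p = t * z`
    have h2 : ev2 y x p / (t : K) ∈ v := by
      by_cases h0 : ev2 y x p = 0
      · rw [h0, zero_div]; exact v.zero_mem
      · rw [← ord_nonneg_iff (div_ne_zero h0 ht0), ord_div h0 ht0, ord_irr ht]
        have := (ord_pos_iff h0).2 hp1
        omega
    set z := ev2 y x p / (t : K) with hz
    have h3 : ev2 y x p = (t : K) * z := by rw [hz]; field_simp
    have h4 : δ j (ev2 y x p) = (t : K) * δ j z + z * δ j (t : K) := by
      rw [h3, Derivation.leibniz]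
      simp only [smul_eq_mul]
    have h5 : (t : K) ^ (c + 1) * δ j z ∈ v := hc z h2 j
    have h6 : (t : K) ^ c * (ev2 y x (derivative p) * δ j x) ∈ v := by
      have : (t : K) ^ c * (ev2 y x (derivative p) * δ j x) =
          (t : K) ^ (c + 1) * δ j z + (t : K) ^ c * (z * δ j (t : K)) -
          (t : K) ^ c * (δ j (ev2 y x p) - ev2 y x (derivative p) * δ j x) := by
        rw [h4]
        ring
      rw [this]
      refine v.sub_mem (v.add_mem _ _ h5 ?_) ?_
      · exact v.mul_mem _ _ (v.pow_mem t.2 c) (v.mul_mem _ _ h2 (hδt j))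
      · exact v.mul_mem _ _ (v.pow_mem t.2 c) h1
    have h7 : (ev2 y x (derivative p))⁻¹ ∈ v := by
      rw [← v.valuation_le_one_iff, map_inv₀, hp2, inv_one]
    have h8 : ev2 y x (derivative p) ≠ 0 := by
      intro h0
      rw [h0, map_zero] at hp2
      exact zero_ne_one hp2
    have h9 := v.mul_mem _ _ h7 h6
    have h10 : (ev2 y x (derivative p))⁻¹ * ((t : K) ^ c * (ev2 y x (derivative p) * δ j x)) =
        (t : K) ^ c * b.repr (D ℂ K x) j := by
      rw [← hδ]
      field_simp
    rwa [h10] at h9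

end Pool.Agent.Helper94.LCY
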